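import Pool.Agent.H83.R.Card

/-!
# Automorphisms: the action

All proofs are by cases or by the recursor of `Cd` (`induction q with | nil | mk ...`), using that
`fl` is an involution (`symmDiff` with a fixed set twice).

Status: complete (helper26).
-/

set_option autoImplicit false

open Cardinal

namespace Pool.Agent.H83.R

open Classical in
/-- Flip the `i`-th generic clopen set outside of `D`, except for its values at members of `s`. -/
noncomputable def fl (i : J) (s : Set (Set ℕ)) (D : Set ℕ) (x : J × Set ℕ × Set ℕ) :
    J × Set ℕ × Set ℕ :=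
  if x.1 = i ∧ x.2.1 ∉ s then (x.1, x.2.1, symmDiff x.2.2 (x.2.1 \ D)) else x

theorem fl_fl (i : J) (s : Set (Set ℕ)) (D : Set ℕ) (x : J × Set ℕ × Set ℕ) :
    fl i s D (fl i s D x) = x := by
  obtain ⟨j, A, B⟩ := x
  by_cases h : j = i ∧ A ∉ s
  · have h1 : fl i s D (j, A, B) = (j, A, symmDiff B (A \ D)) := by
      unfold fl
      rw [if_pos h]
    rw [h1]
    unfold fl
    rw [if_pos h]
    simp only
    rw [symmDiff_symmDiff_cancel_right]
  · have h1 : fl i s D (j, A, B) = (j, A, B) := by
      unfold fl
      rw [if_neg h]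
    rw [h1, h1]

namespace Cd

/-- The action on pre-conditions. -/
noncomputable def act (i : J) (s : Set (Set ℕ)) (D : Set ℕ) : Cd → Cd
  | nil => nil
  | mk a h t n nA nB nc => mk a (fun m => (h m).map (fl i s D)) t n nA nB
      (fun m k => act i s D (nc m k))

/-- The action on names. -/
noncomputable def actN (i : J) (s : Set (Set ℕ)) (D : Set ℕ) (S : Nm) : Nm :=
  fun k => ((S k).1, (S k).2.1, act i s D (S k).2.2)

variable (i : J) (s : Set (Set ℕ)) (D : Set ℕ)

theorem act_act (q : Cd) : act i s D (act i s D q) = q := by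
  induction q with
  | nil => rfl
  | mk a h t n nA nB nc ih =>
    have h1 : (fun m => ((h m).map (fl i s D)).map (fl i s D)) = h := by
      funext m
      rw [Option.map_map]
      have h2 : (fl i s D ∘ fl i s D) = id := by
        funext x
        exact fl_fl i s D x
      rw [h2, Option.map_id]
      rfl
    have h3 : (fun m k => act i s D (act i s D (nc m k))) = nc := by
      funext m k
      exact ih m k
    simp only [act]
    rw [h1, h3]

theorem actN_actN (S : Nm) : actN i s D (actN i s D S) = S := by
  funext k
  simp only [actN, act_act]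

theorem actN_eq_iff {S S' : Nm} : S = actN i s D S' ↔ actN i s D S = S' := by
  constructor
  · rintro rfl
    exact actN_actN i s D S'
  · rintro rfl
    exact (actN_actN i s D S).symm

theorem act_a (q : Cd) : (act i s D q).a = q.a := by
  cases q <;> rfl

theorem act_H (q : Cd) : (act i s D q).H = fl i s D '' q.H := by
  cases q with
  | nil => simp [act, H]
  | mk a h t n nA nB nc =>
    ext x
    constructor
    · rintro ⟨m, hm⟩
      obtain ⟨y, hy, hyx⟩ := Option.map_eq_some_iff.1 hm
      exact ⟨y, ⟨m, hy⟩, hyx⟩
    · rintro ⟨y, ⟨m, hy⟩, hyx⟩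
      exact ⟨m, Option.map_eq_some_iff.2 ⟨y, hy, hyx⟩⟩

theorem act_T (q : Cd) : (act i s D q).T = q.T := by
  cases q <;> rfl

/-- Proof. `actN` is an involution by `act_act`. -/
theorem mem_act_N {q : Cd} {β : Lam} {S : Nm} :
    (β, S) ∈ (act i s D q).N ↔ (β, actN i s D S) ∈ q.N := by
  cases q with
  | nil => simp [act, N]
  | mk a h t n nA nB nc =>
    have key : ∀ m, (S = fun k => (nA m k, nB m k, act i s D (nc m k))) ↔
        actN i s D S = fun k => (nA m k, nB m k, nc m k) := fun m =>
      actN_eq_iff i s D (S' := fun k => (nA m k, nB m k, nc m k))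
    constructor
    · rintro ⟨m, h1, h2⟩
      exact ⟨m, h1, (key m).1 h2⟩
    · rintro ⟨m, h1, h2⟩
      exact ⟨m, h1, (key m).2 h2⟩

theorem act_le_of {p q : Cd} (h : p ≤ q) : act i s D p ≤ act i s D q := by
  refine ⟨by rw [act_a, act_a]; exact h.1, by rw [act_H, act_H]; exact Set.image_mono h.2.1,
    by rw [act_T, act_T]; exact h.2.2.1, ?_⟩
  rintro ⟨β, S⟩ hS
  rw [mem_act_N] at hS ⊢
  exact h.2.2.2 hS

/-- Proof. One direction by `act_H`, `mem_act_N`; the other by `act_act`. -/
theorem act_le (p q : Cd) : act i s D p ≤ act i s D q ↔ p ≤ q := by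
  constructor
  · intro h
    have h1 := act_le_of i s D h
    rwa [act_act, act_act] at h1
  · exact act_le_of i s D

/-- Conditions that do not mention the coordinate are fixed. -/
theorem act_eq {q : Cd} (h : i ∉ q.hs) : act i s D q = q := by
  induction q with
  | nil => rfl
  | mk a g t n nA nB nc ih =>
    have h0 : ∀ m A B, g m ≠ some (i, A, B) := by
      intro m A B hm
      exact h (Or.inl ⟨m, A, B, hm⟩)
    have h1 : (fun m => (g m).map (fl i s D)) = g := by
      funext m
      rcases hm : g m with _ | ⟨j, A, B⟩
      · rfl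
      · have hj : j ≠ i := by
          rintro rfl
          exact h0 m A B hm
        rw [Option.map_some]
        unfold fl
        rw [if_neg (fun hh => hj hh.1)]
    have h2 : (fun m k => act i s D (nc m k)) = nc := by
      funext m k
      apply ih m k
      intro hi
      exact h (Or.inr (Set.mem_iUnion.2 ⟨m, Set.mem_iUnion.2 ⟨k, hi⟩⟩))
    simp only [act]
    rw [h1, h2]

end Cd

end Pool.Agent.H83.R
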