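import Pool.Agent.H83.R.Act

/-!
# Automorphisms: the action preserves conditions
-/

set_option autoImplicit false

open Cardinal

namespace Pool.Agent.H83.R

namespace Cd

variable (i : J) (s : Set (Set ℕ)) (D : Set ℕ)

theorem act_res (β : Lam) (q : Cd) : act i s D (q.res β) = (act i s D q).res β := by
  cases q <;> rfl

open Classical in
/-- The action on the last component of an entry. -/
noncomputable def actB_fl (j : J) (A B : Set ℕ) : Set ℕ :=
  if j = i ∧ A ∉ s then symmDiff B (A \ D) else B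

theorem actB_fl_eq (j : J) (A B : Set ℕ) : fl i s D (j, A, B) = (j, A, actB_fl i s D j A B) := by
  unfold fl actB_fl
  by_cases h : j = i ∧ A ∉ s
  · rw [if_pos h, if_pos h]
  · rw [if_neg h, if_neg h]

theorem actB_mem_H {q : Cd} {j : J} {A B : Set ℕ} (h : (j, A, B) ∈ (act i s D q).H) :
    ∃ B₀, (j, A, B₀) ∈ q.H ∧ B = actB_fl i s D j A B₀ := by
  rw [act_H] at h
  obtain ⟨⟨j', A', B'⟩, h1, h2⟩ := h
  rw [actB_fl_eq] at h2
  obtain ⟨rfl, h3⟩ := Prod.mk.inj h2
  obtain ⟨rfl, rfl⟩ := Prod.mk.inj h3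
  exact ⟨B', h1, rfl⟩

theorem actB_fl_sub (j : J) {A B : Set ℕ} (h : B ⊆ A) : actB_fl i s D j A B ⊆ A := by
  unfold actB_fl
  split_ifs with h1
  · rintro x (⟨hx, -⟩ | ⟨hx, -⟩)
    · exact h hx
    · exact hx.1
  · exact h

/-- Half of the coherence. -/
theorem actB_coh1 (hD : ∀ A ∈ s, (A \ D).Finite) (j : J) {A B A' B' : Set ℕ} (hB : B ⊆ A)
    (hB' : B' ⊆ A') (h : coh A B A' B') :
    ((actB_fl i s D j A B ∩ A') \ actB_fl i s D j A' B').Finite := by
  unfold actB_fl
  by_cases hj : j = i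
  · by_cases hA : A ∈ s
    · by_cases hA' : A' ∈ s
      · rw [if_neg (fun h => h.2 hA), if_neg (fun h => h.2 hA')]
        exact h.1
      · rw [if_neg (fun h => h.2 hA), if_pos ⟨hj, hA'⟩]
        refine (h.1.union (hD A hA)).subset ?_
        rintro x ⟨⟨hx1, hx2⟩, hx3⟩
        by_cases hxD : x ∈ D
        · left
          refine ⟨⟨hx1, hx2⟩, fun hx4 => hx3 (Or.inl ⟨hx4, fun h5 => h5.2 hxD⟩)⟩
        · exact Or.inr ⟨hB hx1, hxD⟩
    · by_cases hA' : A' ∈ s
      · rw [if_pos ⟨hj, hA⟩, if_neg (fun h => h.2 hA')]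
        refine (h.1.union (hD A' hA')).subset ?_
        rintro x ⟨⟨hx1, hx2⟩, hx3⟩
        by_cases hxD : x ∈ D
        · left
          rcases hx1 with hx1 | hx1
          · exact ⟨⟨hx1.1, hx2⟩, hx3⟩
          · exact absurd hxD hx1.1.2
        · exact Or.inr ⟨hx2, hxD⟩
      · rw [if_pos ⟨hj, hA⟩, if_pos ⟨hj, hA'⟩]
        refine (h.1.union h.2).subset ?_
        rintro x ⟨⟨hx1, hx2⟩, hx3⟩
        by_cases hxD : x ∈ D
        · left
          rcases hx1 with hx1 | hx1
          · exact ⟨⟨hx1.1, hx2⟩, fun hx4 => hx3 (Or.inl ⟨hx4, fun h5 => h5.2 hxD⟩)⟩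
          · exact absurd hxD hx1.1.2
        · right
          rcases hx1 with hx1 | hx1
          · exact absurd ⟨hB hx1.1, hxD⟩ hx1.2
          · refine ⟨⟨?_, hx1.1.1⟩, hx1.2⟩
            by_contra hx4
            exact hx3 (Or.inr ⟨⟨hx2, hxD⟩, hx4⟩)
  · rw [if_neg (fun h => hj h.1), if_neg (fun h => hj h.1)]
    exact h.1

/-- Proof. `act_a`, `act_T`, `act_H`. `Hdom`: `symmDiff B (A \ D) ⊆ A`. `Hfun`: `fl` does not change
`i` and `A`, and it is injective. `Hcoh` at the coordinate `i`: if `A, A' ∉ s`: on `D` nothing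
changes and on `A ∩ A' \ D` both are complemented, so the sets `(B ∩ A') \ B'` and
`(B' ∩ A) \ B` are (partly) exchanged; if `A ∈ s`, `A' ∉ s`: the difference on `A ∩ A'` to the old
situation is contained in `A \ D`, which is finite by `hD`. -/
theorem Base_act {q : Cd} (hD : ∀ A ∈ s, (A \ D).Finite) (hq : Base q) :
    Base (act i s D q) := by
  refine ⟨?_, ?_, ?_, ?_, ?_, ?_⟩
  · rw [act_a]; exact hq.inf
  · intro j A B h
    obtain ⟨B₀, h1, rfl⟩ := actB_mem_H i s D h
    obtain ⟨h2, h3⟩ := hq.Hdom _ _ _ h1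
    rw [act_a]
    exact ⟨h2, actB_fl_sub i s D j h3⟩
  · intro j A B B' h h'
    obtain ⟨B₀, h1, rfl⟩ := actB_mem_H i s D h
    obtain ⟨B₁, h2, rfl⟩ := actB_mem_H i s D h'
    rw [hq.Hfun _ _ _ _ h1 h2]
  · intro j A B A' B' h h'
    obtain ⟨B₀, h1, rfl⟩ := actB_mem_H i s D h
    obtain ⟨B₁, h2, rfl⟩ := actB_mem_H i s D h'
    have h3 := hq.Hcoh _ _ _ _ _ h1 h2
    have h4 := (hq.Hdom _ _ _ h1).2
    have h5 := (hq.Hdom _ _ _ h2).2
    exact ⟨actB_coh1 i s D hD j h4 h5 h3, actB_coh1 i s D hD j h5 h4 (coh_symm h3)⟩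
  · rw [act_T]; exact hq.Tdom
  · rw [act_T]; exact hq.Tcoh

theorem actB_le_iff (p q : Cd) : act i s D p ≤ q ↔ p ≤ act i s D q := by
  rw [← act_le i s D p (act i s D q), act_act]

theorem actB_Below {β : Lam} {r : Cd} (h : Below β r) : Below β (act i s D r) := by
  constructor
  · rw [act_T]; exact h.1
  · rintro ⟨γ, S⟩ hx
    rw [mem_act_N] at hx
    exact h.2 (γ, actN i s D S) hx

/-- The action preserves the requirements.

Proof. Induction on `β` (`WellFoundedLT.induction`): assume that for all `γ < β` and all `q`,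
`St γ q → St γ (act q)`. Then `V r ∧ Below β r ↔ V (act r) ∧ Below β (act r)`: use `V_Below_iff`,
`Base_act`, `act_T`, `mem_act_N` and `act_act`. Now use `St_iff`: let `(β, S) ∈ (act q).N`, so
`(β, actN S) ∈ q.N` and `Good W (actN S) (q.res β)` with `W r = (V r ∧ Below β r)`. Then
`Good W S ((act q).res β)`: all clauses are transported by `act` (`act_res`, `act_le`,
`act_act`); note `(actN S k).1 = (S k).1`, `(actN S k).2.1 = (S k).2.1`,
`(actN S k).2.2 = act (S k).2.2`. -/
theorem St_act {q : Cd} (hD : ∀ A ∈ s, (A \ D).Finite) (β : Lam) (hq : St β q) :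
    St β (act i s D q) := by
  have key : ∀ β : Lam, ∀ q : Cd, St β q → St β (act i s D q) := by
    intro β
    induction β using WellFoundedLT.induction with
    | ind β ih =>
      intro q hq
      have hW : ∀ r : Cd, (V r ∧ Below β r) → (V (act i s D r) ∧ Below β (act i s D r)) := by
        intro r hr
        rw [V_Below_iff] at hr ⊢
        exact ⟨Base_act i s D hD hr.1, actB_Below i s D hr.2.1, fun γ hγ => ih γ hγ r (hr.2.2 γ hγ)⟩
      rw [St_iff]
      intro S hS
      rw [mem_act_N] at hS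
      obtain ⟨hG, hP⟩ := (St_iff β q).1 hq (actN i s D S) hS
      rw [← act_res]
      refine ⟨⟨?_, ?_, ?_⟩, ?_⟩
      · intro k
        have h1 := hW _ (hG.valid k)
        have h2 : act i s D (actN i s D S k).2.2 = (S k).2.2 := act_act i s D _
        rw [h2] at h1
        exact h1
      · intro A hA r hr hrp
        obtain ⟨r', hr', hle, k, hk1, hk2⟩ := hG.total A hA (act i s D r) (hW r hr)
          ((actB_le_iff i s D _ _).2 hrp)
        exact ⟨act i s D r', hW _ hr', (actB_le_iff i s D _ _).2 hle, k, hk1,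
          (actB_le_iff i s D _ _).2 hk2⟩
      · intro k k' r hr hrp h1 h2
        exact hG.coh k k' (act i s D r) (hW r hr) ((actB_le_iff i s D _ _).2 hrp)
          ((act_le i s D _ _).2 h1) ((act_le i s D _ _).2 h2)
      · intro A B hAB
        rw [act_T] at hAB
        obtain ⟨k, hk1, hk2, hk3⟩ := hP A B hAB
        exact ⟨k, hk1, (actB_le_iff i s D _ _).2 hk2, hk3⟩
  exact key β q hq

/-- The action preserves conditions. -/
theorem V_act {q : Cd} (hD : ∀ A ∈ s, (A \ D).Finite) (hq : V q) : V (act i s D q) :=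
  ⟨Base_act i s D hD hq.1, fun β => St_act i s D hD β (hq.2 β)⟩

end Cd

end Pool.Agent.H83.R
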