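import Mathlib

/-!
# Sets of natural numbers modulo finite sets

Countable separation, pseudo-intersections, and an ultrafilter that is not a P-point.
-/

set_option autoImplicit false

namespace Pool.Agent.H83.R

/-- The `n`-th column of `ω` (identified with `ω × ω`). -/
def col (n : ℕ) : Set ℕ := {m | (Nat.unpair m).1 = n}

/-- `B` meets every column in a finite set. -/
def FC (B : Set ℕ) : Prop := ∀ n, (B ∩ col n).Finite

/-- `B ⊆ A` and `B' ⊆ A'` agree on `A ∩ A'` up to a finite set. -/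
def coh (A B A' B' : Set ℕ) : Prop := ((B ∩ A') \ B').Finite ∧ ((B' ∩ A) \ B).Finite

theorem coh_symm {A B A' B' : Set ℕ} (h : coh A B A' B') : coh A' B' A B := ⟨h.2, h.1⟩

theorem coh_self (A B : Set ℕ) : coh A B A B := by
  constructor <;> exact Set.Finite.subset Set.finite_empty (fun x hx => hx.2 hx.1.1)

/-- There is an ultrafilter that contains no column and no set with finite columns.

Proof. The sets whose complement is covered by finitely many columns and one set with finite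
columns form a filter `F` (for instance `F` is the filter with members
`{A | ∃ N, FC (Aᶜ ∩ {m | N ≤ (unpair m).1})}`, equivalently: `∀ n ≥ N, (Aᶜ ∩ col n).Finite`). It is
proper, because the columns are infinite (`m ↦ Nat.pair n m` is injective). Take
`Ultrafilter.of F`: the complements of the columns and of the sets with finite columns are in `F`. -/
theorem exists_x : ∃ U : Ultrafilter ℕ, (∀ n, col n ∉ U) ∧ ∀ B, FC B → B ∉ U := by
  let F : Filter ℕ :=
    { sets := {A | ∀ᶠ n in Filter.atTop, (Aᶜ ∩ col n).Finite}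
      univ_sets := by
        refine Filter.Eventually.of_forall fun n => ?_
        simp
      sets_of_superset := by
        intro A B hA hAB
        refine Filter.Eventually.mono hA fun n hn => hn.subset ?_
        exact Set.inter_subset_inter_left _ (Set.compl_subset_compl.2 hAB)
      inter_sets := by
        intro A B hA hB
        filter_upwards [hA, hB] with n h1 h2
        refine (h1.union h2).subset ?_
        rintro m ⟨hm1, hm2⟩
        rw [Set.compl_inter] at hm1
        rcases hm1 with h | h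
        · exact Or.inl ⟨h, hm2⟩
        · exact Or.inr ⟨h, hm2⟩ }
  have hF : ∀ A : Set ℕ, A ∈ F ↔ ∀ᶠ n in Filter.atTop, (Aᶜ ∩ col n).Finite := fun A => Iff.rfl
  have hinf : ∀ n, (col n).Infinite := by
    intro n
    have h1 : Function.Injective (fun m : ℕ => Nat.pair n m) := by
      intro a b hab
      exact (Nat.pair_eq_pair.1 hab).2
    refine (Set.infinite_range_of_injective h1).mono ?_
    rintro _ ⟨m, rfl⟩
    change (Nat.unpair (Nat.pair n m)).1 = n
    rw [Nat.unpair_pair]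
  have hne : F.NeBot := by
    rw [Filter.neBot_iff]
    intro hbot
    have h1 : (∅ : Set ℕ) ∈ F := Filter.empty_mem_iff_bot.2 hbot
    rw [hF] at h1
    obtain ⟨n, hn⟩ := h1.exists
    rw [Set.compl_empty, Set.univ_inter] at hn
    exact hinf n hn
  refine ⟨Ultrafilter.of F, fun n hn => ?_, fun B hB hBU => ?_⟩
  · have h1 : (col n)ᶜ ∈ F := by
      rw [hF]
      filter_upwards [Filter.eventually_gt_atTop n] with m hm
      refine Set.Finite.subset Set.finite_empty ?_
      rintro x ⟨hx1, hx2⟩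
      rw [compl_compl] at hx1
      have h2 : (Nat.unpair x).1 = n := hx1
      have h3 : (Nat.unpair x).1 = m := hx2
      omega
    have h2 : (col n)ᶜ ∈ Ultrafilter.of F := Ultrafilter.of_le F h1
    exact (Ultrafilter.compl_mem_iff_notMem.1 h2) hn
  · have h1 : Bᶜ ∈ F := by
      rw [hF]
      refine Filter.Eventually.of_forall fun n => ?_
      rw [compl_compl]
      exact hB n
    have h2 : Bᶜ ∈ Ultrafilter.of F := Ultrafilter.of_le F h1
    exact (Ultrafilter.compl_mem_iff_notMem.1 h2) hBU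

/-- An ultrafilter on `ω` that is not a P-point. -/
noncomputable def xU : Ultrafilter ℕ := exists_x.choose

/-- The dual ideal of `xU`. -/
def Ix (A : Set ℕ) : Prop := A ∉ xU

theorem Ix_col (n : ℕ) : Ix (col n) := exists_x.choose_spec.1 n

theorem Ix_FC {B : Set ℕ} (h : FC B) : Ix B := exists_x.choose_spec.2 B h

/-- Countable separation.

Proof. If one of the families is empty take `B = ∅` or `B = univ`. Otherwise enumerate
`𝒰 = {U n}`, `𝒟 = {D n}` and put `B = ⋃ n, U n \ ⋃ k ≤ n, D k`. Then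
`U n \ B ⊆ ⋃ k ≤ n, U n ∩ D k` and `B ∩ D k ⊆ ⋃ n < k, U n ∩ D k` are finite. -/
theorem exists_sep (𝒰 𝒟 : Set (Set ℕ)) (hU : 𝒰.Countable) (hD : 𝒟.Countable)
    (h : ∀ U ∈ 𝒰, ∀ D ∈ 𝒟, (U ∩ D).Finite) :
    ∃ B : Set ℕ, (∀ U ∈ 𝒰, (U \ B).Finite) ∧ ∀ D ∈ 𝒟, (B ∩ D).Finite := by
  rcases 𝒰.eq_empty_or_nonempty with hU0 | hU0
  · exact ⟨∅, fun U hUm => by rw [hU0] at hUm; exact absurd hUm (Set.notMem_empty U),
      fun D _ => by simp⟩
  rcases 𝒟.eq_empty_or_nonempty with hD0 | hD0
  · exact ⟨Set.univ, fun U _ => by simp,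
      fun D hDm => by rw [hD0] at hDm; exact absurd hDm (Set.notMem_empty D)⟩
  obtain ⟨u, hu⟩ := hU.exists_eq_range hU0
  obtain ⟨d, hd⟩ := hD.exists_eq_range hD0
  have hud : ∀ n k, (u n ∩ d k).Finite := fun n k =>
    h _ (hu ▸ Set.mem_range_self n) _ (hd ▸ Set.mem_range_self k)
  refine ⟨⋃ n, u n \ ⋃ k ∈ Set.Iic n, d k, ?_, ?_⟩
  · intro U hUm
    rw [hu] at hUm
    obtain ⟨n, rfl⟩ := hUm
    have h1 : (⋃ k ∈ Set.Iic n, u n ∩ d k).Finite :=
      Set.Finite.biUnion (Set.finite_Iic n) fun k _ => hud n k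
    refine h1.subset ?_
    rintro x ⟨hx1, hx2⟩
    have h3 : x ∈ ⋃ k ∈ Set.Iic n, d k := by
      by_contra hc
      exact hx2 (Set.mem_iUnion.2 ⟨n, hx1, hc⟩)
    obtain ⟨k, hk1, hk2⟩ := Set.mem_iUnion₂.1 h3
    exact Set.mem_iUnion₂.2 ⟨k, hk1, hx1, hk2⟩
  · intro D hDm
    rw [hd] at hDm
    obtain ⟨k, rfl⟩ := hDm
    have h1 : (⋃ n ∈ Set.Iio k, u n ∩ d k).Finite :=
      Set.Finite.biUnion (Set.finite_Iio k) fun n _ => hud n k
    refine h1.subset ?_
    rintro x ⟨hx1, hx2⟩
    obtain ⟨n, hn1, hn2⟩ := Set.mem_iUnion.1 hx1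
    refine Set.mem_iUnion₂.2 ⟨n, ?_, hn1, hx2⟩
    by_contra hc
    rw [Set.mem_Iio, not_lt] at hc
    exact hn2 (Set.mem_iUnion₂.2 ⟨k, hc, hx2⟩)

/-- Pseudo-intersections.

Proof. `a m \ a n` is finite for `n ≤ m`, hence `⋂ k ≤ n, a k` is infinite for every `n`. Choose
`f n ∈ ⋂ k ≤ n, a k` strictly increasing (`Set.Infinite.exists_gt`, recursion, or use
`Nat.exists_strictMono_subsequence`-like lemmas) and `b = range f`; `b \ a n ⊆ {f k | k < n}`. -/
theorem exists_pseudo (a : ℕ → Set ℕ) (h1 : ∀ n, (a n).Infinite)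
    (h2 : ∀ n, (a (n + 1) \ a n).Finite) : ∃ b : Set ℕ, b.Infinite ∧ ∀ n, (b \ a n).Finite := by
  have h3 : ∀ n m, (a (n + m) \ a n).Finite := by
    intro n m
    induction m with
    | zero => simp
    | succ m ih =>
      refine ((h2 (n + m)).union ih).subset ?_
      rintro x ⟨hx1, hx2⟩
      by_cases hx : x ∈ a (n + m)
      · exact Or.inr ⟨hx, hx2⟩
      · exact Or.inl ⟨hx1, hx⟩
  have hc : ∀ n, (⋂ k ∈ Set.Iic n, a k).Infinite := by
    intro n hfin
    apply h1 n
    have h4 : (⋃ k ∈ Set.Iic n, a n \ a k).Finite := by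
      refine Set.Finite.biUnion (Set.finite_Iic n) fun k hk => ?_
      have h5 := h3 k (n - k)
      rwa [Nat.add_sub_cancel' hk] at h5
    refine (h4.union hfin).subset ?_
    intro x hx
    by_cases hx2 : x ∈ ⋂ k ∈ Set.Iic n, a k
    · exact Or.inr hx2
    · left
      rw [Set.mem_iInter₂] at hx2
      push Not at hx2
      obtain ⟨k, hk1, hk2⟩ := hx2
      exact Set.mem_iUnion₂.2 ⟨k, hk1, hx, hk2⟩
  have hg : ∀ n N : ℕ, ∃ m, m ∈ (⋂ k ∈ Set.Iic n, a k) ∧ N < m := by
    intro n N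
    obtain ⟨m, hm1, hm2⟩ := (hc n).exists_gt N
    exact ⟨m, hm1, hm2⟩
  choose g hg1 hg2 using hg
  let f : ℕ → ℕ := fun n => Nat.rec (g 0 0) (fun n x => g (n + 1) x) n
  have hf0 : f 0 = g 0 0 := rfl
  have hfs : ∀ n, f (n + 1) = g (n + 1) (f n) := fun n => rfl
  have hmono : StrictMono f := strictMono_nat_of_lt_succ fun n => by
    rw [hfs]
    exact hg2 _ _
  have hfm : ∀ n, f n ∈ (⋂ k ∈ Set.Iic n, a k) := by
    intro n
    cases n with
    | zero => rw [hf0]; exact hg1 0 0
    | succ n => rw [hfs]; exact hg1 _ _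
  refine ⟨Set.range f, Set.infinite_range_of_injective hmono.injective, fun n => ?_⟩
  refine ((Set.finite_Iio n).image f).subset ?_
  rintro x ⟨⟨k, rfl⟩, hk⟩
  refine ⟨k, ?_, rfl⟩
  by_contra hcon
  rw [Set.mem_Iio, not_lt] at hcon
  exact hk (Set.mem_iInter₂.1 (hfm k) n hcon)

end Pool.Agent.H83.R
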