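import Pool.Agent.H83.R.CCf

/-!
# Antichains have size at most continuum
-/

set_option autoImplicit false

open Cardinal

namespace Pool.Agent.H83.R

theorem cc_cnt {X : Type} (hX : #X ≤ Cardinal.continuum) :
    #{t : Set X // t.Countable} ≤ Cardinal.continuum := by
  have hcount : ∀ g : ℕ → Option X, {x | ∃ m, g m = some x}.Countable := by
    intro g
    refine (Set.countable_range g).preimage_of_injOn
      (f := some) (fun x _ y _ h => Option.some.inj h) |>.mono ?_
    rintro x ⟨m, hm⟩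
    exact ⟨m, hm⟩
  have hsurj : Function.Surjective (fun g : ℕ → Option X =>
      (⟨{x | ∃ m, g m = some x}, hcount g⟩ : {t : Set X // t.Countable})) := by
    rintro ⟨t, ht⟩
    rcases t.eq_empty_or_nonempty with rfl | hne
    · refine ⟨fun _ => none, ?_⟩
      apply Subtype.ext
      ext x
      simp
    · obtain ⟨f, hf⟩ := ht.exists_eq_range hne
      refine ⟨fun m => some (f m), ?_⟩
      apply Subtype.ext
      change {x | ∃ m, some (f m) = some x} = t
      rw [hf]
      ext x
      simp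
  refine (Cardinal.mk_le_of_surjective hsurj).trans ?_
  have h1 : #(ℕ → Option X) = (#X + 1) ^ Cardinal.aleph0 := by
    rw [← Cardinal.mk_option, ← Cardinal.mk_nat, Cardinal.power_def]
  rw [h1]
  have h2 : #X + 1 ≤ Cardinal.continuum := by
    have h3 : #X + 1 ≤ Cardinal.continuum + Cardinal.continuum :=
      add_le_add hX (Cardinal.one_le_aleph0.trans Cardinal.aleph0_le_continuum)
    rwa [Cardinal.continuum_add_self] at h3
  refine (Cardinal.power_le_power_right h2).trans ?_
  rw [Cardinal.continuum_power_aleph0]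

theorem cc_Y : #(Set ℕ ⊕ {t : Set (Set ℕ × Set ℕ) // t.Countable}) ≤ Cardinal.continuum := by
  have h1 : #(Set ℕ) = Cardinal.continuum := by
    rw [Cardinal.mk_set, Cardinal.mk_nat, Cardinal.two_power_aleph0]
  have h2 : #(Set ℕ × Set ℕ) ≤ Cardinal.continuum := by
    rw [Cardinal.mk_prod, Cardinal.lift_id, h1, Cardinal.continuum_mul_self]
  rw [Cardinal.mk_sum, Cardinal.lift_id, Cardinal.lift_id]
  have h3 := add_le_add h1.le (cc_cnt h2)
  rwa [Cardinal.continuum_add_self] at h3

theorem cc_sub {α : Type} {H : Set (α × Set ℕ × Set ℕ)} (hH : H.Countable) (i : α) :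
    {x : Set ℕ × Set ℕ | (i, x.1, x.2) ∈ H}.Countable :=
  hH.preimage_of_injOn (f := fun x : Set ℕ × Set ℕ => (i, x.1, x.2))
    (fun x _ y _ h => by
      simp only [Prod.mk.injEq, true_and] at h
      exact Prod.ext h.1 h.2)

open Classical in
/-- the partial function of a condition -/
noncomputable def ccF (q : Cd) : Option (J ⊕ Lam) →
    Option (Set ℕ ⊕ {t : Set (Set ℕ × Set ℕ) // t.Countable})
  | none => some (Sum.inl q.a)
  | some (Sum.inl i) => if Cd.AtH i q then
      some (Sum.inr ⟨{x | (i, x.1, x.2) ∈ q.H}, cc_sub (Cd.H_countable q) i⟩) else none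
  | some (Sum.inr β) => if Cd.AtT β q then
      some (Sum.inr ⟨{x | (β, x.1, x.2) ∈ q.T}, cc_sub (Cd.T_countable q) β⟩) else none

theorem ccF_dom (q : Cd) : {k | ccF q k ≠ none}.Countable := by
  have h1 : {i : J | Cd.AtH i q}.Countable := by
    refine ((Cd.H_countable q).image Prod.fst).mono ?_
    rintro i ⟨A, B, h⟩
    exact ⟨_, h, rfl⟩
  have h2 : {β : Lam | Cd.AtT β q}.Countable := by
    refine (((Cd.T_countable q).image Prod.fst).union ((Cd.N_countable q).image Prod.fst)).mono ?_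
    rintro β (⟨A, B, h⟩ | ⟨S, h⟩)
    · exact Or.inl ⟨_, h, rfl⟩
    · exact Or.inr ⟨_, h, rfl⟩
  refine (((Set.countable_singleton (none : Option (J ⊕ Lam))).union
    (h1.image fun i => some (Sum.inl i))).union (h2.image fun β => some (Sum.inr β))).mono ?_
  rintro (_ | i | β) hk
  · exact Or.inl (Or.inl rfl)
  · left
    right
    refine ⟨i, ?_, rfl⟩
    by_contra hc
    exact hk (if_neg hc)
  · right
    refine ⟨β, ?_, rfl⟩
    by_contra hc
    exact hk (if_neg hc)

theorem ccF_eqH {q q' : Cd} {i : J} (h1 : Cd.AtH i q) (h2 : Cd.AtH i q')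
    (h : ccF q (some (Sum.inl i)) = ccF q' (some (Sum.inl i))) (A B : Set ℕ) :
    (i, A, B) ∈ q.H ↔ (i, A, B) ∈ q'.H := by
  have e1 : ccF q (some (Sum.inl i)) = some (Sum.inr ⟨{x | (i, x.1, x.2) ∈ q.H},
    cc_sub (Cd.H_countable q) i⟩) := if_pos h1
  have e2 : ccF q' (some (Sum.inl i)) = some (Sum.inr ⟨{x | (i, x.1, x.2) ∈ q'.H},
    cc_sub (Cd.H_countable q') i⟩) := if_pos h2
  rw [e1, e2] at h
  have h3 := congrArg Subtype.val (Sum.inr.inj (Option.some.inj h))
  exact Set.ext_iff.1 h3 (A, B)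

theorem ccF_eqT {q q' : Cd} {β : Lam} (h1 : Cd.AtT β q) (h2 : Cd.AtT β q')
    (h : ccF q (some (Sum.inr β)) = ccF q' (some (Sum.inr β))) (A B : Set ℕ) :
    (β, A, B) ∈ q.T ↔ (β, A, B) ∈ q'.T := by
  have e1 : ccF q (some (Sum.inr β)) = some (Sum.inr ⟨{x | (β, x.1, x.2) ∈ q.T},
    cc_sub (Cd.T_countable q) β⟩) := if_pos h1
  have e2 : ccF q' (some (Sum.inr β)) = some (Sum.inr ⟨{x | (β, x.1, x.2) ∈ q'.T},
    cc_sub (Cd.T_countable q') β⟩) := if_pos h2
  rw [e1, e2] at h
  have h3 := congrArg Subtype.val (Sum.inr.inj (Option.some.inj h))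
  exact Set.ext_iff.1 h3 (A, B)

/-- Antichains have size at most continuum.

Proof. Apply `cc_fun` with `ι = s`, `K = Option (J ⊕ Lam)` and `Y = Set ℕ ⊕ {t : Set (Set ℕ × Set ℕ) //
t.Countable}` (size `≤ continuum`: every countable `t` is `{x | ∃ m, f m = some x}` for some
`f : ℕ → Option (Set ℕ × Set ℕ)`), `F q none = some (inl q.a)`,
`F q (some (inl i)) = some (inr {x | (i, x.1, x.2) ∈ q.H})` if `Cd.AtH i q` and `none` otherwise,
`F q (some (inr β)) = some (inr {x | (β, x.1, x.2) ∈ q.T})` if `Cd.AtT β q` and `none` otherwise.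
The domains are countable (`Cd.H_countable`, ...). If `q ≠ q'` and there is no disagreement then
`Cd.exists_union` contradicts `h`. -/
theorem cc (s : Set Cd) (hs : ∀ q ∈ s, q.V)
    (h : ∀ q ∈ s, ∀ q' ∈ s, q ≠ q' → ¬ ∃ r : Cd, r.V ∧ r ≤ q ∧ r ≤ q') :
    #s ≤ Cardinal.continuum := by
  refine cc_fun cc_Y (fun q : s => ccF q.1) (fun q => ccF_dom q.1) ?_
  rintro ⟨q, hq⟩ ⟨q', hq'⟩ hne
  have hne' : q ≠ q' := fun h0 => hne (Subtype.ext h0)
  by_contra hcon
  push Not at hcon
  apply h q hq q' hq' hne'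
  have key : ∀ k, ccF q k ≠ none → ccF q' k ≠ none → ccF q k = ccF q' k := hcon
  obtain ⟨r, h1, h2, h3⟩ := Cd.exists_union (hs q hq) (hs q' hq') (by
      have := key none (Option.some_ne_none _) (Option.some_ne_none _)
      exact Sum.inl.inj (Option.some.inj this))
    (fun i h1 h2 => by
      refine ccF_eqH h1 h2 (key _ ?_ ?_)
      · rw [show ccF q (some (Sum.inl i)) = some _ from if_pos h1]
        exact Option.some_ne_none _
      · rw [show ccF q' (some (Sum.inl i)) = some _ from if_pos h2]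
        exact Option.some_ne_none _)
    (fun β h1 h2 => by
      refine ccF_eqT h1 h2 (key _ ?_ ?_)
      · rw [show ccF q (some (Sum.inr β)) = some _ from if_pos h1]
        exact Option.some_ne_none _
      · rw [show ccF q' (some (Sum.inr β)) = some _ from if_pos h2]
        exact Option.some_ne_none _)
  exact ⟨r, h1, h2, h3⟩

end Pool.Agent.H83.R
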