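import Pool.Agent.H83.R.Card

/-!
# Incompatible partial functions with countable domains
-/

set_option autoImplicit false

open Cardinal

namespace Pool.Agent.H83.R

/-- Arities of the closure terms. -/
def CCf_ar (Y : Type) : Option ((ℕ → Option Y) × ℕ) → Type
  | none => Empty
  | some _ => ℕ

/-- The type of closure terms. -/
abbrev CCf_Tm (Y : Type) : Type := WType (CCf_ar Y)

/-- The evaluation of a closure term. -/
def CCf_ev {K Y : Type} (k₀ : K) (d : (ℕ → Option (K × Y)) → ℕ → K) : CCf_Tm Y → K :=
  WType.elim K (fun x => match x with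
    | ⟨none, _⟩ => k₀
    | ⟨some a, t⟩ => d (fun n => (a.1 n).map fun y' => (t n, y')) a.2)

theorem CCf_seq {α : Type} (hα : #α ≤ Cardinal.continuum) :
    #(ℕ → α) ≤ Cardinal.continuum := by
  rw [← Cardinal.power_def, Cardinal.mk_nat]
  calc #α ^ ℵ₀ ≤ Cardinal.continuum ^ ℵ₀ := Cardinal.power_le_power_right hα
    _ = Cardinal.continuum := Cardinal.continuum_power_aleph0

theorem CCf_opt {α : Type} (hα : #α ≤ Cardinal.continuum) :
    #(Option α) ≤ Cardinal.continuum := by
  rw [Cardinal.mk_option]
  calc #α + 1 ≤ Cardinal.continuum + Cardinal.continuum :=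
        add_le_add hα (Cardinal.one_le_aleph0.trans Cardinal.aleph0_le_continuum)
    _ = Cardinal.continuum := Cardinal.continuum_add_self

theorem CCf_prod {α β : Type} (hα : #α ≤ Cardinal.continuum) (hβ : #β ≤ Cardinal.continuum) :
    #(α × β) ≤ Cardinal.continuum := by
  rw [Cardinal.mk_prod, Cardinal.lift_id, Cardinal.lift_id]
  calc #α * #β ≤ Cardinal.continuum * Cardinal.continuum := mul_le_mul' hα hβ
    _ = Cardinal.continuum := Cardinal.continuum_mul_self

theorem CCf_card {Y : Type} (hY : #Y ≤ Cardinal.continuum) :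
    #(CCf_Tm Y) ≤ Cardinal.continuum := by
  have hA : #(Option ((ℕ → Option Y) × ℕ)) ≤ Cardinal.continuum := by
    apply CCf_opt
    apply CCf_prod (CCf_seq (CCf_opt hY))
    rw [Cardinal.mk_nat]
    exact Cardinal.aleph0_le_continuum
  apply WType.cardinalMk_le_of_le'
  calc (Cardinal.sum fun a : Option ((ℕ → Option Y) × ℕ) =>
        Cardinal.continuum ^ Cardinal.lift.{0} #(CCf_ar Y a))
      ≤ Cardinal.sum fun _ : Option ((ℕ → Option Y) × ℕ) => Cardinal.continuum := by
        apply Cardinal.sum_le_sum
        rintro (_ | a)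
        · have : #(CCf_ar Y none) = 0 := by
            show #Empty = 0
            simp
          rw [this]
          simpa using Cardinal.one_le_aleph0.trans Cardinal.aleph0_le_continuum
        · have : #(CCf_ar Y (some a)) = ℵ₀ := by
            show #ℕ = ℵ₀
            simp
          rw [this]
          simp
    _ = #(Option ((ℕ → Option Y) × ℕ)) * Cardinal.continuum := by
        rw [Cardinal.sum_const]
        simp
    _ ≤ Cardinal.continuum * Cardinal.continuum := mul_le_mul' hA le_rfl
    _ = Cardinal.continuum := Cardinal.continuum_mul_self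

/-- Closure argument: a family of partial functions with countable domains and at most continuum
many values, any two of which disagree somewhere on their common domain, has size at most
continuum.

Proof. We may assume that `ι` and `Y` and `K` are nonempty. For every sequence `σ : ℕ → K × Y` choose an index
`g σ : ι` such that `F (g σ) (σ n).1 = some (σ n).2` for all `n`, if there is one, and also an
enumeration `d σ : ℕ → K` of the (countable) domain of `F (g σ)` (plus some point). Let `Tm` be the
type of trees: `inductive Tm | leaf : Tm | node (y : ℕ → Y) (m : ℕ) (t : ℕ → Tm) : Tm`, evaluated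
by `ev leaf = k₀`, `ev (node y m t) = d (fun n => (ev (t n), y n)) m`. The range `X` of `ev` is
closed: if all `(σ n).1 ∈ X` then the domain of `F (g σ)` is contained in `X`. `#Tm ≤ continuum` by
`WType.cardinalMk_le_of_le'` (with `κ = continuum`; define `Tm` as a `WType` over
`Option ((ℕ → Y) × ℕ)`), hence `#X ≤ continuum`. Claim: `{k | F i k ≠ none} ⊆ X` for every `i`.
Let `σ` enumerate the restriction of `F i` to `X` (countable; if it is empty use a variant: allow
`σ : ℕ → Option (K × Y)`, this is simpler: then also `y : ℕ → Option Y`). Then `g σ` exists and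
extends this restriction and its domain is in `X`; if `g σ ≠ i` then by `h` they disagree at a
point `k` of both domains, so `k ∈ X`, a contradiction. So `i = g σ` and its domain is contained
in `X`. Hence `F` is an injection (by `h`) into the set of countable partial functions from `X` to
`Y`, each of which is given by a sequence in `ℕ → Option (X × Y)`; there are at most continuum many
(`Cardinal.power_le_power_right`, `continuum_power_aleph0`). -/
theorem cc_fun {K Y ι : Type} (hY : #Y ≤ Cardinal.continuum) (F : ι → K → Option Y)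
    (hc : ∀ i, {k | F i k ≠ none}.Countable)
    (h : ∀ i j, i ≠ j → ∃ k, F i k ≠ none ∧ F j k ≠ none ∧ F i k ≠ F j k) :
    #ι ≤ Cardinal.continuum := by
  classical
  have h1c : (1 : Cardinal) ≤ Cardinal.continuum :=
    Cardinal.one_le_aleph0.trans Cardinal.aleph0_le_continuum
  by_cases hK : Nonempty K
  swap
  · have : Subsingleton ι := by
      constructor
      intro i j
      by_contra hij
      obtain ⟨k, -⟩ := h i j hij
      exact hK ⟨k⟩
    exact (Cardinal.le_one_iff_subsingleton.2 this).trans h1c
  by_cases hι : Nonempty ι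
  swap
  · have : Subsingleton ι := by
      constructor
      intro i j
      exact absurd ⟨i⟩ hι
    exact (Cardinal.le_one_iff_subsingleton.2 this).trans h1c
  obtain ⟨k₀⟩ := hK
  obtain ⟨i₀⟩ := hι
  have : Nonempty K := ⟨k₀⟩
  let E : (ℕ → Option (K × Y)) → ι → Prop := fun σ i =>
    ∀ n k y, σ n = some (k, y) → F i k = some y
  let g : (ℕ → Option (K × Y)) → ι := fun σ =>
    if hh : ∃ i, E σ i then hh.choose else i₀
  have hg : ∀ σ, (∃ i, E σ i) → E σ (g σ) := by
    intro σ hh
    simp only [g, dif_pos hh]
    exact hh.choose_spec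
  have hd0 : ∀ σ, ∃ d : ℕ → K, {k | F (g σ) k ≠ none} ⊆ Set.range d := fun σ =>
    Set.countable_iff_exists_subset_range.1 (hc (g σ))
  choose d hd using hd0
  let ev : CCf_Tm Y → K := CCf_ev k₀ d
  -- codes
  have hcode : ∀ σ : ℕ → Option (K × Y),
      (∀ n k y, σ n = some (k, y) → k ∈ Set.range ev) →
      ∃ (y : ℕ → Option Y) (t : ℕ → CCf_Tm Y),
        (fun n => (y n).map fun y' => (ev (t n), y')) = σ := by
    intro σ hσ
    have : ∀ n, ∃ (y : Option Y) (t : CCf_Tm Y), (y.map fun y' => (ev t, y')) = σ n := by
      intro n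
      rcases hn : σ n with _ | ⟨k, y⟩
      · exact ⟨none, WType.mk none (fun e => e.elim), rfl⟩
      · obtain ⟨t, ht⟩ := hσ n k y hn
        exact ⟨some y, t, by simp [ht]⟩
    choose y t hyt using this
    exact ⟨y, t, funext hyt⟩
  have hclosed : ∀ σ : ℕ → Option (K × Y),
      (∀ n k y, σ n = some (k, y) → k ∈ Set.range ev) →
      {k | F (g σ) k ≠ none} ⊆ Set.range ev := by
    intro σ hσ k hk
    obtain ⟨m, hm⟩ := hd σ hk
    obtain ⟨y, t, hyt⟩ := hcode σ hσ
    refine ⟨WType.mk (some (y, m)) t, ?_⟩
    show d (fun n => (y n).map fun y' => (ev (t n), y')) m = k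
    rw [hyt, hm]
  have hsurj : Function.Surjective
      (fun p : (ℕ → Option Y) × (ℕ → CCf_Tm Y) =>
        g (fun n => (p.1 n).map fun y' => (ev (p.2 n), y'))) := by
    intro i
    -- the restriction of `F i` to the range
    let S : Set K := {k | k ∈ Set.range ev ∧ F i k ≠ none}
    have hS : S.Countable := (hc i).mono fun k hk => hk.2
    have : Countable S := hS.to_subtype
    have : Encodable S := Encodable.ofCountable S
    let f : ℕ → Option K := fun n => (Encodable.decode (α := S) n).map Subtype.val
    have hf1 : ∀ n k, f n = some k → k ∈ S := by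
      intro n k hn
      simp only [f, Option.map_eq_some_iff] at hn
      obtain ⟨a, -, ha⟩ := hn
      rw [← ha]
      exact a.2
    have hf2 : ∀ k ∈ S, ∃ n, f n = some k := by
      intro k hk
      exact ⟨Encodable.encode (⟨k, hk⟩ : S), by simp [f]⟩
    let σ : ℕ → Option (K × Y) := fun n => (f n).bind fun k => (F i k).map fun y => (k, y)
    have hσ : ∀ n k y, σ n = some (k, y) → f n = some k ∧ F i k = some y := by
      intro n k y hn
      simp only [σ, Option.bind_eq_some_iff, Option.map_eq_some_iff, Prod.mk.injEq] at hn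
      obtain ⟨k', hk', y', hy', rfl, rfl⟩ := hn
      exact ⟨hk', hy'⟩
    have hσr : ∀ n k y, σ n = some (k, y) → k ∈ Set.range ev := fun n k y hn =>
      (hf1 n k (hσ n k y hn).1).1
    have hE : E σ (g σ) := hg σ ⟨i, fun n k y hn => (hσ n k y hn).2⟩
    have hgi : g σ = i := by
      by_contra hne
      obtain ⟨k, hk1, hk2, hk3⟩ := h (g σ) i hne
      have hkS : k ∈ S := ⟨hclosed σ hσr hk1, hk2⟩
      obtain ⟨n, hn⟩ := hf2 k hkS
      obtain ⟨y, hy⟩ := Option.ne_none_iff_exists'.1 hk2
      have hσn : σ n = some (k, y) := by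
        simp only [σ, hn, Option.bind_some, hy, Option.map_some]
      exact hk3 ((hE n k y hσn).trans hy.symm)
    obtain ⟨y, t, hyt⟩ := hcode σ hσr
    refine ⟨(y, t), ?_⟩
    show g (fun n => (y n).map fun y' => (ev (t n), y')) = i
    rw [hyt, hgi]
  exact (Cardinal.mk_le_of_surjective hsurj).trans
    (CCf_prod (CCf_seq (CCf_opt hY)) (CCf_seq (CCf_card hY)))

end Pool.Agent.H83.R
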