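import Pool.Agent.H83.R.Ext
import Pool.Agent.H83.F.W1

/-!
# Cardinalities
-/

set_option autoImplicit false

open Cardinal

namespace Pool.Agent.H83.R

theorem mk_Lam : #Lam = Order.succ Cardinal.continuum := Cardinal.mk_ord_toType _

theorem card_Iic_Lam (x : Lam) : #(Set.Iic x) ≤ Cardinal.continuum := by
  have h1 : #(Set.Iio x) < Order.succ Cardinal.continuum := Cardinal.mk_Iio_toType_ord_lt x
  rw [Order.lt_succ_iff] at h1
  have h2 : Set.Iic x = insert x (Set.Iio x) := by
    ext y
    simp only [Set.mem_Iic, Set.mem_insert_iff, Set.mem_Iio]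
    exact le_iff_eq_or_lt
  rw [h2]
  refine (Cardinal.mk_insert_le).trans ?_
  refine (add_le_add h1 (Cardinal.one_le_aleph0.trans Cardinal.aleph0_le_continuum)).trans ?_
  rw [Cardinal.continuum_add_self]

theorem card_iUnion_le {α ι : Type} (s : ι → Set α) (h : #ι ≤ Cardinal.continuum)
    (hs : ∀ i, #(s i) ≤ Cardinal.continuum) : #(⋃ i, s i) ≤ Cardinal.continuum := by
  refine (Cardinal.mk_iUnion_le_sum_mk).trans ?_
  refine (Cardinal.sum_le_sum _ (fun _ => Cardinal.continuum) hs).trans ?_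
  rw [Cardinal.sum_const']
  refine (mul_le_mul' h le_rfl).trans ?_
  rw [Cardinal.continuum_mul_self]

/-- Proof. `Lam` has order type the initial ordinal of a regular cardinal (the successor of the
continuum is regular: `Cardinal.isRegular_succ`); compare `W2_bdd`, `O2_bdd` in
`Pool/Agent/H83/F/CccQ.lean` (same statement for `ω₂`). Alternatively: if `f` is unbounded then
`Lam = ⋃ i, Iic (f i)` and all these initial segments have cardinality `≤ continuum`
(`Cardinal.mk_Iio_ord_toType`), so `#Lam ≤ continuum * continuum = continuum`, a contradiction. -/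
theorem Lam_bdd {ι : Type} (h : #ι ≤ Cardinal.continuum) (f : ι → Lam) : ∃ β, ∀ i, f i < β := by
  by_contra hc
  push Not at hc
  have h1 : (⋃ i, Set.Iic (f i)) = Set.univ := by
    rw [Set.eq_univ_iff_forall]
    intro β
    obtain ⟨i, hi⟩ := hc β
    exact Set.mem_iUnion.2 ⟨i, hi⟩
  have h2 := card_iUnion_le (fun i => Set.Iic (f i)) h (fun i => card_Iic_Lam _)
  rw [h1, Cardinal.mk_univ, mk_Lam] at h2
  exact absurd h2 (not_le.2 (Order.lt_succ _))

/-- Proof. `#J = 2 ^ #Lam > #Lam` (`Cardinal.cantor`), so `s ≠ univ`. -/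
theorem exists_J {s : Set J} (h : #s ≤ #Lam) : ∃ i : J, i ∉ s := by
  by_contra hc
  push Not at hc
  have h1 : s = Set.univ := Set.eq_univ_iff_forall.2 hc
  rw [h1, Cardinal.mk_univ, Cardinal.mk_set] at h
  exact absurd h (not_le.2 (Cardinal.cantor _))

/-- The coordinates used for the coding of the reals.

Proof. `#(W1 × ℕ) = ℵ₁ ≤ continuum ≤ #Lam ≤ #J`. -/
theorem exists_cJ : ∃ c : F.W1 × ℕ → J, Function.Injective c := by
  have h1 : #(F.W1 × ℕ) ≤ #J := by
    rw [Cardinal.mk_prod, Cardinal.lift_id, Cardinal.lift_id, F.W1_card, Cardinal.mk_nat]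
    have h2 : Cardinal.aleph 1 * Cardinal.aleph0 ≤ Cardinal.continuum := by
      refine (mul_le_mul' Cardinal.aleph_one_le_continuum Cardinal.aleph0_le_continuum).trans ?_
      rw [Cardinal.continuum_mul_self]
    refine h2.trans ?_
    have h3 : Cardinal.continuum ≤ #Lam := by
      rw [mk_Lam]
      exact Order.le_succ _
    refine h3.trans ?_
    rw [Cardinal.mk_set]
    exact (Cardinal.cantor _).le
  obtain ⟨e⟩ := (Cardinal.le_def _ _).1 h1
  exact ⟨e, e.injective⟩

/-- The coordinates used for the coding of the reals. -/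
noncomputable def cJ : F.W1 × ℕ → J := exists_cJ.choose

theorem cJ_inj : Function.Injective cJ := exists_cJ.choose_spec

/-- `ω₁` -/
noncomputable def O1 : Ordinal.{0} := (Cardinal.aleph 1).ord

/-- the ordinal of an element of `W1` -/
noncomputable def o1 (i : F.W1) : Ordinal.{0} := (Ordinal.ToType.toOrd i).1

theorem o1_lt (i : F.W1) : o1 i < O1 := (Ordinal.ToType.toOrd i).2

theorem o1_surj {α : Ordinal.{0}} (h : α < O1) : ∃ i, o1 i = α :=
  ⟨Ordinal.ToType.mk ⟨α, h⟩, by simp [o1, Ordinal.ToType.toOrd]⟩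

theorem o1_lt_iff {i j : F.W1} : o1 i < o1 j ↔ i < j := by
  unfold o1
  rw [Subtype.coe_lt_coe]
  exact OrderIso.lt_iff_lt _

theorem o1_inj {i j : F.W1} (h : o1 i = o1 j) : i = j := by
  rcases lt_trichotomy i j with h' | h' | h'
  · exact absurd h (o1_lt_iff.2 h').ne
  · exact h'
  · exact absurd h.symm (o1_lt_iff.2 h').ne

namespace Cd

/-- Proof. Induction on `q` (the recursor of `Cd`): the first part of `hs` is countable, the second
is a union of `ℵ₀ * continuum` sets of size `≤ continuum` (`Cardinal.mk_iUnion_le`, ...). -/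
theorem mk_hs_le (q : Cd) : #q.hs ≤ Cardinal.continuum := by
  induction q with
  | nil =>
    unfold hs
    rw [Cardinal.mk_emptyCollection]
    exact zero_le
  | mk a h t n nA nB nc ih =>
    unfold hs
    refine (Cardinal.mk_union_le _ _).trans ?_
    have h1 : #({i | ∃ m A B, h m = some (i, A, B)} : Set J) ≤ Cardinal.continuum := by
      have h2 : ({i | ∃ m A B, h m = some (i, A, B)} : Set J) =
          (fun x : J × Set ℕ × Set ℕ => x.1) '' (Cd.H (Cd.mk a h t n nA nB nc)) := by
        ext i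
        constructor
        · rintro ⟨m, A, B, hm⟩
          exact ⟨(i, A, B), ⟨m, hm⟩, rfl⟩
        · rintro ⟨⟨i', A, B⟩, ⟨m, hm⟩, rfl⟩
          exact ⟨m, A, B, hm⟩
      rw [h2]
      have h3 := ((H_countable (Cd.mk a h t n nA nB nc)).image
        (fun x : J × Set ℕ × Set ℕ => x.1)).le_aleph0
      exact h3.trans Cardinal.aleph0_le_continuum
    have h2 : #(⋃ m, ⋃ k, hs (nc m k) : Set J) ≤ Cardinal.continuum := by
      refine card_iUnion_le _ (by rw [Cardinal.mk_nat]; exact Cardinal.aleph0_le_continuum) ?_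
      intro m
      refine card_iUnion_le _ (by rw [Cardinal.mk_set, Cardinal.mk_nat, Cardinal.two_power_aleph0]) ?_
      intro k
      exact ih m k
    refine (add_le_add h1 h2).trans ?_
    rw [Cardinal.continuum_add_self]

theorem AtH.mem_hs {i : J} {q : Cd} (h : AtH i q) : i ∈ q.hs := by
  obtain ⟨A, B, h⟩ := h
  cases q with
  | nil => exact absurd h (Set.notMem_empty _)
  | mk a h' t n nA nB nc =>
    obtain ⟨m, hm⟩ := h
    exact Or.inl ⟨m, A, B, hm⟩

theorem Below.mono {β γ : Lam} {q : Cd} (h : Below β q) (hβ : β ≤ γ) : Below γ q :=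
  ⟨fun x hx => (h.1 x hx).trans_le hβ, fun x hx => (h.2 x hx).trans_le hβ⟩

/-- Proof. `q.T` and `q.N` are countable; `Lam_bdd`. -/
theorem exists_Below (q : Cd) : ∃ β, Below β q := by
  have h1 : #(q.T ⊕ q.N) ≤ Cardinal.continuum := by
    rw [Cardinal.mk_sum, Cardinal.lift_id, Cardinal.lift_id]
    refine (add_le_add (q.T_countable.le_aleph0.trans Cardinal.aleph0_le_continuum)
      (q.N_countable.le_aleph0.trans Cardinal.aleph0_le_continuum)).trans ?_
    rw [Cardinal.continuum_add_self]
  obtain ⟨β, hβ⟩ := Lam_bdd h1 (fun x => Sum.elim (fun y : q.T => y.1.1) (fun y : q.N => y.1.1) x)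
  exact ⟨β, fun x hx => hβ (Sum.inl ⟨x, hx⟩), fun x hx => hβ (Sum.inr ⟨x, hx⟩)⟩

end Cd

end Pool.Agent.H83.R
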