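import Pool.Agent.H83.R.Base

/-!
# The forcing notion

`Cd` is the type of (codes of) pre-conditions. A pre-condition `q` consists of

* `q.a : Set ℕ`: the generic P-point contains the set `q.a`;
* `q.H : Set (J × Set ℕ × Set ℕ)`, a countable set: `(i, A, B) ∈ q.H` means that the `i`-th generic
  clopen set meets `A*` in `B*`;
* `q.T : Set (Lam × Set ℕ × Set ℕ)`, a countable set: `(β, A, B) ∈ q.T` means that the `β`-th
  dominating clopen set meets `A*` in `B*`;
* `q.N : Set (Lam × Nm)`, a countable set of promises: `(β, T) ∈ q.N` means that the `β`-th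
  dominating set will contain the clopen set with name `T` (a name is a family, indexed by
  `Set ℕ`, of triples `(A, B, c)` where `c` is a condition that decides that the set with this
  name meets `A*` in `B*`).

The order is reverse inclusion of the last three components, and almost inclusion of the first
one. `V q` says that `q` is a condition. It is defined by recursion along `Lam`.
-/

set_option autoImplicit false

open Cardinal

namespace Pool.Agent.H83.R

/-- The length of the iteration: the cardinal successor of the continuum. -/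
abbrev Lam : Type := (Order.succ Cardinal.continuum.{0}).ord.ToType

/-- Index set of the generic clopen sets. -/
abbrev J : Type := Set Lam

/-- Pre-conditions. -/
inductive Cd : Type
  | nil : Cd
  | mk (a : Set ℕ) (h : ℕ → Option (J × Set ℕ × Set ℕ)) (t : ℕ → Option (Lam × Set ℕ × Set ℕ))
      (n : ℕ → Option Lam) (nA nB : ℕ → Set ℕ → Set ℕ) (nc : ℕ → Set ℕ → Cd) : Cd

/-- Names of clopen sets: families of triples. -/
abbrev Nm : Type := Set ℕ → Set ℕ × Set ℕ × Cd

namespace Cd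

/-- the first component -/
def a : Cd → Set ℕ
  | nil => Set.univ
  | mk a _ _ _ _ _ _ => a

/-- the second component -/
def H : Cd → Set (J × Set ℕ × Set ℕ)
  | nil => ∅
  | mk _ h _ _ _ _ _ => {x | ∃ m, h m = some x}

/-- the third component -/
def T : Cd → Set (Lam × Set ℕ × Set ℕ)
  | nil => ∅
  | mk _ _ t _ _ _ _ => {x | ∃ m, t m = some x}

/-- the promises -/
def N : Cd → Set (Lam × Nm)
  | nil => ∅
  | mk _ _ _ n nA nB nc => {x | ∃ m, n m = some x.1 ∧ x.2 = fun k => (nA m k, nB m k, nc m k)}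

/-- Hereditary set of the indices of generic clopen sets that are mentioned. -/
def hs : Cd → Set J
  | nil => ∅
  | mk _ h _ _ _ _ nc => {i | ∃ m A B, h m = some (i, A, B)} ∪ ⋃ m, ⋃ k, hs (nc m k)

instance : Preorder Cd where
  le p q := (p.a \ q.a).Finite ∧ q.H ⊆ p.H ∧ q.T ⊆ p.T ∧ q.N ⊆ p.N
  le_refl q := ⟨by simp, subset_rfl, subset_rfl, subset_rfl⟩
  le_trans p q r h1 h2 := by
    refine ⟨(h1.1.union h2.1).subset ?_, h2.2.1.trans h1.2.1, h2.2.2.1.trans h1.2.2.1,
      h2.2.2.2.trans h1.2.2.2⟩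
    intro x hx
    by_cases hxq : x ∈ q.a
    · exact Or.inr ⟨hxq, hx.2⟩
    · exact Or.inl ⟨hx.1, hxq⟩

theorem le_def {p q : Cd} :
    p ≤ q ↔ (p.a \ q.a).Finite ∧ q.H ⊆ p.H ∧ q.T ⊆ p.T ∧ q.N ⊆ p.N := Iff.rfl

/-- the restriction to `β` -/
noncomputable def res (β : Lam) : Cd → Cd
  | nil => nil
  | mk a h t n nA nB nc => by
    classical
    exact mk a h (fun m => (t m).filter fun x => x.1 < β) (fun m => (n m).filter fun γ => γ < β)
      nA nB nc

theorem res_a (β : Lam) (q : Cd) : (q.res β).a = q.a := by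
  cases q <;> rfl

theorem res_H (β : Lam) (q : Cd) : (q.res β).H = q.H := by
  cases q <;> rfl

theorem mem_res_T {β : Lam} {q : Cd} {x : Lam × Set ℕ × Set ℕ} :
    x ∈ (q.res β).T ↔ x ∈ q.T ∧ x.1 < β := by
  cases q with
  | nil => simp [res, T]
  | mk a h t n nA nB nc =>
    simp only [res, T, Set.mem_setOf_eq, Option.filter_eq_some_iff, decide_eq_true_eq]
    constructor
    · rintro ⟨m, h1, h2⟩; exact ⟨⟨m, h1⟩, h2⟩
    · rintro ⟨⟨m, h1⟩, h2⟩; exact ⟨m, h1, h2⟩

theorem mem_res_N {β : Lam} {q : Cd} {x : Lam × Nm} :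
    x ∈ (q.res β).N ↔ x ∈ q.N ∧ x.1 < β := by
  cases q with
  | nil => simp [res, N]
  | mk a h t n nA nB nc =>
    simp only [res, N, Set.mem_setOf_eq, Option.filter_eq_some_iff, decide_eq_true_eq]
    constructor
    · rintro ⟨m, ⟨h1, h2⟩, h3⟩; exact ⟨⟨m, h1, h3⟩, h2⟩
    · rintro ⟨⟨m, h1, h3⟩, h2⟩; exact ⟨m, ⟨h1, h2⟩, h3⟩

/-- Induction on conditions. -/
theorem ind {P : Cd → Prop} (h : ∀ q : Cd, (∀ x ∈ q.N, ∀ k, P (x.2 k).2.2) → P q) :
    ∀ q, P q := by
  intro q
  induction q with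
  | nil => exact h nil (fun x hx => by simp [N] at hx)
  | mk a' h' t n nA nB nc ih =>
    apply h
    rintro ⟨β, S⟩ ⟨m, _, hS⟩ k
    simp only at hS
    subst hS
    exact ih m k

/-- The pre-conditions with no entries at or above `β`. -/
def Below (β : Lam) (q : Cd) : Prop := (∀ x ∈ q.T, x.1 < β) ∧ ∀ x ∈ q.N, x.1 < β

/-- The requirements that do not refer to names. -/
structure Base (q : Cd) : Prop where
  inf : q.a.Infinite
  Hdom : ∀ i A B, (i, A, B) ∈ q.H → (A ∩ q.a).Finite ∧ B ⊆ A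
  Hfun : ∀ i A B B', (i, A, B) ∈ q.H → (i, A, B') ∈ q.H → B = B'
  Hcoh : ∀ i A B A' B', (i, A, B) ∈ q.H → (i, A', B') ∈ q.H → coh A B A' B'
  Tdom : ∀ β A B, (β, A, B) ∈ q.T → Ix A ∧ B ⊆ A ∧ FC B
  Tcoh : ∀ β A B A' B', (β, A, B) ∈ q.T → (β, A', B') ∈ q.T → coh A B A' B'

/-- `S` is (below `p`) a name of a clopen set disjoint from the columns, where `W` is the set of
conditions below the current stage. -/
structure Good (W : Cd → Prop) (S : Nm) (p : Cd) : Prop where
  valid : ∀ k, W (S k).2.2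
  total : ∀ A, Ix A → ∀ r, W r → r ≤ p → ∃ r', W r' ∧ r' ≤ r ∧ ∃ k, (S k).1 = A ∧ r' ≤ (S k).2.2
  coh : ∀ k k' r, W r → r ≤ p → r ≤ (S k).2.2 → r ≤ (S k').2.2 →
    (S k).2.1 ⊆ (S k).1 ∧ FC (S k).2.1 ∧ coh (S k).1 (S k).2.1 (S k').1 (S k').2.1

/-- The requirement at stage `β`, where `W` is the set of conditions below stage `β`. -/
def StR (W : Cd → Prop) (β : Lam) (q : Cd) : Prop :=
  ∀ S, (β, S) ∈ q.N → Good W S (q.res β) ∧
    ∀ A B, (β, A, B) ∈ q.T → ∃ k, (S k).1 = A ∧ q.res β ≤ (S k).2.2 ∧ ((S k).2.1 \ B).Finite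

/-- The requirement at stage `β`. -/
def St : Lam → Cd → Prop :=
  (wellFounded_lt (α := Lam)).fix fun β rec q =>
    StR (fun r => Base r ∧ Below β r ∧ ∀ γ (h : γ < β), rec γ h r) β q

/-- `q` is a condition. -/
def V (q : Cd) : Prop := Base q ∧ ∀ β, St β q

theorem St_iff' (β : Lam) (q : Cd) :
    St β q ↔ StR (fun r => Base r ∧ Below β r ∧ ∀ γ < β, St γ r) β q := by
  unfold St
  rw [WellFounded.fix_eq]

theorem Below.St {β γ : Lam} {q : Cd} (h : Below β q) (hγ : β ≤ γ) : St γ q := by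
  rw [St_iff']
  intro S hS
  exact absurd (h.2 _ hS) (not_lt.2 hγ)

/-- The conditions below stage `β`. -/
theorem V_Below_iff {β : Lam} {r : Cd} :
    (V r ∧ Below β r) ↔ (Base r ∧ Below β r ∧ ∀ γ < β, Cd.St γ r) := by
  constructor
  · rintro ⟨h1, h2⟩
    exact ⟨h1.1, h2, fun γ _ => h1.2 γ⟩
  · rintro ⟨h1, h2, h3⟩
    refine ⟨⟨h1, fun γ => ?_⟩, h2⟩
    rcases lt_or_ge γ β with h | h
    · exact h3 γ h
    · exact h2.St h

theorem St_iff (β : Lam) (q : Cd) : St β q ↔ StR (fun r => V r ∧ Below β r) β q := by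
  rw [St_iff']
  have : (fun r => Base r ∧ Below β r ∧ ∀ γ < β, Cd.St γ r) = fun r => V r ∧ Below β r := by
    funext r
    exact propext V_Below_iff.symm
  rw [this]

theorem Good.mono {W : Cd → Prop} {S : Nm} {p p' : Cd} (h : Good W S p) (hp : p' ≤ p) :
    Good W S p' where
  valid := h.valid
  total := fun A hA r hr hrp => h.total A hA r hr (hrp.trans hp)
  coh := fun k k' r hr hrp => h.coh k k' r hr (hrp.trans hp)

theorem le_res (β : Lam) (q : Cd) : q ≤ q.res β := by
  refine ⟨by simp [res_a], by rw [res_H], fun x hx => (mem_res_T.1 hx).1,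
    fun x hx => (mem_res_N.1 hx).1⟩

theorem res_mono {β : Lam} {p q : Cd} (h : p ≤ q) : p.res β ≤ q.res β := by
  refine ⟨by rw [res_a, res_a]; exact h.1, by rw [res_H, res_H]; exact h.2.1, ?_, ?_⟩
  · intro x hx
    rw [mem_res_T] at hx ⊢
    exact ⟨h.2.2.1 hx.1, hx.2⟩
  · intro x hx
    rw [mem_res_N] at hx ⊢
    exact ⟨h.2.2.2 hx.1, hx.2⟩

theorem Below_res (β : Lam) (q : Cd) : Below β (q.res β) :=
  ⟨fun _ hx => (mem_res_T.1 hx).2, fun _ hx => (mem_res_N.1 hx).2⟩

theorem Below.le_res {β : Lam} {p q : Cd} (h : Below β q) (hpq : p ≤ q) : p.res β ≤ q := by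
  refine ⟨by rw [res_a]; exact hpq.1, by rw [res_H]; exact hpq.2.1, ?_, ?_⟩
  · intro x hx
    rw [mem_res_T]
    exact ⟨hpq.2.2.1 hx, h.1 x hx⟩
  · intro x hx
    rw [mem_res_N]
    exact ⟨hpq.2.2.2 hx, h.2 x hx⟩

/-- A sufficient condition for the requirement at stage `β`: the promises and the pairs come from
stronger requirements. -/
theorem St_of {β : Lam} {p : Cd}
    (h1 : ∀ S, (β, S) ∈ p.N → ∃ q, St β q ∧ p.res β ≤ q.res β ∧ (β, S) ∈ q.N)
    (h2 : ∀ S A B, (β, S) ∈ p.N → (β, A, B) ∈ p.T →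
      ∃ q, St β q ∧ p.res β ≤ q.res β ∧ (β, S) ∈ q.N ∧ (β, A, B) ∈ q.T) : St β p := by
  rw [St_iff]
  intro S hS
  constructor
  · obtain ⟨q, hq, hpq, hSq⟩ := h1 S hS
    rw [St_iff] at hq
    exact (hq S hSq).1.mono hpq
  · intro A B hAB
    obtain ⟨q, hq, hpq, hSq, hABq⟩ := h2 S A B hS hAB
    rw [St_iff] at hq
    obtain ⟨k, hk1, hk2, hk3⟩ := (hq S hSq).2 A B hABq
    exact ⟨k, hk1, hpq.trans hk2, hk3⟩

/-- The requirement at stage `β` only gets easier for stronger conditions with the same entries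
at `β`. -/
theorem St_mono {β : Lam} {p q : Cd} (h : St β q) (hpq : p ≤ q)
    (h1 : ∀ S, (β, S) ∈ p.N → (β, S) ∈ q.N) (h2 : ∀ A B, (β, A, B) ∈ p.T → (β, A, B) ∈ q.T) :
    St β p :=
  St_of (fun S hS => ⟨q, h, res_mono hpq, h1 S hS⟩)
    (fun S A B hS hAB => ⟨q, h, res_mono hpq, h1 S hS, h2 A B hAB⟩)

theorem Base_nil : Base nil where
  inf := Set.infinite_univ
  Hdom := fun _ _ _ h => by simp [H] at h
  Hfun := fun _ _ _ _ h => by simp [H] at h
  Hcoh := fun _ _ _ _ _ h => by simp [H] at h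
  Tdom := fun _ _ _ h => by simp [T] at h
  Tcoh := fun _ _ _ _ _ h => by simp [T] at h

theorem V_nil : V nil :=
  ⟨Base_nil, fun β => St_of (fun S hS => by simp [N] at hS) (fun S A B hS => by simp [N] at hS)⟩

theorem le_nil (q : Cd) : q ≤ nil :=
  ⟨by simp [a], by simp [H], by simp [T], by simp [N]⟩

/-- Pre-conditions with given countable components exist. -/
theorem exists_cd (a : Set ℕ) {H : Set (J × Set ℕ × Set ℕ)} {T : Set (Lam × Set ℕ × Set ℕ)}
    {N : Set (Lam × Nm)} (hH : H.Countable) (hT : T.Countable) (hN : N.Countable) :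
    ∃ q : Cd, q.a = a ∧ q.H = H ∧ q.T = T ∧ q.N = N := by
  have key : ∀ {X : Type} (s : Set X), s.Countable → ∃ f : ℕ → Option X, {x | ∃ m, f m = some x} = s := by
    intro X s hs
    rcases s.eq_empty_or_nonempty with rfl | hne
    · exact ⟨fun _ => none, by ext x; simp⟩
    · obtain ⟨f, hf⟩ := hs.exists_eq_range hne
      refine ⟨fun m => some (f m), ?_⟩
      rw [hf]
      ext x
      simp
  obtain ⟨h, hh⟩ := key H hH
  obtain ⟨t, ht⟩ := key T hT
  obtain ⟨g, hg⟩ := key N hN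
  refine ⟨mk a h t (fun m => (g m).map fun x => x.1)
    (fun m k => match g m with | none => ∅ | some x => (x.2 k).1)
    (fun m k => match g m with | none => ∅ | some x => (x.2 k).2.1)
    (fun m k => match g m with | none => nil | some x => (x.2 k).2.2), rfl, hh, ht, ?_⟩
  rw [← hg]
  ext ⟨β, S⟩
  simp only [Cd.N, Set.mem_setOf_eq, Option.map_eq_some_iff]
  constructor
  · rintro ⟨m, ⟨⟨γ, S'⟩, h1, h2⟩, h3⟩
    refine ⟨m, ?_⟩
    rw [h1] at h3 ⊢
    simp only at h2 h3
    subst h2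
    rw [h3]
  · rintro ⟨m, h1⟩
    exact ⟨m, ⟨(β, S), h1, rfl⟩, by rw [h1]⟩

theorem H_countable (q : Cd) : q.H.Countable := by
  cases q with
  | nil => simp [H]
  | mk a h t n nA nB nc =>
    refine (Set.countable_range fun m => (h m).toList.head?).preimage_of_injOn
      (f := some) (fun x _ y _ h => Option.some.inj h) |>.mono ?_
    rintro x ⟨m, hm⟩
    exact ⟨m, by simp [hm]⟩

theorem T_countable (q : Cd) : q.T.Countable := by
  cases q with
  | nil => simp [T]
  | mk a h t n nA nB nc =>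
    refine (Set.countable_range fun m => (t m).toList.head?).preimage_of_injOn
      (f := some) (fun x _ y _ h => Option.some.inj h) |>.mono ?_
    rintro x ⟨m, hm⟩
    exact ⟨m, by simp [hm]⟩

theorem N_countable (q : Cd) : q.N.Countable := by
  cases q with
  | nil => simp [N]
  | mk a h t n nA nB nc =>
    refine (Set.countable_range fun m => (n m).map fun β =>
        ((β, fun k => (nA m k, nB m k, nc m k)) : Lam × Nm)).preimage_of_injOn
      (f := some) (fun x _ y _ h => Option.some.inj h) |>.mono ?_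
    rintro ⟨β, S⟩ ⟨m, hm, hS⟩
    simp only at hm hS
    exact ⟨m, by simp [hm, hS]⟩

end Cd

end Pool.Agent.H83.R
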