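import Pool.Agent.H83.R.Ext

/-!
# Density (first part)
-/

set_option autoImplicit false

open Cardinal

namespace Pool.Agent.H83.R

namespace Cd

/-- Entries of the generic clopen sets can be added. -/
theorem densA_addH {q : Cd} (hq : V q) {H' : Set (J × Set ℕ × Set ℕ)} (hc : H'.Countable)
    (hsub : q.H ⊆ H') (hdom : ∀ i A B, (i, A, B) ∈ H' → (A ∩ q.a).Finite ∧ B ⊆ A)
    (hfun : ∀ i A B B', (i, A, B) ∈ H' → (i, A, B') ∈ H' → B = B')
    (hcoh : ∀ i A B A' B', (i, A, B) ∈ H' → (i, A', B') ∈ H' → coh A B A' B') :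
    ∃ p, V p ∧ p ≤ q ∧ p.H = H' := by
  obtain ⟨p, h1, h2, h3, h4⟩ := exists_cd q.a hc (T_countable q) (N_countable q)
  have hpq : p ≤ q := ⟨by rw [h1]; simp, by rw [h2]; exact hsub, h3.ge, h4.ge⟩
  refine ⟨p, ⟨?_, fun β => St_mono (hq.2 β) hpq (fun S hS => by rwa [h4] at hS)
    (fun A B hAB => by rwa [h3] at hAB)⟩, hpq, h2⟩
  exact {
    inf := by rw [h1]; exact hq.1.inf
    Hdom := by rw [h1, h2]; exact hdom
    Hfun := by rw [h2]; exact hfun
    Hcoh := by rw [h2]; exact hcoh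
    Tdom := by rw [h3]; exact hq.1.Tdom
    Tcoh := by rw [h3]; exact hq.1.Tcoh }

/-- The first component can be replaced by an infinite almost subset.

Proof. `exists_cd`; `Base`: `A ∩ b` is finite if `A ∩ q.a` is; stages: `St_mono` with `q`. -/
theorem exists_a {q : Cd} (hq : V q) {b : Set ℕ} (hb : b.Infinite) (h : (b \ q.a).Finite) :
    ∃ p, V p ∧ p ≤ q ∧ p.a = b ∧ p.H = q.H ∧ p.T = q.T ∧ p.N = q.N := by
  obtain ⟨p, h1, h2, h3, h4⟩ := exists_cd b (H_countable q) (T_countable q) (N_countable q)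
  have hpq : p ≤ q := ⟨by rw [h1]; exact h, h2.ge, h3.ge, h4.ge⟩
  refine ⟨p, ⟨?_, fun β => St_mono (hq.2 β) hpq (fun S hS => by rwa [h4] at hS)
    (fun A B hAB => by rwa [h3] at hAB)⟩, hpq, h1, h2, h3, h4⟩
  exact {
    inf := by rw [h1]; exact hb
    Hdom := fun i A B hi => by
      rw [h2] at hi
      obtain ⟨g1, g2⟩ := hq.1.Hdom i A B hi
      refine ⟨(g1.union h).subset ?_, g2⟩
      rw [h1]
      intro x hx
      by_cases hxq : x ∈ q.a
      · exact Or.inl ⟨hx.1, hxq⟩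
      · exact Or.inr ⟨hx.2, hxq⟩
    Hfun := by rw [h2]; exact hq.1.Hfun
    Hcoh := by rw [h2]; exact hq.1.Hcoh
    Tdom := by rw [h3]; exact hq.1.Tdom
    Tcoh := by rw [h3]; exact hq.1.Tcoh }

/-- Entries of the generic clopen sets can be decided.

Proof. If `(i, A, B) ∈ q.H` for some `B` take `p = q`. Otherwise apply `exists_sep` to
`𝒰 = {B' ∩ A | (i, A', B') ∈ q.H}` and `𝒟 = {(A ∩ A') \ B' | (i, A', B') ∈ q.H}` (countable,
`H_countable`; `U ∩ D` is finite by `Hcoh`: `(B' ∩ A'') \ B''` is finite), get `B₀`, put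
`B = B₀ ∩ A` and add `(i, A, B)` to `q.H`. Then `coh A B A' B'` for `(i, A', B') ∈ q.H`:
`(B ∩ A') \ B' ⊆ B₀ ∩ ((A ∩ A') \ B')` and `(B' ∩ A) \ B ⊆ (B' ∩ A) \ B₀`. Stages:
`St_mono` with `q`. -/
theorem exists_H {q : Cd} (hq : V q) (i : J) {A : Set ℕ} (hA : (A ∩ q.a).Finite) :
    ∃ p, V p ∧ p ≤ q ∧ ∃ B, (i, A, B) ∈ p.H := by
  by_cases hex : ∃ B, (i, A, B) ∈ q.H
  · exact ⟨q, hq, le_refl q, hex⟩
  push Not at hex
  have hcnt : {x ∈ q.H | x.1 = i}.Countable := (H_countable q).mono fun x hx => hx.1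
  obtain ⟨B₀, hU, hD⟩ := exists_sep ((fun x => x.2.2 ∩ A) '' {x ∈ q.H | x.1 = i})
    ((fun x => (A ∩ x.2.1) \ x.2.2) '' {x ∈ q.H | x.1 = i}) (hcnt.image _) (hcnt.image _) (by
      rintro _ ⟨⟨i₁, A₁, B₁⟩, ⟨hx1, rfl⟩, rfl⟩ _ ⟨⟨i₂, A₂, B₂⟩, ⟨hx2, hi2⟩, rfl⟩
      have hi2 : i₂ = i₁ := hi2
      subst hi2
      refine (hq.1.Hcoh _ _ _ _ _ hx1 hx2).1.subset ?_
      rintro x ⟨⟨p1, -⟩, ⟨-, p3⟩, p4⟩
      exact ⟨⟨p1, p3⟩, p4⟩)
  have hU' : ∀ A' B', (i, A', B') ∈ q.H → ((B' ∩ A) \ B₀).Finite := fun A' B' hx =>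
    hU _ ⟨(i, A', B'), ⟨hx, rfl⟩, rfl⟩
  have hD' : ∀ A' B', (i, A', B') ∈ q.H → (B₀ ∩ ((A ∩ A') \ B')).Finite := fun A' B' hx =>
    hD _ ⟨(i, A', B'), ⟨hx, rfl⟩, rfl⟩
  have hco : ∀ A' B', (i, A', B') ∈ q.H → coh A (B₀ ∩ A) A' B' := by
    intro A' B' hx
    refine ⟨(hD' A' B' hx).subset ?_, (hU' A' B' hx).subset ?_⟩
    · rintro x ⟨⟨⟨p1, p2⟩, p3⟩, p4⟩
      exact ⟨p1, ⟨p2, p3⟩, p4⟩
    · rintro x ⟨⟨p1, p2⟩, p3⟩
      exact ⟨⟨p1, p2⟩, fun p4 => p3 ⟨p4, p2⟩⟩
  obtain ⟨p, hp1, hp2, hp3⟩ := densA_addH (q := q) hq (H' := insert (i, A, B₀ ∩ A) q.H)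
    ((H_countable q).insert _) (Set.subset_insert _ _) (by
      intro i' A' B' hx
      rcases Set.mem_insert_iff.1 hx with h | h
      · simp only [Prod.mk.injEq] at h
        obtain ⟨-, rfl, rfl⟩ := h
        exact ⟨hA, Set.inter_subset_right⟩
      · exact hq.1.Hdom _ _ _ h) (by
      intro i' A' B' B'' hx hx'
      rcases Set.mem_insert_iff.1 hx with h | h
      · simp only [Prod.mk.injEq] at h
        obtain ⟨rfl, rfl, rfl⟩ := h
        rcases Set.mem_insert_iff.1 hx' with h' | h'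
        · simp only [Prod.mk.injEq, true_and] at h'
          exact h'.symm
        · exact absurd h' (hex _)
      · rcases Set.mem_insert_iff.1 hx' with h' | h'
        · simp only [Prod.mk.injEq] at h'
          obtain ⟨rfl, rfl, rfl⟩ := h'
          exact absurd h (hex _)
        · exact hq.1.Hfun _ _ _ _ h h') (by
      intro i' A₁ B₁ A₂ B₂ hx hx'
      rcases Set.mem_insert_iff.1 hx with h | h
      · simp only [Prod.mk.injEq] at h
        obtain ⟨rfl, rfl, rfl⟩ := h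
        rcases Set.mem_insert_iff.1 hx' with h' | h'
        · simp only [Prod.mk.injEq, true_and] at h'
          obtain ⟨rfl, rfl⟩ := h'
          exact coh_self _ _
        · exact hco _ _ h'
      · rcases Set.mem_insert_iff.1 hx' with h' | h'
        · simp only [Prod.mk.injEq] at h'
          obtain ⟨rfl, rfl, rfl⟩ := h'
          exact coh_symm (hco _ _ h)
        · exact hq.1.Hcoh _ _ _ _ _ h h')
  exact ⟨p, hp1, hp2, B₀ ∩ A, by rw [hp3]; exact Set.mem_insert _ _⟩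

/-- The value of a new generic clopen set at `{0}` can be chosen.

Proof. Add `{(i, {0}, f i) | i ∈ I}` to `q.H` (`exists_cd`). At `i ∈ I` this is the only entry;
`coh_self`; stages: `St_mono` with `q`. -/
theorem exists_bits {q : Cd} (hq : V q) (I : Set J) (hI : I.Countable) (h : ∀ i ∈ I, ¬ AtH i q)
    (f : J → Set ℕ) (hf : ∀ i, f i ⊆ {0}) :
    ∃ p, V p ∧ p ≤ q ∧ ∀ i ∈ I, (i, {0}, f i) ∈ p.H := by
  have hmem : ∀ i A B, (i, A, B) ∈ (q.H ∪ (fun i => (i, {0}, f i)) '' I :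
      Set (J × Set ℕ × Set ℕ)) → (i, A, B) ∈ q.H ∨ (i ∈ I ∧ A = {0} ∧ B = f i) := by
    rintro i A B (hx | ⟨j, hj, hx⟩)
    · exact Or.inl hx
    · simp only [Prod.mk.injEq] at hx
      obtain ⟨rfl, rfl, rfl⟩ := hx
      exact Or.inr ⟨hj, rfl, rfl⟩
  obtain ⟨p, hp1, hp2, hp3⟩ := densA_addH (q := q) hq
    (H' := q.H ∪ (fun i => (i, {0}, f i)) '' I)
    ((H_countable q).union (hI.image _)) Set.subset_union_left (by
      intro i A B hx
      rcases hmem i A B hx with h' | ⟨h1, rfl, rfl⟩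
      · exact hq.1.Hdom _ _ _ h'
      · exact ⟨(Set.finite_singleton 0).subset Set.inter_subset_left, hf i⟩) (by
      intro i A B B' hx hx'
      rcases hmem i A B hx with h' | ⟨h1, h2, h3⟩
      · rcases hmem i A B' hx' with h'' | ⟨h1', h2', h3'⟩
        · exact hq.1.Hfun _ _ _ _ h' h''
        · exact absurd ⟨A, B, h'⟩ (h i h1')
      · rcases hmem i A B' hx' with h'' | ⟨h1', h2', h3'⟩
        · exact absurd ⟨A, B', h''⟩ (h i h1)
        · rw [h3, h3']) (by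
      intro i A B A' B' hx hx'
      rcases hmem i A B hx with h' | ⟨h1, h2, h3⟩
      · rcases hmem i A' B' hx' with h'' | ⟨h1', h2', h3'⟩
        · exact hq.1.Hcoh _ _ _ _ _ h' h''
        · exact absurd ⟨A, B, h'⟩ (h i h1')
      · rcases hmem i A' B' hx' with h'' | ⟨h1', h2', h3'⟩
        · exact absurd ⟨A', B', h''⟩ (h i h1)
        · rw [h2, h3, h2', h3']
          exact coh_self _ _)
  refine ⟨p, hp1, hp2, fun i hi => ?_⟩
  rw [hp3]
  exact Or.inr ⟨i, hi, rfl⟩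

/-- Promises can be added.

Proof. Add `(β, S)` to `q.N` (`exists_cd`), get `p ≤ q`. Stage `γ ≠ β`: `St_mono` with `q`. Stage
`β`: by `St_iff`, for the promise `S`: `hS.mono` (`p.res β ≤ q.res β`), and there are no entries of
`p.T = q.T` at `β`; for the other promises use `q` (as in `St_of`; `hβ` makes the second part
vacuous). -/
theorem exists_N {q : Cd} (hq : V q) (β : Lam) (hβ : ∀ A B, (β, A, B) ∉ q.T) {S : Nm}
    (hS : Good (fun r => V r ∧ Below β r) S (q.res β)) :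
    ∃ p, V p ∧ p ≤ q ∧ (β, S) ∈ p.N := by
  obtain ⟨p, h1, h2, h3, h4⟩ := exists_cd q.a (H_countable q) (T_countable q)
    ((N_countable q).insert (β, S))
  have hpq : p ≤ q := ⟨by rw [h1]; simp, h2.ge, h3.ge, by rw [h4]; exact Set.subset_insert _ _⟩
  refine ⟨p, ⟨?_, fun γ => ?_⟩, hpq, by rw [h4]; exact Set.mem_insert _ _⟩
  · exact {
      inf := by rw [h1]; exact hq.1.inf
      Hdom := by rw [h1, h2]; exact hq.1.Hdom
      Hfun := by rw [h2]; exact hq.1.Hfun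
      Hcoh := by rw [h2]; exact hq.1.Hcoh
      Tdom := by rw [h3]; exact hq.1.Tdom
      Tcoh := by rw [h3]; exact hq.1.Tcoh }
  · by_cases hγ : γ = β
    · subst hγ
      rw [St_iff]
      intro S' hS'
      refine ⟨?_, fun A B hAB => ?_⟩
      · rw [h4] at hS'
        rcases Set.mem_insert_iff.1 hS' with h' | h'
        · simp only [Prod.mk.injEq, true_and] at h'
          rw [h']
          exact hS.mono (res_mono hpq)
        · have h5 := hq.2 γ
          rw [St_iff] at h5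
          exact (h5 S' h').1.mono (res_mono hpq)
      · rw [h3] at hAB
        exact absurd hAB (hβ A B)
    · refine St_mono (hq.2 γ) hpq (fun S' hS' => ?_) (fun A B hAB => by rwa [h3] at hAB)
      rw [h4] at hS'
      rcases Set.mem_insert_iff.1 hS' with h' | h'
      · simp only [Prod.mk.injEq] at h'
        exact absurd h'.1 hγ
      · exact h'

end Cd

end Pool.Agent.H83.R
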