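import Pool.Agent.H83.R.Ext

/-!
# Density (second part): entries of the dominating clopen sets
-/

set_option autoImplicit false

open Cardinal

namespace Pool.Agent.H83.R

namespace Cd

/-- The promises of a condition at stage `β` can be decided at `A`. -/
theorem densB_decide {q : Cd} (hq : V q) (β : Lam) {A : Set ℕ} (hA : Ix A) :
    ∃ r, V r ∧ Below β r ∧ r ≤ q.res β ∧
      ∀ S, (β, S) ∈ q.N → ∃ k, (S k).1 = A ∧ r ≤ (S k).2.2 := by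
  have hcount : {S : Nm | (β, S) ∈ q.N}.Countable :=
    (N_countable q).preimage_of_injOn (f := fun S : Nm => ((β, S) : Lam × Nm))
      (fun S _ S' _ h => (Prod.mk.inj h).2)
  rcases {S : Nm | (β, S) ∈ q.N}.eq_empty_or_nonempty with hne | hne
  · refine ⟨q.res β, V_res hq β, Below_res β q, le_refl _, fun S hS => ?_⟩
    have h1 : S ∈ {S : Nm | (β, S) ∈ q.N} := hS
    rw [hne] at h1
    exact absurd h1 (Set.notMem_empty S)
  obtain ⟨e, he⟩ := hcount.exists_eq_range hne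
  have hmem : ∀ n, (β, e n) ∈ q.N := fun n => by
    have h1 : e n ∈ {S : Nm | (β, S) ∈ q.N} := he ▸ Set.mem_range_self n
    exact h1
  let X : Type := {r : Cd // V r ∧ Below β r ∧ r ≤ q.res β}
  have hstep : ∀ (n : ℕ) (x : X), ∃ y : X, y.1 ≤ x.1 ∧ ∃ k, (e n k).1 = A ∧ y.1 ≤ (e n k).2.2 := by
    intro n x
    have h1 := ((St_iff β q).1 (hq.2 β) (e n) (hmem n)).1
    obtain ⟨r', hr', hle, k, hk1, hk2⟩ := h1.total A hA x.1 ⟨x.2.1, x.2.2.1⟩ x.2.2.2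
    exact ⟨⟨r', hr'.1, hr'.2, hle.trans x.2.2.2⟩, hle, k, hk1, hk2⟩
  choose g hg1 hg2 using hstep
  let f : ℕ → X := fun n => Nat.rec ⟨q.res β, V_res hq β, Below_res β q, le_refl _⟩ (fun n x => g n x) n
  have hfs : ∀ n, f (n + 1) = g n (f n) := fun n => rfl
  have hf0 : (f 0).1 = q.res β := rfl
  obtain ⟨p, hp, hpf, -, hpT, hpN⟩ := exists_inf (fun n => (f n).1) (fun n => (f n).2.1)
    (fun n => by rw [hfs]; exact hg1 n (f n))
  refine ⟨p, hp, ⟨?_, ?_⟩, ?_, ?_⟩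
  · intro x hx
    rw [hpT] at hx
    obtain ⟨n, hn⟩ := Set.mem_iUnion.1 hx
    exact (f n).2.2.1.1 x hn
  · intro x hx
    rw [hpN] at hx
    obtain ⟨n, hn⟩ := Set.mem_iUnion.1 hx
    exact (f n).2.2.1.2 x hn
  · have := hpf 0
    rw [hf0] at this
    exact this
  · intro S hS
    have h1 : S ∈ Set.range e := by
      rw [← he]
      exact hS
    obtain ⟨n, rfl⟩ := h1
    obtain ⟨k, hk1, hk2⟩ := hg2 n (f n)
    refine ⟨k, hk1, ?_⟩
    have h2 := hpf (n + 1)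
    rw [hfs] at h2
    exact h2.trans hk2

/-- Entries of the dominating clopen sets can be decided.

Proof. Let `𝒮 = {S | (β, S) ∈ q.N}` (countable). First find a condition `r` below stage `β` with
`r ≤ q.res β` such that for every `S ∈ 𝒮` there is `k` with `(S k).1 = A` and `r ≤ (S k).2.2`:
enumerate `𝒮`, start with `q.res β` (`V_res`, `Below_res`), use `Good.total` (`St_iff`, `q.2.2 β`)
at each step, and take the lower bound of `exists_inf` (it is below `β` because its `T`- and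
`N`-components are the unions). Let `s ≤ q, r` be given by `exists_cat`; the entries of `s` at `β`
are the entries of `q` at `β`. If `(β, A, B) ∈ s.T` for some `B` we are done. Otherwise apply
`exists_sep` to
`𝒰 = {(S k).2.1 | S ∈ 𝒮, (S k).1 = A, r ≤ (S k).2.2} ∪ {B' ∩ A | (β, A', B') ∈ q.T}`: choose ONE
`k` for every `S` so that this is countable, and `𝒟 = {(A ∩ A') \ B' | (β, A', B') ∈ q.T} ∪
{col n | n}`. Intersections are finite: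
* `(S k).2.1 ∩ ((A ∩ A') \ B')`: by `StR` for `q` at `β` there is `k'` with `(S k').1 = A'`,
  `q.res β ≤ (S k').2.2` and `(S k').2.1 \ B'` finite; by `Good.coh` (for `r`, `k`, `k'`)
  `((S k).2.1 ∩ A') \ (S k').2.1` is finite;
* `(S k).2.1 ∩ col n`: `Good.coh` gives `FC (S k).2.1`;
* `(B' ∩ A) ∩ ((A ∩ A'') \ B'')`: `Tcoh`; `(B' ∩ A) ∩ col n`: `Tdom` (`FC B'`).
Let `B₀` be the set given by `exists_sep`, `B = B₀ ∩ A`, and add `(β, A, B)` to `s.T`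
(`exists_cd`) to get `p`. `Base p`: `Ix A`, `FC B`, `B ⊆ A`, coherence as in `exists_H`. Stage
`γ ≠ β`: `St_mono` with `s`. Stage `β` (`St_iff`): for `S` with `(β, S) ∈ p.N = s.N`, so
`(β, S) ∈ q.N`: `Good` by `mono` from `q`; old pairs `(β, A', B') ∈ q.T` as in `St_of`; the new
pair `(A, B)`: the chosen `k`, with `p.res β ≤ r ≤ (S k).2.2` (`Below.le_res`) and
`(S k).2.1 \ B` finite (note `(S k).2.1 ⊆ (S k).1 = A` by `Good.coh`). -/
theorem exists_T {q : Cd} (hq : V q) (β : Lam) {A : Set ℕ} (hA : Ix A) :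
    ∃ p, V p ∧ p ≤ q ∧ ∃ B, (β, A, B) ∈ p.T := by
  classical
  obtain ⟨r, hr, hrb, hrq, hrS⟩ := densB_decide hq β hA
  obtain ⟨s, hs, hsq, hsr, hsT, hsN⟩ := exists_cat hq hr hrb hrq
  by_cases hex : ∃ B, (β, A, B) ∈ s.T
  · exact ⟨s, hs, hsq, hex⟩
  -- the requirement for `q` at stage `β`
  have hst := (St_iff β q).1 (hq.2 β)
  -- choice of the index
  have hkk : ∃ kk : Nm → Set ℕ, ∀ S, (β, S) ∈ q.N → (S (kk S)).1 = A ∧ r ≤ (S (kk S)).2.2 := by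
    refine ⟨fun S => if h : (β, S) ∈ q.N then (hrS S h).choose else ∅, fun S hS => ?_⟩
    have h1 := (hrS S hS).choose_spec
    simp only [dif_pos hS]
    exact h1
  obtain ⟨kk, hkk⟩ := hkk
  let 𝒰 : Set (Set ℕ) := (fun x : Lam × Nm => (x.2 (kk x.2)).2.1) '' {x | x ∈ q.N ∧ x.1 = β} ∪
    (fun x : Lam × Set ℕ × Set ℕ => x.2.2 ∩ A) '' {x | x ∈ q.T ∧ x.1 = β}
  let 𝒟 : Set (Set ℕ) := (fun x : Lam × Set ℕ × Set ℕ => (A ∩ x.2.1) \ x.2.2) ''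
    {x | x ∈ q.T ∧ x.1 = β} ∪ Set.range col
  have hTc : {x : Lam × Set ℕ × Set ℕ | x ∈ q.T ∧ x.1 = β}.Countable :=
    (T_countable q).mono fun x hx => hx.1
  have hNc : {x : Lam × Nm | x ∈ q.N ∧ x.1 = β}.Countable := (N_countable q).mono fun x hx => hx.1
  have h𝒰 : 𝒰.Countable := (hNc.image _).union (hTc.image _)
  have h𝒟 : 𝒟.Countable := (hTc.image _).union (Set.countable_range _)
  have hfin : ∀ U ∈ 𝒰, ∀ D ∈ 𝒟, (U ∩ D).Finite := by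
    rintro U (⟨⟨γ, S⟩, ⟨hS, rfl⟩, rfl⟩ | ⟨⟨γ, A1, B1⟩, ⟨hT1, rfl⟩, rfl⟩) D
      (⟨⟨γ', A2, B2⟩, ⟨hT2, hγ⟩, rfl⟩ | ⟨n, rfl⟩)
    · simp only at hγ
      subst hγ
      obtain ⟨hG, hG2⟩ := hst S hS
      obtain ⟨k', hk1, hk2, hk3⟩ := hG2 A2 B2 hT2
      obtain ⟨hk4, hk5⟩ := hkk S hS
      have h1 := (hG.coh (kk S) k' r ⟨hr, hrb⟩ hrq hk5 (hrq.trans hk2)).2.2.1
      refine (h1.union hk3).subset ?_
      rintro x ⟨hx1, ⟨hx2, hx3⟩, hx4⟩
      simp only at hx1 hx2 hx3 hx4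
      by_cases hx5 : x ∈ (S k').2.1
      · exact Or.inr ⟨hx5, hx4⟩
      · exact Or.inl ⟨⟨hx1, by rw [hk1]; exact hx3⟩, hx5⟩
    · obtain ⟨hG, hG2⟩ := hst S hS
      obtain ⟨hk4, hk5⟩ := hkk S hS
      exact (hG.coh (kk S) (kk S) r ⟨hr, hrb⟩ hrq hk5 hk5).2.1 n
    · simp only at hγ
      subst hγ
      refine (hq.1.Tcoh _ _ _ _ _ hT1 hT2).1.subset ?_
      rintro x ⟨⟨hx1, hx2⟩, ⟨hx3, hx4⟩, hx5⟩
      exact ⟨⟨hx1, hx4⟩, hx5⟩
    · refine ((hq.1.Tdom _ _ _ hT1).2.2 n).subset ?_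
      rintro x ⟨⟨hx1, hx2⟩, hx3⟩
      exact ⟨hx1, hx3⟩
  obtain ⟨B₀, hB1, hB2⟩ := exists_sep 𝒰 𝒟 h𝒰 h𝒟 hfin
  have hU1 : ∀ S, (β, S) ∈ q.N → ((S (kk S)).2.1 \ B₀).Finite := fun S hS =>
    hB1 _ (Or.inl ⟨(β, S), ⟨hS, rfl⟩, rfl⟩)
  have hU2 : ∀ A1 B1, (β, A1, B1) ∈ q.T → ((B1 ∩ A) \ B₀).Finite := fun A1 B1 h1 =>
    hB1 _ (Or.inr ⟨(β, A1, B1), ⟨h1, rfl⟩, rfl⟩)
  have hD1 : ∀ A1 B1, (β, A1, B1) ∈ q.T → (B₀ ∩ ((A ∩ A1) \ B1)).Finite := fun A1 B1 h1 =>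
    hB2 _ (Or.inl ⟨(β, A1, B1), ⟨h1, rfl⟩, rfl⟩)
  have hD2 : ∀ n, (B₀ ∩ col n).Finite := fun n => hB2 _ (Or.inr ⟨n, rfl⟩)
  obtain ⟨p, hpa, hpH, hpT, hpN⟩ := exists_cd s.a (H_countable s)
    (T := insert (β, A, B₀ ∩ A) s.T) ((T_countable s).insert _) (N_countable s)
  have hps : p ≤ s := by
    refine ⟨?_, ?_, ?_, ?_⟩
    · rw [hpa, Set.sdiff_self]
      exact Set.finite_empty
    · rw [hpH]
    · rw [hpT]
      exact Set.subset_insert _ _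
    · rw [hpN]
  have hcohn : ∀ A1 B1, (β, A1, B1) ∈ s.T → coh A (B₀ ∩ A) A1 B1 := by
    intro A1 B1 h1
    have h2 := hsT _ h1 (le_refl _)
    constructor
    · refine (hD1 A1 B1 h2).subset ?_
      rintro x ⟨⟨⟨hx1, hx2⟩, hx3⟩, hx4⟩
      exact ⟨hx1, ⟨hx2, hx3⟩, hx4⟩
    · refine (hU2 A1 B1 h2).subset ?_
      rintro x ⟨⟨hx1, hx2⟩, hx3⟩
      exact ⟨⟨hx1, hx2⟩, fun hx4 => hx3 ⟨hx4, hx2⟩⟩
  have hbase : Base p := by
    refine ⟨?_, ?_, ?_, ?_, ?_, ?_⟩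
    · rw [hpa]; exact hs.1.inf
    · rw [hpH, hpa]; exact hs.1.Hdom
    · rw [hpH]; exact hs.1.Hfun
    · rw [hpH]; exact hs.1.Hcoh
    · intro γ A1 B1 h1
      rw [hpT] at h1
      rcases h1 with h1 | h1
      · obtain ⟨-, h2⟩ := Prod.mk.inj h1
        obtain ⟨rfl, rfl⟩ := Prod.mk.inj h2
        refine ⟨hA, Set.inter_subset_right, fun n => (hD2 n).subset ?_⟩
        rintro x ⟨⟨hx1, _⟩, hx2⟩
        exact ⟨hx1, hx2⟩
      · exact hs.1.Tdom _ _ _ h1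
    · intro γ A1 B1 A2 B2 h1 h2
      rw [hpT] at h1 h2
      rcases h1 with h1 | h1
      · obtain ⟨rfl, h3⟩ := Prod.mk.inj h1
        obtain ⟨rfl, rfl⟩ := Prod.mk.inj h3
        rcases h2 with h2 | h2
        · obtain ⟨-, h4⟩ := Prod.mk.inj h2
          obtain ⟨rfl, rfl⟩ := Prod.mk.inj h4
          exact coh_self _ _
        · exact hcohn _ _ h2
      · rcases h2 with h2 | h2
        · obtain ⟨rfl, h4⟩ := Prod.mk.inj h2
          obtain ⟨rfl, rfl⟩ := Prod.mk.inj h4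
          exact coh_symm (hcohn _ _ h1)
        · exact hs.1.Tcoh _ _ _ _ _ h1 h2
  refine ⟨p, ⟨hbase, fun γ => ?_⟩, hps.trans hsq, B₀ ∩ A, by rw [hpT]; exact Set.mem_insert _ _⟩
  by_cases hγ : γ = β
  · subst hγ
    rw [St_iff]
    intro S hS
    rw [hpN] at hS
    have hSq := hsN _ hS (le_refl _)
    obtain ⟨hG, hG2⟩ := hst S hSq
    refine ⟨hG.mono (res_mono (hps.trans hsq)), fun A1 B1 h1 => ?_⟩
    rw [hpT] at h1
    rcases h1 with h1 | h1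
    · obtain ⟨-, h2⟩ := Prod.mk.inj h1
      obtain ⟨rfl, rfl⟩ := Prod.mk.inj h2
      obtain ⟨hk4, hk5⟩ := hkk S hSq
      refine ⟨kk S, hk4, (hrb.le_res (hps.trans hsr)).trans hk5, ?_⟩
      have h3 := (hG.coh (kk S) (kk S) r ⟨hr, hrb⟩ hrq hk5 hk5).1
      rw [hk4] at h3
      refine (hU1 S hSq).subset ?_
      rintro x ⟨hx1, hx2⟩
      exact ⟨hx1, fun hx3 => hx2 ⟨hx3, h3 hx1⟩⟩
    · obtain ⟨k, hk1, hk2, hk3⟩ := hG2 A1 B1 (hsT _ h1 (le_refl _))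
      exact ⟨k, hk1, (res_mono (hps.trans hsq)).trans hk2, hk3⟩
  · refine St_mono (hs.2 γ) hps (fun S hS => by rw [hpN] at hS; exact hS) fun A1 B1 h1 => ?_
    rw [hpT] at h1
    rcases h1 with h1 | h1
    · exact absurd (Prod.mk.inj h1).1 hγ
    · exact h1

end Cd

end Pool.Agent.H83.R
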