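import Pool.Agent.H83.R.Cd

/-!
# Extensions of conditions: restriction, catenation, limits, unions

Status: complete (helper26).
-/

set_option autoImplicit false

open Cardinal

namespace Pool.Agent.H83.R

namespace Cd

/-- `q` has an entry at coordinate `i` of the generic clopen sets. -/
def AtH (i : J) (q : Cd) : Prop := ∃ A B, (i, A, B) ∈ q.H

/-- `q` has an entry at stage `β`. -/
def AtT (β : Lam) (q : Cd) : Prop := (∃ A B, (β, A, B) ∈ q.T) ∨ ∃ S, (β, S) ∈ q.N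

/-- Restrictions of conditions are conditions.

Proof. `Base`: the components `a`, `H` are the same (`res_a`, `res_H`), the component `T` is
smaller (`mem_res_T`). Stage `γ`: if `β ≤ γ` use `Below.St (Below_res β q)`. If `γ < β` use `St_of`
with the condition `q` itself: `(q.res β).res γ ≤ q.res γ` by `Below.le_res (Below_res γ q)` (as
`q.res β ≤ q.res γ`? one has `q.res β ≤ q.res γ` from `mem_res_T`, `mem_res_N`), and entries of
`q.res β` at `γ` are entries of `q`. -/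
theorem V_res {q : Cd} (hq : V q) (β : Lam) : V (q.res β) := by
  refine ⟨⟨?_, ?_, ?_, ?_, ?_, ?_⟩, fun γ => ?_⟩
  · rw [res_a]; exact hq.1.inf
  · intro i A B h
    rw [res_H] at h
    rw [res_a]
    exact hq.1.Hdom i A B h
  · intro i A B B' h h'
    rw [res_H] at h h'
    exact hq.1.Hfun i A B B' h h'
  · intro i A B A' B' h h'
    rw [res_H] at h h'
    exact hq.1.Hcoh i A B A' B' h h'
  · intro γ A B h
    exact hq.1.Tdom γ A B (mem_res_T.1 h).1
  · intro γ A B A' B' h h'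
    exact hq.1.Tcoh γ A B A' B' (mem_res_T.1 h).1 (mem_res_T.1 h').1
  · rcases le_or_gt β γ with h | h
    · exact (Below_res β q).St h
    · have hle : (q.res β).res γ ≤ q.res γ := by
        refine ⟨by rw [res_a, res_a, res_a]; simp, by rw [res_H, res_H, res_H], ?_, ?_⟩
        · intro x hx
          rw [mem_res_T] at hx
          rw [mem_res_T, mem_res_T]
          exact ⟨⟨hx.1, hx.2.trans h⟩, hx.2⟩
        · intro x hx
          rw [mem_res_N] at hx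
          rw [mem_res_N, mem_res_N]
          exact ⟨⟨hx.1, hx.2.trans h⟩, hx.2⟩
      exact St_of (fun S hS => ⟨q, hq.2 γ, hle, (mem_res_N.1 hS).1⟩)
        (fun S A B hS hAB => ⟨q, hq.2 γ, hle, (mem_res_N.1 hS).1, (mem_res_T.1 hAB).1⟩)

/-- Catenation: `r` is a condition below stage `β`, stronger than the restriction of `q`.

Proof. Take `s` with `s.a = r.a`, `s.H = r.H`, `s.T = r.T ∪ {x ∈ q.T | β ≤ x.1}`,
`s.N = r.N ∪ {x ∈ q.N | β ≤ x.1}` (`exists_cd`, `T_countable`, ...). `s ≤ r` is clear, and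
`s ≤ q` because `r ≤ q.res β`. `Base s`: the `H`-part is that of `r`; the entries of `s.T` at one
stage `γ` all come from `r` (if `γ < β`; by `hb` all entries of `r` are at stages `< β`) or all
from `q` (if `β ≤ γ`). Stage `γ` of `s`: use `St_of` with the condition `r` if `γ < β` and with the
condition `q` if `β ≤ γ` (`res_mono`). -/
theorem exists_cat {β : Lam} {q r : Cd} (hq : V q) (hr : V r) (hb : Below β r)
    (h : r ≤ q.res β) :
    ∃ s, V s ∧ s ≤ q ∧ s ≤ r ∧ (∀ x ∈ s.T, β ≤ x.1 → x ∈ q.T) ∧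
      ∀ x ∈ s.N, β ≤ x.1 → x ∈ q.N := by
  obtain ⟨s, hsa, hsH, hsT, hsN⟩ := exists_cd r.a (H := r.H)
    (T := r.T ∪ {x ∈ q.T | β ≤ x.1}) (N := r.N ∪ {x ∈ q.N | β ≤ x.1}) r.H_countable
    (r.T_countable.union (q.T_countable.mono fun x hx => hx.1))
    (r.N_countable.union (q.N_countable.mono fun x hx => hx.1))
  have hTr : ∀ x, x ∈ s.T → x.1 < β → x ∈ r.T := by
    intro x hx hxβ
    rw [hsT] at hx
    rcases hx with hx | hx
    · exact hx
    · exact absurd hxβ (not_lt.2 hx.2)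
  have hTq : ∀ x, x ∈ s.T → β ≤ x.1 → x ∈ q.T := by
    intro x hx hxβ
    rw [hsT] at hx
    rcases hx with hx | hx
    · exact absurd (hb.1 x hx) (not_lt.2 hxβ)
    · exact hx.1
  have hNr : ∀ x, x ∈ s.N → x.1 < β → x ∈ r.N := by
    intro x hx hxβ
    rw [hsN] at hx
    rcases hx with hx | hx
    · exact hx
    · exact absurd hxβ (not_lt.2 hx.2)
  have hNq : ∀ x, x ∈ s.N → β ≤ x.1 → x ∈ q.N := by
    intro x hx hxβ
    rw [hsN] at hx
    rcases hx with hx | hx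
    · exact absurd (hb.2 x hx) (not_lt.2 hxβ)
    · exact hx.1
  have hsr : s ≤ r := by
    refine ⟨by rw [hsa]; simp, by rw [hsH], by rw [hsT]; exact Set.subset_union_left, by
      rw [hsN]; exact Set.subset_union_left⟩
  have hsq : s ≤ q := by
    refine ⟨by rw [hsa]; have h1 := h.1; rwa [res_a] at h1, by
      rw [hsH]; have h1 := h.2.1; rwa [res_H] at h1, ?_, ?_⟩
    · intro x hx
      rw [hsT]
      rcases lt_or_ge x.1 β with hxβ | hxβ
      · exact Or.inl (h.2.2.1 (mem_res_T.2 ⟨hx, hxβ⟩))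
      · exact Or.inr ⟨hx, hxβ⟩
    · intro x hx
      rw [hsN]
      rcases lt_or_ge x.1 β with hxβ | hxβ
      · exact Or.inl (h.2.2.2 (mem_res_N.2 ⟨hx, hxβ⟩))
      · exact Or.inr ⟨hx, hxβ⟩
  refine ⟨s, ⟨⟨?_, ?_, ?_, ?_, ?_, ?_⟩, fun γ => ?_⟩, hsq, hsr, hTq, hNq⟩
  · rw [hsa]; exact hr.1.inf
  · intro i A B h
    rw [hsH] at h
    rw [hsa]
    exact hr.1.Hdom i A B h
  · intro i A B B' h h'
    rw [hsH] at h h'
    exact hr.1.Hfun i A B B' h h'
  · intro i A B A' B' h h'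
    rw [hsH] at h h'
    exact hr.1.Hcoh i A B A' B' h h'
  · intro γ A B hx
    rcases lt_or_ge γ β with hγ | hγ
    · exact hr.1.Tdom γ A B (hTr _ hx hγ)
    · exact hq.1.Tdom γ A B (hTq _ hx hγ)
  · intro γ A B A' B' hx hx'
    rcases lt_or_ge γ β with hγ | hγ
    · exact hr.1.Tcoh γ A B A' B' (hTr _ hx hγ) (hTr _ hx' hγ)
    · exact hq.1.Tcoh γ A B A' B' (hTq _ hx hγ) (hTq _ hx' hγ)
  · rcases lt_or_ge γ β with hγ | hγ
    · exact St_mono (hr.2 γ) hsr (fun S hS => hNr _ hS hγ) (fun A B hAB => hTr _ hAB hγ)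
    · exact St_mono (hq.2 γ) hsq (fun S hS => hNq _ hS hγ) (fun A B hAB => hTq _ hAB hγ)

/-- Decreasing sequences have lower bounds.

Proof. Let `b` be a pseudo-intersection of the sets `(f n).a` (`exists_pseudo`) and `p` with
`p.a = b`, `p.H = ⋃ n, (f n).H` etc. (`exists_cd`). `Base p`: any two elements of `p.H` belong to
some `(f n).H` (the sequence `(f n).H` is increasing); `A ∩ b` is finite if `A ∩ (f n).a` is.
Stage `β`: `St_of`, given `(β, S) ∈ p.N` and `(β, A, B) ∈ p.T` there is `n` with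
`(β, S) ∈ (f n).N`, `(β, A, B) ∈ (f n).T`; take `q = f n` (`res_mono (p ≤ f n)`). -/
theorem exists_inf (f : ℕ → Cd) (hV : ∀ n, V (f n)) (hf : ∀ n, f (n + 1) ≤ f n) :
    ∃ p, V p ∧ (∀ n, p ≤ f n) ∧ p.H = ⋃ n, (f n).H ∧ p.T = ⋃ n, (f n).T ∧
      p.N = ⋃ n, (f n).N := by
  have hmono : ∀ n m, n ≤ m → f m ≤ f n := by
    intro n m hnm
    induction m, hnm using Nat.le_induction with
    | base => exact le_rfl
    | succ m _ ih => exact (hf m).trans ih
  obtain ⟨b, hb1, hb2⟩ := exists_pseudo (fun n => (f n).a) (fun n => (hV n).1.inf)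
    (fun n => (hf n).1)
  obtain ⟨p, hpa, hpH, hpT, hpN⟩ := exists_cd b (H := ⋃ n, (f n).H)
    (T := ⋃ n, (f n).T) (N := ⋃ n, (f n).N)
    (Set.countable_iUnion fun n => (f n).H_countable)
    (Set.countable_iUnion fun n => (f n).T_countable)
    (Set.countable_iUnion fun n => (f n).N_countable)
  have hle : ∀ n, p ≤ f n := by
    intro n
    refine ⟨by rw [hpa]; exact hb2 n, by rw [hpH]; exact Set.subset_iUnion (fun n => (f n).H) n,
      by rw [hpT]; exact Set.subset_iUnion (fun n => (f n).T) n,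
      by rw [hpN]; exact Set.subset_iUnion (fun n => (f n).N) n⟩
  have hH : ∀ x, x ∈ p.H → ∃ n, ∀ m, n ≤ m → x ∈ (f m).H := by
    intro x hx
    rw [hpH] at hx
    obtain ⟨n, hn⟩ := Set.mem_iUnion.1 hx
    exact ⟨n, fun m hm => (hmono n m hm).2.1 hn⟩
  have hT : ∀ x, x ∈ p.T → ∃ n, ∀ m, n ≤ m → x ∈ (f m).T := by
    intro x hx
    rw [hpT] at hx
    obtain ⟨n, hn⟩ := Set.mem_iUnion.1 hx
    exact ⟨n, fun m hm => (hmono n m hm).2.2.1 hn⟩
  have hN : ∀ x, x ∈ p.N → ∃ n, ∀ m, n ≤ m → x ∈ (f m).N := by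
    intro x hx
    rw [hpN] at hx
    obtain ⟨n, hn⟩ := Set.mem_iUnion.1 hx
    exact ⟨n, fun m hm => (hmono n m hm).2.2.2 hn⟩
  refine ⟨p, ⟨⟨?_, ?_, ?_, ?_, ?_, ?_⟩, fun γ => ?_⟩, hle, hpH, hpT, hpN⟩
  · rw [hpa]; exact hb1
  · intro i A B hx
    obtain ⟨n, hn⟩ := hH _ hx
    have h1 := (hV n).1.Hdom i A B (hn n le_rfl)
    refine ⟨?_, h1.2⟩
    rw [hpa]
    refine (h1.1.union (hb2 n)).subset ?_
    rintro x ⟨hx1, hx2⟩
    by_cases hx3 : x ∈ (f n).a
    · exact Or.inl ⟨hx1, hx3⟩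
    · exact Or.inr ⟨hx2, hx3⟩
  · intro i A B B' hx hx'
    obtain ⟨n, hn⟩ := hH _ hx
    obtain ⟨n', hn'⟩ := hH _ hx'
    exact (hV (max n n')).1.Hfun i A B B' (hn _ (le_max_left _ _)) (hn' _ (le_max_right _ _))
  · intro i A B A' B' hx hx'
    obtain ⟨n, hn⟩ := hH _ hx
    obtain ⟨n', hn'⟩ := hH _ hx'
    exact (hV (max n n')).1.Hcoh i A B A' B' (hn _ (le_max_left _ _)) (hn' _ (le_max_right _ _))
  · intro γ A B hx
    obtain ⟨n, hn⟩ := hT _ hx
    exact (hV n).1.Tdom γ A B (hn n le_rfl)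
  · intro γ A B A' B' hx hx'
    obtain ⟨n, hn⟩ := hT _ hx
    obtain ⟨n', hn'⟩ := hT _ hx'
    exact (hV (max n n')).1.Tcoh γ A B A' B' (hn _ (le_max_left _ _)) (hn' _ (le_max_right _ _))
  · refine St_of (fun S hS => ?_) (fun S A B hS hAB => ?_)
    · obtain ⟨n, hn⟩ := hN _ hS
      exact ⟨f n, (hV n).2 γ, res_mono (hle n), hn n le_rfl⟩
    · obtain ⟨n, hn⟩ := hN _ hS
      obtain ⟨n', hn'⟩ := hT _ hAB
      exact ⟨f (max n n'), (hV _).2 γ, res_mono (hle _), hn _ (le_max_left _ _),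
        hn' _ (le_max_right _ _)⟩

/-- Conditions with the same stems on their common coordinates are compatible.

Proof. `s.a = q₁.a`, `s.H = q₁.H ∪ q₂.H` etc. (`exists_cd`). `Base s`: by `hH`, `hT` any two
entries of `s.H` at the same `i` (of `s.T` at the same `β`) both belong to `q₁` or both to `q₂`.
Stage `β`: `St_of`. If `(β, S) ∈ q₁.N` and `(β, A, B) ∈ q₂.T` then `AtT β q₁` and `AtT β q₂`, so
`(β, A, B) ∈ q₁.T` by `hT`; take `q = q₁` (`res_mono (s ≤ q₁)`). Symmetrically for `q₂`. -/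
theorem exists_union {q₁ q₂ : Cd} (h₁ : V q₁) (h₂ : V q₂) (ha : q₁.a = q₂.a)
    (hH : ∀ i, AtH i q₁ → AtH i q₂ → ∀ A B, (i, A, B) ∈ q₁.H ↔ (i, A, B) ∈ q₂.H)
    (hT : ∀ β, AtT β q₁ → AtT β q₂ → ∀ A B, (β, A, B) ∈ q₁.T ↔ (β, A, B) ∈ q₂.T) :
    ∃ s, V s ∧ s ≤ q₁ ∧ s ≤ q₂ := by
  obtain ⟨s, hsa, hsH, hsT, hsN⟩ := exists_cd q₁.a (H := q₁.H ∪ q₂.H)
    (T := q₁.T ∪ q₂.T) (N := q₁.N ∪ q₂.N) (q₁.H_countable.union q₂.H_countable)
    (q₁.T_countable.union q₂.T_countable) (q₁.N_countable.union q₂.N_countable)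
  have hs1 : s ≤ q₁ := ⟨by rw [hsa]; simp, by rw [hsH]; exact Set.subset_union_left,
    by rw [hsT]; exact Set.subset_union_left, by rw [hsN]; exact Set.subset_union_left⟩
  have hs2 : s ≤ q₂ := ⟨by rw [hsa, ha]; simp, by rw [hsH]; exact Set.subset_union_right,
    by rw [hsT]; exact Set.subset_union_right, by rw [hsN]; exact Set.subset_union_right⟩
  -- two entries of H at the same coordinate come from the same condition
  have hH2 : ∀ i A B A' B', (i, A, B) ∈ s.H → (i, A', B') ∈ s.H →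
      ((i, A, B) ∈ q₁.H ∧ (i, A', B') ∈ q₁.H) ∨ ((i, A, B) ∈ q₂.H ∧ (i, A', B') ∈ q₂.H) := by
    intro i A B A' B' hx hx'
    rw [hsH] at hx hx'
    rcases hx with hx | hx
    · rcases hx' with hx' | hx'
      · exact Or.inl ⟨hx, hx'⟩
      · exact Or.inl ⟨hx, (hH i ⟨A, B, hx⟩ ⟨A', B', hx'⟩ A' B').2 hx'⟩
    · rcases hx' with hx' | hx'
      · exact Or.inr ⟨hx, (hH i ⟨A', B', hx'⟩ ⟨A, B, hx⟩ A' B').1 hx'⟩
      · exact Or.inr ⟨hx, hx'⟩
  have hT2 : ∀ i A B A' B', (i, A, B) ∈ s.T → (i, A', B') ∈ s.T →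
      ((i, A, B) ∈ q₁.T ∧ (i, A', B') ∈ q₁.T) ∨ ((i, A, B) ∈ q₂.T ∧ (i, A', B') ∈ q₂.T) := by
    intro i A B A' B' hx hx'
    rw [hsT] at hx hx'
    rcases hx with hx | hx
    · rcases hx' with hx' | hx'
      · exact Or.inl ⟨hx, hx'⟩
      · exact Or.inl ⟨hx, (hT i (Or.inl ⟨A, B, hx⟩) (Or.inl ⟨A', B', hx'⟩) A' B').2 hx'⟩
    · rcases hx' with hx' | hx'
      · exact Or.inr ⟨hx, (hT i (Or.inl ⟨A', B', hx'⟩) (Or.inl ⟨A, B, hx⟩) A' B').1 hx'⟩
      · exact Or.inr ⟨hx, hx'⟩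
  refine ⟨s, ⟨⟨?_, ?_, ?_, ?_, ?_, ?_⟩, fun γ => ?_⟩, hs1, hs2⟩
  · rw [hsa]; exact h₁.1.inf
  · intro i A B hx
    rw [hsH] at hx
    rw [hsa]
    rcases hx with hx | hx
    · exact h₁.1.Hdom i A B hx
    · rw [ha]
      exact h₂.1.Hdom i A B hx
  · intro i A B B' hx hx'
    rcases hH2 i A B A B' hx hx' with h | h
    · exact h₁.1.Hfun i A B B' h.1 h.2
    · exact h₂.1.Hfun i A B B' h.1 h.2
  · intro i A B A' B' hx hx'
    rcases hH2 i A B A' B' hx hx' with h | h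
    · exact h₁.1.Hcoh i A B A' B' h.1 h.2
    · exact h₂.1.Hcoh i A B A' B' h.1 h.2
  · intro i A B hx
    rw [hsT] at hx
    rcases hx with hx | hx
    · exact h₁.1.Tdom i A B hx
    · exact h₂.1.Tdom i A B hx
  · intro i A B A' B' hx hx'
    rcases hT2 i A B A' B' hx hx' with h | h
    · exact h₁.1.Tcoh i A B A' B' h.1 h.2
    · exact h₂.1.Tcoh i A B A' B' h.1 h.2
  · refine St_of (fun S hS => ?_) (fun S A B hS hAB => ?_)
    · rw [hsN] at hS
      rcases hS with hS | hS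
      · exact ⟨q₁, h₁.2 γ, res_mono hs1, hS⟩
      · exact ⟨q₂, h₂.2 γ, res_mono hs2, hS⟩
    · rw [hsN] at hS
      rw [hsT] at hAB
      rcases hS with hS | hS
      · refine ⟨q₁, h₁.2 γ, res_mono hs1, hS, ?_⟩
        rcases hAB with hAB | hAB
        · exact hAB
        · exact (hT γ (Or.inr ⟨S, hS⟩) (Or.inl ⟨A, B, hAB⟩) A B).2 hAB
      · refine ⟨q₂, h₂.2 γ, res_mono hs2, hS, ?_⟩
        rcases hAB with hAB | hAB
        · exact (hT γ (Or.inl ⟨A, B, hAB⟩) (Or.inr ⟨S, hS⟩) A B).1 hAB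
        · exact hAB

end Cd

end Pool.Agent.H83.R
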