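import Pool.Agent.H83.R.GB

/-!
# Generic models: the two ultrafilters
-/

set_option autoImplicit false
set_option linter.unusedSectionVars false
set_option linter.unusedVariables false

namespace Pool.Agent.H83.R

open Pool.Agent.H86 Pool.Agent.H86.Name Pool.Agent.H83.F

section Aux

variable {M : Type} {E : M → M → Prop} (hE : IsZFModel E) {om : M} {nat : ℕ → M}
  (hom : StdOm E om nat)

include hE hom

/-- An ultrafilter given by a property of sets of natural numbers. -/
theorem isUF_of {u : M} {P : Set ℕ → Prop} (hP : ∀ a A, Rl E om nat a A → (E a u ↔ P A))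
    (hsub : ∀ a, E a u → Sub E a om) (huniv : P Set.univ) (hmono : ∀ A B, A ⊆ B → P A → P B)
    (hint : ∀ A B, P A → P B → P (A ∩ B))
    (hcompl : ∀ A, PM E om nat A → PM E om nat Aᶜ → (P A ↔ ¬ P Aᶜ))
    (hne : ∀ n : ℕ, ¬ P {n}) : IsUF E om u := by
  have hrl : ∀ a, Sub E a om → Rl E om nat a {n | E (nat n) a} := fun a h => ⟨h, rfl⟩
  have homrl : Rl E om nat om Set.univ := by
    refine ⟨fun z hz => hz, ?_⟩
    ext n
    simp only [Set.mem_ofPred_eq, Set.mem_univ, iff_true]
    exact (hom.E_om _).2 ⟨n, rfl⟩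
  refine ⟨hsub, (hP _ _ homrl).2 huniv, ?_, ?_, ?_, ?_⟩
  · intro A B hA hAB hB
    rw [hP _ _ (hrl B hB)]
    refine hmono {n | E (nat n) A} _ (fun n hn => hAB _ hn) ?_
    exact (hP _ _ (hrl A (hsub A hA))).1 hA
  · intro A B C hA hB hC
    have hCs : Sub E C om := fun z hz => hsub A hA z ((hC z).1 hz).1
    rw [hP _ _ (hrl C hCs)]
    have h1 := (hP _ _ (hrl A (hsub A hA))).1 hA
    have h2 := (hP _ _ (hrl B (hsub B hB))).1 hB
    refine hmono _ _ ?_ (hint _ _ h1 h2)
    intro n hn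
    exact (hC _).2 ⟨hn.1, hn.2⟩
  · intro A B hA hB
    have hBs : Sub E B om := fun z hz => ((hB z).1 hz).1
    have hBc : {n | E (nat n) B} = {n | E (nat n) A}ᶜ := by
      ext n
      simp only [Set.mem_ofPred_eq, Set.mem_compl_iff, hB]
      exact ⟨fun h => h.2, fun h => ⟨(hom.E_om _).2 ⟨n, rfl⟩, h⟩⟩
    rw [hP _ _ (hrl A hA), hP _ _ (hrl B hBs), hBc]
    refine hcompl _ ⟨A, hrl A hA⟩ ?_
    rw [← hBc]
    exact ⟨B, hrl B hBs⟩
  · intro n A hn hA hAu
    obtain ⟨m, rfl⟩ := (hom.E_om _).1 hn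
    have hAs : Sub E A om := hsub A hAu
    have h1 := (hP _ _ (hrl A hAs)).1 hAu
    have h2 : {k | E (nat k) A} = {m} := by
      ext k
      simp only [Set.mem_ofPred_eq, Set.mem_singleton_iff, hA]
      exact ⟨fun h => StdOm.nat_inj hE hom h, fun h => by rw [h]⟩
    rw [h2] at h1
    exact hne m h1

/-- A set of natural numbers that is finite in the model is finite. -/
theorem finite_of_isFinite {a : M} (h : IsFinite E om a) : {n | E (nat n) a}.Finite := by
  obtain ⟨k, g, hk, hg, hsurj⟩ := h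
  obtain ⟨k, rfl⟩ := (hom.E_om _).1 hk
  have h1 : ∀ n : {n | E (nat n) a}, ∃ j : Fin k, Rel E g (nat j) (nat n.1) := by
    rintro ⟨n, hn⟩
    obtain ⟨x, hx⟩ := hsurj _ hn
    obtain ⟨m, hm, rfl⟩ := (hom.E_nat _ _).1 (IsFun.mem hE hg hx).1
    exact ⟨⟨m, hm⟩, hx⟩
  choose j hj using h1
  have hinj : Function.Injective j := by
    intro n n' hnn
    have h2 := hj n
    rw [hnn] at h2
    exact Subtype.ext (StdOm.nat_inj hE hom (IsFun.uniq hE hg h2 (hj n')))
  have : Finite {n | E (nat n) a} := Finite.of_injective j hinj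
  exact Set.toFinite _

end Aux

namespace GB

variable (B : GB)

/-- Proof. By `E_x`, `sub_x`, `M1.lean` (`Rl.of_sub`, `Rl.sub`, ...) every clause reduces to the
corresponding property of the ultrafilter `xU` (`xU` contains no finite set: `Ix_FC`). -/
theorem x_uf : IsUF B.G.E B.om B.x := by
  refine isUF_of B.zfc.toIsZFModel B.std (P := fun A => A ∈ xU) (fun a A h => B.E_x h)
    (fun a h => B.sub_x h) Filter.univ_mem (fun A A' h hA => Filter.mem_of_superset hA h)
    (fun A A' h h' => Filter.inter_mem h h') (fun A _ _ => ?_) (fun n => ?_)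
  · rw [Ultrafilter.compl_mem_iff_notMem, not_not]
  · exact Ix_FC fun m => (Set.finite_singleton n).subset Set.inter_subset_left

theorem x_fc (a : B.G.M) (A : Set ℕ) (ha : Rl B.G.E B.om B.nat a A) (hA : FC A) :
    ¬ B.G.E a B.x := by
  rw [B.E_x ha]
  exact Ix_FC hA

theorem x_col (a : B.G.M) (n : ℕ) (ha : Rl B.G.E B.om B.nat a (col n)) : ¬ B.G.E a B.x := by
  rw [B.E_x ha]
  exact Ix_col n

/-- The ultrafilter `x` is not a P-point.

Proof. Suppose it is; apply the definition to a function `f` from `om` to `om` with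
`Rel E f (nat m) (nat n) ↔ (unpair m).1 = n` (obtained from `fs` by `exists_rel`, or show
`IsFun E fs om om` with a forced formula). Its fibres are the columns, not in `x` (`x_col`). So
there is `a ∈ x`, `Rl a A`, such that all `A ∩ col n` are finite in the model, hence finite (if `b`
is finite in the model and `Rl b B` then `B.Finite`: by the definition of `IsFinite` it is
contained in the range of a function on `nat k`). So `FC A`, contradicting `x_fc`. -/
theorem x_npp : ¬ IsPPoint B.G.E B.om B.x := by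
  intro h
  have hE := B.zfc.toIsZFModel
  have hom := B.std
  obtain ⟨f, hf1, hf2⟩ := exists_rel hE (pairCode (fun x y => fRel codeStr 1 x y) 10)
    (asn B.fs [B.fs]) (P := fun x y => Rel B.G.E B.fs x y) (fun z => Iff.rfl) B.om B.om
  have hfr : ∀ m n, Rel B.G.E f (B.nat m) (B.nat n) ↔ (Nat.unpair m).1 = n := by
    intro m n
    rw [hf2, B.fs_rel]
    exact ⟨fun h => h.2.2, fun h => ⟨(hom.E_om _).2 ⟨_, rfl⟩, (hom.E_om _).2 ⟨_, rfl⟩, h⟩⟩
  have hfun : IsFun B.G.E f B.om B.om := by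
    refine isFun_of hE (fun z hz => ?_) (fun x hx => ?_) (fun x y y' h1 h2 => ?_)
    · obtain ⟨x, y, h1, h2, h3, -⟩ := hf1 z hz
      exact ⟨x, y, h1, h2, h3⟩
    · obtain ⟨m, rfl⟩ := (hom.E_om _).1 hx
      exact ⟨B.nat (Nat.unpair m).1, (hfr _ _).2 rfl⟩
    · have h3 := (hf2 x y).1 h1
      have h4 := (hf2 x y').1 h2
      obtain ⟨m, rfl⟩ := (hom.E_om _).1 h3.1
      obtain ⟨n, rfl⟩ := (hom.E_om _).1 h3.2.1
      obtain ⟨n', rfl⟩ := (hom.E_om _).1 h4.2.1
      rw [← (hfr _ _).1 h1, ← (hfr _ _).1 h2]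
  obtain ⟨a, hax, ha⟩ := h.2 f hfun (by
    intro n A hn hA
    obtain ⟨n, rfl⟩ := (hom.E_om _).1 hn
    refine B.x_col A n ⟨fun z hz => (IsFun.mem hE hfun ((hA z).1 hz)).1, ?_⟩
    ext m
    rw [Set.mem_ofPred_eq, hA, hfr]
    rfl)
  refine B.x_fc a {n | B.G.E (B.nat n) a} ⟨B.sub_x hax, rfl⟩ (fun n => ?_) hax
  obtain ⟨b, hb⟩ := sep_of hE (fRel codeStr 1 0 2 10) (asn f [f, B.nat n])
    (P := fun k => Rel B.G.E f k (B.nat n)) (fun z => Iff.rfl) a
  have h1 := finite_of_isFinite hE hom (ha _ b ((hom.E_om _).2 ⟨n, rfl⟩) hb)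
  refine h1.subset ?_
  rintro m ⟨hm1, hm2⟩
  rw [Set.mem_ofPred_eq, hb]
  exact ⟨hm1, (hfr _ _).2 hm2⟩

/-- Proof. By `E_p`, `sub_p` and `M1.lean`. `B.G.anti`: the sequence `qs` is decreasing, so
`qs n` for large `n` gives almost inclusion of `(qs n).a` in both sets for intersections; the set
`(qs n).a` is infinite, which gives that not both `A` and `Aᶜ` are in `p`, and that no finite set
is in `p`. That `A` or `Aᶜ` is in `p`: the formula
`∀ A, B ∈ Rm, (A, B) ∈ k2 (L2 3) → A ∈ p ∨ B ∈ p` is forced: given `q` and `A` one of `q.a ∩ A`,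
`q.a \ A` is infinite, use `Cd.exists_a` and `fmem_pN`. -/
theorem p_uf : IsUF B.G.E B.om B.p := by
  have hE := B.zfc.toIsZFModel
  have hom := B.std
  have hmon : ∀ {m n : ℕ}, m ≤ n → ((B.G.qs n).1.a \ (B.G.qs m).1.a).Finite := fun h =>
    (B.G.anti h).1
  have hinf : ∀ n, (B.G.qs n).1.a.Infinite := fun n => (B.G.qs n).2.1.inf
  refine isUF_of hE hom (P := fun A => ∃ n, ((B.G.qs n).1.a \ A).Finite) (fun a A h => B.E_p h)
    (fun a h => B.sub_p h) ⟨0, by simp⟩ ?_ ?_ ?_ ?_
  · rintro A A' h ⟨n, hn⟩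
    exact ⟨n, hn.subset (Set.sdiff_subset_sdiff_right h)⟩
  · rintro A A' ⟨n, hn⟩ ⟨m, hm⟩
    refine ⟨max n m, (((hmon (le_max_left n m)).union hn).union
      ((hmon (le_max_right n m)).union hm)).subset ?_⟩
    rintro x ⟨hx1, hx2⟩
    by_cases h1 : x ∈ A
    · have h2 : x ∉ A' := fun h => hx2 ⟨h1, h⟩
      right
      by_cases h3 : x ∈ (B.G.qs m).1.a
      · exact Or.inr ⟨h3, h2⟩
      · exact Or.inl ⟨hx1, h3⟩
    · left
      by_cases h3 : x ∈ (B.G.qs n).1.a
      · exact Or.inr ⟨h3, h1⟩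
      · exact Or.inl ⟨hx1, h3⟩
  · rintro A ⟨a, ha⟩ ⟨b, hb⟩
    constructor
    · rintro ⟨n, hn⟩ ⟨m, hm⟩
      refine hinf (max n m) ((((hmon (le_max_left n m)).union hn).union
        ((hmon (le_max_right n m)).union hm)).subset ?_)
      intro x hx
      by_cases h1 : x ∈ A
      · right
        by_cases h3 : x ∈ (B.G.qs m).1.a
        · exact Or.inr ⟨h3, fun h => h h1⟩
        · exact Or.inl ⟨hx, h3⟩
      · left
        by_cases h3 : x ∈ (B.G.qs n).1.a
        · exact Or.inr ⟨h3, h1⟩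
        · exact Or.inl ⟨hx, h3⟩
    · intro hnot
      have hor : B.G.E a B.p ∨ B.G.E b B.p := by
        have h1 := B.G.of_forced (codeStr.or (codeStr.mem 0 2) (codeStr.mem 1 2) 10)
          (B.G.el B.hp) [B.G.el (B.rl_iff.1 ha), B.G.el (B.rl_iff.1 hb), B.G.el B.hp] ?_
        · exact h1
        · intro p q hq
          rcases Classical.em ((q.1.a ∩ A).Infinite) with h | h
          · obtain ⟨r, hr1, hr2, hr3, -⟩ := Cd.exists_a q.2 h
              (Set.Finite.subset Set.finite_empty fun x hx => hx.2 hx.1.1)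
            refine ⟨⟨r, hr1⟩, hr2, Or.inl ?_⟩
            show fmem (rN A) pN ⟨r, hr1⟩
            rw [fmem_pN]
            show (r.a \ A).Finite
            rw [hr3]
            exact Set.Finite.subset Set.finite_empty fun x hx => hx.2 hx.1.2
          · refine ⟨q, le_rfl, Or.inr ?_⟩
            show fmem (rN Aᶜ) pN q
            rw [fmem_pN]
            rw [Set.not_infinite] at h
            refine h.subset ?_
            rintro x ⟨hx1, hx2⟩
            exact ⟨hx1, not_not.1 hx2⟩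
      rcases hor with h | h
      · exact (B.E_p ha).1 h
      · exact absurd ((B.E_p hb).1 h) hnot
  · rintro n ⟨m, hm⟩
    refine hinf m ((hm.union (Set.finite_singleton n)).subset ?_)
    intro x hx
    by_cases h : x = n
    · exact Or.inr h
    · exact Or.inl ⟨hx, h⟩

end GB

end Pool.Agent.H83.R
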