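import Pool.Agent.H83.R.G1
import Pool.Agent.H83.F.C1

/-!
# Generic models: the generic ultrafilter is a P-point
-/

set_option autoImplicit false
set_option linter.unusedSectionVars false
set_option linter.unusedVariables false

namespace Pool.Agent.H83.R

open Pool.Agent.H86 Pool.Agent.H86.Name Pool.Agent.H83.F

universe v w

/-- the formula of `p_pp` -/
def G2_fPP {N : Type v} {Ω : Type w} (L : LogicStr N Ω) (f om Rm p k0 : N) : Ω :=
  L.imp (fFn L f om om)
    (L.imp (ball L om fun n => ball L Rm fun b =>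
        L.imp (ball L om fun k => L.iff (L.mem k b) (fRel L f k n)) (L.imp (L.mem b p) L.bot))
      (bex L Rm fun a => L.and (L.mem a p) (ball L om fun n => ball L Rm fun b =>
        L.imp (ball L om fun k => L.iff (L.mem k b) (L.and (L.mem k a) (fRel L f k n)))
          (L.mem b k0))))

/-- the formula is forced -/
theorem G2_forced (F : Name Q) (p : Q) :
    (G2_fPP (FS Q) F (oName Q Ordinal.omega0) RN pN (k1 (L1 0))).holds p := by
  classical
  intro q hq hf q1 hq1 hn q2 hq2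
  -- decide the function
  obtain ⟨r, hrq2, hr⟩ := Q_seq (X := fun _ => ℕ)
    (fun m n r => RR F (oName Q ((m : ℕ) : Ordinal.{0})) (oName Q ((n : ℕ) : Ordinal.{0})) r)
    (fun m n p' q' h h' => fmem_mono h h') q2 (by
      intro m p' hp'
      obtain ⟨s, hs, y, h1, h2⟩ := hf.2 (oName Q ((m : ℕ) : Ordinal.{0})) p'
        (hp'.trans (hq2.trans hq1)) (fmem_oName_of_lt (Ordinal.natCast_lt_omega0 m) p') p' le_rfl
      have h1' := holds_fRel.1 h1
      have h3 := (fun_rel hf (hs.trans (hp'.trans (hq2.trans hq1))) h1').2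
      obtain ⟨t, ht, β, hβ, h4⟩ := fmem_oName.1 h3 s le_rfl
      obtain ⟨n, rfl⟩ := Ordinal.lt_omega0.1 hβ
      exact ⟨t, ht.trans hs, n, RR_congr (feq_refl _ _) (feq_refl _ _) h4 (fmem_mono ht h1')⟩)
  choose f hf' using hr
  have hrq : r ≤ q := hrq2.trans (hq2.trans hq1)
  have hfn : ∀ s ≤ r, ∀ m n : ℕ,
      RR F (oName Q ((m : ℕ) : Ordinal.{0})) (oName Q ((n : ℕ) : Ordinal.{0})) s ↔ f m = n := by
    intro s hs m n
    have h1 : RR F (oName Q ((m : ℕ) : Ordinal.{0})) (oName Q ((f m : ℕ) : Ordinal.{0})) s :=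
      fmem_mono hs (hf' m)
    constructor
    · intro h
      have h2 := fun_unique hf (hs.trans hrq) h1 h
      have h3 := feq_oName_iff.1 h2
      exact_mod_cast h3
    · rintro rfl
      exact h1
  -- the fibres
  have hfin : ∀ n, (r.1.a ∩ {m | f m = n}).Finite := by
    intro n
    by_contra hinf
    obtain ⟨s', hs'V, hs'r, hs'a, -, -, -⟩ := Cd.exists_a (q := r.1) r.2
      (b := r.1.a ∩ {m | f m = n}) hinf (by
        refine Set.Finite.subset Set.finite_empty ?_
        rintro x ⟨hx1, hx2⟩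
        exact hx2 hx1.1)
    let s : Q := ⟨s', hs'V⟩
    have hsr : s ≤ r := hs'r
    have h1 : fmem (rN {m | f m = n}) pN s := by
      rw [fmem_pN]
      show (s'.a \ _).Finite
      rw [hs'a]
      refine Set.Finite.subset Set.finite_empty ?_
      rintro x ⟨hx1, hx2⟩
      exact hx2 hx1.2
    have h2 := hn (oName Q ((n : ℕ) : Ordinal.{0})) s (hsr.trans (hrq2.trans hq2))
      (fmem_oName_of_lt (Ordinal.natCast_lt_omega0 n) s) (rN {m | f m = n}) s le_rfl
      (fmem_famN_self rN _ s) s le_rfl (by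
        rw [ball_om (cg_iff (cg_mem1 _) (cg_rel2 _ _))]
        intro k
        constructor
        · intro t ht h3
          rw [holds_fRel]
          have h4 : k ∈ {m | f m = n} := fmem_o_rN.1 h3
          exact (hfn t (ht.trans hsr) k n).2 h4
        · intro t ht h3
          rw [holds_fRel] at h3
          have h4 : k ∈ {m | f m = n} := (hfn t (ht.trans hsr) k n).1 h3
          exact fmem_o_rN.2 h4) s le_rfl h1
    exact h2
  -- the witness
  refine ⟨r, hrq2, rN r.1.a, fmem_famN_self rN _ r, ?_, ?_⟩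
  · show fmem (rN r.1.a) pN r
    rw [fmem_pN]
    simp
  · intro n s hs hn' b t ht hb u hu hc
    show fmem b (k1 (L1 0)) u
    apply fmem_reg
    intro u' hu'
    have hu's : u' ≤ s := hu'.trans (hu.trans ht)
    obtain ⟨v, hv, β, hβ, h1⟩ := fmem_oName.1 hn' u' hu's
    obtain ⟨n0, rfl⟩ := Ordinal.lt_omega0.1 hβ
    obtain ⟨w, hw, B, h2⟩ := fmem_famN.1 hb v (hv.trans (hu'.trans hu))
    have hwu : w ≤ u := hw.trans (hv.trans hu')
    have hwr : w ≤ r := hwu.trans (hu.trans (ht.trans hs))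
    have hB : B = r.1.a ∩ {m | f m = n0} := by
      ext k
      have h3 := hc (oName Q ((k : ℕ) : Ordinal.{0})) w hwu
        (fmem_oName_of_lt (Ordinal.natCast_lt_omega0 k) w)
      constructor
      · intro hk
        have h4 := h3.1 w le_rfl (fmem_congr_right (feq_symm h2) (fmem_o_rN.2 hk))
        refine ⟨fmem_o_rN.1 h4.1, ?_⟩
        exact (hfn w hwr k n0).1 (RR_congr (feq_refl _ _) (feq_refl _ _) (feq_mono hw h1)
          (holds_fRel.1 h4.2))
      · rintro ⟨hk1, hk2⟩
        have h4 : fmem (oName Q ((k : ℕ) : Ordinal.{0})) b w := h3.2 w le_rfl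
          ⟨fmem_o_rN.2 hk1, holds_fRel.2 (RR_congr (feq_refl _ _) (feq_refl _ _)
            (feq_symm (feq_mono hw h1)) ((hfn w hwr k n0).2 hk2))⟩
        exact fmem_o_rN.1 (fmem_congr_right h2 h4)
    refine ⟨w, hw.trans hv, fmem_congr_left (feq_symm h2) (fmem_k1.2 ?_)⟩
    show B.Finite
    rw [hB]
    exact hfin n0

namespace GB

variable (B : GB)

/-- Proof. `p_uf`. The following formula (with parameters `om, Rm, p` and the constant
`k1 (L1 0)` = set of the finite sets) is forced: for every function `f` from `ω` to `ω`, if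
`∀ n ∈ ω, ∀ b ∈ Rm, (∀ k ∈ ω, k ∈ b ↔ (k, n) ∈ f) → b ∉ p` then there is `a ∈ Rm`, `a ∈ p`, such that
`∀ n ∈ ω, ∀ b ∈ Rm, (∀ k ∈ ω, k ∈ b ↔ (k ∈ a ∧ (k, n) ∈ f)) → b ∈ k1 (L1 0)`.
Indeed, let `q` force the hypotheses on the name `F`. By `Q_seq` (with
`P m n r`: `RR F (oName Q m) (oName Q n) r`) there are `r ≤ q` and `f : ℕ → ℕ` such that `r` forces
`(m, f m) ∈ F` for all `m`, hence (`F` is forced to be a function) for `s ≤ r`
`RR F (oName Q m) (oName Q n) s ↔ f m = n`. Let `C n = {m | f m = n}`; `r` forces that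
`rN (C n) ∉ pN`, so `r.a ∩ C n` is finite: otherwise take `s ≤ r` with `s.a = r.a ∩ C n`
(`Cd.exists_a`); then `fmem (rN (C n)) pN s` by `fmem_pN`. So `a = rN r.a` is as required: if
`s ≤ r`, and `s` forces that `rN B` is `{k ∈ a | (k, n) ∈ F}`, then `B = r.a ∩ C n` is finite.
Finally translate to the definition of `IsPPoint` by `GB.E_Rm`, `GB.k1_iff`, `isFinite_of`. -/
theorem p_pp : IsPPoint B.G.E B.om B.p := by
  refine ⟨B.p_uf, fun f hf hn => ?_⟩
  obtain ⟨F, hF⟩ := B.G.named f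
  obtain ⟨k0, hk0⟩ := B.h1 0
  have h1 := B.G.of_forced (G2_fPP codeStr 0 1 2 3 4 10) (B.G.el hF)
    [B.G.el hF, B.G.el B.hom, B.G.el B.hRm, B.G.el B.hp, B.G.el hk0] (fun p => G2_forced F p)
  have h2 := h1 hf (by
    intro n hn' b hb hk hbp
    refine hn n b hn' ?_ hbp
    have hbs := B.E_Rm.1 hb
    intro k
    constructor
    · intro h
      exact (hk k (hbs k h)).1 h
    · intro h
      exact (hk k (IsFun.mem B.zfc.toIsZFModel hf h).1).2 h)
  obtain ⟨a, haR, hap, h3⟩ := h2
  refine ⟨a, hap, fun n b hn' hb => ?_⟩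
  have has := B.E_Rm.1 haR
  have hbs : Sub B.G.E b B.om := fun k hk => has k ((hb k).1 hk).1
  have h4 := h3 n hn' b (B.E_Rm.2 hbs) (fun k _ => hb k)
  have hRl : Rl B.G.E B.om B.nat b {n | B.G.E (B.nat n) b} :=
    Rl.of_sub B.zfc.toIsZFModel B.std hbs
  have h5 := (B.k1_iff hk0 hRl).1 h4
  exact isFinite_of B.zfc.toIsZFModel B.std hRl h5

end GB

end Pool.Agent.H83.R
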