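import Pool.Agent.H83.R.GB

/-!
# Generic models: the continuum hypothesis
-/

set_option autoImplicit false
set_option linter.unusedSectionVars false
set_option linter.unusedVariables false

universe v w

namespace Pool.Agent.H83.R

open Pool.Agent.H86 Pool.Agent.H86.Name Pool.Agent.H83.F

/-- `f` is a function from `a` to `b` -/
def gFn {N : Type v} {Ω : Type w} (L : LogicStr N Ω) (f a b : N) : Ω :=
  L.and (L.all fun z => L.imp (L.mem z f) (L.ex fun x => L.ex fun y =>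
      L.and (fPr L z x y) (L.and (L.mem x a) (L.mem y b))))
    (L.all fun x => L.imp (L.mem x a) (L.ex fun y => L.and (fRel L f x y)
      (L.all fun y' => L.imp (fRel L f x y') (L.eq y' y))))

/-- names of functions between ordinals -/
theorem gFn_relO {ι : Type} {a b : ι → Ordinal.{0}} {κ l : Ordinal.{0}}
    (ha : ∀ i, a i < κ) (hb : ∀ i, b i < l) (hinj : ∀ i j, a i = a j → b i = b j)
    (hsurj : ∀ α < κ, ∃ i, a i = α) (p : Q) :
    (gFn (FS Q) (relO ι a b (fun _ => ⊤)) (oName Q κ) (oName Q l)).holds p := by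
  constructor
  · intro Z q hq hZ r hr
    obtain ⟨s, hs, i, -, h1⟩ := fmem_relO.1 hZ r hr
    refine ⟨s, hs, oName Q (a i), fun t ht => ⟨t, le_rfl, oName Q (b i), ?_, ?_, ?_⟩⟩
    · exact holds_fPr.2 (feq_mono ht h1)
    · exact fmem_oName_of_lt (ha i) t
    · exact fmem_oName_of_lt (hb i) t
  · intro x q hq hx r hr
    obtain ⟨s, hs, α, hα, h1⟩ := fmem_oName.1 hx r hr
    obtain ⟨i, rfl⟩ := hsurj α hα
    refine ⟨s, hs, oName Q (b i), ?_, ?_⟩
    · rw [holds_fRel, RR_relO]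
      exact fun t ht => ⟨t, le_rfl, i, le_top, feq_mono ht h1, feq_refl _ _⟩
    · intro y' t ht hy'
      rw [holds_fRel, RR_relO] at hy'
      show feq y' (oName Q (b i)) t
      apply feq_reg
      intro t' ht'
      obtain ⟨t2, ht2, j, -, h2, h3⟩ := hy' t' ht'
      refine ⟨t2, ht2, ?_⟩
      have h4 : a i = a j := feq_oName_iff.1
        (feq_trans (feq_symm (feq_mono (ht2.trans (ht'.trans ht)) h1)) h2)
      rw [hinj i j h4]
      exact h3

/-- `A` is coded at `i` in `r` -/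
def Coded (i : W1) (A : Set ℕ) (r : Q) : Prop :=
  ∀ n, ∃ B, (cJ (i, n), {0}, B) ∈ r.1.H ∧ (0 ∈ B ↔ n ∈ A)

theorem Coded.mono {i : W1} {A : Set ℕ} {r s : Q} (h : Coded i A r) (hs : s ≤ r) :
    Coded i A s := fun n => by
  obtain ⟨B, h1, h2⟩ := h n
  exact ⟨B, hs.2.1 h1, h2⟩

theorem Coded.uniq {i : W1} {A A' : Set ℕ} {r : Q} (h : Coded i A r) (h' : Coded i A' r) :
    A = A' := by
  ext n
  obtain ⟨B, h1, h2⟩ := h n
  obtain ⟨B', h1', h2'⟩ := h' n
  have := r.2.1.Hfun _ _ _ _ h1 h1'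
  subst this
  exact h2.symm.trans h2'

theorem fmem_gN {Z : Name Q} {p : Q} : fmem Z gN p ↔ ∀ q ≤ p, ∃ r ≤ q, ∃ i A, Coded i A r ∧
    feq Z (opair (oName Q (o1 i)) (rN A)) r := by
  constructor
  · intro h q hq
    obtain ⟨r, hr, t, h1, h2⟩ := h q hq
    exact ⟨r, hr, t.1.1.1, t.1.1.2, Coded.mono (r := t.1.2) (fun n => t.2 n) h1, h2⟩
  · intro h q hq
    obtain ⟨r, hr, i, A, h1, h2⟩ := h q hq
    exact ⟨r, hr, ⟨((i, A), r), h1⟩, le_rfl, h2⟩

theorem RR_gN {X Y : Name Q} {p : Q} : RR gN X Y p ↔ ∀ q ≤ p, ∃ r ≤ q, ∃ i A, Coded i A r ∧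
    feq X (oName Q (o1 i)) r ∧ feq Y (rN A) r := by
  show fmem (opair X Y) gN p ↔ _
  rw [fmem_gN]
  simp only [feq_opair_iff]

/-- the next condition codes a set at `i` -/
theorem exists_coded (q : Q) (i : W1) : ∃ r ≤ q, ∃ A, Coded i A r := by
  obtain ⟨r, hr, h⟩ := Q_seq (X := fun _ => Set ℕ)
    (fun n B r => (cJ (i, n), {0}, B) ∈ r.1.H) (fun n B p q hqp h => hqp.2.1 h) q (by
      intro n p hp
      obtain ⟨r, hV, hr, B, hB⟩ := Cd.exists_H p.2 (cJ (i, n)) (A := {0})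
        ((Set.finite_singleton 0).subset Set.inter_subset_left)
      exact ⟨⟨r, hV⟩, hr, B, hB⟩)
  choose B hB using h
  exact ⟨r, hr, {n | 0 ∈ B n}, fun n => ⟨B n, hB n, Iff.rfl⟩⟩

/-- every set can be coded -/
theorem exists_code (q : Q) (A : Set ℕ) : ∃ r ≤ q, ∃ i, Coded i A r := by
  classical
  have h1 : {x : W1 × ℕ | Cd.AtH (cJ x) q.1}.Countable := by
    have h2 : {j : J | Cd.AtH j q.1}.Countable := by
      refine ((Cd.H_countable q.1).image fun x => x.1).mono ?_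
      rintro j ⟨A', B, h⟩
      exact ⟨_, h, rfl⟩
    exact h2.preimage_of_injOn (cJ_inj.injOn)
  have h3 := h1.image Prod.fst
  obtain ⟨i, hi⟩ : ∃ i, i ∉ Prod.fst '' {x : W1 × ℕ | Cd.AtH (cJ x) q.1} := by
    by_contra hcon
    push Not at hcon
    apply W1_unc
    exact h3.mono fun i _ => hcon i
  obtain ⟨r, hV, hr, h4⟩ := Cd.exists_bits q.2 (Set.range fun n => cJ (i, n))
    (Set.countable_range _) (by
      rintro _ ⟨n, rfl⟩ h
      exact hi ⟨(i, n), h, rfl⟩)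
    (fun j => if ∃ n, cJ (i, n) = j ∧ n ∈ A then {0} else ∅) (by
      intro j
      split_ifs
      · exact subset_rfl
      · exact Set.empty_subset _)
  refine ⟨⟨r, hV⟩, hr, i, fun n => ⟨_, h4 _ ⟨n, rfl⟩, ?_⟩⟩
  by_cases hn : n ∈ A
  · have h5 : ∃ m, cJ (i, m) = cJ (i, n) ∧ m ∈ A := ⟨n, rfl, hn⟩
    simp only [if_pos h5, Set.mem_singleton_iff, true_iff]
    exact hn
  · have h5 : ¬ ∃ m, cJ (i, m) = cJ (i, n) ∧ m ∈ A := by
      rintro ⟨m, h6, h7⟩
      have h8 : m = n := congrArg Prod.snd (cJ_inj h6)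
      rw [h8] at h7
      exact hn h7
    simp only [if_neg h5, Set.mem_empty_iff_false, false_iff]
    exact hn

theorem gFn_gN (p : Q) : (gFn (FS Q) gN (oName Q O1) RN).holds p := by
  constructor
  · intro Z q hq hZ r hr
    obtain ⟨s, hs, i, A, -, h1⟩ := fmem_gN.1 hZ r hr
    refine ⟨s, hs, oName Q (o1 i), fun t ht => ⟨t, le_rfl, rN A, ?_, ?_, ?_⟩⟩
    · exact holds_fPr.2 (feq_mono ht h1)
    · exact fmem_oName_of_lt (o1_lt i) t
    · exact fmem_famN_self rN A t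
  · intro x q hq hx r hr
    obtain ⟨s, hs, α, hα, h1⟩ := fmem_oName.1 hx r hr
    obtain ⟨i, rfl⟩ := o1_surj hα
    obtain ⟨u, hu, A, hA⟩ := exists_coded s i
    refine ⟨u, hu.trans hs, rN A, ?_, ?_⟩
    · rw [holds_fRel, RR_gN]
      exact fun t ht => ⟨t, le_rfl, i, A, hA.mono ht, feq_mono (ht.trans hu) h1, feq_refl _ _⟩
    · intro y' t ht hy'
      rw [holds_fRel, RR_gN] at hy'
      show feq y' (rN A) t
      apply feq_reg
      intro t' ht'
      obtain ⟨t2, ht2, j, A', hA', h2, h3⟩ := hy' t' ht'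
      refine ⟨t2, ht2, ?_⟩
      have h4 : o1 i = o1 j := feq_oName_iff.1
        (feq_trans (feq_symm (feq_mono (ht2.trans (ht'.trans (ht.trans hu))) h1)) h2)
      have h5 := o1_inj h4
      subst h5
      rw [(hA.mono (ht2.trans (ht'.trans ht))).uniq hA']
      exact h3

theorem onto_gN (p : Q) : (ball (FS Q) RN fun X => (FS Q).ex fun a => fRel (FS Q) gN a X).holds
    p := by
  intro X q hq hX r hr
  have hX' : fmem X RN q := hX
  rw [RN, fmem_famN] at hX'
  obtain ⟨s, hs, A, h1⟩ := hX' r hr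
  obtain ⟨t, ht, i, hi⟩ := exists_code s A
  refine ⟨t, ht.trans hs, oName Q (o1 i), ?_⟩
  rw [holds_fRel, RR_gN]
  exact fun u hu => ⟨u, le_rfl, i, A, hi.mono hu, feq_refl _ _, feq_mono (hu.trans ht) h1⟩

/-- there is a function from `w` onto `a` -/
def fOnto {N : Type v} {Ω : Type w} (L : LogicStr N Ω) (w a : N) : Ω :=
  L.ex fun f => L.and (gFn L f w a) (ball L a fun y => L.ex fun x => fRel L f x y)

theorem forced_onto {δ : Ordinal.{0}} {e : ℕ → W1} (he1 : ∀ n, o1 (e n) < δ)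
    (he2 : ∀ α < δ, ∃ n, o1 (e n) = α) (p : Q) :
    (fOnto (FS Q) (oName Q Ordinal.omega0) (oName Q δ)).holds p := by
  intro q hq
  refine ⟨q, le_rfl, relO ℕ (fun n => ((n : ℕ) : Ordinal.{0})) (fun n => o1 (e n))
    (fun _ => ⊤), ?_, ?_⟩
  · refine gFn_relO (fun n => Ordinal.natCast_lt_omega0 n) he1 ?_ ?_ q
    · intro m n h
      have : m = n := by exact_mod_cast h
      rw [this]
    · intro α hα
      obtain ⟨n, rfl⟩ := Ordinal.lt_omega0.1 hα
      exact ⟨n, rfl⟩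
  · intro Y r hr hY s hs
    have hY' : fmem Y (oName Q δ) r := hY
    obtain ⟨t, ht, β, hβ, h2⟩ := fmem_oName.1 hY' s hs
    obtain ⟨n, rfl⟩ := he2 β hβ
    refine ⟨t, ht, oName Q ((n : ℕ) : Ordinal.{0}), ?_⟩
    rw [holds_fRel, RR_relO]
    exact fun u hu => ⟨u, le_rfl, n, le_top, feq_refl _ _, feq_mono hu h2⟩

/-- the diagonal set -/
def fDg {N : Type v} {Ω : Type w} (L : LogicStr N Ω) (f g x : N) : Ω :=
  L.ex fun a => L.and (fRel L f x a) (L.ex fun A => L.and (fRel L g a A)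
    (L.imp (L.mem x A) L.bot))

namespace GB

variable (B : GB)

theorem ord_w1 : IsOrd B.G.E B.w1 := by
  constructor
  · intro y hy z hz
    rw [GModel.mem_o B.hw1] at hy ⊢
    obtain ⟨α, hα, h⟩ := hy
    rw [GModel.mem_o h] at hz
    obtain ⟨β, hβ, h'⟩ := hz
    exact ⟨β, hβ.trans hα, h'⟩
  · intro y hy z hz t ht
    rw [GModel.mem_o B.hw1] at hy
    obtain ⟨α, hα, h⟩ := hy
    rw [GModel.mem_o h] at hz ⊢
    obtain ⟨β, hβ, h'⟩ := hz
    rw [GModel.mem_o h'] at ht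
    obtain ⟨γ, hγ, h''⟩ := ht
    exact ⟨γ, hγ.trans hβ, h''⟩

theorem isFun_g : IsFun B.G.E B.g B.w1 B.Rm := by
  have h1 := B.G.of_forced (gFn codeStr 0 1 2 10) (B.G.el B.hg)
    [B.G.el B.hg, B.G.el B.hw1, B.G.el B.hRm] (fun p => gFn_gN p)
  exact h1

theorem onto_g (A : B.G.M) (hA : B.G.E A B.Rm) : ∃ a, Rel B.G.E B.g a A := by
  have h1 := B.G.of_forced ((ball codeStr 1 fun X => codeStr.ex fun a => fRel codeStr 0 a X) 10)
    (B.G.el B.hg) [B.G.el B.hg, B.G.el B.hRm] (fun p => onto_gN p)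
  exact h1 A hA

theorem countable_of_w1 (a : B.G.M) (ha : B.G.E a B.w1) : IsCountable B.G.E B.om a := by
  rw [GModel.mem_o B.hw1] at ha
  obtain ⟨δ, hδ, hd⟩ := ha
  rcases eq_or_ne δ 0 with rfl | h0
  · left
    intro y hy
    rw [GModel.mem_o hd] at hy
    obtain ⟨β, hβ, -⟩ := hy
    exact absurd hβ (not_lt_of_ge (zero_le (a := β)))
  · right
    obtain ⟨i, rfl⟩ := o1_surj hδ
    obtain ⟨j0, hj0⟩ := o1_surj ((pos_iff_ne_zero.2 h0).trans hδ)
    have hne : (Set.Iio i).Nonempty := by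
      refine ⟨j0, o1_lt_iff.1 ?_⟩
      rw [hj0]
      exact pos_iff_ne_zero.2 h0
    obtain ⟨e, he⟩ := (W1_Iio i).exists_eq_range hne
    have he1 : ∀ n, o1 (e n) < o1 i := fun n => o1_lt_iff.2 (by
      have : e n ∈ Set.Iio i := he ▸ Set.mem_range_self n
      exact this)
    have he2 : ∀ α < o1 i, ∃ n, o1 (e n) = α := by
      intro α hα
      obtain ⟨j, rfl⟩ := o1_surj (hα.trans hδ)
      have : j ∈ Set.range e := he ▸ o1_lt_iff.1 hα
      obtain ⟨n, hn⟩ := this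
      exact ⟨n, by rw [hn]⟩
    have h1 := B.G.of_forced (fOnto codeStr 0 1 10) (B.G.el B.hom) [B.G.el B.hom, B.G.el hd]
      (fun p => forced_onto he1 he2 p)
    exact h1

theorem not_countable_w1 : ¬ IsCountable B.G.E B.om B.w1 := by
  rintro (h | ⟨f, hf, hon⟩)
  · apply h (B.nat 0)
    rw [GModel.mem_o B.hw1]
    refine ⟨((0 : ℕ) : Ordinal.{0}), ?_, B.hnat 0⟩
    obtain ⟨i⟩ : Nonempty W1 := inferInstance
    have h0 : (((0 : ℕ) : Ordinal.{0})) = 0 := by norm_num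
    rw [h0]
    exact lt_of_le_of_lt (zero_le (a := o1 i)) (o1_lt i)
  · have hE := B.zf
    obtain ⟨D, hD⟩ := sep_of hE (fDg codeStr 1 2 0 10) (asn f [f, B.g])
      (P := fun x => ∃ a, Rel B.G.E f x a ∧ ∃ A, Rel B.G.E B.g a A ∧ (B.G.E x A → False))
      (fun x => Iff.rfl) B.om
    have hDs : Sub B.G.E D B.om := fun z hz => ((hD z).1 hz).1
    obtain ⟨a, ha⟩ := B.onto_g D (B.E_Rm.2 hDs)
    have ha1 := (IsFun.mem hE B.isFun_g ha).1
    obtain ⟨x, hx⟩ := hon a ha1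
    have hxo := (IsFun.mem hE hf hx).1
    have key : B.G.E x D ↔ ¬ B.G.E x D := by
      constructor
      · intro h
        obtain ⟨-, a', ha', A, hA, hn⟩ := (hD x).1 h
        have e1 : a' = a := IsFun.uniq hE hf ha' hx
        rw [e1] at hA
        have e2 : A = D := IsFun.uniq hE B.isFun_g hA ha
        rw [e2] at hn
        exact hn
      · intro h
        exact (hD x).2 ⟨hxo, a, hx, D, ha, h⟩
    tauto

/-- Proof. `W = w1`, `P = Rm` (`E_Rm`), `g = g`.
* `IsOrd E w1`: by `GModel.mem_o` all elements and elements of elements are named by ordinals.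
* every element `a` of `w1` is countable: it is named by `oName Q δ` with `δ < O1`. The formula
  `∀ δ ∈ w1, (δ is empty) ∨ ∃ f, fFn f ω δ ∧ ∀ y ∈ δ, ∃ x, (x, y) ∈ f` is forced: if `0 < δ < O1`
  there is a surjection `e` of `ℕ` onto the ordinals below `δ`; use the name
  `relO ℕ (fun n => n) e (fun _ => ⊤)` (`fFn_relO` in `F/C1.lean`).
* `g` is a function from `w1` to `Rm`, onto: the formulas `fFn g w1 Rm` and
  `∀ A ∈ Rm, ∃ δ ∈ w1, (δ, A) ∈ g` are forced. Total: given `q` and `i : W1`, by `Q_seq` and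
  `Cd.exists_H` (with `A = {0}`) there is `r ≤ q` such that for every `n` there is `B` with
  `(cJ (i, n), {0}, B) ∈ r.H`; then `r` forces `(oName Q (o1 i), rN A) ∈ gN` for
  `A = {n | ∃ B, (cJ (i, n), {0}, B) ∈ r.H ∧ 0 ∈ B}`. Unique: `Hfun`, `o1_inj`. Onto: given `q` and `A`,
  the set of the `i : W1` such that `Cd.AtH (cJ (i, n)) q` for some `n` is countable
  (`Cd.H_countable`, `cJ_inj`), so there is another `i` (`F.W1_unc`); use `Cd.exists_bits` with
  `f (cJ (i, n)) = {0}` if `n ∈ A` and `∅` otherwise.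
* `w1` is not countable: if `f` is a function from `om` onto `w1` then, using `exists_set`-like
  separation (`sep_of` in `F/Int.lean`), let `D = {n ∈ om | n ∉ g (f n)}`; `D = g (f n)` for some `n`,
  a contradiction (Cantor). -/
theorem ch : IsCH B.G.E B.om :=
  ⟨B.w1, B.Rm, B.g, ⟨B.ord_w1, B.not_countable_w1, B.countable_of_w1⟩, fun A => B.E_Rm,
    B.isFun_g, B.onto_g⟩

end GB

end Pool.Agent.H83.R
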