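import Pool.Agent.H83.R.GB

/-!
# Generic models: ultrafilters avoiding an ideal
-/

set_option autoImplicit false
set_option linter.unusedSectionVars false
set_option linter.unusedVariables false

namespace Pool.Agent.H83.R

open Pool.Agent.H86 Pool.Agent.H86.Name Pool.Agent.H83.F


universe v w

/-! ### Combinatorics -/

/-- the finite character property -/
def g4Fc {P : Type} [Preorder P] (q : P) (U : Set (Set ℕ × P)) : Prop :=
  ∀ t : Finset (Set ℕ × P), (t : Set (Set ℕ × P)) ⊆ U → ∀ r ≤ q, (∀ x ∈ t, r ≤ x.2) →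
    ∃ n : ℕ, ∀ x ∈ t, n ∈ x.1

theorem g4_core {P : Type} [Preorder P] (q : P) (I : Set ℕ → P → Prop)
    (hmono : ∀ B s t, t ≤ s → I B s → I B t) (A : Set ℕ) (hA : ∀ s ≤ q, ¬ I A s)
    (hun : ∀ B C D, ∀ s ≤ q, I B s → I C s → D ⊆ B ∪ C → I D s)
    (hemp : ∀ s ≤ q, I ∅ s) :
    ∃ U : Set (Set ℕ × P), (A, q) ∈ U ∧
      (∀ B t, (B, t) ∈ U → ∀ s ≤ q, s ≤ t → ¬ I B s) ∧
      (∀ B, ∀ r ≤ q, ∃ r' ≤ r, (B, r') ∈ U ∨ (Bᶜ, r') ∈ U) ∧
      (∀ B C D t t', (B, t) ∈ U → (C, t') ∈ U → B ∩ C ⊆ D → ∀ r ≤ q, r ≤ t → r ≤ t' →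
        ∃ r' ≤ r, (D, r') ∈ U) := by
  classical
  set U₀ : Set (Set ℕ × P) := {x | x = (A, q) ∨ (x.2 ≤ q ∧ I x.1ᶜ x.2)} with hU₀
  have hfu : ∀ r ≤ q, ∀ t : Finset (Set ℕ × P), (∀ x ∈ t, I x.1ᶜ r) →
      I {n | ∃ x ∈ t, n ∉ x.1} r := by
    intro r hr t
    induction t using Finset.induction_on with
    | empty =>
      intro _
      refine hun ∅ ∅ _ r hr (hemp r hr) (hemp r hr) ?_
      rintro n ⟨x, hx, -⟩
      exact absurd hx (Finset.notMem_empty x)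
    | insert x t hx ih =>
      intro h
      refine hun x.1ᶜ {n | ∃ x ∈ t, n ∉ x.1} _ r hr (h x (Finset.mem_insert_self x t))
        (ih fun y hy => h y (Finset.mem_insert_of_mem hy)) ?_
      rintro n ⟨y, hy, hny⟩
      rcases Finset.mem_insert.1 hy with rfl | hy
      · exact Or.inl hny
      · exact Or.inr ⟨y, hy, hny⟩
  have hFc₀ : g4Fc q U₀ := by
    intro t ht r hr htr
    by_contra hc
    push Not at hc
    set t' := t.filter (fun x => I x.1ᶜ r) with ht'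
    have h1 : I {n | ∃ x ∈ t', n ∉ x.1} r :=
      hfu r hr t' fun x hx => (Finset.mem_filter.1 hx).2
    refine hA r hr (hun _ _ A r hr h1 h1 ?_)
    intro n hn
    obtain ⟨x, hx, hnx⟩ := hc n
    rcases ht hx with h2 | h2
    · exfalso
      rw [h2] at hnx
      exact hnx hn
    · exact Or.inl ⟨x, Finset.mem_filter.2 ⟨hx, hmono _ _ _ (htr x hx) h2.2⟩, hnx⟩
  obtain ⟨U, hU₀U, hUmax⟩ := zorn_subset_nonempty {U | g4Fc q U} (by
    intro c hc hchain hne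
    refine ⟨⋃₀ c, ?_, fun s hs => Set.subset_sUnion_of_mem hs⟩
    intro t ht r hr htr
    obtain ⟨s, hs, hts⟩ := DirectedOn.exists_mem_subset_of_finset_subset_biUnion
      (f := fun x : Set (Set ℕ × P) => x) hne (hchain.directedOn) (s := t)
      (by rw [← Set.sUnion_eq_biUnion]; exact ht)
    exact hc hs t hts r hr htr) U₀ hFc₀
  have hFc : g4Fc q U := hUmax.1
  have hmax : ∀ B r, r ≤ q → (B, r) ∉ U → ∃ r₁ ≤ r, ∃ t : Finset (Set ℕ × P),
      (t : Set (Set ℕ × P)) ⊆ U ∧ (∀ x ∈ t, r₁ ≤ x.2) ∧ ∀ n ∈ B, ∃ x ∈ t, n ∉ x.1 := by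
    intro B r hr hBr
    have h1 : ¬ g4Fc q (insert (B, r) U) := by
      intro h2
      have h3 : insert (B, r) U ⊆ U := hUmax.2 h2 (Set.subset_insert _ _)
      exact hBr (h3 (Set.mem_insert _ _))
    unfold g4Fc at h1
    push Not at h1
    obtain ⟨t, ht, r₁, hr₁, htr, hn⟩ := h1
    have hmem : (B, r) ∈ t := by
      by_contra hnot
      have h2 : (t : Set (Set ℕ × P)) ⊆ U := by
        intro x hx
        rcases Set.mem_insert_iff.1 (ht hx) with h | h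
        · exact absurd (h ▸ hx) hnot
        · exact h
      obtain ⟨n, hn'⟩ := hFc t h2 r₁ hr₁ htr
      obtain ⟨x, hx, hnx⟩ := hn n
      exact hnx (hn' x hx)
    refine ⟨r₁, htr _ hmem, t.erase (B, r), ?_, ?_, ?_⟩
    · intro x hx
      have hx' := Finset.mem_erase.1 (Finset.mem_coe.1 hx)
      rcases Set.mem_insert_iff.1 (ht hx'.2) with h | h
      · exact absurd h hx'.1
      · exact h
    · intro x hx
      exact htr x (Finset.mem_of_mem_erase hx)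
    · intro n hnB
      obtain ⟨x, hx, hnx⟩ := hn n
      refine ⟨x, Finset.mem_erase.2 ⟨?_, hx⟩, hnx⟩
      rintro rfl
      exact hnx hnB
  have hdec : ∀ B, ∀ r ≤ q, ∃ r' ≤ r, (B, r') ∈ U ∨ (Bᶜ, r') ∈ U := by
    intro B r hr
    by_cases h1 : (B, r) ∈ U
    · exact ⟨r, le_rfl, Or.inl h1⟩
    obtain ⟨r₁, hr₁, t, ht, htr, hn⟩ := hmax B r hr h1
    refine ⟨r₁, hr₁, Or.inr ?_⟩
    by_contra h2
    obtain ⟨r₂, hr₂, t₂, ht₂, htr₂, hn₂⟩ := hmax Bᶜ r₁ (hr₁.trans hr) h2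
    obtain ⟨n, hn'⟩ := hFc (t ∪ t₂) (by
      intro x hx
      rcases Finset.mem_union.1 (Finset.mem_coe.1 hx) with h | h
      · exact ht h
      · exact ht₂ h) r₂ (hr₂.trans (hr₁.trans hr)) (by
      intro x hx
      rcases Finset.mem_union.1 hx with h | h
      · exact hr₂.trans (htr x h)
      · exact htr₂ x h)
    by_cases hnB : n ∈ B
    · obtain ⟨x, hx, hnx⟩ := hn n hnB
      exact hnx (hn' x (Finset.mem_union_left _ hx))
    · obtain ⟨x, hx, hnx⟩ := hn₂ n hnB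
      exact hnx (hn' x (Finset.mem_union_right _ hx))
  refine ⟨U, hU₀U (Or.inl rfl), ?_, hdec, ?_⟩
  · intro B t hBt s hs hst hI
    have h1 : (Bᶜ, s) ∈ U := hU₀U (Or.inr ⟨hs, by rw [compl_compl]; exact hI⟩)
    obtain ⟨n, hn⟩ := hFc {(B, t), (Bᶜ, s)} (by
      intro x hx
      rcases Finset.mem_insert.1 (Finset.mem_coe.1 hx) with h | h
      · rw [h]; exact hBt
      · rw [Finset.mem_singleton.1 h]; exact h1) s hs (by
      intro x hx
      rcases Finset.mem_insert.1 hx with h | h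
      · rw [h]; exact hst
      · rw [Finset.mem_singleton.1 h])
    exact hn (Bᶜ, s) (Finset.mem_insert_of_mem (Finset.mem_singleton_self _))
      (hn (B, t) (Finset.mem_insert_self _ _))
  · intro B C D t t' hB hC hD r hr hrt hrt'
    obtain ⟨r', hr', h1 | h1⟩ := hdec D r hr
    · exact ⟨r', hr', h1⟩
    exfalso
    obtain ⟨n, hn⟩ := hFc {(B, t), (C, t'), (Dᶜ, r')} (by
      intro x hx
      rcases Finset.mem_insert.1 (Finset.mem_coe.1 hx) with h | h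
      · rw [h]; exact hB
      rcases Finset.mem_insert.1 h with h | h
      · rw [h]; exact hC
      · rw [Finset.mem_singleton.1 h]; exact h1) r' (hr'.trans hr) (by
      intro x hx
      rcases Finset.mem_insert.1 hx with h | h
      · rw [h]; exact hr'.trans hrt
      rcases Finset.mem_insert.1 h with h | h
      · rw [h]; exact hr'.trans hrt'
      · rw [Finset.mem_singleton.1 h])
    have h2 := hn (B, t) (Finset.mem_insert_self _ _)
    have h3 := hn (C, t') (Finset.mem_insert_of_mem (Finset.mem_insert_self _ _))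
    have h4 := hn (Dᶜ, r') (Finset.mem_insert_of_mem (Finset.mem_insert_of_mem
      (Finset.mem_singleton_self _)))
    exact h4 (hD ⟨h2, h3⟩)

/-! ### The formula -/

/-- the hypotheses on `j`, `a` -/
def g4Hyp {N : Type v} {Ω : Type w} (L : LogicStr N Ω) (j a R cf c0 : N) : Ω :=
  L.and (L.mem a R) (L.and (L.imp (L.mem a j) L.bot)
    (L.and (L.all fun b => L.imp (L.mem b R) (L.all fun c => L.imp (L.mem c R)
        (L.all fun d => L.imp (L.mem d R) (L.imp (L.mem b j) (L.imp (L.mem c j)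
          (L.imp (fRel3 L c0 b c d) (L.mem d j)))))))
      (L.all fun b => L.imp (L.mem b R) (L.imp (L.mem b cf) (L.mem b j)))))

/-- the properties of `u` -/
def g4Con {N : Type v} {Ω : Type w} (L : LogicStr N Ω) (j a R cc c1 u : N) : Ω :=
  L.and (L.all fun b => L.imp (L.mem b u) (L.mem b R)) (L.and (L.mem a u)
    (L.and (L.all fun b => L.imp (L.mem b u) (L.imp (L.mem b j) L.bot))
      (L.and (L.all fun b => L.all fun c => L.imp (fRel L cc b c)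
          (L.or (L.mem b u) (L.mem c u)))
        (L.all fun b => L.all fun c => L.all fun d => L.imp (L.mem b u) (L.imp (L.mem c u)
          (L.imp (fRel3 L c1 b c d) (L.mem d u)))))))

/-- the formula -/
def g4F {N : Type v} {Ω : Type w} (L : LogicStr N Ω) (j a R cf c0 cc c1 : N) : Ω :=
  L.imp (g4Hyp L j a R cf c0) (L.ex fun u => g4Con L j a R cc c1 u)

theorem g4_forced (J X : Name Q) (p : Q) :
    (g4F (FS Q) J X RN (k1 (L1 0)) (k3 (L3 0)) (k2 (L2 3)) (k3 (L3 1))).holds p := by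
  intro q₀ hq₀ hyp r₀ hr₀
  obtain ⟨h1, h2, h3, h4⟩ := hyp
  -- decide `X`
  obtain ⟨q, hq, A, hXA⟩ := fmem_famN.1 (show fmem X (famN rN) q₀ from h1) r₀ hr₀
  have hqq : q ≤ q₀ := hq.trans hr₀
  have hRN : ∀ B (s : Q), fmem (rN B) RN s := fun B s => fmem_famN_self rN B s
  obtain ⟨U, u1, u2, u3, u4⟩ := g4_core q (fun B s => fmem (rN B) J s)
    (fun B s t hts h => fmem_mono hts h) A
    (fun s hs h => h2 s (hs.trans hqq) (fmem_congr_left (feq_symm (feq_mono hs hXA)) h))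
    (fun B C D s hs hB hC hD => by
      have h5 := h3 (rN B) s (hs.trans hqq) (hRN B s) (rN C) s le_rfl (hRN C s) (rN D) s le_rfl
        (hRN D s) s le_rfl hB s le_rfl hC s le_rfl
        (holds_fRel3.2 (fmem_k3.2 (show L3 0 B C D from hD)))
      exact h5)
    (fun s hs => h4 (rN ∅) s (hs.trans hqq) (hRN ∅ s) s le_rfl
      (fmem_k1.2 (show L1 0 ∅ from Set.finite_empty)))
  set u : Name Q := Name.mk U (fun x => rN x.1.1) (fun x => x.1.2) with hu
  have hmem : ∀ {Y : Name Q} {s : Q}, fmem Y u s → ∀ r ≤ s, ∃ r' ≤ r, ∃ B t, (B, t) ∈ U ∧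
      r' ≤ t ∧ feq Y (rN B) r' := by
    intro Y s h r hr
    obtain ⟨r', hr', ⟨⟨B, t⟩, hBt⟩, h5, h6⟩ := h r hr
    exact ⟨r', hr', B, t, hBt, h5, h6⟩
  have hmem' : ∀ {Y : Name Q} {s : Q}, (∀ r ≤ s, ∃ r' ≤ r, ∃ B t, (B, t) ∈ U ∧
      r' ≤ t ∧ feq Y (rN B) r') → fmem Y u s := by
    intro Y s h r hr
    obtain ⟨r', hr', B, t, hBt, h5, h6⟩ := h r hr
    exact ⟨r', hr', ⟨⟨B, t⟩, hBt⟩, h5, h6⟩
  have hmemB : ∀ {B : Set ℕ} {Y : Name Q} {s : Q}, (B, s) ∈ U → feq Y (rN B) s →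
      fmem Y u s := by
    intro B Y s hB h
    exact hmem' fun r hr => ⟨r, le_rfl, B, s, hB, hr, feq_mono hr h⟩
  refine ⟨q, hq, u, ?_, ?_, ?_, ?_, ?_⟩
  · -- (1)
    intro Y s hs hY
    refine fmem_famN.2 fun r hr => ?_
    obtain ⟨r', hr', B, t, -, -, h6⟩ := hmem hY r hr
    exact ⟨r', hr', B, h6⟩
  · -- (2)
    exact hmem' fun r hr => ⟨r, le_rfl, A, q, u1, hr, feq_mono hr hXA⟩
  · -- (3)
    intro Y s hs hY s' hs' hJ
    obtain ⟨r', hr', B, t, hBt, h5, h6⟩ := hmem hY s' hs'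
    exact u2 B t hBt r' (hr'.trans (hs'.trans hs)) h5
      (fmem_congr_left h6 (fmem_mono hr' hJ))
  · -- (4)
    intro Y Z s hs hYZ r hr
    rw [holds_fRel] at hYZ
    obtain ⟨r₁, hr₁, ⟨⟨B, C⟩, hBC⟩, h5⟩ := fmem_famN.1
      (show fmem (opair Y Z) (famN _) s from hYZ) r hr
    have hBC' : C = Bᶜ := hBC
    obtain ⟨h6, h7⟩ := feq_opair_iff.1 h5
    obtain ⟨r₂, hr₂, h8 | h8⟩ := u3 B r₁ (hr₁.trans (hr.trans hs))
    · exact ⟨r₂, hr₂.trans hr₁, Or.inl (hmemB h8 (feq_mono hr₂ h6))⟩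
    · refine ⟨r₂, hr₂.trans hr₁, Or.inr (hmemB h8 ?_)⟩
      have h9 := feq_mono hr₂ h7
      simp only at h9
      rwa [hBC'] at h9
  · -- (5)
    intro Y Z W s hs hY s₁ hs₁ hZ s₂ hs₂ hYZW
    rw [holds_fRel3] at hYZW
    show fmem W u s₂
    apply fmem_reg
    intro r hr
    obtain ⟨r₁, hr₁, ⟨⟨B, C, D⟩, hBCD⟩, h5⟩ := fmem_famN.1
      (show fmem (opair Y (opair Z W)) (famN _) s₂ from hYZW) r hr
    have hBCD' : B ∩ C ⊆ D := hBCD
    obtain ⟨h6, h7⟩ := feq_opair_iff.1 h5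
    obtain ⟨h8, h9⟩ := feq_opair_iff.1 h7
    obtain ⟨r₂, hr₂, B', t, hB', h10, h11⟩ := hmem hY r₁ (hr₁.trans (hr.trans (hs₂.trans hs₁)))
    obtain ⟨r₃, hr₃, C', t', hC', h12, h13⟩ := hmem hZ r₂ (hr₂.trans (hr₁.trans (hr.trans hs₂)))
    have e1 : B = B' := feq_rN.1 (feq_trans (feq_symm (feq_mono hr₂ h6)) h11)
    have e2 : C = C' := feq_rN.1 (feq_trans (feq_symm (feq_mono (hr₃.trans hr₂) h8)) h13)
    subst e1 e2
    have hr₃q : r₃ ≤ q :=
      hr₃.trans (hr₂.trans (hr₁.trans (hr.trans (hs₂.trans (hs₁.trans hs)))))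
    obtain ⟨r₄, hr₄, h14⟩ := u4 B C D t t' hB' hC' hBCD' r₃ hr₃q (hr₃.trans h10) h12
    exact ⟨r₄, hr₄.trans (hr₃.trans (hr₂.trans hr₁)),
      hmemB h14 (feq_mono (hr₄.trans (hr₃.trans hr₂)) h9)⟩

namespace GB

variable (B : GB)

/-- Proof. The following formula is forced, for all names `j`, `a` (parameters `om, Rm` and the
constants `k1 (L1 0)` (finite sets), `k2 (L2 0)` (inclusion), `k2 (L2 3)` (complement),
`k3 (L3 0)`, `k3 (L3 1)`): if `a ∈ Rm`, `a ∉ j`, `∀ b, c, d ∈ Rm, b ∈ j → c ∈ j →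
(b, (c, d)) ∈ k3 (L3 0) → d ∈ j` and `∀ b ∈ Rm, b ∈ k1 (L1 0) → b ∈ j`, then there is `u` with
(1) `∀ b ∈ u, b ∈ Rm`, (2) `a ∈ u`, (3) `∀ b ∈ Rm, b ∈ u → b ∉ j`, (4) `∀ b, c ∈ Rm,
(b, c) ∈ k2 (L2 3) → (b ∈ u ∨ c ∈ u)` (complements), (5) `∀ b, c, d ∈ Rm, b ∈ u → c ∈ u →
(b, (c, d)) ∈ k3 (L3 1) → d ∈ u`. (In the model this gives `IsUF`: `b = c` in (5) gives upward
closure; `∅ ∉ u` and no singleton is in `u` since these sets are finite, so in `j`, by (3).)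
Proof that it is forced: let `q` force the hypotheses, with `a = rN A` (decide it). Let
`U₀ : Set (Set ℕ × Q)` be `{(A, q)} ∪ {(B, s) | s ≤ q ∧ fmem (rN Bᶜ) j s}` and consider the sets
`U : Set (Set ℕ × Q)` with the property `Fc U`: for every finite `t ⊆ U` and every `r ≤ q` with
`r ≤ x.2` for all `x ∈ t`, the set `{n | ∀ x ∈ t, n ∈ x.1}` is nonempty. `Fc U₀` holds: otherwise
`A ⊆ B₁ᶜ ∪ ... ∪ B_kᶜ` and `r` forces that all `B_iᶜ` are in `j`, so (induction on `k`, with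
`∅ ∈ j`) `r` forces `A ∈ j`, a contradiction. `Fc` is of finite character, so by Zorn's lemma
(`zorn_subset_nonempty`) there is a maximal `U ⊇ U₀` with `Fc U`. Key fact: for every `B` and
`r ≤ q` there is `r' ≤ r` with `(B, r') ∈ U` or `(Bᶜ, r') ∈ U`. (If `(B, r) ∉ U` then by maximality
there are a finite `t ⊆ U` and `r₁ ≤ r`, `r₁ ≤ x.2` for `x ∈ t`, with `B ∩ ⋂ t = ∅`. Then
`(Bᶜ, r₁) ∈ U`: otherwise there are `t₂ ⊆ U`, `r₂ ≤ r₁`, ... with `Bᶜ ∩ ⋂ t₂ = ∅`, and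
`t ∪ t₂` and `r₂` contradict `Fc U`.) Let `u` be the name `Name.mk U (fun x => rN x.1.1)
(fun x => x.1.2)`. Then for `r ≤ q`: `fmem (rN B) u r` iff for all `s ≤ r` there are `s' ≤ s` and
`(B, s'') ∈ U` with `s' ≤ s''`. (3): if `r` forces `B ∈ u` and `B ∈ j` then some `r' ≤ r` has
`(B, s) ∈ U`, `r' ≤ s`, and `(Bᶜ, r') ∈ U₀ ⊆ U`, contradicting `Fc U`. (5): by the key fact for
`d`: if `(Dᶜ, r') ∈ U` this contradicts `Fc U` with `(B, s), (C, s')`. -/
theorem ult (j a : B.G.M) (ha : Sub B.G.E a B.om) (haj : ¬ B.G.E a j)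
    (hU : ∀ b c d, B.G.E b j → B.G.E c j → Sub B.G.E d B.om →
      (∀ n, B.G.E n d → (B.G.E n b ∨ B.G.E n c)) → B.G.E d j)
    (hfin : ∀ b A, Rl B.G.E B.om B.nat b A → A.Finite → B.G.E b j) :
    ∃ u, IsUF B.G.E B.om u ∧ B.G.E a u ∧ ∀ b, B.G.E b u → ¬ B.G.E b j := by
  have hstd := B.std
  have hZF : IsZFModel B.G.E := B.zfc.toIsZFModel
  obtain ⟨J, hJ⟩ := B.G.named j
  obtain ⟨X, hX⟩ := B.G.named a
  obtain ⟨cf, hcf⟩ := B.h1 0
  obtain ⟨c0, hc0⟩ := B.h3 0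
  obtain ⟨cc, hcc⟩ := B.h2 3
  obtain ⟨c1, hc1⟩ := B.h3 1
  have hF : g4F (propStr B.G.E) j a B.Rm cf c0 cc c1 :=
    B.G.of_forced (g4F codeStr 0 1 2 3 4 5 6 10) (B.G.el hJ)
      [B.G.el hJ, B.G.el hX, B.G.el B.hRm, B.G.el hcf, B.G.el hc0, B.G.el hcc, B.G.el hc1]
      (fun p => g4_forced J X p)
  have hRl : ∀ {b : B.G.M}, Sub B.G.E b B.om → Rl B.G.E B.om B.nat b {n | B.G.E (B.nat n) b} :=
    fun h => ⟨h, rfl⟩
  have hyp : g4Hyp (propStr B.G.E) j a B.Rm cf c0 := by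
    refine ⟨B.E_Rm.2 ha, haj, ?_, ?_⟩
    · intro b hb c hc d hd hbj hcj hr
      have hb' := B.E_Rm.1 hb
      have hc' := B.E_Rm.1 hc
      have hd' := B.E_Rm.1 hd
      have h1 : L3 0 {n | B.G.E (B.nat n) b} {n | B.G.E (B.nat n) c} {n | B.G.E (B.nat n) d} :=
        (B.k3_iff hc0 (hRl hb') (hRl hc') (hRl hd')).1 hr
      refine hU b c d hbj hcj hd' fun n hn => ?_
      obtain ⟨m, rfl⟩ := (hstd.E_om n).1 (hd' n hn)
      exact h1 hn
    · intro b hb hbf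
      have hb' := B.E_Rm.1 hb
      have h1 : L1 0 {n | B.G.E (B.nat n) b} := (B.k1_iff hcf (hRl hb')).1 hbf
      exact hfin b _ (hRl hb') h1
  obtain ⟨u, h1, h2, h3, h4, h5⟩ := hF hyp
  have hsub : ∀ b, B.G.E b u → Sub B.G.E b B.om := fun b hb => B.E_Rm.1 (h1 b hb)
  have hnj : ∀ b, B.G.E b u → ¬ B.G.E b j := fun b hb hbj => h3 b hb hbj
  -- finite sets are not in `u`
  have hnf : ∀ b S, Rl B.G.E B.om B.nat b S → S.Finite → ¬ B.G.E b u := fun b S hb hS hbu =>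
    hnj b hbu (hfin b S hb hS)
  have hmul : ∀ b c d S T W, B.G.E b u → B.G.E c u → Rl B.G.E B.om B.nat b S →
      Rl B.G.E B.om B.nat c T → Rl B.G.E B.om B.nat d W → S ∩ T ⊆ W → B.G.E d u := by
    intro b c d S T W hb hc hbS hcT hdW hST
    exact h5 b c d hb hc ((B.k3_iff hc1 hbS hcT hdW).2 hST)
  have hcomp : ∀ b c S, Rl B.G.E B.om B.nat b S → Rl B.G.E B.om B.nat c Sᶜ →
      B.G.E b u ∨ B.G.E c u := by
    intro b c S hb hc
    exact h4 b c ((B.k2_iff hcc hb hc).2 rfl)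
  have hcompl : ∀ b c, Sub B.G.E b B.om → (∀ n, B.G.E n c ↔ (B.G.E n B.om ∧ ¬ B.G.E n b)) →
      Rl B.G.E B.om B.nat c {n | B.G.E (B.nat n) b}ᶜ := by
    intro b c hb hc
    refine ⟨fun n hn => ((hc n).1 hn).1, ?_⟩
    ext n
    constructor
    · intro hn
      exact ((hc _).1 hn).2
    · intro hn
      exact (hc _).2 ⟨(hstd.E_om _).2 ⟨n, rfl⟩, hn⟩
  -- the empty set
  have he : Rl B.G.E B.om B.nat (B.nat 0) ∅ := by
    constructor
    · intro n hn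
      obtain ⟨m, hm, -⟩ := (hstd.E_nat n 0).1 hn
      exact absurd hm (Nat.not_lt_zero m)
    · ext n
      constructor
      · intro hn
        obtain ⟨m, hm, -⟩ := (hstd.E_nat _ 0).1 hn
        exact absurd hm (Nat.not_lt_zero m)
      · intro hn
        exact absurd hn (Set.notMem_empty n)
  have heu : ¬ B.G.E (B.nat 0) u := hnf _ _ he Set.finite_empty
  have hom' : Rl B.G.E B.om B.nat B.om Set.univ := by
    refine ⟨fun n hn => hn, ?_⟩
    ext n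
    exact ⟨fun _ => trivial, fun _ => (hstd.E_om _).2 ⟨n, rfl⟩⟩
  refine ⟨u, ⟨hsub, ?_, ?_, ?_, ?_, ?_⟩, h2, hnj⟩
  · rcases hcomp B.om (B.nat 0) Set.univ hom' (by rw [Set.compl_univ]; exact he) with h | h
    · exact h
    · exact absurd h heu
  · intro b c hb hbc hc
    refine hmul b b c _ _ _ hb hb (hRl (hsub b hb)) (hRl (hsub b hb)) (hRl hc) ?_
    rintro n ⟨hn, -⟩
    exact hbc _ hn
  · intro b c d hb hc hd
    refine hmul b c d _ _ _ hb hc (hRl (hsub b hb)) (hRl (hsub c hc)) (hRl ?_) ?_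
    · intro n hn
      exact hsub b hb n ((hd n).1 hn).1
    · rintro n ⟨hn1, hn2⟩
      exact (hd _).2 ⟨hn1, hn2⟩
  · intro b c hb hc
    have hc' := hcompl b c hb hc
    constructor
    · intro hbu hcu
      refine heu (hmul b c (B.nat 0) _ _ ∅ hbu hcu (hRl hb) hc' he ?_)
      rintro n ⟨hn1, hn2⟩
      exact hn2 hn1
    · intro hcu
      rcases hcomp b c _ (hRl hb) hc' with h | h
      · exact h
      · exact absurd h hcu
  · intro n b hn hb
    obtain ⟨m, rfl⟩ := (hstd.E_om n).1 hn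
    have hbs : Sub B.G.E b B.om := by
      intro k hk
      rw [(hb k).1 hk]
      exact hn
    refine hnf b _ (hRl hbs) ?_
    refine (Set.finite_singleton m).subset ?_
    intro k hk
    have h6 : B.nat k = B.nat m := (hb _).1 hk
    exact hstd.nat_inj hZF h6

end GB

end Pool.Agent.H83.R
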