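import Pool.Agent.H83.R.GB

/-!
# Generic models: the dominating family

Status: complete (helper26).
-/

set_option autoImplicit false
set_option linter.unusedSectionVars false
set_option linter.unusedVariables false

namespace Pool.Agent.H83.R

open Pool.Agent.H86 Pool.Agent.H86.Name Pool.Agent.H83.F

section G5Fml

universe v w

variable {N : Type v} {Ω : Type w} (L : LogicStr N Ω)

/-- pairs in `c` are in `K` -/
def g5A (Rm K c : N) : Ω :=
  ball L Rm fun a => ball L Rm fun b => L.imp (fRel L c a b) (fRel L K a b)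

/-- two pairs in `c` are `K`-related -/
def g5B (Rm K c : N) : Ω :=
  ball L Rm fun a => ball L Rm fun b => L.imp (fRel L c a b)
    (ball L Rm fun a' => ball L Rm fun b' => L.imp (fRel L c a' b') (fRel4 L K a b a' b'))

/-- `c` is total on `K` -/
def g5C (Rm K c : N) : Ω :=
  ball L Rm fun a => L.imp (L.mem a K) (bex L Rm fun b => fRel L c a b)

end G5Fml

theorem g5_cgA (Rm K : Name Q) : Cg fun x => g5A (FS Q) Rm K x :=
  cg_code (g5A codeStr 1 2 0 10) (fun i => [Rm, K].getD (i - 1) Rm) (fun x => rfl)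

theorem g5_cgB (Rm K : Name Q) : Cg fun x => g5B (FS Q) Rm K x :=
  cg_code (g5B codeStr 1 2 0 10) (fun i => [Rm, K].getD (i - 1) Rm) (fun x => rfl)

theorem g5_cgC (Rm K : Name Q) : Cg fun x => g5C (FS Q) Rm K x :=
  cg_code (g5C codeStr 1 2 0 10) (fun i => [Rm, K].getD (i - 1) Rm) (fun x => rfl)

theorem g5_forceA (p : Q) :
    (ball (FS Q) BsN fun c => g5A (FS Q) RN (k2 (L2 4)) c).holds p := by
  refine (ball_fam (g5_cgA _ _)).2 fun β => ?_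
  refine (ball_fam (x := rN) (cg_code ((ball codeStr 1 fun b =>
    codeStr.imp (fRel codeStr 2 0 b) (fRel codeStr 3 0 b)) 10)
    (fun i => [RN, bN β, k2 (L2 4)].getD (i - 1) RN) (fun x => rfl))).2 fun A => ?_
  refine (ball_fam (x := rN) (cg_code ((codeStr.imp (fRel codeStr 2 1 0) (fRel codeStr 3 1 0)) 10)
    (fun i => [rN A, bN β, k2 (L2 4)].getD (i - 1) RN) (fun x => rfl))).2 fun C => ?_
  intro q hq h
  have h1 := RR_bN.1 (holds_fRel.1 h)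
  refine holds_fRel.2 (fmem_k2.2 ?_)
  obtain ⟨r, hr, hm⟩ := h1 q le_rfl
  exact r.2.1.Tdom β A C hm

theorem g5_forceB (p : Q) :
    (ball (FS Q) BsN fun c => g5B (FS Q) RN (k4 (L4 0)) c).holds p := by
  refine (ball_fam (g5_cgB _ _)).2 fun β => ?_
  refine (ball_fam (x := rN) (cg_code ((ball codeStr 1 fun b => codeStr.imp (fRel codeStr 2 0 b)
    (ball codeStr 1 fun a' => ball codeStr 1 fun b' =>
      codeStr.imp (fRel codeStr 2 a' b') (fRel4 codeStr 3 0 b a' b'))) 10)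
    (fun i => [RN, bN β, k4 (L4 0)].getD (i - 1) RN) (fun x => rfl))).2 fun A => ?_
  refine (ball_fam (x := rN) (cg_code ((codeStr.imp (fRel codeStr 2 4 0)
    (ball codeStr 1 fun a' => ball codeStr 1 fun b' =>
      codeStr.imp (fRel codeStr 2 a' b') (fRel4 codeStr 3 4 0 a' b'))) 10)
    (fun i => [RN, bN β, k4 (L4 0), rN A].getD (i - 1) RN) (fun x => rfl))).2 fun C => ?_
  intro q hq h
  refine (ball_fam (x := rN) (cg_code ((ball codeStr 1 fun b' =>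
      codeStr.imp (fRel codeStr 2 0 b') (fRel4 codeStr 3 4 5 0 b')) 10)
    (fun i => [RN, bN β, k4 (L4 0), rN A, rN C].getD (i - 1) RN) (fun x => rfl))).2
    fun A' => ?_
  refine (ball_fam (x := rN) (cg_code ((
      codeStr.imp (fRel codeStr 2 6 0) (fRel4 codeStr 3 4 5 6 0)) 10)
    (fun i => [RN, bN β, k4 (L4 0), rN A, rN C, rN A'].getD (i - 1) RN) (fun x => rfl))).2
    fun C' => ?_
  intro q' hq' h'
  have h1 := RR_bN.1 (holds_fRel.1 h)
  have h2 := RR_bN.1 (holds_fRel.1 h')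
  refine holds_fRel4.2 (fmem_k4.2 ?_)
  obtain ⟨r, hr, hm⟩ := h1 q' hq'
  obtain ⟨s, hs, hm'⟩ := h2 r hr
  exact s.2.1.Tcoh β A C A' C' (hs.2.2.1 hm) hm'

theorem g5_forceC (p : Q) :
    (ball (FS Q) BsN fun c => g5C (FS Q) RN (k1 (L1 2)) c).holds p := by
  refine (ball_fam (g5_cgC _ _)).2 fun β => ?_
  refine (ball_fam (x := rN) (cg_code ((codeStr.imp (codeStr.mem 0 3)
    (bex codeStr 1 fun b => fRel codeStr 2 0 b)) 10)
    (fun i => [RN, bN β, k1 (L1 2)].getD (i - 1) RN) (fun x => rfl))).2 fun A => ?_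
  intro q hq h
  have hA : Ix A := fmem_k1.1 (holds_mem.1 h)
  refine (bex_fam (x := rN) (cg_code ((fRel codeStr 1 2 0) 10)
    (fun i => [bN β, rN A].getD (i - 1) RN) (fun x => rfl))).2 ?_
  intro r hr
  obtain ⟨s, hs, hsr, C, hC⟩ := Cd.exists_T r.2 β hA
  refine ⟨⟨s, hs⟩, hsr, C, holds_fRel.2 (RR_bN.2 fun t ht => ⟨t, le_rfl, ht.2.2.1 hC⟩)⟩

namespace GB

variable (B : GB)

/-- Proof. The following formulas are forced (parameters `Bs`, `Rm` and the constants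
`k2 (L2 4)`, `k4 (L4 0)`, `k1 (L1 2)`): for all `c ∈ Bs`,
(1) `∀ a, b ∈ Rm, (a, b) ∈ c → (a, b) ∈ k2 (L2 4)`;
(2) `∀ a, b, a', b' ∈ Rm, (a, b) ∈ c → (a', b') ∈ c → (a, (b, (a', b'))) ∈ k4 (L4 0)`;
(3) `∀ a ∈ Rm, a ∈ k1 (L1 2) → ∃ b ∈ Rm, (a, b) ∈ c`.
By `ball_fam` it suffices to consider `c = bN β`, `a = rN A` etc.; (1), (2) by `RR_bN` (take a
condition `r` with `(β, A, B) ∈ r.T`; `Tdom`, `Tcoh`), (3) by `Cd.exists_T`. Translate by
`GB.E_Rm`, `GB.k1_iff`, ... and `GB.E_x` (`Ix A ↔ A ∉ xU`). -/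
theorem b_code (c : B.G.M) (hc : B.G.E c B.Bs) :
    Code (PM B.G.E B.om B.nat) (IM B.G.E B.om B.nat B.x) (Cr B.G.E B.om B.nat c) ∧
      ∀ A A', Cr B.G.E B.om B.nat c A A' → FC A' := by
  obtain ⟨kA, hkA⟩ := B.h2 4
  obtain ⟨kB, hkB⟩ := B.h4 0
  obtain ⟨kC, hkC⟩ := B.h1 2
  have h1 : ball (propStr B.G.E) B.Bs fun c => g5A (propStr B.G.E) B.Rm kA c :=
    B.G.of_forced ((ball codeStr 0 fun c => g5A codeStr 1 2 c) 10) (B.G.el B.hBs)
      [B.G.el B.hBs, B.G.el B.hRm, B.G.el hkA] (fun p => g5_forceA p)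
  have h2 : ball (propStr B.G.E) B.Bs fun c => g5B (propStr B.G.E) B.Rm kB c :=
    B.G.of_forced ((ball codeStr 0 fun c => g5B codeStr 1 2 c) 10) (B.G.el B.hBs)
      [B.G.el B.hBs, B.G.el B.hRm, B.G.el hkB] (fun p => g5_forceB p)
  have h3 : ball (propStr B.G.E) B.Bs fun c => g5C (propStr B.G.E) B.Rm kC c :=
    B.G.of_forced ((ball codeStr 0 fun c => g5C codeStr 1 2 c) 10) (B.G.el B.hBs)
      [B.G.el B.hBs, B.G.el B.hRm, B.G.el hkC] (fun p => g5_forceC p)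
  have hdom : ∀ A A', Cr B.G.E B.om B.nat c A A' → Ix A ∧ A' ⊆ A ∧ FC A' := by
    rintro A A' ⟨a, b, ha, hb, hab⟩
    have h4 : Rel B.G.E kA a b := h1 c hc a (B.E_Rm.2 ha.1) b (B.E_Rm.2 hb.1) hab
    exact (B.k2_iff hkA ha hb).1 h4
  refine ⟨⟨?_, ?_, ?_⟩, fun A A' h => (hdom A A' h).2.2⟩
  · intro A A' h
    have h5 := hdom A A' h
    obtain ⟨a, b, ha, hb, hab⟩ := h
    refine ⟨⟨a, ha, fun h6 => h5.1 ((B.E_x ha).1 h6)⟩, h5.2.1⟩
  · rintro A C A' C' ⟨a, b, ha, hb, hab⟩ ⟨a', b', ha', hb', hab'⟩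
    have h4 : Rel4 B.G.E kB a b a' b' := h2 c hc a (B.E_Rm.2 ha.1) b (B.E_Rm.2 hb.1) hab
      a' (B.E_Rm.2 ha'.1) b' (B.E_Rm.2 hb'.1) hab'
    exact (B.k4_iff hkB ha hb ha' hb').1 h4
  · rintro A - ⟨a, ha, hax⟩
    have hA : Ix A := fun h => hax ((B.E_x ha).2 h)
    have h4 : B.G.E a kC := (B.k1_iff hkC ha).2 hA
    obtain ⟨b, hb, hab⟩ : ∃ b, B.G.E b B.Rm ∧ Rel B.G.E c a b :=
      h3 c hc a (B.E_Rm.2 ha.1) h4
    exact ⟨_, a, b, ha, ⟨B.E_Rm.1 hb, rfl⟩, hab⟩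

end GB

end Pool.Agent.H83.R
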