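import Pool.Agent.H83.R.GB

/-!
# Generic models: the dominating family is cofinal
-/

set_option autoImplicit false
set_option linter.unusedSectionVars false
set_option linter.unusedVariables false

namespace Pool.Agent.H83.R

open Pool.Agent.H86 Pool.Agent.H86.Name Pool.Agent.H83.F

section Fml

universe v w

variable {N : Type v} {Ω : Type w} (L : LogicStr N Ω)

/-- the code `c` is dominated by a member of `Bs` -/
def bcofF (Bs Rm k24 k40 k12 k21 c : N) : Ω :=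
  L.imp (L.all fun a => L.imp (L.mem a Rm) (L.all fun b => L.imp (L.mem b Rm)
    (L.imp (fRel L c a b) (fRel L k24 a b))))
  (L.imp (L.all fun a => L.imp (L.mem a Rm) (L.all fun b => L.imp (L.mem b Rm)
    (L.all fun a' => L.imp (L.mem a' Rm) (L.all fun b' => L.imp (L.mem b' Rm)
    (L.imp (fRel L c a b) (L.imp (fRel L c a' b') (fRel4 L k40 a b a' b'))))))) 
  (L.imp (L.all fun a => L.imp (L.mem a Rm) (L.imp (L.mem a k12) (L.ex fun b =>
    L.and (L.mem b Rm) (fRel L c a b))))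
  (L.ex fun c' => L.and (L.mem c' Bs) (L.all fun a => L.imp (L.mem a Rm)
    (L.all fun b => L.imp (L.mem b Rm) (L.all fun b' => L.imp (L.mem b' Rm)
    (L.imp (fRel L c a b) (L.imp (fRel L c' a b') (fRel L k21 b b')))))))))

end Fml

theorem bcof_real {X : Name Q} {q : Q} (h : fmem X RN q) : ∃ r ≤ q, ∃ A, feq X (rN A) r := by
  rw [RN, fmem_famN] at h
  exact h q le_rfl

theorem bcof_self (A : Set ℕ) (q : Q) : fmem (rN A) RN q := fmem_famN_self rN A q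

theorem bcof_forced (C : Name Q) (p : Q) :
    (bcofF (FS Q) BsN RN (k2 (L2 4)) (k4 (L4 0)) (k1 (L1 2)) (k2 (L2 1)) C).holds p := by
  intro q1 hq1 H1 q2 hq2 H2 q3 hq3 H3 q hq
  obtain ⟨p', hp', β, hβ⟩ := dominate q
    (fun A B => ⟨fun r => RR C (rN A) (rN B) r, fun h h' => fmem_mono h h', fun h => fmem_reg h⟩)
    (by
      intro A hA r hr
      obtain ⟨t, ht, b, hb, hb'⟩ := H3 (rN A) r (hr.trans hq) (bcof_self A r) r le_rfl
        (fmem_k1.2 hA) r le_rfl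
      obtain ⟨t', ht', B, hB⟩ := bcof_real (show fmem b RN t from hb)
      exact ⟨t', ht'.trans ht, B, RR_congr (feq_refl _ _) (feq_refl _ _) hB
        (fmem_mono ht' (holds_fRel.1 hb'))⟩)
    (by
      intro A B A' B' r hr h h'
      have hr3 : r ≤ q3 := hr.trans hq
      have hr2 : r ≤ q2 := hr3.trans hq3
      have hr1 : r ≤ q1 := hr2.trans hq2
      have e1 := H1 (rN A) r hr1 (bcof_self A r) (rN B) r le_rfl (bcof_self B r) r le_rfl
        (holds_fRel.2 h)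
      have e2 := H2 (rN A) r hr2 (bcof_self A r) (rN B) r le_rfl (bcof_self B r) (rN A') r le_rfl
        (bcof_self A' r) (rN B') r le_rfl (bcof_self B' r) r le_rfl (holds_fRel.2 h) r le_rfl
        (holds_fRel.2 h')
      have e3 : Ix A ∧ B ⊆ A ∧ FC B := fmem_k2.1 (holds_fRel.1 e1)
      have e4 : coh A B A' B' := fmem_k4.1 (holds_fRel4.1 e2)
      exact ⟨e3.2.1, e3.2.2, e4⟩)
  refine ⟨p', hp', bN β, fmem_famN_self bN β p', ?_⟩
  intro a r1 hr1 ha b r2 hr2 hb b' r3 hr3 hb' r4 hr4 h r5 hr5 h'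
  apply holds_fRel.2
  apply fmem_reg
  intro u hu
  have hur3 : u ≤ r3 := hu.trans (hr5.trans hr4)
  obtain ⟨v1, hv1, A, hA⟩ := bcof_real (fmem_mono (hur3.trans (hr3.trans hr2)) (show fmem a RN r1 from ha))
  obtain ⟨v2, hv2, D, hD⟩ := bcof_real (fmem_mono (hv1.trans (hur3.trans hr3)) (show fmem b RN r2 from hb))
  obtain ⟨v3, hv3, D', hD'⟩ := bcof_real (fmem_mono (hv2.trans (hv1.trans hur3)) (show fmem b' RN r3 from hb'))
  have hA' := feq_mono (hv3.trans hv2) hA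
  have hDv := feq_mono hv3 hD
  have hv3u : v3 ≤ u := hv3.trans (hv2.trans hv1)
  have e1 : RR C (rN A) (rN D) v3 := RR_congr (feq_refl _ _) hA' hDv
    (fmem_mono (hv3u.trans (hu.trans hr5)) (holds_fRel.1 h))
  have e2 : RR (bN β) (rN A) (rN D') v3 := RR_congr (feq_refl _ _) hA' hD'
    (fmem_mono (hv3u.trans hu) (holds_fRel.1 h'))
  obtain ⟨w, hw, hT⟩ := RR_bN.1 e2 v3 le_rfl
  have hwp : w ≤ p' := hw.trans (hv3u.trans (hur3.trans (hr3.trans (hr2.trans hr1))))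
  have hfin := hβ w hwp A D D' hT (fmem_mono hw e1)
  refine ⟨w, hw.trans hv3u, ?_⟩
  exact RR_congr (feq_refl _ _) (feq_symm (feq_mono hw hDv)) (feq_symm (feq_mono hw hD'))
    (fmem_k2.2 hfin)

namespace GB

variable (B : GB)

/-- Proof. The following formula is forced (parameters `Bs`, `Rm` and the constants `k2 (L2 4)`,
`k4 (L4 0)`, `k1 (L1 2)`, `k2 (L2 1)`): for every `c`, if
(1) `∀ a, b ∈ Rm, (a, b) ∈ c → (a, b) ∈ k2 (L2 4)`,
(2) `∀ a, b, a', b' ∈ Rm, (a, b) ∈ c → (a', b') ∈ c → (a, (b, (a', b'))) ∈ k4 (L4 0)`,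
(3) `∀ a ∈ Rm, a ∈ k1 (L1 2) → ∃ b ∈ Rm, (a, b) ∈ c`,
then there is `c' ∈ Bs` with `∀ a, b, b' ∈ Rm, (a, b) ∈ c → (a, b') ∈ c' → (b, b') ∈ k2 (L2 1)`.
Indeed, if `q` forces the hypotheses for the name `C`, apply `dominate` below (any extension of)
`q` to `R A B = ⟨fun r => RR C (rN A) (rN B) r, fmem_mono, fmem_reg⟩` and get `p` and `β`; take
`c' = bN β` (`fmem_famN_self`). If `r ≤ p` forces `(rN A, rN D) ∈ C` and `(rN A, rN D') ∈ bN β`, then
by `RR_bN` some `s ≤ r` has `(β, A, D') ∈ s.T`, so `D \ D'` is finite and `fmem_k2` applies.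
Translate by `GB.E_Rm`, `GB.k1_iff`, ... and `GB.E_x`. -/
theorem b_cof (c : B.G.M)
    (hc : Code (PM B.G.E B.om B.nat) (IM B.G.E B.om B.nat B.x) (Cr B.G.E B.om B.nat c))
    (hfc : ∀ A A', Cr B.G.E B.om B.nat c A A' → FC A') :
    ∃ c', B.G.E c' B.Bs ∧ ∀ A D D', Cr B.G.E B.om B.nat c A D → Cr B.G.E B.om B.nat c' A D' →
      (D \ D').Finite := by
  obtain ⟨C, hC⟩ := B.G.named c
  obtain ⟨m24, h24⟩ := B.h2 4
  obtain ⟨m40, h40⟩ := B.h4 0
  obtain ⟨m12, h12⟩ := B.h1 2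
  obtain ⟨m21, h21⟩ := B.h2 1
  have key := B.G.of_forced (bcofF codeStr 0 1 2 3 4 5 6 10) (B.G.el B.hBs) [B.G.el B.hBs,
    B.G.el B.hRm, B.G.el h24, B.G.el h40, B.G.el h12, B.G.el h21, B.G.el hC]
    (fun p => bcof_forced C p)
  have key' : bcofF (propStr B.G.E) B.Bs B.Rm m24 m40 m12 m21 c := key
  have hrl : ∀ {a}, B.G.E a B.Rm → Rl B.G.E B.om B.nat a {n | B.G.E (B.nat n) a} :=
    fun h => Rl.of_sub B.zf B.std (B.E_Rm.1 h)
  have hRm : ∀ {a A}, Rl B.G.E B.om B.nat a A → B.G.E a B.Rm := fun h => B.E_Rm.2 h.1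
  have hIM : ∀ {a A}, Rl B.G.E B.om B.nat a A → (IM B.G.E B.om B.nat B.x A ↔ Ix A) := by
    intro a A ha
    constructor
    · rintro ⟨a', ha', h⟩
      rw [B.E_x ha'] at h
      exact h
    · intro h
      refine ⟨a, ha, ?_⟩
      rw [B.E_x ha]
      exact h
  obtain ⟨c', hc', hc2⟩ := key'
    (by
      intro a ha b hb hab
      have hab' : Rel B.G.E c a b := hab
      have h1 := hc.dom _ _ ⟨a, b, hrl ha, hrl hb, hab'⟩
      have h2 := hfc _ _ ⟨a, b, hrl ha, hrl hb, hab'⟩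
      exact (B.k2_iff h24 (hrl ha) (hrl hb)).2 ⟨(hIM (hrl ha)).1 h1.1, h1.2, h2⟩)
    (by
      intro a ha b hb a' ha' b' hb' hab hab'
      exact (B.k4_iff h40 (hrl ha) (hrl hb) (hrl ha') (hrl hb')).2
        (hc.coh _ _ _ _ ⟨a, b, hrl ha, hrl hb, hab⟩ ⟨a', b', hrl ha', hrl hb', hab'⟩))
    (by
      intro a ha hak
      have h1 : Ix {n | B.G.E (B.nat n) a} := (B.k1_iff h12 (hrl ha)).1 hak
      obtain ⟨D, a', d, ha', hd, h2⟩ := hc.tot _ ⟨a, hrl ha⟩ ((hIM (hrl ha)).2 h1)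
      have h3 : a' = a := Rl.left B.zf B.std ha' (hrl ha)
      rw [h3] at h2
      exact ⟨d, hRm hd, h2⟩)
  refine ⟨c', hc', ?_⟩
  rintro A D D' ⟨a, d, ha, hd, h1⟩ ⟨a', d', ha', hd', h2⟩
  have h3 : a' = a := Rl.left B.zf B.std ha' ha
  rw [h3] at h2
  exact (B.k2_iff h21 hd hd').1 (hc2 a (hRm ha) d (hRm hd) d' (hRm hd') h1 h2)

end GB

end Pool.Agent.H83.R
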