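import Pool.Agent.H83.R.GB

/-!
# Generic models: splitting
-/

set_option autoImplicit false
set_option linter.unusedSectionVars false
set_option linter.unusedVariables false

namespace Pool.Agent.H83.R

open Pool.Agent.H86 Pool.Agent.H86.Name Pool.Agent.H83.F

section Fml

universe v w

variable {N : Type v} {Ω : Type w} (L : LogicStr N Ω)

/-- `a ∉ p` -/
def g6N (p a : N) : Ω := L.imp (L.mem a p) L.bot

/-- (1) without quantifiers -/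
def g6A (F p i0 c a b : N) : Ω := L.imp (fRel3 L F c a b) (L.and (g6N L p a) (fRel L i0 b a))

/-- (2) without quantifiers -/
def g6B (F i2 d c a b : N) : Ω := L.and (fRel3 L F c a b) (fRel L i2 b d)

/-- (2), one quantifier -/
def g6B' (F Rm i2 d c a : N) : Ω := bex L Rm fun b => g6B L F i2 d c a b

/-- (1) and (2) -/
def g6Hyp (F Bs Rm p i0 i2 : N) : Ω :=
  ball L Bs fun c => L.and
    (ball L Rm fun a => ball L Rm fun b => g6A L F p i0 c a b)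
    (ball L Rm fun d => L.imp (g6N L p d) (bex L Rm fun a => g6B' L F Rm i2 d c a))

/-- (3) without quantifiers -/
def g6C3 (p i0 H a b : N) : Ω := L.imp (fRel L H a b) (L.and (g6N L p a) (fRel L i0 b a))

/-- (3), one quantifier -/
def g6D3 (Rm p i0 H a : N) : Ω := ball L Rm fun b => g6C3 L p i0 H a b

/-- (4) without quantifiers -/
def g6C4 (k H a b a' b' : N) : Ω :=
  L.imp (fRel L H a b) (L.imp (fRel L H a' b') (fRel4 L k a b a' b'))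

/-- (4), one quantifier -/
def g6D4 (Rm k H a b a' : N) : Ω := ball L Rm fun b' => g6C4 L k H a b a' b'

/-- (4), two quantifiers -/
def g6E4 (Rm k H a b : N) : Ω := ball L Rm fun a' => g6D4 L Rm k H a b a'

/-- (4), three quantifiers -/
def g6F4 (Rm k H a : N) : Ω := ball L Rm fun b => g6E4 L Rm k H a b

/-- (5) without the outer quantifier -/
def g6C5 (Rm p H a : N) : Ω := L.imp (g6N L p a) (bex L Rm fun b => fRel L H a b)

/-- (6), one half -/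
def g6C6 (F Rm H k c d : N) : Ω := bex L Rm fun a => bex L Rm fun b => bex L Rm fun b' =>
  L.and (fRel3 L F c a b) (L.and (fRel L H a b') (fRel3 L k b b' d))

/-- (6) without quantifiers -/
def g6C7 (F Rm p H k k' c d : N) : Ω :=
  L.imp (g6N L p d) (L.and (g6C6 L F Rm H k c d) (g6C6 L F Rm H k' c d))

/-- (6), one quantifier -/
def g6D7 (F Rm p H k k' c : N) : Ω := ball L Rm fun d => g6C7 L F Rm p H k k' c d

/-- (3), (4), (5), (6) for `H` -/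
def g6Con (F Bs Rm p i0 k k' l H : N) : Ω :=
  L.and (L.and (ball L Rm fun a => g6D3 L Rm p i0 H a) (ball L Rm fun a => g6F4 L Rm l H a))
    (L.and (ball L Rm fun a => g6C5 L Rm p H a) (ball L Bs fun c => g6D7 L F Rm p H k k' c))

/-- the formula -/
def g6Fml (F Bs Rm p i0 i2 k k' l : N) : Ω :=
  L.imp (g6Hyp L F Bs Rm p i0 i2) (L.ex fun H => g6Con L F Bs Rm p i0 k k' l H)

end Fml

theorem g6_fin {r r' : Q} (h : r' ≤ r) {A : Set ℕ} (h1 : (r.1.a \ A).Finite)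
    (h2 : (A ∩ r'.1.a).Finite) : False := by
  have h3 : (r'.1.a \ r.1.a).Finite := h.1
  apply r'.2.1.inf
  refine ((h1.union h2).union h3).subset ?_
  intro x hx
  by_cases hr : x ∈ r.1.a
  · by_cases hA : x ∈ A
    · exact Or.inl (Or.inr ⟨hA, hx⟩)
    · exact Or.inl (Or.inl ⟨hr, hA⟩)
  · exact Or.inr ⟨hx, hr⟩

/-- A condition `r` forces `rN A ∉ pN` if and only if `(A ∩ r.a).Finite`. -/
theorem g6_notin {A : Set ℕ} {r : Q} :
    (g6N (FS Q) pN (rN A)).holds r ↔ (A ∩ r.1.a).Finite := by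
  constructor
  · intro h
    by_contra hA
    have hA : (A ∩ r.1.a).Infinite := hA
    obtain ⟨p, hp, hpr, hpa, -⟩ := Cd.exists_a r.2 hA (by
      refine Set.Finite.subset Set.finite_empty ?_
      rintro x ⟨⟨_, h1⟩, h2⟩
      exact (h2 h1).elim)
    refine h ⟨p, hp⟩ hpr (fmem_pN.2 ?_)
    show (p.a \ A).Finite
    rw [hpa]
    refine Set.Finite.subset Set.finite_empty ?_
    rintro x ⟨⟨h1, _⟩, h2⟩
    exact (h2 h1).elim
  · intro h r' hr' h1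
    have h2 : (r'.1.a \ A).Finite := fmem_pN.1 h1
    have h3 : (A ∩ r'.1.a).Finite := by
      have h4 : (r'.1.a \ r.1.a).Finite := hr'.1
      refine (h.union h4).subset ?_
      rintro x ⟨hx1, hx2⟩
      by_cases hx : x ∈ r.1.a
      · exact Or.inl ⟨hx1, hx⟩
      · exact Or.inr ⟨hx2, hx⟩
    exact g6_fin le_rfl h2 h3

/-- what the hypothesis means -/
theorem g6_hyp {F : Name Q} {q : Q}
    (h : (g6Hyp (FS Q) F BsN RN pN (k2 (L2 0)) (k2 (L2 2))).holds q) (β : Lam) (r : Q) (hr : r ≤ q)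
    (D : Set ℕ) (hD : (D ∩ r.1.a).Finite) :
    ∃ r' ≤ r, ∃ A B, (fRel3 (FS Q) F (bN β) (rN A) (rN B)).holds r' ∧ (A ∩ r'.1.a).Finite ∧
      B ⊆ A ∧ (B \ D).Infinite := by
  obtain ⟨h1, h2⟩ := h (bN β) q le_rfl (fmem_famN_self bN β q)
  have h3 := h2 (rN D) q le_rfl (fmem_famN_self rN D q) r hr (g6_notin.2 hD)
  obtain ⟨r1, hr1, A, h4⟩ := (bex_fam (cg_code (g6B' codeStr 1 2 3 4 5 0 10)
    (fun i => [F, RN, k2 (L2 2), rN D, bN β].getD (i - 1) F) (fun x => rfl))).1 h3 r le_rfl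
  obtain ⟨r2, hr2, B, h5, h6⟩ := (bex_fam (cg_code (g6B codeStr 1 2 3 4 5 0 10)
    (fun i => [F, k2 (L2 2), rN D, bN β, rN A].getD (i - 1) F) (fun x => rfl))).1 h4 r1 le_rfl
  have h7 := h1 (rN A) q le_rfl (fmem_famN_self rN A q) (rN B) q le_rfl (fmem_famN_self rN B q)
    r2 (hr2.trans (hr1.trans hr)) h5
  have h8 : RR (k2 (L2 0)) (rN B) (rN A) r2 := holds_fRel.1 h7.2
  have h9 : RR (k2 (L2 2)) (rN B) (rN D) r2 := holds_fRel.1 h6
  exact ⟨r2, hr2.trans hr1, A, B, h5, g6_notin.1 h7.1, fmem_k2.1 h8, fmem_k2.1 h9⟩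

/-- the formula is forced -/
theorem g6_forced (F : Name Q) (p : Q) :
    (g6Fml (FS Q) F BsN RN pN (k2 (L2 0)) (k2 (L2 2)) (k3 (L3 2)) (k3 (L3 3)) (k4 (L4 0))).holds
      p := by
  intro q _ hq
  obtain ⟨i, hi⟩ := split q (fun β A B => fRel3 (FS Q) F (bN β) (rN A) (rN B))
    (fun β r hr D hD => g6_hyp hq β r hr D hD)
  intro q' hq'
  refine ⟨q', le_rfl, HN i, ⟨?_, ?_⟩, ?_, ?_⟩
  · -- (3)
    refine (ball_fam (cg_code (g6D3 codeStr 1 2 3 4 0 10)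
      (fun i' => [RN, pN, k2 (L2 0), HN i].getD (i' - 1) F) (fun x => rfl))).2 fun A => ?_
    refine (ball_fam (cg_code (g6C3 codeStr 1 2 3 4 0 10)
      (fun i' => [pN, k2 (L2 0), HN i, rN A].getD (i' - 1) F) (fun x => rfl))).2 fun B => ?_
    intro r _ h1
    have h2 := RR_HN.1 (holds_fRel.1 h1)
    refine ⟨?_, ?_⟩
    · intro r1 hr1 h3
      have h4 : (r1.1.a \ A).Finite := fmem_pN.1 h3
      obtain ⟨r2, hr2, h5⟩ := h2 r1 hr1
      exact g6_fin hr2 h4 (r2.2.1.Hdom i A B h5).1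
    · obtain ⟨r2, hr2, h5⟩ := h2 r le_rfl
      have h6 : RR (k2 (L2 0)) (rN B) (rN A) r := fmem_k2.2 (r2.2.1.Hdom i A B h5).2
      exact holds_fRel.2 h6
  · -- (4)
    refine (ball_fam (cg_code (g6F4 codeStr 1 2 3 0 10)
      (fun i' => [RN, k4 (L4 0), HN i].getD (i' - 1) F) (fun x => rfl))).2 fun A => ?_
    refine (ball_fam (cg_code (g6E4 codeStr 1 2 3 4 0 10)
      (fun i' => [RN, k4 (L4 0), HN i, rN A].getD (i' - 1) F) (fun x => rfl))).2 fun B => ?_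
    refine (ball_fam (cg_code (g6D4 codeStr 1 2 3 4 5 0 10)
      (fun i' => [RN, k4 (L4 0), HN i, rN A, rN B].getD (i' - 1) F) (fun x => rfl))).2 fun A' => ?_
    refine (ball_fam (cg_code (g6C4 codeStr 1 2 3 4 5 0 10)
      (fun i' => [k4 (L4 0), HN i, rN A, rN B, rN A'].getD (i' - 1) F) (fun x => rfl))).2
      fun B' => ?_
    intro r _ h1 r1 hr1 h2
    obtain ⟨r2, hr2, h3⟩ := RR_HN.1 (holds_fRel.1 h1) r1 hr1
    obtain ⟨r3, hr3, h4⟩ := RR_HN.1 (holds_fRel.1 h2) r2 hr2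
    have h5 : coh A B A' B' := r3.2.1.Hcoh i A B A' B' (hr3.2.1 h3) h4
    exact holds_fRel4.2 (fmem_k4.2 h5)
  · -- (5)
    refine (ball_fam (cg_code (g6C5 codeStr 1 2 3 0 10)
      (fun i' => [RN, pN, HN i].getD (i' - 1) F) (fun x => rfl))).2 fun A => ?_
    intro r _ h1 r1 hr1
    have h2 : (A ∩ r1.1.a).Finite := g6_notin.1 ((g6N (FS Q) pN (rN A)).mono hr1 h1)
    obtain ⟨r2, hr2, hr21, B, h3⟩ := Cd.exists_H r1.2 i h2
    refine ⟨⟨r2, hr2⟩, hr21, rN B, fmem_famN_self rN B _, holds_fRel.2 ?_⟩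
    refine RR_HN.2 fun r3 hr3 => ⟨r3, le_rfl, hr3.2.1 h3⟩
  · -- (6)
    refine (ball_fam (cg_code (g6D7 codeStr 1 2 3 4 5 6 0 10)
      (fun i' => [F, RN, pN, HN i, k3 (L3 2), k3 (L3 3)].getD (i' - 1) F) (fun x => rfl))).2
      fun β => ?_
    refine (ball_fam (cg_code (g6C7 codeStr 1 2 3 4 5 6 7 0 10)
      (fun i' => [F, RN, pN, HN i, k3 (L3 2), k3 (L3 3), bN β].getD (i' - 1) F)
      (fun x => rfl))).2 fun D => ?_
    intro r hr h1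
    refine ⟨fun r1 hr1 => ?_, fun r1 hr1 => ?_⟩
    · have h2 : (D ∩ r1.1.a).Finite := g6_notin.1 ((g6N (FS Q) pN (rN D)).mono hr1 h1)
      obtain ⟨r2, hr2, A, B, B', h3, h4, h5⟩ :=
        (hi β r1 (hr1.trans (hr.trans hq')) D h2).1
      refine ⟨r2, hr2, rN A, fmem_famN_self rN A _, fun s hs => ⟨s, le_rfl, rN B,
        fmem_famN_self rN B _, fun t ht => ⟨t, le_rfl, rN B', fmem_famN_self rN B' _,
          (fRel3 (FS Q) F (bN β) (rN A) (rN B)).mono (ht.trans hs) h3, holds_fRel.2 ?_,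
          holds_fRel3.2 (fmem_k3.2 h5)⟩⟩⟩
      exact RR_HN.2 fun r3 hr3 => ⟨r3, le_rfl, (hr3.trans (ht.trans hs)).2.1 h4⟩
    · have h2 : (D ∩ r1.1.a).Finite := g6_notin.1 ((g6N (FS Q) pN (rN D)).mono hr1 h1)
      obtain ⟨r2, hr2, A, B, B', h3, h4, h5⟩ :=
        (hi β r1 (hr1.trans (hr.trans hq')) D h2).2
      refine ⟨r2, hr2, rN A, fmem_famN_self rN A _, fun s hs => ⟨s, le_rfl, rN B,
        fmem_famN_self rN B _, fun t ht => ⟨t, le_rfl, rN B', fmem_famN_self rN B' _,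
          (fRel3 (FS Q) F (bN β) (rN A) (rN B)).mono (ht.trans hs) h3, holds_fRel.2 ?_,
          holds_fRel3.2 (fmem_k3.2 h5)⟩⟩⟩
      exact RR_HN.2 fun r3 hr3 => ⟨r3, le_rfl, (hr3.trans (ht.trans hs)).2.1 h4⟩

namespace GB

variable (B : GB)

/-- Proof. The following formula is forced, for every name `F` (parameters `Bs, Rm, p` and the
constants `k2 (L2 0)` (inclusion), `k2 (L2 2)`, `k3 (L3 2)`, `k3 (L3 3)`, `k4 (L4 0)`). If for all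
`c ∈ Bs`
(1) `∀ a, b ∈ Rm, (c, (a, b)) ∈ F → (a ∉ p ∧ (b, a) ∈ k2 (L2 0))`,
(2) `∀ d ∈ Rm, d ∉ p → ∃ a, b ∈ Rm, (c, (a, b)) ∈ F ∧ (b, d) ∈ k2 (L2 2)`,
then there is `H` such that
(3) `∀ a, b ∈ Rm, (a, b) ∈ H → (a ∉ p ∧ (b, a) ∈ k2 (L2 0))`,
(4) `∀ a, b, a', b' ∈ Rm, (a, b) ∈ H → (a', b') ∈ H → (a, (b, (a', b'))) ∈ k4 (L4 0)`,
(5) `∀ a ∈ Rm, a ∉ p → ∃ b ∈ Rm, (a, b) ∈ H`,
(6) for all `c ∈ Bs`, `d ∈ Rm`, `d ∉ p`: `∃ a, b, b' ∈ Rm, (c, (a, b)) ∈ F ∧ (a, b') ∈ H ∧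
    (b, (b', d)) ∈ k3 (L3 2)`, and the same with `k3 (L3 3)`.
(`(c, (a, b)) ∈ F` is `fRel3 L F c a b`; in the model it is the relation `Cr3`.)
Proof that it is forced. A condition `r` forces `rN A ∉ pN` if and only if `(A ∩ r.a).Finite`
(`fmem_pN`, `Cd.exists_a`). Let `q` force (1), (2). Apply `split` to `q` and
`R β A B = ⟨fun r => fmem (opair (bN β) (opair (rN A) (rN B))) F r, fmem_mono, fmem_reg⟩`; its
hypothesis follows from (2) for `c = bN β`, `d = rN D` and from (1). It gives `i : J`; take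
`H = HN i`. (3), (4): `RR_HN`, `Hdom`, `Hcoh`. (5): `Cd.exists_H`. (6): `split`, `RR_HN`.
Translate by `GB.E_Rm`, `GB.E_p`, `GB.k2_iff`, ... -/
theorem split (F : B.G.M)
    (hF : ∀ c, B.G.E c B.Bs →
      Code (PM B.G.E B.om B.nat) (IM B.G.E B.om B.nat B.p) (Cr3 B.G.E B.om B.nat F c) ∧
      NCpt (PM B.G.E B.om B.nat) (IM B.G.E B.om B.nat B.p) (Cr3 B.G.E B.om B.nat F c)) :
    ∃ H, Code (PM B.G.E B.om B.nat) (IM B.G.E B.om B.nat B.p) (Cr B.G.E B.om B.nat H) ∧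
      ∀ c, B.G.E c B.Bs → Splits (PM B.G.E B.om B.nat) (IM B.G.E B.om B.nat B.p)
        (Cr3 B.G.E B.om B.nat F c) (Cr B.G.E B.om B.nat H) := by
  obtain ⟨X, hX⟩ := B.G.named F
  obtain ⟨i0, hi0⟩ := B.h2 0
  obtain ⟨i2, hi2⟩ := B.h2 2
  obtain ⟨k, hk⟩ := B.h3 2
  obtain ⟨k', hk'⟩ := B.h3 3
  obtain ⟨l, hl⟩ := B.h4 0
  have h0 := B.G.of_forced (g6Fml codeStr 0 1 2 3 4 5 6 7 8 10) (B.G.el hX)
    [B.G.el hX, B.G.el B.hBs, B.G.el B.hRm, B.G.el B.hp, B.G.el hi0, B.G.el hi2, B.G.el hk,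
      B.G.el hk', B.G.el hl] (fun p => g6_forced X p)
  have h1 : g6Fml (propStr B.G.E) F B.Bs B.Rm B.p i0 i2 k k' l := h0
  -- real numbers
  have hrl : ∀ a, B.G.E a B.Rm → Rl B.G.E B.om B.nat a {n | B.G.E (B.nat n) a} :=
    fun a ha => Rl.of_sub B.zf B.std (B.E_Rm.1 ha)
  have hRm : ∀ {a A}, Rl B.G.E B.om B.nat a A → B.G.E a B.Rm := fun h => B.E_Rm.2 h.1
  have hIM : ∀ {a A}, Rl B.G.E B.om B.nat a A → (IM B.G.E B.om B.nat B.p A ↔ ¬ B.G.E a B.p) := by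
    intro a A ha
    constructor
    · rintro ⟨a', ha', h2⟩
      rw [Rl.left B.zf B.std ha ha']
      exact h2
    · exact fun h => ⟨a, ha, h⟩
  have h2 : g6Hyp (propStr B.G.E) F B.Bs B.Rm B.p i0 i2 := by
    intro c hc
    obtain ⟨hF1, hF2⟩ := hF c hc
    constructor
    · intro a ha b hb h3
      obtain ⟨u, hu, h4⟩ := h3
      have h5 : Cr3 B.G.E B.om B.nat F c {n | B.G.E (B.nat n) a} {n | B.G.E (B.nat n) b} :=
        ⟨a, b, u, hrl a ha, hrl b hb, hu, h4⟩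
      obtain ⟨h6, h7⟩ := hF1.dom _ _ h5
      exact ⟨(hIM (hrl a ha)).1 h6, (B.k2_iff hi0 (hrl b hb) (hrl a ha)).2 h7⟩
    · intro d hd h3
      obtain ⟨A, A', ⟨a, b, u, ha, hb, hu, h4⟩, h5⟩ := hF2 _ ⟨d, hrl d hd⟩ ((hIM (hrl d hd)).2 h3)
      exact ⟨a, hRm ha, b, hRm hb, ⟨u, hu, h4⟩, (B.k2_iff hi2 hb (hrl d hd)).2 h5⟩
  obtain ⟨H, ⟨h3, h4⟩, h5, h6⟩ := h1 h2
  refine ⟨H, ⟨?_, ?_, ?_⟩, fun c hc D hD hD' => ?_⟩
  · rintro A A' ⟨a, b, ha, hb, hab⟩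
    obtain ⟨h7, h8⟩ := h3 a (hRm ha) b (hRm hb) hab
    exact ⟨(hIM ha).2 h7, (B.k2_iff hi0 hb ha).1 h8⟩
  · rintro A A' D D' ⟨a, b, ha, hb, hab⟩ ⟨d, e, hd, he, hde⟩
    have h7 := h4 a (hRm ha) b (hRm hb) d (hRm hd) e (hRm he) hab hde
    exact (B.k4_iff hl ha hb hd he).1 h7
  · rintro A ⟨a, ha⟩ hA
    obtain ⟨b, hb, hab⟩ := h5 a (hRm ha) ((hIM ha).1 hA)
    exact ⟨_, a, b, ha, hrl b hb, hab⟩
  · obtain ⟨d, hd⟩ := hD
    obtain ⟨h7, h8⟩ := h6 c hc d (hRm hd) ((hIM hd).1 hD')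
    constructor
    · obtain ⟨a, ha, b, hb, b', hb', ⟨u, hu, h9⟩, h10, h11⟩ := h7
      exact ⟨_, _, _, ⟨a, b, u, hrl a ha, hrl b hb, hu, h9⟩, ⟨a, b', hrl a ha, hrl b' hb', h10⟩,
        (B.k3_iff hk (hrl b hb) (hrl b' hb') hd).1 h11⟩
    · obtain ⟨a, ha, b, hb, b', hb', ⟨u, hu, h9⟩, h10, h11⟩ := h8
      exact ⟨_, _, _, ⟨a, b, u, hrl a ha, hrl b hb, hu, h9⟩, ⟨a, b', hrl a ha, hrl b' hb', h10⟩,
        (B.k3_iff hk' (hrl b hb) (hrl b' hb') hd).1 h11⟩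

end GB

end Pool.Agent.H83.R
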