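import Pool.Agent.H83.R.Nc

/-!
# Sets of natural numbers and ultrafilters in a nice model

Everything here is elementary. The tools are `sep_of`, `exists_rel`, `not_mem_self`, ... in
`Pool/Agent/H83/F/Int.lean`; very similar proofs (for another structure) are in
`Pool/Agent/H83/F/Fam.lean` (`nat_inj`, `eq_of_val`, `exists_set`, `PM.compl`, `PM.finite`, ...).
`IsUF` is defined in `Stmt.lean`, `Rl`, `PM`, `IM` in `Nc.lean`.
-/

set_option autoImplicit false
set_option linter.unusedSectionVars false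
set_option linter.unusedVariables false

open Pool.Agent.H83.F Pool.Agent.H86

namespace Pool.Agent.H83.R

/-- `om` is the set of the standard natural numbers `nat n` -/
structure StdOm {M : Type} (E : M → M → Prop) (om : M) (nat : ℕ → M) : Prop where
  E_om : ∀ x, E x om ↔ ∃ n, x = nat n
  E_nat : ∀ x n, E x (nat n) ↔ ∃ m < n, x = nat m

section General

variable {M : Type} {E : M → M → Prop} (hE : IsZFModel E) {om : M} {nat : ℕ → M}
  (hom : StdOm E om nat)

include hE hom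

theorem StdOm.nat_om (n : ℕ) : E (nat n) om := (hom.E_om _).2 ⟨n, rfl⟩

theorem StdOm.nat_inj {m n : ℕ} (h : nat m = nat n) : m = n := by
  rcases lt_trichotomy m n with h1 | h1 | h1
  · exact (not_mem_self hE (nat m) (by
      have : E (nat m) (nat n) := (hom.E_nat _ _).2 ⟨m, h1, rfl⟩
      rwa [← h] at this)).elim
  · exact h1
  · exact (not_mem_self hE (nat n) (by
      have : E (nat n) (nat m) := (hom.E_nat _ _).2 ⟨n, h1, rfl⟩
      rwa [h] at this)).elim

theorem Rl.sub_aux {a b : M} {A B : Set ℕ} (h : Rl E om nat a A) (h' : Rl E om nat b B)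
    (hAB : A ⊆ B) : Sub E a b := by
  intro z hz
  obtain ⟨n, rfl⟩ := (hom.E_om z).1 (h.1 z hz)
  have h1 : n ∈ A := by rw [← h.2]; exact hz
  have h2 : n ∈ B := hAB h1
  rw [← h'.2] at h2
  exact h2

theorem Rl.left {a b : M} {A : Set ℕ} (h : Rl E om nat a A) (h' : Rl E om nat b A) : a = b :=
  hE.ext _ _ fun z => ⟨fun hz => Rl.sub_aux hE hom h h' subset_rfl z hz,
    fun hz => Rl.sub_aux hE hom h' h subset_rfl z hz⟩

theorem Rl.right {a : M} {A B : Set ℕ} (h : Rl E om nat a A) (h' : Rl E om nat a B) : A = B :=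
  h.2.symm.trans h'.2

theorem Rl.of_sub {a : M} (h : Sub E a om) : Rl E om nat a {n | E (nat n) a} := ⟨h, rfl⟩

theorem Rl.mem {a : M} {A : Set ℕ} (h : Rl E om nat a A) {n : ℕ} : E (nat n) a ↔ n ∈ A := by
  rw [← h.2]
  exact Iff.rfl

theorem Rl.sub {a b : M} {A B : Set ℕ} (h : Rl E om nat a A) (h' : Rl E om nat b B) :
    Sub E a b ↔ A ⊆ B := by
  refine ⟨fun hs n hn => ?_, fun hs => Rl.sub_aux hE hom h h' hs⟩
  rw [← Rl.mem hE hom h']
  exact hs _ ((Rl.mem hE hom h).2 hn)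

/-- Sets of natural numbers given by a code. -/
theorem PM.of_code (φ : Fml) (f : ℕ → M) {P : M → Prop}
    (h : ∀ x, P x ↔ φ.eval (propStr E) (upd f 0 x)) : PM E om nat {n | P (nat n)} := by
  obtain ⟨b, hb⟩ := sep_of hE φ f h om
  refine ⟨b, fun x hx => ((hb x).1 hx).1, ?_⟩
  ext n
  show E (nat n) b ↔ P (nat n)
  rw [hb]
  exact ⟨fun h => h.2, fun h => ⟨hom.nat_om hE n, h⟩⟩

theorem PM.compl {A : Set ℕ} (h : PM E om nat A) : PM E om nat Aᶜ := by
  obtain ⟨a, ha⟩ := h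
  have h1 := PM.of_code hE hom ((codeStr.imp (codeStr.mem 0 1) codeStr.bot) 10) (asn a [a])
    (P := fun x => ¬ E x a) (fun x => Iff.rfl)
  have h2 : {n | ¬ E (nat n) a} = Aᶜ := by
    ext n
    exact not_congr (Rl.mem hE hom ha)
  rwa [h2] at h1

theorem PM.inter {A B : Set ℕ} (h : PM E om nat A) (h' : PM E om nat B) :
    PM E om nat (A ∩ B) := by
  obtain ⟨a, ha⟩ := h
  obtain ⟨b, hb⟩ := h'
  have h1 := PM.of_code hE hom ((codeStr.and (codeStr.mem 0 1) (codeStr.mem 0 2)) 10)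
    (asn a [a, b]) (P := fun x => E x a ∧ E x b) (fun x => Iff.rfl)
  have h2 : {n | E (nat n) a ∧ E (nat n) b} = A ∩ B := by
    ext n
    exact and_congr (Rl.mem hE hom ha) (Rl.mem hE hom hb)
  rwa [h2] at h1

theorem PM.union {A B : Set ℕ} (h : PM E om nat A) (h' : PM E om nat B) :
    PM E om nat (A ∪ B) := by
  have h1 := PM.compl hE hom (PM.inter hE hom (PM.compl hE hom h) (PM.compl hE hom h'))
  rwa [Set.compl_inter, compl_compl, compl_compl] at h1

theorem PM.diff {A B : Set ℕ} (h : PM E om nat A) (h' : PM E om nat B) :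
    PM E om nat (A \ B) := by
  rw [Set.diff_eq]
  exact PM.inter hE hom h (PM.compl hE hom h')

theorem PM.univ_aux : Rl E om nat om Set.univ :=
  ⟨fun _ h => h, by
    ext n
    exact ⟨fun _ => trivial, fun _ => hom.nat_om hE n⟩⟩

theorem PM.singleton_aux (k : ℕ) : PM E om nat {k} := by
  have h1 := PM.of_code hE hom ((codeStr.eq 0 1) 10) (asn (nat k) [nat k])
    (P := fun x => x = nat k) (fun x => Iff.rfl)
  have h2 : {n | nat n = nat k} = ({k} : Set ℕ) := by
    ext n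
    exact ⟨fun h => hom.nat_inj hE h, fun h => congrArg nat h⟩
  rwa [h2] at h1

theorem PM.finite {A : Set ℕ} (h : A.Finite) : PM E om nat A := by
  induction A, h using Set.Finite.induction_on with
  | empty =>
    have h1 := PM.compl hE hom ⟨om, PM.univ_aux hE hom⟩
    rwa [Set.compl_univ] at h1
  | @insert k s _ _ ih =>
    rw [Set.insert_eq]
    exact PM.union hE hom (PM.singleton_aux hE hom k) ih

theorem PM.univ : PM E om nat Set.univ := ⟨om, PM.univ_aux hE hom⟩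

/-- A finite set of natural numbers is finite in the model.

Proof. If `A = ∅` take `n = nat 0` and the empty function. Otherwise let `A ⊆ {0, ..., k - 1}`,
`a₀ ∈ A`, `n = nat k`, and `f` (by `exists_rel`) the set of all `(x, y)` with `x ∈ nat k` and
(`x ∈ a` and `y = x`) or (`x ∉ a` and `y = nat a₀`). -/
theorem isFinite_of {a : M} {A : Set ℕ} (h : Rl E om nat a A) (hA : A.Finite) :
    IsFinite E om a := by
  rcases A.eq_empty_or_nonempty with h0 | ⟨k₀, hk₀⟩
  · have hno : ∀ y, ¬ E y a := by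
      intro y hy
      obtain ⟨n, rfl⟩ := (hom.E_om y).1 (h.1 y hy)
      have h1 := (Rl.mem hE hom h).1 hy
      rw [h0] at h1
      exact h1
    refine ⟨nat 0, a, hom.nat_om hE 0, ⟨fun z hz => (hno z hz).elim, ?_⟩, fun y hy => (hno y hy).elim⟩
    intro x hx
    obtain ⟨m, hm, _⟩ := (hom.E_nat x 0).1 hx
    exact absurd hm (Nat.not_lt_zero m)
  · obtain ⟨k, hk⟩ : ∃ k, ∀ n ∈ A, n < k := by
      obtain ⟨k, hk⟩ := hA.bddAbove
      exact ⟨k + 1, fun n hn => Nat.lt_succ_of_le (hk hn)⟩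
    obtain ⟨f, hf1, hf2⟩ := exists_rel hE (pairCode (fun x y => codeStr.or
      (codeStr.and (codeStr.mem x 1) (codeStr.eq y x))
      (codeStr.and (codeStr.imp (codeStr.mem x 1) codeStr.bot) (codeStr.eq y 2))) 10)
      (asn a [a, nat k₀]) (P := fun x y => (E x a ∧ y = x) ∨ (¬ E x a ∧ y = nat k₀))
      (fun z => Iff.rfl) (nat k) a
    have hk₀' : E (nat k₀) a := (Rl.mem hE hom h).2 hk₀
    refine ⟨nat k, f, hom.nat_om hE k, isFun_of hE ?_ ?_ ?_, ?_⟩
    · intro z hz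
      obtain ⟨x, y, h1, h2, h3, _⟩ := hf1 z hz
      exact ⟨x, y, h1, h2, h3⟩
    · intro x hx
      by_cases hxa : E x a
      · exact ⟨x, (hf2 x x).2 ⟨hx, hxa, Or.inl ⟨hxa, rfl⟩⟩⟩
      · exact ⟨nat k₀, (hf2 x _).2 ⟨hx, hk₀', Or.inr ⟨hxa, rfl⟩⟩⟩
    · intro x y y' h1 h2
      rcases ((hf2 x y).1 h1).2.2 with ⟨h3, h4⟩ | ⟨h3, h4⟩
      · rcases ((hf2 x y').1 h2).2.2 with ⟨h5, h6⟩ | ⟨h5, h6⟩
        · rw [h4, h6]
        · exact (h5 h3).elim
      · rcases ((hf2 x y').1 h2).2.2 with ⟨h5, h6⟩ | ⟨h5, h6⟩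
        · exact (h3 h5).elim
        · rw [h4, h6]
    · intro y hy
      obtain ⟨n, rfl⟩ := (hom.E_om y).1 (h.1 y hy)
      have h1 := (Rl.mem hE hom h).1 hy
      exact ⟨nat n, (hf2 _ _).2 ⟨(hom.E_nat _ _).2 ⟨n, hk n h1, rfl⟩, hy, Or.inl ⟨hy, rfl⟩⟩⟩

/-- `A ∈ u` -/
def Mu (E : M → M → Prop) (om : M) (nat : ℕ → M) (u : M) (A : Set ℕ) : Prop :=
  ∃ a, Rl E om nat a A ∧ E a u

theorem Mu.iff {u a : M} {A : Set ℕ} (h : Rl E om nat a A) : Mu E om nat u A ↔ E a u := by
  constructor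
  · rintro ⟨b, hb, hbu⟩
    rwa [Rl.left hE hom h hb]
  · exact fun h' => ⟨a, h, h'⟩

theorem Mu.pm {u : M} {A : Set ℕ} (h : Mu E om nat u A) : PM E om nat A := by
  obtain ⟨a, h1, -⟩ := h
  exact ⟨a, h1⟩

variable {u : M} (hu : IsUF E om u)

include hu

theorem Mu.univ : Mu E om nat u Set.univ := ⟨om, PM.univ_aux hE hom, hu.2.1⟩

theorem Mu.mono {A B : Set ℕ} (h : Mu E om nat u A) (hAB : A ⊆ B) (hB : PM E om nat B) :
    Mu E om nat u B := by
  obtain ⟨a, ha, hau⟩ := h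
  obtain ⟨b, hb⟩ := hB
  exact ⟨b, hb, hu.2.2.1 a b hau ((Rl.sub hE hom ha hb).2 hAB) hb.1⟩

theorem Mu.inter {A B : Set ℕ} (h : Mu E om nat u A) (h' : Mu E om nat u B) :
    Mu E om nat u (A ∩ B) := by
  obtain ⟨a, ha, hau⟩ := h
  obtain ⟨b, hb, hbu⟩ := h'
  obtain ⟨c, hc⟩ := PM.inter hE hom ⟨a, ha⟩ ⟨b, hb⟩
  refine ⟨c, hc, hu.2.2.2.1 a b c hau hbu fun n => ?_⟩
  constructor
  · intro hn
    exact ⟨(Rl.sub hE hom hc ha).2 Set.inter_subset_left n hn,
      (Rl.sub hE hom hc hb).2 Set.inter_subset_right n hn⟩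
  · rintro ⟨h1, h2⟩
    obtain ⟨m, rfl⟩ := (hom.E_om n).1 (ha.1 n h1)
    exact (Rl.mem hE hom hc).2 ⟨(Rl.mem hE hom ha).1 h1, (Rl.mem hE hom hb).1 h2⟩

theorem Mu.compl {A : Set ℕ} (h : PM E om nat A) : Mu E om nat u Aᶜ ↔ ¬ Mu E om nat u A := by
  obtain ⟨b, hb⟩ := PM.compl hE hom h
  obtain ⟨a, ha⟩ := h
  rw [Mu.iff hE hom ha, Mu.iff hE hom hb]
  have h1 := hu.2.2.2.2.1 a b ha.1 (by
    intro n
    constructor
    · intro hn
      have hn' := hb.1 n hn
      obtain ⟨m, rfl⟩ := (hom.E_om n).1 hn'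
      refine ⟨hn', fun h2 => ?_⟩
      exact (Rl.mem hE hom hb).1 hn ((Rl.mem hE hom ha).1 h2)
    · rintro ⟨h1, h2⟩
      obtain ⟨m, rfl⟩ := (hom.E_om n).1 h1
      exact (Rl.mem hE hom hb).2 fun h3 => h2 ((Rl.mem hE hom ha).2 h3))
  rw [h1, not_not]

theorem Mu.union_aux {A B : Set ℕ} (hA : PM E om nat A) (hB : PM E om nat B) :
    Mu E om nat u (A ∪ B) ↔ (Mu E om nat u A ∨ Mu E om nat u B) := by
  constructor
  · intro h
    by_contra hc
    push Not at hc
    have h1 := (Mu.compl hE hom hu hA).2 hc.1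
    have h2 := (Mu.compl hE hom hu hB).2 hc.2
    have h3 := Mu.inter hE hom hu h1 h2
    rw [← Set.compl_union] at h3
    exact (Mu.compl hE hom hu (PM.union hE hom hA hB)).1 h3 h
  · rintro (h | h)
    · exact Mu.mono hE hom hu h Set.subset_union_left (PM.union hE hom hA hB)
    · exact Mu.mono hE hom hu h Set.subset_union_right (PM.union hE hom hA hB)

theorem Mu.finite_aux {A : Set ℕ} (hA : A.Finite) : ¬ Mu E om nat u A := by
  induction A, hA using Set.Finite.induction_on with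
  | empty =>
    have h1 := Mu.compl hE hom hu (PM.univ hE hom)
    rw [Set.compl_univ] at h1
    exact fun h => h1.1 h (Mu.univ hE hom hu)
  | @insert k s _ hs ih =>
    rw [Set.insert_eq, Mu.union_aux hE hom hu (PM.singleton_aux hE hom k) (PM.finite hE hom hs)]
    rintro (h | h)
    · obtain ⟨a, ha, hau⟩ := h
      refine hu.2.2.2.2.2 (nat k) a (hom.nat_om hE k) (fun z => ?_) hau
      constructor
      · intro hz
        obtain ⟨m, rfl⟩ := (hom.E_om z).1 (ha.1 z hz)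
        have h1 := (Rl.mem hE hom ha).1 hz
        exact congrArg nat h1
      · rintro rfl
        exact (Rl.mem hE hom ha).2 rfl
    · exact ih h

theorem Mu.infinite {A : Set ℕ} (h : Mu E om nat u A) : A.Infinite :=
  fun hA => Mu.finite_aux hE hom hu hA h

theorem Mu.almost {A B : Set ℕ} (h : Mu E om nat u A) (hAB : (A \ B).Finite)
    (hB : PM E om nat B) : Mu E om nat u B := by
  have h1 : Mu E om nat u (B ∪ (A \ B)) := by
    refine Mu.mono hE hom hu h ?_ (PM.union hE hom hB (PM.finite hE hom hAB))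
    rw [Set.union_diff_self]
    exact Set.subset_union_right
  rcases (Mu.union_aux hE hom hu hB (PM.finite hE hom hAB)).1 h1 with h2 | h2
  · exact h2
  · exact (Mu.finite_aux hE hom hu hAB h2).elim

theorem Mu.union {A B : Set ℕ} (hA : PM E om nat A) (hB : PM E om nat B) :
    Mu E om nat u (A ∪ B) ↔ (Mu E om nat u A ∨ Mu E om nat u B) :=
  Mu.union_aux hE hom hu hA hB

/-- Proof. Elements of `u` are subsets of `om`, use `Mu.iff`; the inclusion of ultrafilters implies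
equality by `Mu.compl`. -/
theorem Mu.ext {v : M} (hv : IsUF E om v) (h : ∀ A, Mu E om nat u A → Mu E om nat v A) :
    u = v := by
  apply hE.ext
  intro z
  constructor
  · intro hz
    have hr := Rl.of_sub hE hom (hu.1 z hz)
    exact (Mu.iff hE hom hr).1 (h _ ((Mu.iff hE hom hr).2 hz))
  · intro hz
    have hr := Rl.of_sub hE hom (hv.1 z hz)
    by_contra hc
    have h1 : ¬ Mu E om nat u {n | E (nat n) z} := fun h2 => hc ((Mu.iff hE hom hr).1 h2)
    have h2 := (Mu.compl hE hom hu ⟨z, hr⟩).2 h1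
    exact (Mu.compl hE hom hv ⟨z, hr⟩).1 (h _ h2) ((Mu.iff hE hom hr).2 hz)

theorem IM.iff {A : Set ℕ} : IM E om nat u A ↔ (PM E om nat A ∧ ¬ Mu E om nat u A) := by
  constructor
  · rintro ⟨a, ha, hau⟩
    exact ⟨⟨a, ha⟩, fun h => hau ((Mu.iff hE hom ha).1 h)⟩
  · rintro ⟨⟨a, ha⟩, h⟩
    exact ⟨a, ha, fun h' => h ((Mu.iff hE hom ha).2 h')⟩

end General

namespace Nc

variable (N : Nc)

theorem std : StdOm N.E N.om N.nat := ⟨N.E_om, N.E_nat⟩

/-- `A ∈ u` -/
abbrev mu (u : N.M) (A : Set ℕ) : Prop := Mu N.E N.om N.nat u A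

/-- Proof. `PM.of_code` for the formula `(x, nat n) ∈ fs`, and `fs_rel`. -/
theorem pm_col (n : ℕ) : N.pm (col n) := by
  have h1 := PM.of_code N.zf N.std (fRel codeStr 1 0 2 10) (asn N.fs [N.fs, N.nat n])
    (P := fun x => Rel N.E N.fs x (N.nat n)) (fun x => Iff.rfl)
  have h2 : {m | Rel N.E N.fs (N.nat m) (N.nat n)} = col n := by
    ext m
    exact N.fs_rel m n
  rwa [h2] at h1

/-- Proof. `pm_col`, `N.x_col`. -/
theorem im_col (n : ℕ) : N.im N.x (col n) := by
  obtain ⟨a, ha⟩ := N.pm_col n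
  exact ⟨a, ha, N.x_col a n ha⟩

end Nc

/-- A Stone-Čech compactification `(K, σ, e)` of the space `(X, τ) = ω* ∖ {z}`, with remainder
`R = K ∖ e[X]`. -/
structure SC (N : Nc) where
  /-- the point -/
  z : N.M
  /-- the space -/
  X : N.M
  /-- its topology -/
  τ : N.M
  /-- the compactification -/
  K : N.M
  /-- its topology -/
  σ : N.M
  /-- the embedding -/
  e : N.M
  /-- the remainder -/
  R : N.M
  uf : IsUF N.E N.om z
  hX : IsMinusPt N.E N.om z X τ
  hS : IsSC N.E N.om X τ K σ e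
  hR : ∀ k, N.E k R ↔ (N.E k K ∧ ¬ ∃ x, Rel N.E e x k)

/-- `V` and `V'` are complementary open subsets of `(K, σ)` -/
def Clop {M : Type} (E : M → M → Prop) (K σ V V' : M) : Prop :=
  E V σ ∧ E V' σ ∧ ∀ k, E k V' ↔ (E k K ∧ ¬ E k V)

end Pool.Agent.H83.R
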