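import Pool.Agent.H83.F.Defs

/-!
# Topological notions inside a structure `(M, E)`

All notions are interpreted in a structure `(M, E)`: `E x y` is read as `x ∈ y`. The notions
`Sub` (subset), `IsPair` (ordered pair), `Rel` (`Rel E f x y` means `(x, y) ∈ f`), `IsFun`
(`IsFun E f a b`: `f` is a function from `a` to `b`), `IsOmega` (the set of natural numbers) and
`IsOrd` (ordinal) come from `Pool.Agent.H83.F.Defs`.
-/

set_option autoImplicit false

namespace Pool.Agent.H83.R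

open Pool.Agent.H83.F

section Defs

variable {M : Type} (E : M → M → Prop)

/-- `a` is finite: it is the range of a function defined on a natural number. Here `w` is the set
of natural numbers. -/
def IsFinite (w a : M) : Prop :=
  ∃ n f, E n w ∧ IsFun E f n a ∧ ∀ y, E y a → ∃ x, Rel E f x y

/-- `a` is countable: it is empty or the range of a function defined on the set `w` of natural
numbers. -/
def IsCountable (w a : M) : Prop :=
  (∀ y, ¬ E y a) ∨ ∃ f, IsFun E f w a ∧ ∀ y, E y a → ∃ x, Rel E f x y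

/-- `W` is `ω₁`: an uncountable ordinal all of whose elements are countable. -/
def IsOmegaOne (w W : M) : Prop :=
  IsOrd E W ∧ ¬ IsCountable E w W ∧ ∀ a, E a W → IsCountable E w a

/-- The continuum hypothesis: there is a function from `ω₁` onto the set of all subsets of `w`. -/
def IsCH (w : M) : Prop :=
  ∃ W P g, IsOmegaOne E w W ∧ (∀ A, E A P ↔ Sub E A w) ∧ IsFun E g W P ∧
    ∀ A, E A P → ∃ a, Rel E g a A

/-- `u` is a non-principal ultrafilter on `w`. -/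
def IsUF (w u : M) : Prop :=
  (∀ A, E A u → Sub E A w) ∧ E w u ∧
  (∀ A B, E A u → Sub E A B → Sub E B w → E B u) ∧
  (∀ A B C, E A u → E B u → (∀ n, E n C ↔ (E n A ∧ E n B)) → E C u) ∧
  (∀ A B, Sub E A w → (∀ n, E n B ↔ (E n w ∧ ¬ E n A)) → (E A u ↔ ¬ E B u)) ∧
  ∀ n A, E n w → (∀ k, E k A ↔ k = n) → ¬ E A u

/-- `u` is a P-point: for every partition of `w` into countably many sets none of which belongs
to `u` (the fibres of a function `f` from `w` to `w`), some `A ∈ u` meets each piece in a finite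
set. -/
def IsPPoint (w u : M) : Prop :=
  IsUF E w u ∧ ∀ f, IsFun E f w w →
    (∀ n A, E n w → (∀ k, E k A ↔ Rel E f k n) → ¬ E A u) →
    ∃ A, E A u ∧ ∀ n B, E n w → (∀ k, E k B ↔ (E k A ∧ Rel E f k n)) → IsFinite E w B

/-- `τ` is a topology on `X`. -/
def IsTop (X τ : M) : Prop :=
  (∀ U, E U τ → Sub E U X) ∧ E X τ ∧
  (∀ U V W, E U τ → E V τ → (∀ z, E z W ↔ (E z U ∧ E z V)) → E W τ) ∧
  ∀ 𝒰 W, Sub E 𝒰 τ → (∀ z, E z W ↔ ∃ U, E U 𝒰 ∧ E z U) → E W τ

/-- `(X, τ)` is compact: every open cover has a finite subcover. -/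
def IsCpt (w X τ : M) : Prop :=
  ∀ 𝒰, Sub E 𝒰 τ → (∀ x, E x X → ∃ U, E U 𝒰 ∧ E x U) →
    ∃ 𝒱, Sub E 𝒱 𝒰 ∧ IsFinite E w 𝒱 ∧ ∀ x, E x X → ∃ U, E U 𝒱 ∧ E x U

/-- `(X, τ)` is a Hausdorff space. -/
def IsHaus (X τ : M) : Prop :=
  ∀ x y, E x X → E y X → x ≠ y →
    ∃ U V, E U τ ∧ E V τ ∧ E x U ∧ E y V ∧ ∀ z, ¬ (E z U ∧ E z V)

/-- `f` is a continuous function from `(X, τ)` to `(Y, ρ)`. -/
def IsCont (X τ Y ρ f : M) : Prop :=
  IsFun E f X Y ∧ ∀ V, E V ρ → ∀ U, (∀ x, E x U ↔ (E x X ∧ ∃ y, Rel E f x y ∧ E y V)) → E U τ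

/-- `(K, σ)` with `e : X → K` is the Stone-Čech compactification of `(X, τ)`: a compact Hausdorff
space with a dense embedding `e` of `X`, such that every continuous function `f` from `X` to a
compact Hausdorff space `(Y, ρ)` extends to a continuous function `g` from `K` to `Y`. -/
def IsSC (w X τ K σ e : M) : Prop :=
  IsTop E K σ ∧ IsCpt E w K σ ∧ IsHaus E K σ ∧ IsCont E X τ K σ e ∧
  (∀ x x' y, Rel E e x y → Rel E e x' y → x = x') ∧
  (∀ U, E U τ → ∃ V, E V σ ∧ ∀ x y, Rel E e x y → (E x U ↔ E y V)) ∧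
  (∀ V, E V σ → (∃ y, E y V) → ∃ x y, Rel E e x y ∧ E y V) ∧
  ∀ Y ρ f, IsTop E Y ρ → IsCpt E w Y ρ → IsHaus E Y ρ → IsCont E X τ Y ρ f →
    ∃ g, IsCont E K σ Y ρ g ∧ ∀ x y z, Rel E e x y → Rel E f x z → Rel E g y z

/-- `(R, ρ)` is the Stone-Čech remainder of `(X, τ)`: the subspace `K ∖ e[X]` of the Stone-Čech
compactification `(K, σ)`. -/
def IsRemainder (w X τ R ρ : M) : Prop :=
  ∃ K σ e, IsSC E w X τ K σ e ∧ (∀ k, E k R ↔ (E k K ∧ ¬ ∃ x, Rel E e x k)) ∧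
    ∀ U, E U ρ ↔ ∃ V, E V σ ∧ ∀ k, E k U ↔ (E k V ∧ E k R)

/-- `(X, τ)` is the subspace `ω* ∖ {x}` of the space `ω*` of non-principal ultrafilters on `w`:
a subset `U` of `X` is open iff every `u ∈ U` has an element `A` such that all `v ∈ X` with
`A ∈ v` belong to `U`. -/
def IsMinusPt (w x X τ : M) : Prop :=
  (∀ u, E u X ↔ (IsUF E w u ∧ u ≠ x)) ∧
  ∀ U, E U τ ↔ (Sub E U X ∧ ∀ u, E u U → ∃ A, E A u ∧ ∀ v, E v X → E A v → E v U)

/-- `h` is a homeomorphism from `(X, τ)` to `(Y, ρ)`. -/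
def IsHomeo (X τ Y ρ h : M) : Prop :=
  IsCont E X τ Y ρ h ∧ (∀ x x' y, Rel E h x y → Rel E h x' y → x = x') ∧
  (∀ y, E y Y → ∃ x, Rel E h x y) ∧
  ∀ U, E U τ → ∀ V, (∀ y, E y V ↔ (E y Y ∧ ∃ x, Rel E h x y ∧ E x U)) → E V ρ

/-- The remainders of `ω* ∖ {p}` and `ω* ∖ {x}` are not homeomorphic. -/
def RemDiff (w p x : M) : Prop :=
  ∀ X τ R ρ X' τ' R' ρ', IsMinusPt E w p X τ → IsRemainder E w X τ R ρ →
    IsMinusPt E w x X' τ' → IsRemainder E w X' τ' R' ρ' → ¬ ∃ h, IsHomeo E R ρ R' ρ' h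

end Defs

end Pool.Agent.H83.R
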