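import Pool.Agent.H83.R.Base
import Pool.Agent.H83.R.Stmt
import Pool.Agent.H83.F.Int

/-!
# Nice models

The interface between the forcing construction and the internal development.
-/

set_option autoImplicit false

namespace Pool.Agent.H83.R

open Pool.Agent.H83.F

/-- `R` is a code of a clopen set on the ideal `I` (where `P` is the set of all subsets of `ω` in
the model): for every `A ∈ I` there is `B` with `R A B`, and it is unique modulo finite sets. -/
structure Code (P I : Set ℕ → Prop) (R : Set ℕ → Set ℕ → Prop) : Prop where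
  dom : ∀ A B, R A B → I A ∧ B ⊆ A
  coh : ∀ A B A' B', R A B → R A' B' → coh A B A' B'
  tot : ∀ A, P A → I A → ∃ B, R A B

/-- the code `R` is a code of a noncompact clopen set -/
def NCpt (P I : Set ℕ → Prop) (R : Set ℕ → Set ℕ → Prop) : Prop :=
  ∀ D, P D → I D → ∃ A B, R A B ∧ (B \ D).Infinite

/-- the clopen set with code `H` splits the clopen set with code `R` -/
def Splits (P I : Set ℕ → Prop) (R H : Set ℕ → Set ℕ → Prop) : Prop :=
  ∀ D, P D → I D → (∃ A B B', R A B ∧ H A B' ∧ ((B ∩ B') \ D).Infinite) ∧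
    ∃ A B B', R A B ∧ H A B' ∧ ((B \ B') \ D).Infinite

section

variable {M : Type} (E : M → M → Prop) (om : M) (nat : ℕ → M)

/-- the element `a` of the model is the set `A` of natural numbers -/
def Rl (a : M) (A : Set ℕ) : Prop := Sub E a om ∧ {n | E (nat n) a} = A

/-- the set `A` of natural numbers belongs to the model -/
def PM (A : Set ℕ) : Prop := ∃ a, Rl E om nat a A

/-- the set `A` of natural numbers belongs to the model and is not in `z` -/
def IM (z : M) (A : Set ℕ) : Prop := ∃ a, Rl E om nat a A ∧ ¬ E a z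

/-- the relation between sets of natural numbers given by `c` -/
def Cr (c : M) (A B : Set ℕ) : Prop := ∃ a b, Rl E om nat a A ∧ Rl E om nat b B ∧ Rel E c a b

/-- the relation between sets of natural numbers given by the section of `F` at `c` -/
def Cr3 (F c : M) (A B : Set ℕ) : Prop :=
  ∃ a b z, Rl E om nat a A ∧ Rl E om nat b B ∧ IsPair E z a b ∧ Rel E F c z

end

/-- Nice models. -/
structure Nc where
  /-- the universe -/
  M : Type
  /-- membership -/
  E : M → M → Prop
  zfc : IsZFCModel E
  /-- `ω` -/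
  om : M
  /-- the natural numbers -/
  nat : ℕ → M
  E_om : ∀ x, E x om ↔ ∃ n, x = nat n
  E_nat : ∀ x n, E x (nat n) ↔ ∃ m < n, x = nat m
  /-- the P-point -/
  p : M
  /-- the non-P-point -/
  x : M
  /-- the dominating family -/
  Bs : M
  /-- the function `m ↦ (unpair m).1` -/
  fs : M
  fs_rel : ∀ m n, Rel E fs (nat m) (nat n) ↔ (Nat.unpair m).1 = n
  ch : IsCH E om
  p_pp : IsPPoint E om p
  x_uf : IsUF E om x
  x_npp : ¬ IsPPoint E om x
  x_fc : ∀ a A, Rl E om nat a A → FC A → ¬ E a x
  x_col : ∀ a n, Rl E om nat a (col n) → ¬ E a x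
  /-- ultrafilters avoiding an ideal -/
  ult : ∀ j a, Sub E a om → ¬ E a j →
    (∀ b c d, E b j → E c j → Sub E d om → (∀ n, E n d → (E n b ∨ E n c)) → E d j) →
    (∀ b B, Rl E om nat b B → B.Finite → E b j) →
    ∃ u, IsUF E om u ∧ E a u ∧ ∀ b, E b u → ¬ E b j
  b_code : ∀ c, E c Bs → Code (PM E om nat) (IM E om nat x) (Cr E om nat c) ∧
    ∀ A B, Cr E om nat c A B → FC B
  b_cof : ∀ c, Code (PM E om nat) (IM E om nat x) (Cr E om nat c) →
    (∀ A B, Cr E om nat c A B → FC B) →
    ∃ c', E c' Bs ∧ ∀ A B B', Cr E om nat c A B → Cr E om nat c' A B' → (B \ B').Finite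
  split : ∀ F, (∀ c, E c Bs → Code (PM E om nat) (IM E om nat p) (Cr3 E om nat F c) ∧
      NCpt (PM E om nat) (IM E om nat p) (Cr3 E om nat F c)) →
    ∃ H, Code (PM E om nat) (IM E om nat p) (Cr E om nat H) ∧
      ∀ c, E c Bs → Splits (PM E om nat) (IM E om nat p) (Cr3 E om nat F c) (Cr E om nat H)

namespace Nc

variable (N : Nc)

/-- the element `a` of the model is the set `A` of natural numbers -/
abbrev rl (a : N.M) (A : Set ℕ) : Prop := Rl N.E N.om N.nat a A

/-- the subsets of `ω` in the model -/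
abbrev pm (A : Set ℕ) : Prop := PM N.E N.om N.nat A

/-- the ideal dual to `z` -/
abbrev im (z : N.M) (A : Set ℕ) : Prop := IM N.E N.om N.nat z A

/-- the relation given by `c` -/
abbrev cr (c : N.M) (A B : Set ℕ) : Prop := Cr N.E N.om N.nat c A B

/-- the relation given by the section of `F` at `c` -/
abbrev cr3 (F c : N.M) (A B : Set ℕ) : Prop := Cr3 N.E N.om N.nat F c A B

theorem zf : Pool.Agent.H86.IsZFModel N.E := N.zfc.toIsZFModel

end Nc

end Pool.Agent.H83.R
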