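import Pool.Agent.H83.R.NamB
import Pool.Agent.H83.R.Nc
import Pool.Agent.H83.R.M1

/-!
# Generic models over `Q`
-/

set_option autoImplicit false
set_option linter.unusedSectionVars false
set_option linter.unusedVariables false

namespace Pool.Agent.H83.R

open Pool.Agent.H86 Pool.Agent.H86.Name Pool.Agent.H83.F

/-- unary constants -/
def L1 : ℕ → Set ℕ → Prop
  | 0 => fun A => A.Finite
  | 1 => fun A => FC A
  | 2 => fun A => Ix A
  | _ => fun _ => False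

/-- binary constants -/
def L2 : ℕ → Set ℕ → Set ℕ → Prop
  | 0 => fun A B => A ⊆ B
  | 1 => fun A B => (A \ B).Finite
  | 2 => fun A B => (A \ B).Infinite
  | 3 => fun A B => B = Aᶜ
  | 4 => fun A B => Ix A ∧ B ⊆ A ∧ FC B
  | _ => fun _ _ => False

/-- ternary constants -/
def L3 : ℕ → Set ℕ → Set ℕ → Set ℕ → Prop
  | 0 => fun A B C => C ⊆ A ∪ B
  | 1 => fun A B C => A ∩ B ⊆ C
  | 2 => fun A B C => ((A ∩ B) \ C).Infinite
  | 3 => fun A B C => ((A \ B) \ C).Infinite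
  | _ => fun _ _ _ => False

/-- quaternary constants -/
def L4 : ℕ → Set ℕ → Set ℕ → Set ℕ → Set ℕ → Prop
  | 0 => fun A B C D => coh A B C D
  | _ => fun _ _ _ _ => False

/-- a generic model over `Q` with the basic elements -/
structure GB where
  /-- the generic model -/
  G : GModel Q
  /-- natural numbers -/
  nat : ℕ → G.M
  /-- `ω` -/
  om : G.M
  /-- `ω₁` -/
  w1 : G.M
  /-- the P-point -/
  p : G.M
  /-- the non-P-point -/
  x : G.M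
  /-- the dominating family -/
  Bs : G.M
  /-- the power set of `ω` -/
  Rm : G.M
  /-- the function `m ↦ (unpair m).1` -/
  fs : G.M
  /-- the function coding the subsets of `ω` -/
  g : G.M
  /-- the ordinal `continuum.ord` of the ground model -/
  kc : G.M
  /-- the enumeration of the subsets of `ω` -/
  en : G.M
  hnat : ∀ n : ℕ, G.Nm (nat n) (oName Q n)
  hom : G.Nm om (oName Q Ordinal.omega0)
  hw1 : G.Nm w1 (oName Q O1)
  hp : G.Nm p pN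
  hx : G.Nm x xN
  hBs : G.Nm Bs BsN
  hRm : G.Nm Rm RN
  hfs : G.Nm fs fsN
  hg : G.Nm g gN
  hkc : G.Nm kc (oName Q Cardinal.continuum.ord)
  hen : G.Nm en eN
  h1 : ∀ i, ∃ m, G.Nm m (k1 (L1 i))
  h2 : ∀ i, ∃ m, G.Nm m (k2 (L2 i))
  h3 : ∀ i, ∃ m, G.Nm m (k3 (L3 i))
  h4 : ∀ i, ∃ m, G.Nm m (k4 (L4 i))

/-- Proof. `exists_gmodel ⊤ x₀` for a sequence `x₀` enumerating the names `oName Q n`,
`oName Q Ordinal.omega0`, `oName Q O1`, `pN`, `xN`, `BsN`, `RN`, `fsN`, `gN`, `oName Q continuum.ord`, `eN`, `k1 (L1 i)`, ...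
(see `exists_nice` in `Pool/Agent/H83/F/C5.lean` for a similar proof). -/
theorem exists_GB : Nonempty GB := by
  classical
  let L : List (Name Q) := [oName Q Ordinal.omega0, oName Q O1, pN, xN, BsN, RN, fsN, gN,
    oName Q Cardinal.continuum.ord, eN]
  let x₀ : ℕ → Name Q := fun i =>
    if (Nat.unpair i).1 = 0 then oName Q ((Nat.unpair i).2 : ℕ)
    else if (Nat.unpair i).1 = 1 then k1 (L1 (Nat.unpair i).2)
    else if (Nat.unpair i).1 = 2 then k2 (L2 (Nat.unpair i).2)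
    else if (Nat.unpair i).1 = 3 then k3 (L3 (Nat.unpair i).2)
    else if (Nat.unpair i).1 = 4 then k4 (L4 (Nat.unpair i).2)
    else L.getD (Nat.unpair i).2 (oName Q 0)
  obtain ⟨G, -, hG⟩ := exists_gmodel (⊤ : Q) x₀
  have hn : ∀ n : ℕ, ∃ m, G.Nm m (oName Q (n : ℕ)) := fun n => by
    obtain ⟨m, hm⟩ := hG (Nat.pair 0 n)
    exact ⟨m, by simpa [x₀, Nat.unpair_pair] using hm⟩
  have h1 : ∀ i : ℕ, ∃ m, G.Nm m (k1 (L1 i)) := fun n => by
    obtain ⟨m, hm⟩ := hG (Nat.pair 1 n)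
    exact ⟨m, by simpa [x₀, Nat.unpair_pair] using hm⟩
  have h2 : ∀ i : ℕ, ∃ m, G.Nm m (k2 (L2 i)) := fun n => by
    obtain ⟨m, hm⟩ := hG (Nat.pair 2 n)
    exact ⟨m, by simpa [x₀, Nat.unpair_pair] using hm⟩
  have h3 : ∀ i : ℕ, ∃ m, G.Nm m (k3 (L3 i)) := fun n => by
    obtain ⟨m, hm⟩ := hG (Nat.pair 3 n)
    exact ⟨m, by simpa [x₀, Nat.unpair_pair] using hm⟩
  have h4 : ∀ i : ℕ, ∃ m, G.Nm m (k4 (L4 i)) := fun n => by
    obtain ⟨m, hm⟩ := hG (Nat.pair 4 n)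
    exact ⟨m, by simpa [x₀, Nat.unpair_pair] using hm⟩
  have hL : ∀ k : ℕ, ∃ m, G.Nm m (L.getD k (oName Q 0)) := fun n => by
    obtain ⟨m, hm⟩ := hG (Nat.pair 5 n)
    exact ⟨m, by simpa [x₀, Nat.unpair_pair] using hm⟩
  choose nat hnat using hn
  obtain ⟨om, hom⟩ := hL 0
  obtain ⟨w1, hw1⟩ := hL 1
  obtain ⟨p, hp⟩ := hL 2
  obtain ⟨x, hx⟩ := hL 3
  obtain ⟨Bs, hBs⟩ := hL 4
  obtain ⟨Rm, hRm⟩ := hL 5
  obtain ⟨fs, hfs⟩ := hL 6
  obtain ⟨g, hg⟩ := hL 7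
  obtain ⟨kc, hkc⟩ := hL 8
  obtain ⟨en, hen⟩ := hL 9
  exact ⟨⟨G, nat, om, w1, p, x, Bs, Rm, fs, g, kc, en, hnat, hom, hw1, hp, hx, hBs, hRm, hfs, hg,
    hkc, hen, h1, h2, h3, h4⟩⟩

/-- `(x, (y, z)) ∈ c` -/
def Rel3 {M : Type} (E : M → M → Prop) (c x y z : M) : Prop := ∃ u, IsPair E u y z ∧ Rel E c x u

/-- `(x, (y, (z, t))) ∈ c` -/
def Rel4 {M : Type} (E : M → M → Prop) (c x y z t : M) : Prop :=
  ∃ u, IsPair E u z t ∧ Rel3 E c x y u

namespace GB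

variable (B : GB)

theorem zfc : IsZFCModel B.G.E := GModel.zfc B.G ⟨B.om⟩

/-- As `GB.E_om`, `GB.E_nat` in `Pool/Agent/H83/F/C1.lean`. -/
theorem std : StdOm B.G.E B.om B.nat := by
  refine ⟨fun x => ?_, fun x n => ?_⟩
  · rw [GModel.mem_o B.hom]
    constructor
    · rintro ⟨β, hβ, h⟩
      obtain ⟨n, rfl⟩ := Ordinal.lt_omega0.1 hβ
      exact ⟨n, (GModel.o_eq h (B.hnat n)).2 rfl⟩
    · rintro ⟨n, rfl⟩
      exact ⟨n, Ordinal.natCast_lt_omega0 n, B.hnat n⟩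
  · rw [GModel.mem_o (B.hnat n)]
    constructor
    · rintro ⟨β, hβ, h⟩
      obtain ⟨m, rfl⟩ := Ordinal.lt_omega0.1 (hβ.trans (Ordinal.natCast_lt_omega0 n))
      exact ⟨m, by exact_mod_cast hβ, (GModel.o_eq h (B.hnat m)).2 rfl⟩
    · rintro ⟨m, hm, rfl⟩
      exact ⟨m, by exact_mod_cast hm, B.hnat m⟩

theorem zf : IsZFModel B.G.E := B.zfc.toIsZFModel

/-- Elements named by `rN A`. -/
theorem rl_of {a : B.G.M} {A : Set ℕ} (ha : B.G.Nm a (rN A)) : Rl B.G.E B.om B.nat a A := by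
  constructor
  · have h1 := B.G.of_forced ((codeStr.all fun z => codeStr.imp (codeStr.mem z 0)
      (codeStr.mem z 1)) 10) (B.G.el ha) [B.G.el ha, B.G.el B.hom] (by
      intro p Z q hq hZ
      have hZ' : fmem Z (rN A) q := hZ
      rw [fmem_rN] at hZ'
      show fmem Z (oName Q Ordinal.omega0) q
      rw [fmem_oName]
      intro r hr
      obtain ⟨s, hs, n, hn, h⟩ := hZ' r hr
      exact ⟨s, hs, _, Ordinal.natCast_lt_omega0 n, h⟩)
    exact h1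
  · ext n
    show B.G.E (B.nat n) a ↔ n ∈ A
    rw [GModel.mem_iff (B.hnat n) ha]
    exact ⟨fun ⟨k, hk⟩ => fmem_o_rN.1 hk, fun h => ⟨0, fmem_o_rN.2 h⟩⟩

/-- The elements of the model that are sets of natural numbers are named by canonical names.

Proof. If `a` is named by `rN A` then `E (nat n) a ↔ n ∈ A` by `GModel.mem_iff`, `fmem_o_rN`, and
`Sub E a om` by the truth lemma (`GModel.of_forced` for the formula `∀ z ∈ a, z ∈ om`, compare
`mem_cN` in `F/C1.lean`). Conversely let `Rl a A` and let `X` be a name of `a` (`G.named`). The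
formula `∀ X, (∀ z ∈ X, z ∈ ω) → ∃ α ∈ κ, (α, X) ∈ eN`, with `κ` the canonical name of the ordinal
`continuum.ord`, is forced (`real_dec`, `RR_eN`, `oc_lt`). So there is `α ∈ M` with `E α kc` and
`Rel E en α a`. By `GModel.mem_o` `α` is named by some `oName Q (oc i)` (`oc_surj`), and by
`GModel.rel_iff` and `RR_eN` some condition of the sequence forces `X = rN (eR i)`. Hence `a` is
named by `rN (eR i)` (`G.congr`), and `A = eR i` by the first part. -/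
theorem rl_iff {a : B.G.M} {A : Set ℕ} : Rl B.G.E B.om B.nat a A ↔ B.G.Nm a (rN A) := by
  refine ⟨fun ha => ?_, B.rl_of⟩
  obtain ⟨X, hX⟩ := B.G.named a
  have h1 := B.G.of_forced ((codeStr.imp (codeStr.all fun z => codeStr.imp (codeStr.mem z 0)
      (codeStr.mem z 1)) (codeStr.ex fun α => codeStr.and (codeStr.mem α 2)
      (fRel codeStr 3 α 0))) 10) (B.G.el hX) [B.G.el hX, B.G.el B.hom, B.G.el B.hkc,
      B.G.el B.hen] (by
    intro p q hq h q' hq'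
    have h' : ∀ Z : Name Q, ∀ r ≤ q', fmem Z X r → fmem Z (oName Q Ordinal.omega0) r :=
      fun Z r hr hZ => h Z r (hr.trans hq') hZ
    obtain ⟨r, hr, A', hA'⟩ := real_dec h'
    refine ⟨r, hr, oName Q (oc (eR.symm A')), fmem_oName_of_lt (oc_lt _) r, ?_⟩
    refine holds_fRel.2 ?_
    show RR eN (oName Q (oc (eR.symm A'))) X r
    rw [RR_eN, Equiv.apply_symm_apply]
    exact hA')
  obtain ⟨α, hα, hr⟩ : ∃ α, B.G.E α B.kc ∧ Rel B.G.E B.en α a := h1 ha.1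
  obtain ⟨γ, hγ, hαγ⟩ := (GModel.mem_o B.hkc).1 hα
  obtain ⟨i, rfl⟩ := oc_surj hγ
  obtain ⟨n, hn⟩ := (GModel.rel_iff B.hen hαγ hX).1 hr
  have h2 : B.G.Nm a (rN (eR i)) := B.G.congr hX (RR_eN.1 hn)
  have h3 : A = eR i := ha.2.symm.trans (B.rl_of h2).2
  rw [h3]
  exact h2

/-- Proof. If `E a Rm` then `Sub E a om` by a forced formula. Conversely use `rl_iff` and
`fmem_famN_self`. -/
theorem E_Rm {a : B.G.M} : B.G.E a B.Rm ↔ Sub B.G.E a B.om := by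
  constructor
  · intro ha
    have h1 := B.G.of_forced ((codeStr.all fun a => codeStr.imp (codeStr.mem a 0)
      (codeStr.all fun z => codeStr.imp (codeStr.mem z a) (codeStr.mem z 1))) 10)
      (B.G.el B.hRm) [B.G.el B.hRm, B.G.el B.hom] (by
      intro p X q hq hX Z r hr hZ
      have hX' : fmem X RN q := hX
      rw [RN, fmem_famN] at hX'
      show fmem Z (oName Q Ordinal.omega0) r
      apply fmem_reg
      intro s hs
      obtain ⟨t, ht, A, hA⟩ := hX' s (hs.trans hr)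
      have h2 : fmem Z (rN A) t := fmem_congr_right hA (fmem_mono (ht.trans hs) hZ)
      obtain ⟨t', ht', n, hn, h3⟩ := fmem_rN.1 h2 t le_rfl
      exact ⟨t', ht'.trans ht, fmem_congr_left (feq_symm h3)
        (fmem_oName_of_lt (Ordinal.natCast_lt_omega0 n) t')⟩)
    exact h1 a ha
  · intro ha
    have h1 : B.G.Nm a (rN {n | B.G.E (B.nat n) a}) := B.rl_iff.1 ⟨ha, rfl⟩
    exact (GModel.mem_iff h1 B.hRm).2 ⟨0, fmem_famN_self rN _ _⟩

/-- Proof. `rl_iff`, `GModel.mem_iff`, `fmem_k1`. -/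
theorem k1_iff {S : Set ℕ → Prop} {c a : B.G.M} {A : Set ℕ} (hc : B.G.Nm c (k1 S))
    (ha : Rl B.G.E B.om B.nat a A) : B.G.E a c ↔ S A := by
  rw [GModel.mem_iff (B.rl_iff.1 ha) hc]
  exact ⟨fun ⟨n, hn⟩ => fmem_k1.1 hn, fun h => ⟨0, fmem_k1.2 h⟩⟩

/-- Proof. `rl_iff`, `GModel.rel_iff`, `fmem_k2`. -/
theorem k2_iff {S : Set ℕ → Set ℕ → Prop} {c a b : B.G.M} {A A' : Set ℕ}
    (hc : B.G.Nm c (k2 S)) (ha : Rl B.G.E B.om B.nat a A) (hb : Rl B.G.E B.om B.nat b A') :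
    Rel B.G.E c a b ↔ S A A' := by
  rw [GModel.rel_iff hc (B.rl_iff.1 ha) (B.rl_iff.1 hb)]
  exact ⟨fun ⟨n, hn⟩ => fmem_k2.1 hn, fun h => ⟨0, fmem_k2.2 h⟩⟩

/-- Proof. `rl_iff`, `GModel.tr` for `fRel3 codeStr 0 1 2 3 10`, `holds_fRel3`, `fmem_k3`. -/
theorem k3_iff {S : Set ℕ → Set ℕ → Set ℕ → Prop} {c a b d : B.G.M} {A A' D : Set ℕ}
    (hc : B.G.Nm c (k3 S)) (ha : Rl B.G.E B.om B.nat a A) (hb : Rl B.G.E B.om B.nat b A')
    (hd : Rl B.G.E B.om B.nat d D) : Rel3 B.G.E c a b d ↔ S A A' D := by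
  have h1 := B.G.tr (fRel3 codeStr 0 1 2 3 10) (B.G.el hc) [B.G.el hc, B.G.el (B.rl_iff.1 ha),
    B.G.el (B.rl_iff.1 hb), B.G.el (B.rl_iff.1 hd)]
  have h2 : Rel3 B.G.E c a b d ↔ ∃ n, (fRel3 (FS Q) (k3 S) (rN A) (rN A') (rN D)).holds
    (B.G.qs n) := h1
  rw [h2]
  exact ⟨fun ⟨n, hn⟩ => fmem_k3.1 (holds_fRel3.1 hn), fun h => ⟨0, holds_fRel3.2 (fmem_k3.2 h)⟩⟩

/-- Proof. `rl_iff`, `GModel.tr` for `fRel4 codeStr 0 1 2 3 4 10`, `holds_fRel4`, `fmem_k4`. -/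
theorem k4_iff {S : Set ℕ → Set ℕ → Set ℕ → Set ℕ → Prop} {c a b d f : B.G.M}
    {A A' D D' : Set ℕ} (hc : B.G.Nm c (k4 S)) (ha : Rl B.G.E B.om B.nat a A)
    (hb : Rl B.G.E B.om B.nat b A') (hd : Rl B.G.E B.om B.nat d D)
    (hf : Rl B.G.E B.om B.nat f D') : Rel4 B.G.E c a b d f ↔ S A A' D D' := by
  have h1 := B.G.tr (fRel4 codeStr 0 1 2 3 4 10) (B.G.el hc) [B.G.el hc,
    B.G.el (B.rl_iff.1 ha), B.G.el (B.rl_iff.1 hb), B.G.el (B.rl_iff.1 hd),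
    B.G.el (B.rl_iff.1 hf)]
  have h2 : Rel4 B.G.E c a b d f ↔ ∃ n, (fRel4 (FS Q) (k4 S) (rN A) (rN A') (rN D)
    (rN D')).holds (B.G.qs n) := h1
  rw [h2]
  exact ⟨fun ⟨n, hn⟩ => fmem_k4.1 (holds_fRel4.1 hn), fun h => ⟨0, holds_fRel4.2 (fmem_k4.2 h)⟩⟩

/-- Proof. `k1_iff` (`xN` is `k1 _`). -/
theorem E_x {a : B.G.M} {A : Set ℕ} (ha : Rl B.G.E B.om B.nat a A) : B.G.E a B.x ↔ A ∈ xU :=
  B.k1_iff B.hx ha

/-- Proof. `rl_iff`, `GModel.mem_iff`, `fmem_pN`. -/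
theorem E_p {a : B.G.M} {A : Set ℕ} (ha : Rl B.G.E B.om B.nat a A) :
    B.G.E a B.p ↔ ∃ n, ((B.G.qs n).1.a \ A).Finite := by
  rw [GModel.mem_iff (B.rl_iff.1 ha) B.hp]
  exact exists_congr fun n => fmem_pN

/-- Proof. The formula `∀ a ∈ x, a ∈ Rm` is forced; `E_Rm`. -/
theorem sub_x {a : B.G.M} (ha : B.G.E a B.x) : Sub B.G.E a B.om := by
  rw [← B.E_Rm]
  have h1 := B.G.of_forced ((codeStr.all fun a => codeStr.imp (codeStr.mem a 0)
      (codeStr.mem a 1)) 10) (B.G.el B.hx) [B.G.el B.hx, B.G.el B.hRm] (by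
    intro p X q hq hX
    have hX' : fmem X xN q := hX
    rw [xN, k1, fmem_famN] at hX'
    show fmem X RN q
    rw [RN, fmem_famN]
    intro r hr
    obtain ⟨s, hs, A, hA⟩ := hX' r hr
    exact ⟨s, hs, A.1, hA⟩)
  exact h1 a ha

/-- Proof. The formula `∀ a ∈ p, a ∈ Rm` is forced (`fmem_pN_real`); `E_Rm`. -/
theorem sub_p {a : B.G.M} (ha : B.G.E a B.p) : Sub B.G.E a B.om := by
  rw [← B.E_Rm]
  have h1 := B.G.of_forced ((codeStr.all fun a => codeStr.imp (codeStr.mem a 0)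
      (codeStr.mem a 1)) 10) (B.G.el B.hp) [B.G.el B.hp, B.G.el B.hRm]
      (fun p X q hq hX => fmem_pN_real hX)
  exact h1 a ha

/-- Proof. `GModel.rel_iff`, `RR_relO_o`. -/
theorem fs_rel (m n : ℕ) : Rel B.G.E B.fs (B.nat m) (B.nat n) ↔ (Nat.unpair m).1 = n := by
  rw [GModel.rel_iff B.hfs (B.hnat m) (B.hnat n)]
  constructor
  · rintro ⟨k, hk⟩
    obtain ⟨r, -, i, -, h1, h2⟩ := RR_relO_o.1 hk (B.G.qs k) le_rfl
    simp only [Nat.cast_inj] at h1 h2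
    rw [← h1]; exact h2
  · rintro h
    refine ⟨0, RR_relO_o.2 fun q _ => ⟨q, le_rfl, m, le_top, rfl, ?_⟩⟩
    rw [h]

end GB

end Pool.Agent.H83.R
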