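import Pool.Agent.H83.R.M10c

/-!
# The remainders are not homeomorphic
-/

set_option autoImplicit false
set_option linter.unusedSectionVars false
set_option linter.unusedVariables false

open Pool.Agent.H83.F Pool.Agent.H86

namespace Pool.Agent.H83.R

section

variable {N : Nc} (S S' : SC N) {ρ ρ' h : N.M}

/-- One half of the argument. -/
theorem cover_aux (hz' : S'.z = N.x) (hh : IsHomeo N.E S.R ρ S'.R ρ' h)
    {c VH VH' WH WH' V V' W W' C₂ : N.M} {L : Set ℕ} (hc : N.E c N.Bs) (hL : N.im N.x L)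
    (hVH : Clop N.E S.K S.σ VH VH') (hWH : Clop N.E S'.K S'.σ WH WH')
    (hVW : ∀ k l, Rel N.E h k l → (N.E k VH ↔ N.E l WH))
    (hC : ∀ u k, Rel N.E S'.e u k → N.E k WH → N.E u C₂)
    (hcase : ∀ u A B, N.E u C₂ → ¬ N.mu u L → N.cr c A B → N.mu u A → N.mu u B)
    (hV : Clop N.E S.K S.σ V V') (hW : Clop N.E S'.K S'.σ W W')
    (hW' : ∀ u k, Rel N.E S'.e u k → (N.E k W ↔ ∃ a b, Rel N.E c a b ∧ Sub N.E a N.om ∧
      Sub N.E b N.om ∧ N.E a u ∧ N.E b u))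
    (hVW' : ∀ k l, Rel N.E h k l → (N.E k V ↔ ¬ N.E l W)) :
    ∃ D, N.im S.z D ∧ ∀ u k, Rel N.E S.e u k → N.E k VH → N.E k V → N.mu u D := by
  have h1 : ∀ l, N.E l S'.R → N.E l WH → N.E l W := by
    refine (S'.sub_iff hWH hW).2 ⟨L, by rw [hz']; exact hL, fun u k huk hk => ?_⟩
    by_cases hu : N.mu u L
    · exact Or.inr hu
    · left
      have huX : N.E u S'.X := (IsFun.mem N.zf S'.hS.2.2.2.1.1 huk).1
      obtain ⟨A, hA, huA⟩ := S'.exists_im huX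
      have hA' : N.im N.x A := by rw [← hz']; exact hA
      have hpA : N.pm A := by
        obtain ⟨a, ha, -⟩ := hA
        exact ⟨a, ha⟩
      obtain ⟨B, hB⟩ := (N.b_code c hc).1.tot A hpA hA'
      have huB := hcase u A B (hC u k huk hk) hu hB huA
      obtain ⟨a, b, ha, hb, hab⟩ := hB
      exact (hW' u k huk).2 ⟨a, b, hab, ha.1, hb.1, (Mu.iff N.zf N.std ha).1 huA,
        (Mu.iff N.zf N.std hb).1 huB⟩
  have h2 : ∀ k, N.E k S.R → N.E k VH → N.E k V' := by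
    intro k hk hkV
    obtain ⟨l, hl, -⟩ := hh.1.1.2 k hk
    have hlR := (IsFun.mem N.zf hh.1.1 hl).2
    have hlW := h1 l hlR ((hVW k l hl).1 hkV)
    exact (hV.2.2 k).2 ⟨((S.hR k).1 hk).1, fun h => (hVW' k l hl).1 h hlW⟩
  obtain ⟨D, hD, hcov⟩ := (S.sub_iff hVH (hV.swap S.hS.1)).1 h2
  refine ⟨D, hD, fun u k huk h3 h4 => ?_⟩
  rcases hcov u k huk h3 with h5 | h5
  · exact (((hV.2.2 k).1 h5).2 h4).elim
  · exact h5

/-- The remainders are not homeomorphic.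

Proof. Let `F` be given by `exists_F`. `Cr3 F c = Cr d` for the corresponding `d`, so by
`Psi.ncpt` and `N.split` there is `H` with `Code (cr H)` such that `cr H` splits all `cr3 F c`. By
`S.clopen_of_code`, `S.clopen_ext` there is a clopen set `C_H` of `X` with code `H` that is the
trace of a clopen `V_H` of `K`. By `push` there is a clopen `W_H` of `K'` that corresponds to `V_H`;
let `C''` be its trace (`S'.clopen_res`). Apply `S'.exists_Bs` to `C''`: get `c ∈ Bs` and `L`. Let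
`d`, `V`, `W` be as in `Psi c d`.
Case 1: `u ∈ C''`, `L ∉ u`, `cr c A B`, `A ∈ u` imply `B ∈ u`. Then `W_H ∩ R' ⊆ W` by `S'.sub_iff`
(use `exists_im` and the totality of `cr c`, third clause of `Psi`). Hence `V_H ∩ V ∩ R = ∅` (a
point `k` of it would give `l = h(k) ∈ W_H`, `l ∉ W`). By `S.sub_iff` (`V₁ = V_H`, `V₂ = V'`) there
is `D` in the ideal of `p` with: `e(u) ∈ V_H ∩ V` implies `D ∈ u`. By `Splits` there are `A, B, B'`
with `cr3 F c A B`, so `cr d A B`, `cr H A B'` and `(B ∩ B') \ D` infinite. Take a non-principal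
ultrafilter `u` containing it (`exists_uf`); `u ∈ X` (`mem_X`, `B ⊆ A`). Then `u` is in the trace of
`V` (`cr_of_code`) and in `C_H`, so `D ∈ u`, a contradiction.
Case 2: the same with the complements of `C''` (so `V_H'`) and `(B \ B') \ D`. -/
theorem no_homeo (hz : S.z = N.p) (hz' : S'.z = N.x)
    (hρ : ∀ U, N.E U ρ ↔ ∃ V, N.E V S.σ ∧ ∀ k, N.E k U ↔ (N.E k V ∧ N.E k S.R))
    (hρ' : ∀ U, N.E U ρ' ↔ ∃ V, N.E V S'.σ ∧ ∀ k, N.E k U ↔ (N.E k V ∧ N.E k S'.R))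
    (hh : IsHomeo N.E S.R ρ S'.R ρ' h) : False := by
  obtain ⟨F, hF⟩ := exists_F S S' hz' hρ hρ' hh
  obtain ⟨H, hH, hsp⟩ := N.split F (fun c hc => by
    obtain ⟨d, hd, hiff⟩ := hF c hc
    have he : Cr3 N.E N.om N.nat F c = Cr N.E N.om N.nat d := by
      funext A B
      exact propext (hiff A B)
    rw [he, ← hz]
    exact hd.ncpt S S' hz' hh hc)
  rw [← hz] at hH
  obtain ⟨CH, CH', hCH, hCH1, -⟩ := S.clopen_of_code hH
  obtain ⟨VH, VH', hVH, hVHe⟩ := S.clopen_ext hCH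
  obtain ⟨WH, WH', hWH, hWHe⟩ := push S S' hρ hρ' hh hVH
  obtain ⟨C2, C2', hC2, hC2e⟩ := S'.clopen_res hWH
  obtain ⟨c, hc, L, hL, hcase⟩ := S'.exists_Bs hz' hC2
  obtain ⟨d, hΨ, hiff⟩ := hF c hc
  have hsp' := hsp c hc
  obtain ⟨V, V', W, W', hV, hW, hWc, hVW, C, hC, hCd⟩ := hΨ
  have key : ∀ T D B B' A : Set ℕ, N.im S.z D → N.cr3 F c A B → N.cr H A B' → T ⊆ B → N.pm T →
      (∀ n, n ∈ T → n ∉ D) → T.Infinite →
      ∃ u k, IsUF N.E N.om u ∧ Rel N.E S.e u k ∧ N.E k V ∧ N.mu u T ∧ ¬ N.mu u D ∧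
        (N.E k VH ↔ N.mu u B') := by
    intro T D B B' A hD hR hHB hTB hT hTD hinf
    obtain ⟨u, hu, huT⟩ := N.exists_uf hT hinf
    have hcd := (S.cr_of_code hCd).1 ((hiff A B).1 hR)
    have huB : N.mu u B := Mu.mono N.zf N.std hu huT hTB hcd.2.1
    have hpA : N.pm A := by
      obtain ⟨a, ha, -⟩ := hcd.1
      exact ⟨a, ha⟩
    have huA : N.mu u A := Mu.mono N.zf N.std hu huB hcd.2.2.1 hpA
    have huX : N.E u S.X := S.mem_X hu hcd.1 huA
    obtain ⟨k, huk, hkV⟩ := (hC u).1 ((hcd.2.2.2 u huX huA).2 huB)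
    refine ⟨u, k, hu, huk, hkV, huT, fun huD => ?_, ?_⟩
    · have h1 := Mu.inter N.zf N.std hu huT huD
      have h2 : T ∩ D = ∅ := by
        ext n
        constructor
        · rintro ⟨h3, h4⟩
          exact (hTD n h3 h4).elim
        · exact fun h => h.elim
      rw [h2] at h1
      exact Mu.infinite N.zf N.std hu h1 Set.finite_empty
    · rw [hVHe u k huk]
      exact hCH1 u A B' huX hHB huA
  have pmB : ∀ {A B : Set ℕ}, N.cr3 F c A B → N.pm B := by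
    rintro A B ⟨a, b, z, ha, hb, -, -⟩
    exact ⟨b, hb⟩
  have pmH : ∀ {A B : Set ℕ}, N.cr H A B → N.pm B := by
    rintro A B ⟨a, b, ha, hb, -⟩
    exact ⟨b, hb⟩
  have pmI : ∀ {D : Set ℕ}, N.im S.z D → N.pm D := by
    rintro D ⟨a, ha, -⟩
    exact ⟨a, ha⟩
  rcases hcase with hcase | hcase
  · obtain ⟨D, hD, hcov⟩ := cover_aux S S' hz' hh hc hL hVH hWH hWHe
      (fun u k huk hk => (hC2e u k huk).1 hk) hcase hV hW hWc hVW
    obtain ⟨A, B, B', hR, hHB, hinf⟩ := (hsp' D (pmI hD) (by rw [← hz]; exact hD)).1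
    obtain ⟨u, k, hu, huk, hkV, huT, huD, hkH⟩ := key ((B ∩ B') \ D) D B B' A hD hR hHB
      (fun n hn => hn.1.1)
      (PM.diff N.zf N.std (PM.inter N.zf N.std (pmB hR) (pmH hHB)) (pmI hD))
      (fun n hn => hn.2) hinf
    refine huD (hcov u k huk (hkH.2 ?_) hkV)
    exact Mu.mono N.zf N.std hu huT (fun n hn => hn.1.2) (pmH hHB)
  · have hsub : ∀ u k, Rel N.E S'.e u k → N.E k WH' → N.E u C2' := by
      intro u k huk hk
      refine (hC2.2.2 u).2 ⟨(IsFun.mem N.zf S'.hS.2.2.2.1.1 huk).1, fun hu => ?_⟩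
      exact ((hWH.2.2 k).1 hk).2 ((hC2e u k huk).2 hu)
    have hVW2 : ∀ k l, Rel N.E h k l → (N.E k VH' ↔ N.E l WH') := by
      intro k l hkl
      have hm := IsFun.mem N.zf hh.1.1 hkl
      rw [hVH.2.2, hWH.2.2, hWHe k l hkl]
      exact ⟨fun h => ⟨((S'.hR l).1 hm.2).1, h.2⟩, fun h => ⟨((S.hR k).1 hm.1).1, h.2⟩⟩
    obtain ⟨D, hD, hcov⟩ := cover_aux S S' hz' hh hc hL (hVH.swap S.hS.1) (hWH.swap S'.hS.1) hVW2
      hsub hcase hV hW hWc hVW
    obtain ⟨A, B, B', hR, hHB, hinf⟩ := (hsp' D (pmI hD) (by rw [← hz]; exact hD)).2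
    obtain ⟨u, k, hu, huk, hkV, huT, huD, hkH⟩ := key ((B \ B') \ D) D B B' A hD hR hHB
      (fun n hn => hn.1.1)
      (PM.diff N.zf N.std (PM.diff N.zf N.std (pmB hR) (pmH hHB)) (pmI hD))
      (fun n hn => hn.2) hinf
    have hk' : ¬ N.E k VH := fun hk => by
      have h1 := Mu.inter N.zf N.std hu huT (hkH.1 hk)
      have h2 : ((B \ B') \ D) ∩ B' = ∅ := by
        ext n
        constructor
        · rintro ⟨h3, h4⟩
          exact (h3.1.2 h4).elim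
        · exact fun h => h.elim
      rw [h2] at h1
      exact Mu.infinite N.zf N.std hu h1 Set.finite_empty
    refine huD (hcov u k huk ((hVH.2.2 k).2 ⟨?_, hk'⟩) hkV)
    exact (IsFun.mem N.zf S.hS.2.2.2.1.1 huk).2

end

theorem Nc.remDiff (N : Nc) : RemDiff N.E N.om N.p N.x := by
  rintro X τ R ρ X' τ' R' ρ' hX ⟨K, σ, e, hS, hR, hρ⟩ hX' ⟨K', σ', e', hS', hR', hρ'⟩ ⟨h, hh⟩
  exact no_homeo ⟨N.p, X, τ, K, σ, e, R, N.p_pp.1, hX, hS, hR⟩
    ⟨N.x, X', τ', K', σ', e', R', N.x_uf, hX', hS', hR'⟩ rfl rfl hρ hρ' hh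

end Pool.Agent.H83.R
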