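import Pool.Agent.H83.R.M7

/-!
# Homeomorphisms of the remainders and clopen sets
-/

set_option autoImplicit false
set_option linter.unusedSectionVars false
set_option linter.unusedVariables false

open Pool.Agent.H83.F Pool.Agent.H86

namespace Pool.Agent.H83.R

section

variable {N : Nc} (S S' : SC N) {ρ ρ' h : N.M}

/-- Preimages of traces, one open set. -/
theorem pull_aux (hρ : ∀ U, N.E U ρ ↔ ∃ V, N.E V S.σ ∧ ∀ k, N.E k U ↔ (N.E k V ∧ N.E k S.R))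
    (hρ' : ∀ U, N.E U ρ' ↔ ∃ V, N.E V S'.σ ∧ ∀ k, N.E k U ↔ (N.E k V ∧ N.E k S'.R))
    (hh : IsHomeo N.E S.R ρ S'.R ρ' h) {W : N.M} (hW : N.E W S'.σ) :
    ∃ U, N.E U S.σ ∧ ∀ k l, Rel N.E h k l → (N.E k U ↔ N.E l W) := by
  obtain ⟨T, hT⟩ := exists_inter N.zf W S'.R
  have hTρ : N.E T ρ' := (hρ' T).2 ⟨W, hW, hT⟩
  obtain ⟨U, hU⟩ := sep_of N.zf ((codeStr.ex fun y => codeStr.and (fRel codeStr 1 0 y)
    (codeStr.mem y 2)) 10) (asn h [h, T]) (P := fun x => ∃ y, Rel N.E h x y ∧ N.E y T)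
    (fun x => Iff.rfl) S.R
  have hUρ : N.E U ρ := hh.1.2 T hTρ U hU
  obtain ⟨V, hV, hUV⟩ := (hρ U).1 hUρ
  refine ⟨V, hV, ?_⟩
  intro k l hkl
  have hm := IsFun.mem N.zf hh.1.1 hkl
  constructor
  · intro hk
    obtain ⟨-, y, hy, hyT⟩ := (hU k).1 ((hUV k).2 ⟨hk, hm.1⟩)
    rw [IsFun.uniq N.zf hh.1.1 hkl hy]
    exact ((hT y).1 hyT).1
  · intro hl
    exact ((hUV k).1 ((hU k).2 ⟨hm.1, l, hkl, (hT l).2 ⟨hl, hm.2⟩⟩)).1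

/-- Images of traces, one open set. -/
theorem push_aux (hρ : ∀ U, N.E U ρ ↔ ∃ V, N.E V S.σ ∧ ∀ k, N.E k U ↔ (N.E k V ∧ N.E k S.R))
    (hρ' : ∀ U, N.E U ρ' ↔ ∃ V, N.E V S'.σ ∧ ∀ k, N.E k U ↔ (N.E k V ∧ N.E k S'.R))
    (hh : IsHomeo N.E S.R ρ S'.R ρ' h) {V : N.M} (hV : N.E V S.σ) :
    ∃ W, N.E W S'.σ ∧ ∀ k l, Rel N.E h k l → (N.E k V ↔ N.E l W) := by
  obtain ⟨T, hT⟩ := exists_inter N.zf V S.R
  have hTρ : N.E T ρ := (hρ T).2 ⟨V, hV, hT⟩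
  obtain ⟨U, hU⟩ := sep_of N.zf ((codeStr.ex fun y => codeStr.and (fRel codeStr 1 y 0)
    (codeStr.mem y 2)) 10) (asn h [h, T]) (P := fun x => ∃ y, Rel N.E h y x ∧ N.E y T)
    (fun x => Iff.rfl) S'.R
  have hUρ : N.E U ρ' := hh.2.2.2 T hTρ U hU
  obtain ⟨W, hW, hUW⟩ := (hρ' U).1 hUρ
  refine ⟨W, hW, ?_⟩
  intro k l hkl
  have hm := IsFun.mem N.zf hh.1.1 hkl
  constructor
  · intro hk
    exact ((hUW l).1 ((hU l).2 ⟨hm.2, k, hkl, (hT k).2 ⟨hk, hm.1⟩⟩)).1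
  · intro hl
    obtain ⟨-, y, hy, hyT⟩ := (hU l).1 ((hUW l).2 ⟨hl, hm.2⟩)
    rw [hh.2.1 k y l hkl hy]
    exact ((hT y).1 hyT).1

/-- Preimages of traces under a homeomorphism of the remainders.

Proof. `W ∩ R'` and `W' ∩ R'` are open in `R'`, so their preimages under `h` are open in `R`
(continuity), they are `U₁ ∩ R`, `U₂ ∩ R` for `U₁, U₂ ∈ σ`; apply `exists_clopen`. Separation
(`sep_of`, `exists_inter`) provides the sets. -/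
theorem pull (hρ : ∀ U, N.E U ρ ↔ ∃ V, N.E V S.σ ∧ ∀ k, N.E k U ↔ (N.E k V ∧ N.E k S.R))
    (hρ' : ∀ U, N.E U ρ' ↔ ∃ V, N.E V S'.σ ∧ ∀ k, N.E k U ↔ (N.E k V ∧ N.E k S'.R))
    (hh : IsHomeo N.E S.R ρ S'.R ρ' h) {W W' : N.M} (hW : Clop N.E S'.K S'.σ W W') :
    ∃ V V', Clop N.E S.K S.σ V V' ∧ ∀ k l, Rel N.E h k l → (N.E k V ↔ N.E l W) := by
  obtain ⟨U₁, h₁, hU₁⟩ := pull_aux S S' hρ hρ' hh hW.1
  obtain ⟨U₂, h₂, hU₂⟩ := pull_aux S S' hρ hρ' hh hW.2.1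
  obtain ⟨V, V', hV, hVR⟩ := S.exists_clopen h₁ h₂ (by
    intro k hk
    obtain ⟨l, hl, -⟩ := hh.1.1.2 k hk
    have hlR := (IsFun.mem N.zf hh.1.1 hl).2
    rw [hU₂ k l hl, hU₁ k l hl, hW.2.2]
    exact ⟨fun h => h.2, fun h => ⟨((S'.hR l).1 hlR).1, h⟩⟩)
  refine ⟨V, V', hV, ?_⟩
  intro k l hkl
  rw [hVR k (IsFun.mem N.zf hh.1.1 hkl).1, hU₁ k l hkl]

/-- Images of traces under a homeomorphism of the remainders.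

Proof. As `pull`, with the last clause of `IsHomeo`. -/
theorem push (hρ : ∀ U, N.E U ρ ↔ ∃ V, N.E V S.σ ∧ ∀ k, N.E k U ↔ (N.E k V ∧ N.E k S.R))
    (hρ' : ∀ U, N.E U ρ' ↔ ∃ V, N.E V S'.σ ∧ ∀ k, N.E k U ↔ (N.E k V ∧ N.E k S'.R))
    (hh : IsHomeo N.E S.R ρ S'.R ρ' h) {V V' : N.M} (hV : Clop N.E S.K S.σ V V') :
    ∃ W W', Clop N.E S'.K S'.σ W W' ∧ ∀ k l, Rel N.E h k l → (N.E k V ↔ N.E l W) := by
  obtain ⟨U₁, h₁, hU₁⟩ := push_aux S S' hρ hρ' hh hV.1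
  obtain ⟨U₂, h₂, hU₂⟩ := push_aux S S' hρ hρ' hh hV.2.1
  obtain ⟨W, W', hW, hWR⟩ := S'.exists_clopen h₁ h₂ (by
    intro l hl
    obtain ⟨k, hk⟩ := hh.2.2.1 l hl
    have hkR := (IsFun.mem N.zf hh.1.1 hk).1
    rw [← hU₂ k l hk, ← hU₁ k l hk, hV.2.2]
    exact ⟨fun h => h.2, fun h => ⟨((S.hR k).1 hkR).1, h⟩⟩)
  refine ⟨W, W', hW, ?_⟩
  intro k l hkl
  rw [hWR l (IsFun.mem N.zf hh.1.1 hkl).2, hU₁ k l hkl]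

end

end Pool.Agent.H83.R
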