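import Pool.Agent.H83.R.M3a

/-!
# Clopen sets extend to the Stone-Čech compactification
-/

set_option autoImplicit false
set_option linter.unusedSectionVars false
set_option linter.unusedVariables false

open Pool.Agent.H83.F Pool.Agent.H86

namespace Pool.Agent.H83.R

namespace SC

variable {N : Nc} (S : SC N)

/-- Preimages of open sets under continuous functions. -/
theorem preim {M : Type} {E : M → M → Prop} (hE : IsZFModel E) {X τ Y ρ f V : M}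
    (hf : IsCont E X τ Y ρ f) (hV : E V ρ) :
    ∃ U, E U τ ∧ ∀ x y, Rel E f x y → (E x U ↔ E y V) := by
  obtain ⟨U, hU⟩ := sep_of hE ((codeStr.ex fun y => codeStr.and (fRel codeStr 1 0 y)
    (codeStr.mem y 2)) 10) (asn f [f, V]) (P := fun x => ∃ y, Rel E f x y ∧ E y V)
    (fun x => Iff.rfl) X
  refine ⟨U, hf.2 V hV U hU, ?_⟩
  intro x y hxy
  have hm := IsFun.mem hE hf.1 hxy
  rw [hU]
  constructor
  · rintro ⟨-, y', hy', hyV⟩
    rwa [IsFun.uniq hE hf.1 hxy hy']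
  · exact fun h => ⟨hm.1, y, hxy, h⟩

/-- Clopen subsets of `X` are traces of clopen subsets of `K`.

Proof. Let `ρ` be the discrete topology on `nat 2` (`exists_two`) and `f` (by `exists_rel`) the
function from `X` to `nat 2` consisting of the pairs `(u, nat 1)`, `u ∈ C`, and `(u, nat 0)`,
`u ∈ X ∖ C`. It is continuous: the preimage `U` of `V ⊆ nat 2` is one of `∅`, `C`, `C'`, `X` (by
extensionality; case distinction on `nat 0 ∈ V`, `nat 1 ∈ V`). By `S.hS` it extends to a continuous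
function `g` from `K` to `nat 2`. Let `V`, `V'` be the preimages of `{nat 1}`, `{nat 0}` (by
`sep_of`); they are open by continuity and complementary. -/
theorem clopen_ext {C C' : N.M} (h : Clop N.E S.X S.τ C C') :
    ∃ V V', Clop N.E S.K S.σ V V' ∧ ∀ u k, Rel N.E S.e u k → (N.E k V ↔ N.E u C) := by
  obtain ⟨ρ, hρ1, hρ2, hρ3, hρ⟩ := exists_two N.zf N.std
  have n2 : ∀ x, N.E x (N.nat 2) ↔ (x = N.nat 0 ∨ x = N.nat 1) := by
    intro x
    rw [N.E_nat]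
    constructor
    · rintro ⟨m, hm, rfl⟩
      interval_cases m
      · exact Or.inl rfl
      · exact Or.inr rfl
    · rintro (rfl | rfl)
      · exact ⟨0, by omega, rfl⟩
      · exact ⟨1, by omega, rfl⟩
  have n01 : N.nat 0 ≠ N.nat 1 := fun hc => by
    have := N.std.nat_inj N.zf hc
    omega
  obtain ⟨f, hf1, hf2⟩ := exists_rel N.zf (pairCode (fun x y =>
      codeStr.or (codeStr.and (codeStr.mem x 1) (codeStr.eq y 3))
        (codeStr.and (codeStr.imp (codeStr.mem x 1) codeStr.bot) (codeStr.eq y 2))) 10)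
    (asn C [C, N.nat 0, N.nat 1])
    (P := fun x y => (N.E x C ∧ y = N.nat 1) ∨ (¬ N.E x C ∧ y = N.nat 0))
    (fun z => Iff.rfl) S.X (N.nat 2)
  have hfun : IsFun N.E f S.X (N.nat 2) := by
    refine isFun_of N.zf (fun z hz => ?_) ?_ ?_
    · obtain ⟨x, y, h1, h2, h3, -⟩ := hf1 z hz
      exact ⟨x, y, h1, h2, h3⟩
    · intro x hx
      by_cases hxC : N.E x C
      · exact ⟨N.nat 1, (hf2 _ _).2 ⟨hx, (n2 _).2 (Or.inr rfl), Or.inl ⟨hxC, rfl⟩⟩⟩
      · exact ⟨N.nat 0, (hf2 _ _).2 ⟨hx, (n2 _).2 (Or.inl rfl), Or.inr ⟨hxC, rfl⟩⟩⟩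
    · intro x y y' h1 h2
      rcases ((hf2 _ _).1 h1).2.2 with ⟨a1, a2⟩ | ⟨a1, a2⟩ <;>
        rcases ((hf2 _ _).1 h2).2.2 with ⟨b1, b2⟩ | ⟨b1, b2⟩
      · rw [a2, b2]
      · exact absurd a1 b1
      · exact absurd b1 a1
      · rw [a2, b2]
  have hCX : ∀ u, N.E u C → N.E u S.X := fun u hu => ((S.hX.2 C).1 h.1).1 u hu
  have hcont : IsCont N.E S.X S.τ (N.nat 2) ρ f := by
    refine ⟨hfun, ?_⟩
    intro V hV U hU
    have hU' : ∀ x, N.E x U ↔ (N.E x S.X ∧ ((N.E x C ∧ N.E (N.nat 1) V) ∨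
        (¬ N.E x C ∧ N.E (N.nat 0) V))) := by
      intro x
      rw [hU]
      constructor
      · rintro ⟨hx, y, hy, hyV⟩
        rcases ((hf2 _ _).1 hy).2.2 with ⟨a1, a2⟩ | ⟨a1, a2⟩
        · exact ⟨hx, Or.inl ⟨a1, a2 ▸ hyV⟩⟩
        · exact ⟨hx, Or.inr ⟨a1, a2 ▸ hyV⟩⟩
      · rintro ⟨hx, ⟨a1, a2⟩ | ⟨a1, a2⟩⟩
        · exact ⟨hx, _, (hf2 _ _).2 ⟨hx, (n2 _).2 (Or.inr rfl), Or.inl ⟨a1, rfl⟩⟩, a2⟩
        · exact ⟨hx, _, (hf2 _ _).2 ⟨hx, (n2 _).2 (Or.inl rfl), Or.inr ⟨a1, rfl⟩⟩, a2⟩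
    rw [S.hX.2]
    refine ⟨fun x hx => ((hU' x).1 hx).1, ?_⟩
    intro u hu
    obtain ⟨huX, ⟨a1, a2⟩ | ⟨a1, a2⟩⟩ := (hU' u).1 hu
    · obtain ⟨A, hA, hA'⟩ := ((S.hX.2 C).1 h.1).2 u a1
      exact ⟨A, hA, fun v hv hAv => (hU' v).2 ⟨hv, Or.inl ⟨hA' v hv hAv, a2⟩⟩⟩
    · obtain ⟨A, hA, hA'⟩ := ((S.hX.2 C').1 h.2.1).2 u ((h.2.2 u).2 ⟨huX, a1⟩)
      exact ⟨A, hA, fun v hv hAv => (hU' v).2 ⟨hv, Or.inr ⟨((h.2.2 v).1 (hA' v hv hAv)).2, a2⟩⟩⟩
  obtain ⟨g, hg, hgf⟩ := S.hS.2.2.2.2.2.2.2 (N.nat 2) ρ f hρ1 hρ2 hρ3 hcont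
  obtain ⟨A, hA⟩ := N.zf.pair (N.nat 1) (N.nat 1)
  obtain ⟨B, hB⟩ := N.zf.pair (N.nat 0) (N.nat 0)
  have hAρ : N.E A ρ := (hρ A).2 fun x hx => (n2 x).2 (by
    rcases (hA x).1 hx with h | h
    · exact Or.inr h
    · exact Or.inr h)
  have hBρ : N.E B ρ := (hρ B).2 fun x hx => (n2 x).2 (by
    rcases (hB x).1 hx with h | h
    · exact Or.inl h
    · exact Or.inl h)
  obtain ⟨V, hV, hVA⟩ := preim N.zf hg hAρ
  obtain ⟨V', hV', hVB⟩ := preim N.zf hg hBρ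
  have hVK : ∀ k, N.E k V' → N.E k S.K := fun k hk => S.hS.1.1 V' hV' k hk
  refine ⟨V, V', ⟨hV, hV', ?_⟩, ?_⟩
  · have key : ∀ k, N.E k S.K → (N.E k V' ↔ ¬ N.E k V) := by
      intro k hk
      obtain ⟨y, hy, -⟩ := hg.1.2 k hk
      rw [hVA k y hy, hVB k y hy, hA, hB]
      have h2 := (n2 y).1 (IsFun.mem N.zf hg.1 hy).2
      constructor
      · rintro (h | h) (h' | h')
        · exact n01 (h.symm.trans h')
        · exact n01 (h.symm.trans h')
        · exact n01 (h.symm.trans h')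
        · exact n01 (h.symm.trans h')
      · intro h
        rcases h2 with h2 | h2
        · exact Or.inl h2
        · exact absurd (Or.inl h2) h
    intro k
    constructor
    · exact fun hk => ⟨hVK k hk, (key k (hVK k hk)).1 hk⟩
    · exact fun hk => (key k hk.1).2 hk.2
  · intro u k huk
    have huX := (IsFun.mem N.zf S.hS.2.2.2.1.1 huk).1
    obtain ⟨y, hy, -⟩ := hfun.2 u huX
    have hgy := hgf u k y huk hy
    rw [hVA k y hgy, hA]
    rcases ((hf2 _ _).1 hy).2.2 with ⟨a1, a2⟩ | ⟨a1, a2⟩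
    · exact ⟨fun _ => a1, fun _ => Or.inl a2⟩
    · constructor
      · rintro (h | h)
        · exact absurd (a2.symm.trans h) n01
        · exact absurd (a2.symm.trans h) n01
      · exact fun h => absurd h a1

/-- Traces of clopen subsets of `K` are clopen subsets of `X`.

Proof. Continuity of `e` (in `S.hS`), preimages by `sep_of`. -/
theorem clopen_res {V V' : N.M} (h : Clop N.E S.K S.σ V V') :
    ∃ C C', Clop N.E S.X S.τ C C' ∧ ∀ u k, Rel N.E S.e u k → (N.E k V ↔ N.E u C) := by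
  have he := S.hS.2.2.2.1
  obtain ⟨C, hC, hCV⟩ := preim N.zf he h.1
  obtain ⟨C', hC', hCV'⟩ := preim N.zf he h.2.1
  refine ⟨C, C', ⟨hC, hC', ?_⟩, fun u k huk => (hCV u k huk).symm⟩
  have hX : ∀ u, N.E u C' → N.E u S.X := by
    intro u hu
    exact ((S.hX.2 C').1 hC').1 u hu
  intro u
  constructor
  · intro hu
    have huX := hX u hu
    obtain ⟨k, hk, -⟩ := he.1.2 u huX
    refine ⟨huX, ?_⟩
    rw [hCV u k hk]
    exact ((h.2.2 k).1 ((hCV' u k hk).1 hu)).2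
  · rintro ⟨huX, hu⟩
    obtain ⟨k, hk, -⟩ := he.1.2 u huX
    rw [hCV u k hk] at hu
    rw [hCV' u k hk, h.2.2 k]
    exact ⟨(IsFun.mem N.zf he.1 hk).2, hu⟩

end SC

end Pool.Agent.H83.R
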