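import Pool.Agent.H83.R.M8

/-!
# Clopen sets of codes
-/

set_option autoImplicit false
set_option linter.unusedSectionVars false
set_option linter.unusedVariables false

open Pool.Agent.H83.F Pool.Agent.H86

namespace Pool.Agent.H83.R

namespace SC

variable {N : Nc} (S : SC N)

/-- Every code is realised by a clopen set.

Proof. `C` (by `sep_of`) is the set of all `u ∈ X` such that there are `a, b ⊆ om` with
`(a, b) ∈ c`, `a ∈ u`, `b ∈ u`. The second clause: if `u ∈ X`, `(A, B)` is in the relation and `A ∈ u`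
and `u ∈ C` because of `(A', B')`, then `B' ∩ A ∈ u` and `(B' ∩ A) \ B` is finite (`Code.coh`), so
`B ∈ u` (`Mu.almost`). `C` is open: if `u ∈ C` because of `(a, b)` then all `v ∈ X` with `a ∩ b ∈ v`
are in `C` (`S.hX`). The complement is open: let `u ∈ X ∖ C`; by `exists_im` there is `A ∈ u` in the
ideal and by `Code.tot` there is `B` with `(A, B)` in the relation; `B ∉ u`; then all `v ∈ X` with
`A \ B ∈ v` are not in `C` by the second clause. -/
theorem clopen_of_code {c : N.M} (h : Code N.pm (N.im S.z) (N.cr c)) :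
    ∃ C C', Clop N.E S.X S.τ C C' ∧
      (∀ u A B, N.E u S.X → N.cr c A B → N.mu u A → (N.E u C ↔ N.mu u B)) ∧
      ∀ u, N.E u C ↔ (N.E u S.X ∧ ∃ a b, Rel N.E c a b ∧ Sub N.E a N.om ∧ Sub N.E b N.om ∧
        N.E a u ∧ N.E b u) := by
  obtain ⟨C, hC⟩ := sep_of N.zf ((codeStr.ex fun a => codeStr.ex fun b =>
      codeStr.and (fRel codeStr 1 a b) (codeStr.and
        (codeStr.all fun z => codeStr.imp (codeStr.mem z a) (codeStr.mem z 2)) (codeStr.and
        (codeStr.all fun z => codeStr.imp (codeStr.mem z b) (codeStr.mem z 2)) (codeStr.and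
        (codeStr.mem a 0) (codeStr.mem b 0))))) 10) (asn c [c, N.om])
    (P := fun u => ∃ a b, Rel N.E c a b ∧ Sub N.E a N.om ∧ Sub N.E b N.om ∧
        N.E a u ∧ N.E b u) (fun u => Iff.rfl) S.X
  obtain ⟨C', hC'⟩ := exists_diff N.zf S.X C
  have hUF : ∀ u, N.E u S.X → IsUF N.E N.om u := fun u hu => ((S.hX.1 u).1 hu).1
  have hcrm : ∀ a b, Rel N.E c a b → Sub N.E a N.om → Sub N.E b N.om →
      N.cr c {n | N.E (N.nat n) a} {n | N.E (N.nat n) b} := fun a b h1 h2 h3 =>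
    ⟨a, b, Rl.of_sub N.zf N.std h2, Rl.of_sub N.zf N.std h3, h1⟩
  have key : ∀ u A B, N.E u S.X → N.cr c A B → N.mu u A → (N.E u C ↔ N.mu u B) := by
    intro u A B hu hcr hA
    have huf := hUF u hu
    have hcr' := hcr
    obtain ⟨a, b, ha, hb, hab⟩ := hcr'
    constructor
    · intro huC
      obtain ⟨-, a', b', h1, h2, h3, h4, h5⟩ := (hC u).1 huC
      have hco := (h.coh _ _ _ _ hcr (hcrm a' b' h1 h2 h3)).2
      have hB' : N.mu u {n | N.E (N.nat n) b'} :=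
        ⟨b', Rl.of_sub N.zf N.std h3, h5⟩
      exact Mu.almost N.zf N.std huf (Mu.inter N.zf N.std huf hB' hA) hco ⟨b, hb⟩
    · intro hB
      exact (hC u).2 ⟨hu, a, b, hab, ha.1, hb.1, (Mu.iff N.zf N.std ha).1 hA,
        (Mu.iff N.zf N.std hb).1 hB⟩
  refine ⟨C, C', ⟨?_, ?_, hC'⟩, key, hC⟩
  · rw [S.hX.2 C]
    refine ⟨fun u hu => ((hC u).1 hu).1, ?_⟩
    intro u hu
    obtain ⟨huX, a, b, h1, h2, h3, h4, h5⟩ := (hC u).1 hu
    have ra := Rl.of_sub N.zf N.std h2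
    have rb := Rl.of_sub N.zf N.std h3
    obtain ⟨w, hw, hwu⟩ := Mu.inter N.zf N.std (hUF u huX) ⟨a, ra, h4⟩ ⟨b, rb, h5⟩
    refine ⟨w, hwu, fun v hv hwv => ?_⟩
    have hvm : N.mu v _ := ⟨w, hw, hwv⟩
    have hva := Mu.mono N.zf N.std (hUF v hv) hvm Set.inter_subset_left ⟨a, ra⟩
    have hvb := Mu.mono N.zf N.std (hUF v hv) hvm Set.inter_subset_right ⟨b, rb⟩
    exact (hC v).2 ⟨hv, a, b, h1, h2, h3, (Mu.iff N.zf N.std ra).1 hva,
      (Mu.iff N.zf N.std rb).1 hvb⟩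
  · rw [S.hX.2 C']
    refine ⟨fun u hu => ((hC' u).1 hu).1, ?_⟩
    intro u hu
    obtain ⟨huX, huC⟩ := (hC' u).1 hu
    obtain ⟨A, hA, hAu⟩ := S.exists_im huX
    have hpA : N.pm A := by
      obtain ⟨a, ha, -⟩ := hA
      exact ⟨a, ha⟩
    obtain ⟨B, hB⟩ := h.tot A hpA hA
    have hpB : N.pm B := by
      obtain ⟨a, b, -, hb, -⟩ := hB
      exact ⟨b, hb⟩
    have hBu : ¬ N.mu u B := fun h1 => huC ((key u A B huX hB hAu).2 h1)
    have hBc := (Mu.compl N.zf N.std (hUF u huX) hpB).2 hBu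
    obtain ⟨w, hw, hwu⟩ := Mu.inter N.zf N.std (hUF u huX) hAu hBc
    refine ⟨w, hwu, fun v hv hwv => ?_⟩
    have hvm : N.mu v _ := ⟨w, hw, hwv⟩
    have hvA := Mu.mono N.zf N.std (hUF v hv) hvm Set.inter_subset_left hpA
    have hvB := Mu.mono N.zf N.std (hUF v hv) hvm Set.inter_subset_right
      (PM.compl N.zf N.std hpB)
    have hvB' := (Mu.compl N.zf N.std (hUF v hv) hpB).1 hvB
    exact (hC' v).2 ⟨hv, fun h1 => hvB' ((key v A B hv hB hvA).1 h1)⟩

end SC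

end Pool.Agent.H83.R
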