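import Pool.Agent.H83.R.M8b

/-!
# The special point of the remainder of `ω* ∖ {x}`
-/

set_option autoImplicit false
set_option linter.unusedSectionVars false
set_option linter.unusedVariables false

universe v w

open Pool.Agent.H83.F Pool.Agent.H86

namespace Pool.Agent.H83.R

/-- formula for the code with a set removed: `∃ b, (a, b) ∈ d` and `b' = b ∖ k` -/
def fRm {N : Type v} {Ω : Type w} (L : LogicStr N Ω) (d k a b' : N) : Ω :=
  L.ex fun b => L.and (fRel L d a b)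
    (L.all fun n => L.iff (L.mem n b') (L.and (L.mem n b) (L.imp (L.mem n k) L.bot)))

/-- formula: `(a, b) ∈ d` where `a` is the `n`-th column -/
def fCl {N : Type v} {Ω : Type w} (L : LogicStr N Ω) (d fs om n b : N) : Ω :=
  L.ex fun a => L.and (L.all fun m => L.iff (L.mem m a) (L.and (L.mem m om) (fRel L fs m n)))
    (fRel L d a b)

/-- formula: `m` belongs to the value of `g` at its column -/
def fSelc {N : Type v} {Ω : Type w} (L : LogicStr N Ω) (g fs om m : N) : Ω :=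
  L.ex fun n => L.and (L.mem n om) (L.and (fRel L fs m n)
    (L.ex fun b => L.and (fRel L g n b) (L.mem m b)))

namespace Nc

variable (N : Nc)

/-- The complement of a member of the dominating family is not compact.

Proof. There is `n` such that `col n \ L` is infinite: otherwise `Lᶜ` has finite columns, so
`Lᶜ ∉ x` (`N.x_fc`), so `L ∈ x`, a contradiction. Let `u` be a non-principal ultrafilter containing
`col n \ L` (`exists_uf`, `pm_col`). `u ≠ x` by `N.x_col`. If `(A, B)` is in the relation of `c` then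
`B ∩ col n` is finite (`N.b_code`), so `B ∉ u`. -/
theorem compl_ncpt {c : N.M} (hc : N.E c N.Bs) {L : Set ℕ} (hL : N.im N.x L) :
    ∃ u, IsUF N.E N.om u ∧ u ≠ N.x ∧ ¬ N.mu u L ∧
      ∀ A B, N.cr c A B → N.mu u A → ¬ N.mu u B := by
  have hxu := N.x_uf
  have hL' := (IM.iff N.zf N.std hxu).1 hL
  obtain ⟨n, hn⟩ : ∃ n, (col n \ L).Infinite := by
    by_contra hcon
    push Not at hcon
    have hfc : FC Lᶜ := by
      intro n
      have h1 : (col n \ L).Finite := hcon n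
      refine h1.subset ?_
      rintro x ⟨hx1, hx2⟩
      exact ⟨hx2, hx1⟩
    obtain ⟨a, ha⟩ := PM.compl N.zf N.std hL'.1
    have h1 := N.x_fc a _ ha hfc
    rw [← Mu.iff N.zf N.std ha, Mu.compl N.zf N.std hxu hL'.1, not_not] at h1
    exact hL'.2 h1
  obtain ⟨u, hu, hmu⟩ := N.exists_uf (PM.diff N.zf N.std (N.pm_col n) hL'.1) hn
  have hcol : N.mu u (col n) := Mu.mono N.zf N.std hu hmu Set.sdiff_subset (N.pm_col n)
  refine ⟨u, hu, ?_, ?_, ?_⟩
  · rintro rfl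
    exact ((IM.iff N.zf N.std hxu).1 (N.im_col n)).2 hcol
  · intro h1
    have h2 := Mu.infinite N.zf N.std hu (Mu.inter N.zf N.std hu hmu h1)
    apply h2
    refine Set.Finite.subset Set.finite_empty ?_
    rintro x ⟨⟨-, hx1⟩, hx2⟩
    exact hx1 hx2
  · intro A B hAB _ hB
    have h1 := Mu.infinite N.zf N.std hu (Mu.inter N.zf N.std hu hB hcol)
    exact h1 ((N.b_code c hc).2 A B hAB n)

end Nc

namespace SC

variable {N : Nc} (S : SC N)

/-- The code with a set removed. -/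
theorem exists_rm (hz : S.z = N.x) {C d : N.M} (hd : IsCodeOf N.E N.om S.z S.X C d)
    {K : Set ℕ} (hK : N.pm K) :
    ∃ d₁, ∀ A B', N.cr d₁ A B' ↔ ∃ B, N.cr d A B ∧ B' = B \ K := by
  obtain ⟨k, hk⟩ := hK
  obtain ⟨Pw, hPw⟩ := N.zf.power N.om
  obtain ⟨d₁, -, h1⟩ := exists_rel N.zf (pairCode (fun x y => fRm codeStr 1 2 x y) 10)
    (asn d [d, k]) (P := fun a b' => ∃ b, Rel N.E d a b ∧
      ∀ n, (N.E n b' ↔ (N.E n b ∧ (N.E n k → False)))) (fun z => Iff.rfl) Pw Pw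
  refine ⟨d₁, fun A B' => ⟨?_, ?_⟩⟩
  · rintro ⟨a, b', ha, hb', hab⟩
    obtain ⟨-, -, b, hb, hbb⟩ := (h1 a b').1 hab
    have h2 := (hd.2 a b).1 hb
    have hbo : Sub N.E b N.om := fun z hz => h2.1 z (h2.2.2.1 z hz)
    refine ⟨{n | N.E (N.nat n) b}, ⟨a, b, ha, ⟨hbo, rfl⟩, hb⟩, ?_⟩
    rw [← hb'.2, ← hk.2]
    ext n
    show N.E (N.nat n) b' ↔ _
    rw [hbb]
    rfl
  · rintro ⟨B, ⟨a, b, ha, hb, hab⟩, rfl⟩
    obtain ⟨b', hb'⟩ := PM.diff N.zf N.std ⟨b, hb⟩ ⟨k, hk⟩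
    refine ⟨a, b', ha, hb', (h1 a b').2 ⟨(hPw a).2 ha.1, (hPw b').2 hb'.1, b, hab, ?_⟩⟩
    intro n
    constructor
    · intro hn
      obtain ⟨m, rfl⟩ := (N.E_om n).1 (hb'.1 n hn)
      have h2 := (Rl.mem N.zf N.std hb').1 hn
      exact ⟨(Rl.mem N.zf N.std hb).2 h2.1, fun h3 => h2.2 ((Rl.mem N.zf N.std hk).1 h3)⟩
    · rintro ⟨hn, hn'⟩
      obtain ⟨m, rfl⟩ := (N.E_om n).1 (hb.1 n hn)
      exact (Rl.mem N.zf N.std hb').2 ⟨(Rl.mem N.zf N.std hb).1 hn,
        fun h3 => hn' ((Rl.mem N.zf N.std hk).2 h3)⟩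

/-- Covering by a member of the dominating family. -/
theorem exists_Bs_of (hz : S.z = N.x) {C C' d : N.M} (h : Clop N.E S.X S.τ C C')
    (hd : IsCodeOf N.E N.om S.z S.X C d) {K : Set ℕ} (hK : N.pm K)
    (hfc : ∀ A B, N.cr d A B → FC (B \ K)) :
    ∃ c, N.E c N.Bs ∧ ∀ u A B, N.E u C → ¬ N.mu u K → N.cr c A B → N.mu u A → N.mu u B := by
  have hcode := S.code_of_clopen h hd
  rw [hz] at hcode
  obtain ⟨d₁, h1⟩ := S.exists_rm hz hd hK
  have hcode₁ : Code N.pm (N.im N.x) (N.cr d₁) := by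
    refine ⟨?_, ?_, ?_⟩
    · intro A B' hAB
      obtain ⟨B, hB, rfl⟩ := (h1 A B').1 hAB
      have h2 := hcode.dom A B hB
      exact ⟨h2.1, Set.sdiff_subset.trans h2.2⟩
    · intro A B A' B' hAB hAB'
      obtain ⟨D, hD, rfl⟩ := (h1 A B).1 hAB
      obtain ⟨D', hD', rfl⟩ := (h1 A' B').1 hAB'
      have h2 := hcode.coh A D A' D' hD hD'
      refine ⟨h2.1.subset ?_, h2.2.subset ?_⟩
      · rintro x ⟨⟨⟨hx1, hx2⟩, hx3⟩, hx4⟩
        exact ⟨⟨hx1, hx3⟩, fun hx5 => hx4 ⟨hx5, hx2⟩⟩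
      · rintro x ⟨⟨⟨hx1, hx2⟩, hx3⟩, hx4⟩
        exact ⟨⟨hx1, hx3⟩, fun hx5 => hx4 ⟨hx5, hx2⟩⟩
    · intro A hA hA'
      obtain ⟨B, hB⟩ := hcode.tot A hA hA'
      exact ⟨B \ K, (h1 A _).2 ⟨B, hB, rfl⟩⟩
  obtain ⟨c, hc, hcov⟩ := N.b_cof d₁ hcode₁ (by
    intro A B' hAB
    obtain ⟨B, hB, rfl⟩ := (h1 A B').1 hAB
    exact hfc A B hB)
  refine ⟨c, hc, fun u A B' hu hK' hAB' hA => ?_⟩
  have hXC : Sub N.E C S.X := ((S.hX.2 C).1 h.1).1
  have huX := hXC u hu
  have huf : IsUF N.E N.om u := ((S.hX.1 u).1 huX).1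
  have hAi := ((N.b_code c hc).1.dom A B' hAB').1
  have hAp : N.pm A := by
    obtain ⟨a, b, ha, -, -⟩ := hAB'
    exact ⟨a, ha⟩
  have hBp' : N.pm B' := by
    obtain ⟨a, b, -, hb, -⟩ := hAB'
    exact ⟨b, hb⟩
  obtain ⟨B, hB⟩ := hcode.tot A hAp hAi
  have h3 := (S.cr_of_code hd).1 hB
  have hBu : N.mu u B := (h3.2.2.2 u huX hA).1 hu
  have hKu : N.mu u Kᶜ := (Mu.compl N.zf N.std huf hK).2 hK'
  have h4 := Mu.inter N.zf N.std huf hBu hKu
  rw [← Set.sdiff_eq] at h4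
  exact Mu.almost N.zf N.std huf h4 (hcov A (B \ K) B' ((h1 A _).2 ⟨B, hB, rfl⟩) hAB') hBp'

/-- A set containing the values at the columns. -/
theorem exists_selc (hz : S.z = N.x) {C C' d : N.M} (h : Clop N.E S.X S.τ C C')
    (hd : IsCodeOf N.E N.om S.z S.X C d) :
    ∃ L, N.pm L ∧ ∀ n, N.cr d (col n) (L ∩ col n) := by
  have hcode := S.code_of_clopen h hd
  rw [hz] at hcode
  obtain ⟨Pw, hPw⟩ := N.zf.power N.om
  have hcolm : ∀ {n : ℕ} {a : N.M}, Sub N.E a N.om → ((∀ m, N.E m a ↔ (N.E m N.om ∧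
      Rel N.E N.fs m (N.nat n))) ↔ N.rl a (col n)) := by
    intro n a ha
    constructor
    · intro h1
      refine ⟨ha, ?_⟩
      ext m
      show N.E (N.nat m) a ↔ _
      rw [h1, N.fs_rel]
      exact ⟨fun h2 => h2.2, fun h2 => ⟨StdOm.nat_om N.zf N.std m, h2⟩⟩
    · intro h1 m
      constructor
      · intro hm
        have h2 := h1.1 m hm
        obtain ⟨k, rfl⟩ := (N.E_om m).1 h2
        exact ⟨h2, (N.fs_rel k n).2 ((Rl.mem N.zf N.std h1).1 hm)⟩
      · rintro ⟨hm, hm'⟩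
        obtain ⟨k, rfl⟩ := (N.E_om m).1 hm
        exact (Rl.mem N.zf N.std h1).2 ((N.fs_rel k n).1 hm')
  obtain ⟨g, hg1, hg2⟩ := choice_of N.zfc (pairCode (fun x y => fCl codeStr 1 2 3 x y) 10)
    (asn d [d, N.fs, N.om]) (P := fun n b => ∃ a, (∀ m, N.E m a ↔ (N.E m N.om ∧
      Rel N.E N.fs m n)) ∧ Rel N.E d a b) (fun z => Iff.rfl) N.om Pw (by
      intro x hx
      obtain ⟨n, rfl⟩ := (N.E_om x).1 hx
      obtain ⟨B, a, b, ha, hb, hab⟩ := hcode.tot (col n) (N.pm_col n) (N.im_col n)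
      exact ⟨b, (hPw b).2 hb.1, a, (hcolm ha.1).2 ha, hab⟩)
  have hpm := PM.of_code N.zf N.std (fSelc codeStr 1 2 3 0 10) (asn g [g, N.fs, N.om])
    (P := fun m => ∃ n, N.E n N.om ∧ Rel N.E N.fs m n ∧ ∃ b, Rel N.E g n b ∧ N.E m b)
    (fun x => Iff.rfl)
  refine ⟨_, hpm, fun n => ?_⟩
  obtain ⟨b, hb, -⟩ := hg1.2 (N.nat n) (StdOm.nat_om N.zf N.std n)
  obtain ⟨a, ha, hab⟩ := hg2 _ _ hb
  have hao : Sub N.E a N.om := fun m hm => ((ha m).1 hm).1
  have hbo : Sub N.E b N.om := (hPw b).1 (IsFun.mem N.zf hg1 hb).2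
  have harl := (hcolm hao).1 ha
  have hbrl : N.rl b {k | N.E (N.nat k) b} := ⟨hbo, rfl⟩
  have hcr : N.cr d (col n) {k | N.E (N.nat k) b} := ⟨a, b, harl, hbrl, hab⟩
  have hsub := (hcode.dom _ _ hcr).2
  have heq : ({m | ∃ k, N.E k N.om ∧ Rel N.E N.fs (N.nat m) k ∧ ∃ b, Rel N.E g k b ∧
      N.E (N.nat m) b} ∩ col n : Set ℕ) = {k | N.E (N.nat k) b} := by
    ext k
    constructor
    · rintro ⟨⟨m, hm, hkm, b', hb', hkb⟩, hk⟩
      obtain ⟨m, rfl⟩ := (N.E_om m).1 hm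
      have h5 : (Nat.unpair k).1 = m := (N.fs_rel k m).1 hkm
      have h6 : (Nat.unpair k).1 = n := hk
      have h7 : m = n := h5.symm.trans h6
      subst h7
      have h8 : b' = b := IsFun.uniq N.zf hg1 hb' hb
      rw [h8] at hkb
      exact hkb
    · intro hk
      have hk' := hsub hk
      exact ⟨⟨N.nat n, StdOm.nat_om N.zf N.std n, (N.fs_rel k n).2 hk', b, hb, hk⟩, hk'⟩
  rw [heq]
  exact hcr

/-- Up to a compact set, every clopen set or its complement is covered by a member of the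
dominating family.

Proof. Let `d` be the code of `C` (`exists_code`, `code_of_clopen`) and `R = N.cr d`. By choice
(`choice_of` in `F/Int.lean`: choose for `n ∈ om` a `b` with `(a, b) ∈ d` and `a` = the `n`-th column;
`N.im_col`: the columns are in the ideal of `x`) and separation there is `L ∈ N.pm` such that
`L ∩ col n = B n` for all `n`, where `R (col n) (B n)`.
Case 1: `L ∉ x`. Let `R₁ A B'` say that there is `B` with `R A B` and `B' = B \ L`; this is the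
relation `N.cr d₁` of some `d₁ ∈ M` (`exists_rel`: the pairs `(a, b')` such that there is `b` with
`(a, b) ∈ d` and `∀ n ∈ om, n ∈ b' ↔ n ∈ b ∧ n ∉ l`). It is a code (coherence and totality follow
from those of `R`), and its values have finite columns: if `R A B` then
`(B \ L) ∩ col n ⊆ (B ∩ col n) \ B n` is finite by coherence of `(A, B)` and `(col n, B n)`.
By `N.b_cof` there is `c ∈ Bs` with `(B \ L) \ B'` finite whenever `R A B` and `cr c A B'`. Now let
`u ∈ C`, `L ∉ u`, `cr c A B'`, `A ∈ u`. Take `B` with `R A B`; then `B ∈ u` as `u ∈ C` (`cr_of_code`),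
so `B \ L ∈ u` and `B' ∈ u` (`Mu.almost`).
Case 2: `L ∈ x`, i.e. `Lᶜ` is in the ideal. The same with the code of `C'` (equivalently the pairs
`(A, A \ B)`): for `R A B` the set `(A \ B) ∩ L ∩ col n = (A ∩ B n) \ B` is finite by coherence, so
the values `(A \ B) \ Lᶜ` have finite columns. -/
theorem exists_Bs (hz : S.z = N.x) {C C' : N.M} (h : Clop N.E S.X S.τ C C') :
    ∃ c, N.E c N.Bs ∧ ∃ L, N.im N.x L ∧
      ((∀ u A B, N.E u C → ¬ N.mu u L → N.cr c A B → N.mu u A → N.mu u B) ∨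
       (∀ u A B, N.E u C' → ¬ N.mu u L → N.cr c A B → N.mu u A → N.mu u B)) := by
  have hxu := N.x_uf
  obtain ⟨d, hd⟩ := S.exists_code C
  have hcode := S.code_of_clopen h hd
  obtain ⟨L, hL, hLc⟩ := S.exists_selc hz h hd
  by_cases hLx : N.mu N.x L
  · -- `Lᶜ` is in the ideal
    have h1 : N.im N.x Lᶜ := by
      refine (IM.iff N.zf N.std hxu).2 ?_
      refine ⟨PM.compl N.zf N.std hL, ?_⟩
      rw [Mu.compl N.zf N.std hxu hL, not_not]
      exact hLx
    have h' : Clop N.E S.X S.τ C' C := by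
      refine ⟨h.2.1, h.1, fun k => ?_⟩
      have hXC : Sub N.E C S.X := ((S.hX.2 C).1 h.1).1
      constructor
      · intro hk
        exact ⟨hXC k hk, fun hk' => ((h.2.2 k).1 hk').2 hk⟩
      · rintro ⟨hk, hk'⟩
        by_contra hk''
        exact hk' ((h.2.2 k).2 ⟨hk, hk''⟩)
    obtain ⟨d', hd'⟩ := S.exists_code C'
    obtain ⟨c, hc, h2⟩ := S.exists_Bs_of hz h' hd' (PM.compl N.zf N.std hL) (by
      intro A B hAB n
      have hAB' := (S.cr_of_code hd').1 hAB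
      have hcn := (S.cr_of_code hd).1 (hLc n)
      have hfin : ((B ∩ (L ∩ col n)) \ ∅).Finite := by
        have hpm : N.pm (B ∩ (L ∩ col n)) := PM.inter N.zf N.std hAB'.2.1 hcn.2.1
        have him : N.im S.z (B ∩ (L ∩ col n)) := by
          refine (IM.iff N.zf N.std S.uf).2 ?_
          refine ⟨hpm, fun hmu => ?_⟩
          have hAi := (IM.iff N.zf N.std S.uf).1 hAB'.1
          exact hAi.2 (Mu.mono N.zf N.std S.uf hmu
            (Set.inter_subset_left.trans hAB'.2.2.1) hAi.1)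
        rw [← S.bas_sub him (PM.finite N.zf N.std Set.finite_empty)]
        intro u hu hmu
        have huf : IsUF N.E N.om u := ((S.hX.1 u).1 hu).1
        exfalso
        have hA := ((IM.iff N.zf N.std S.uf).1 hAB'.1).1
        have hB : N.mu u B := Mu.mono N.zf N.std huf hmu Set.inter_subset_left hAB'.2.1
        have hAu : N.mu u A := Mu.mono N.zf N.std huf hB hAB'.2.2.1 hA
        have hLn : N.mu u (L ∩ col n) :=
          Mu.mono N.zf N.std huf hmu Set.inter_subset_right hcn.2.1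
        have hcu : N.mu u (col n) :=
          Mu.mono N.zf N.std huf hLn Set.inter_subset_right (N.pm_col n)
        have h3 := (hAB'.2.2.2 u hu hAu).2 hB
        have h4 := (hcn.2.2.2 u hu hcu).2 hLn
        exact ((h.2.2 u).1 h3).2 h4
      refine hfin.subset ?_
      rintro x ⟨⟨hx1, hx2⟩, hx3⟩
      exact ⟨⟨hx1, not_not.1 hx2, hx3⟩, fun h => h⟩)
    exact ⟨c, hc, Lᶜ, h1, Or.inr h2⟩
  · have h1 : N.im N.x L := (IM.iff N.zf N.std hxu).2 ⟨hL, hLx⟩
    obtain ⟨c, hc, h2⟩ := S.exists_Bs_of hz h hd hL (by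
      intro A B hAB n
      have h3 := hcode.coh A B (col n) (L ∩ col n) hAB (hLc n)
      refine h3.1.subset ?_
      rintro x ⟨⟨hx1, hx2⟩, hx3⟩
      exact ⟨⟨hx1, hx3⟩, fun h => hx2 h.1⟩)
    exact ⟨c, hc, L, h1, Or.inl h2⟩

end SC

end Pool.Agent.H83.R
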