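import Pool.Agent.H83.R.M10a
import Pool.Agent.H83.R.M3
import Pool.Agent.H83.R.M8c
import Pool.Agent.H83.R.M9

/-!
# The codes of the clopen sets that correspond to the dominating family
-/

set_option autoImplicit false
set_option linter.unusedSectionVars false
set_option linter.unusedVariables false

open Pool.Agent.H83.F Pool.Agent.H86

namespace Pool.Agent.H83.R

section

variable {N : Nc} (S S' : SC N) {ρ ρ' h : N.M}

/-- `d` is a code of a clopen set of `X` whose trace corresponds to the complement of the trace of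
the clopen set with code `c`. -/
def Psi (h c d : N.M) : Prop :=
  ∃ V V' W W', Clop N.E S.K S.σ V V' ∧ Clop N.E S'.K S'.σ W W' ∧
    (∀ u k, Rel N.E S'.e u k → (N.E k W ↔ ∃ a b, Rel N.E c a b ∧ Sub N.E a N.om ∧
      Sub N.E b N.om ∧ N.E a u ∧ N.E b u)) ∧
    (∀ k l, Rel N.E h k l → (N.E k V ↔ ¬ N.E l W)) ∧
    ∃ C, (∀ u, N.E u C ↔ ∃ k, Rel N.E S.e u k ∧ N.E k V) ∧ IsCodeOf N.E N.om S.z S.X C d

theorem Clop.swap {M : Type} {E : M → M → Prop} {K σ V V' : M} (hK : IsTop E K σ)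
    (h : Clop E K σ V V') : Clop E K σ V' V := by
  refine ⟨h.2.1, h.1, ?_⟩
  intro k
  rw [h.2.2]
  constructor
  · exact fun hk => ⟨hK.1 V h.1 k hk, fun hc => hc.2 hk⟩
  · rintro ⟨hk, hk'⟩
    by_contra hc
    exact hk' ⟨hk, hc⟩

/-- For every `c ∈ Bs` there is `d`.

Proof. By `N.b_code` and `S'.clopen_of_code` there is a clopen set with code `c`, and by
`S'.clopen_ext` a clopen `W` with this trace. Apply `pull` to `W'`, `W` (the complement of `W`) to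
get `V`. `C` exists by `sep_of`, and `d` by `exists_code`. -/
theorem exists_Psi (hz' : S'.z = N.x)
    (hρ : ∀ U, N.E U ρ ↔ ∃ V, N.E V S.σ ∧ ∀ k, N.E k U ↔ (N.E k V ∧ N.E k S.R))
    (hρ' : ∀ U, N.E U ρ' ↔ ∃ V, N.E V S'.σ ∧ ∀ k, N.E k U ↔ (N.E k V ∧ N.E k S'.R))
    (hh : IsHomeo N.E S.R ρ S'.R ρ' h) {c : N.M} (hc : N.E c N.Bs) :
    ∃ d, Psi S S' h c d := by
  have hcode := (N.b_code c hc).1
  rw [← hz'] at hcode
  obtain ⟨C, C', hC, -, hCc⟩ := S'.clopen_of_code hcode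
  obtain ⟨W, W', hW, hWC⟩ := S'.clopen_ext hC
  obtain ⟨V, V', hV, hVW⟩ := pull S S' hρ hρ' hh (Clop.swap S'.hS.1 hW)
  obtain ⟨D, hD⟩ := sep_of N.zf ((codeStr.ex fun k => codeStr.and (fRel codeStr 1 0 k)
    (codeStr.mem k 2)) 10) (asn V [S.e, V]) (P := fun u => ∃ k, Rel N.E S.e u k ∧ N.E k V)
    (fun x => Iff.rfl) S.X
  obtain ⟨d, hd⟩ := S.exists_code D
  refine ⟨d, V, V', W, W', hV, hW, ?_, ?_, D, ?_, hd⟩
  · intro u k huk
    rw [hWC u k huk, hCc]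
    exact ⟨fun h => h.2, fun h => ⟨(IsFun.mem N.zf S'.hS.2.2.2.1.1 huk).1, h⟩⟩
  · intro k l hkl
    rw [hVW k l hkl, hW.2.2]
    have hl := ((S'.hR l).1 (IsFun.mem N.zf hh.1.1 hkl).2).1
    exact ⟨fun h => h.2, fun h => ⟨hl, h⟩⟩
  · intro u
    rw [hD]
    constructor
    · exact fun h => h.2
    · rintro ⟨k, hk, hkV⟩
      exact ⟨(IsFun.mem N.zf S.hS.2.2.2.1.1 hk).1, k, hk, hkV⟩

/-- If `Psi c d` then `d` is a code of a noncompact clopen set.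

Proof. The set `C` in `Psi` is clopen by `S.clopen_res` (extensionality), so `d` is a code by
`code_of_clopen`. Suppose it is compact: there is `D` in the ideal with `B \ D` finite for all
`(A, B)`. Then for `u ∈ X` with `e(u) ∈ V`: `u ∈ C`; by `exists_im` and `Code.tot` there are
`A ∈ u` and `B` with `cr d A B`; `B ∈ u` (`cr_of_code`) and `D ∈ u` (`Mu.almost`). By `sub_iff`
(with `V₂ = ∅`, `V₂' = K`) `V ∩ R = ∅`. Hence (`h` is onto `R'`) `R' ⊆ W`. By `S'.sub_iff` (with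
`V₁ = K`, `V₂ = W`) there is `L` in the ideal of `x` such that `e'(u) ∈ W` or `L ∈ u` for all
`u ∈ X'`. But by `N.compl_ncpt` there is `u ∈ X'` with `L ∉ u` and `B ∉ u` whenever `cr c A B`,
`A ∈ u`; so `e'(u) ∉ W` by the third clause of `Psi`. Contradiction. -/
theorem Psi.ncpt (hz' : S'.z = N.x)
    (hh : IsHomeo N.E S.R ρ S'.R ρ' h) {c d : N.M} (hc : N.E c N.Bs) (hd : Psi S S' h c d) :
    Code N.pm (N.im S.z) (N.cr d) ∧ NCpt N.pm (N.im S.z) (N.cr d) := by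
  obtain ⟨V, V', W, W', hV, hW, hWc, hVW, C, hC, hCd⟩ := hd
  obtain ⟨C₀, C₀', hC₀, hC₀V⟩ := S.clopen_res hV
  have hCC : C = C₀ := by
    apply N.zf.ext
    intro u
    rw [hC]
    constructor
    · rintro ⟨k, hk, hkV⟩
      exact (hC₀V u k hk).1 hkV
    · intro hu
      have huX := ((S.hX.2 C₀).1 hC₀.1).1 u hu
      obtain ⟨k, hk, -⟩ := S.hS.2.2.2.1.1.2 u huX
      exact ⟨k, hk, (hC₀V u k hk).2 hu⟩
  rw [← hCC] at hC₀
  have hcode := S.code_of_clopen hC₀ hCd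
  refine ⟨hcode, ?_⟩
  intro D hDp hDi
  by_contra hcon
  have hfin : ∀ A B, N.cr d A B → (B \ D).Finite := by
    intro A B hAB
    by_contra hinf
    exact hcon ⟨A, B, hAB, hinf⟩
  have claim : ∀ u k, Rel N.E S.e u k → N.E k V → N.mu u D := by
    intro u k huk hk
    have huX := (IsFun.mem N.zf S.hS.2.2.2.1.1 huk).1
    have huC : N.E u C := (hC u).2 ⟨k, huk, hk⟩
    obtain ⟨A, hA, hAu⟩ := S.exists_im huX
    obtain ⟨B, hAB⟩ := hcode.tot A (Mu.pm N.zf N.std hAu) hA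
    obtain ⟨-, -, -, h4⟩ := (S.cr_of_code hCd).1 hAB
    have hBu := (h4 u huX hAu).1 huC
    exact Mu.almost N.zf N.std ((S.hX.1 u).1 huX).1 hBu (hfin A B hAB) hDp
  have empty_clop : ∀ T : SC N, ∃ Z, (∀ k, ¬ N.E k Z) ∧ Clop N.E T.K T.σ Z T.K := by
    intro T
    obtain ⟨Z, hZ⟩ := exists_diff N.zf T.K T.K
    have hZ' : ∀ k, ¬ N.E k Z := fun k hk => ((hZ k).1 hk).2 ((hZ k).1 hk).1
    exact ⟨Z, hZ', IsTop.empty N.zf T.hS.1 hZ', T.hS.1.2.1,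
      fun k => ⟨fun hk => ⟨hk, hZ' k⟩, fun hk => hk.1⟩⟩
  obtain ⟨Z, hZ, hZc⟩ := empty_clop S
  obtain ⟨Z', hZ', hZc'⟩ := empty_clop S'
  have hVR : ∀ k, N.E k S.R → ¬ N.E k V := fun k hkR hkV =>
    hZ k ((S.sub_iff hV hZc).2 ⟨D, hDi, fun u k huk hk => Or.inr (claim u k huk hk)⟩ k hkR hkV)
  have hRW : ∀ l, N.E l S'.R → N.E l W := by
    intro l hl
    obtain ⟨k, hk⟩ := hh.2.2.1 l hl
    have hkR := (IsFun.mem N.zf hh.1.1 hk).1
    by_contra hlW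
    exact hVR k hkR ((hVW k l hk).2 hlW)
  obtain ⟨L, hL, hLW⟩ := (S'.sub_iff (Clop.swap S'.hS.1 hZc') hW).1 (fun l hl _ => hRW l hl)
  rw [hz'] at hL
  obtain ⟨u, hu, hux, huL, huc⟩ := N.compl_ncpt hc hL
  have huX : N.E u S'.X := (S'.hX.1 u).2 ⟨hu, by rw [hz']; exact hux⟩
  obtain ⟨k, hk, -⟩ := S'.hS.2.2.2.1.1.2 u huX
  have hkK := (IsFun.mem N.zf S'.hS.2.2.2.1.1 hk).2
  rcases hLW u k hk hkK with h | h
  · obtain ⟨a, b, hab, ha, hb, hau, hbu⟩ := (hWc u k hk).1 h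
    exact huc _ _ ⟨a, b, Rl.of_sub N.zf N.std ha, Rl.of_sub N.zf N.std hb, hab⟩
      ⟨a, Rl.of_sub N.zf N.std ha, hau⟩ ⟨b, Rl.of_sub N.zf N.std hb, hbu⟩
  · exact huL h

end

end Pool.Agent.H83.R
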