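import Pool.Agent.H83.R.M10b

/-!
# A function choosing the codes
-/

set_option autoImplicit false
set_option linter.unusedSectionVars false
set_option linter.unusedVariables false

open Pool.Agent.H83.F Pool.Agent.H86

universe v w

namespace Pool.Agent.H83.R

section Formulas

variable {M : Type v} {Ω : Type w} (L : LogicStr M Ω)

/-- the formula `x ⊆ y` -/
def fSubM10 (x y : M) : Ω := L.all fun z => L.imp (L.mem z x) (L.mem z y)

/-- the formula `Clop` -/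
def fClopM10 (K σ V V' : M) : Ω :=
  L.and (L.mem V σ) (L.and (L.mem V' σ)
    (L.all fun k => L.iff (L.mem k V') (L.and (L.mem k K) (L.imp (L.mem k V) L.bot))))

/-- the formula `IsCodeOf` -/
def fCodeOfM10 (om z X C c : M) : Ω :=
  L.and (L.all fun y => L.imp (L.mem y c) (L.ex fun a => L.ex fun b => fPr L y a b))
    (L.all fun a => L.all fun b => L.iff (fRel L c a b)
      (L.and (fSubM10 L a om) (L.and (L.imp (L.mem a z) L.bot) (L.and (fSubM10 L b a)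
        (L.all fun u => L.imp (L.mem u X) (L.imp (L.mem a u)
          (L.iff (L.mem u C) (L.mem b u))))))))

/-- the formula `Psi` -/
def fPsiM10 (K σ K' σ' e' e om z X h c d : M) : Ω :=
  L.ex fun V => L.ex fun V' => L.ex fun W => L.ex fun W' =>
    L.and (fClopM10 L K σ V V') (L.and (fClopM10 L K' σ' W W') (L.and
      (L.all fun u => L.all fun k => L.imp (fRel L e' u k) (L.iff (L.mem k W)
        (L.ex fun a => L.ex fun b => L.and (fRel L c a b) (L.and (fSubM10 L a om)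
          (L.and (fSubM10 L b om) (L.and (L.mem a u) (L.mem b u)))))))
      (L.and (L.all fun k => L.all fun l => L.imp (fRel L h k l)
          (L.iff (L.mem k V) (L.imp (L.mem l W) L.bot)))
        (L.ex fun C => L.and
          (L.all fun u => L.iff (L.mem u C) (L.ex fun k => L.and (fRel L e u k) (L.mem k V)))
          (fCodeOfM10 L om z X C d)))))

/-- the formula: there is `d` with `(c, d) ∈ g` and `y ∈ d` -/
def fSecM10 (g c y : M) : Ω := L.ex fun d => L.and (fRel L g c d) (L.mem y d)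

end Formulas

section

variable {N : Nc} (S S' : SC N) {ρ ρ' h : N.M}

/-- There is a function choosing the codes. -/
theorem exists_gM10 (hz' : S'.z = N.x)
    (hρ : ∀ U, N.E U ρ ↔ ∃ V, N.E V S.σ ∧ ∀ k, N.E k U ↔ (N.E k V ∧ N.E k S.R))
    (hρ' : ∀ U, N.E U ρ' ↔ ∃ V, N.E V S'.σ ∧ ∀ k, N.E k U ↔ (N.E k V ∧ N.E k S'.R))
    (hh : IsHomeo N.E S.R ρ S'.R ρ' h) :
    ∃ pw pp g, (∀ y, N.E y pw ↔ Sub N.E y N.om) ∧
      (∀ d, N.E d pp → ∀ y, N.E y d → ∃ a b, IsPair N.E y a b ∧ N.E a pw ∧ N.E b pw) ∧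
      IsFun N.E g N.Bs pp ∧ ∀ c d, Rel N.E g c d → Psi S S' h c d := by
  obtain ⟨pw, hpw⟩ := N.zf.power N.om
  obtain ⟨pr, hpr⟩ := exists_prod N.zf pw pw
  obtain ⟨pp, hpp⟩ := N.zf.power pr
  obtain ⟨g, hg1, hg2⟩ := choice_of N.zfc
    (pairCode (fun x y => fPsiM10 codeStr 1 2 3 4 5 6 7 8 9 10 x y) 20)
    (asn h [S.K, S.σ, S'.K, S'.σ, S'.e, S.e, N.om, S.z, S.X, h])
    (P := Psi S S' h) (fun z => Iff.rfl) N.Bs pp (by
      intro c hc
      obtain ⟨d, hd⟩ := exists_Psi S S' hz' hρ hρ' hh hc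
      refine ⟨d, ?_, hd⟩
      obtain ⟨V, V', W, W', -, -, -, -, C, -, h1, h2⟩ := hd
      rw [hpp]
      intro y hy
      rw [hpr]
      obtain ⟨a, b, hab⟩ := h1 y hy
      obtain ⟨h3, -, h4, -⟩ := (h2 a b).1 ((rel_of_pair N.zf hab).2 hy)
      refine ⟨a, b, hab, (hpw a).2 h3, (hpw b).2 fun z hz => h3 z (h4 z hz)⟩)
  refine ⟨pw, pp, g, hpw, ?_, hg1, hg2⟩
  intro d hd y hy
  exact (hpr y).1 ((hpp d).1 hd y hy)

/-- A function choosing the codes.

Proof. `choice_of` (in `F/Int.lean`) with the formula `Psi` (write the polymorphic formula of `Psi`,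
`Clop`, `IsCodeOf`; `Sub`, `Rel`, `IsPair` have the polymorphic versions `fRel`, `fPr` in
`H86/Rel.lean`, `F/Frc.lean`) gives a function `g` from `Bs` to the power set of `P(om) × P(om)`
(every `d` with `IsCodeOf` belongs to it). Let `F` (by `exists_rel`) be the set of all pairs `(c, y)`
such that there is `d` with `(c, d) ∈ g` and `y ∈ d`. -/
theorem exists_F (hz' : S'.z = N.x)
    (hρ : ∀ U, N.E U ρ ↔ ∃ V, N.E V S.σ ∧ ∀ k, N.E k U ↔ (N.E k V ∧ N.E k S.R))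
    (hρ' : ∀ U, N.E U ρ' ↔ ∃ V, N.E V S'.σ ∧ ∀ k, N.E k U ↔ (N.E k V ∧ N.E k S'.R))
    (hh : IsHomeo N.E S.R ρ S'.R ρ' h) :
    ∃ F, ∀ c, N.E c N.Bs → ∃ d, Psi S S' h c d ∧ ∀ A B, N.cr3 F c A B ↔ N.cr d A B := by
  obtain ⟨pw, pp, g, hpw, hpp, hg1, hg2⟩ := exists_gM10 S S' hz' hρ hρ' hh
  obtain ⟨pr, hpr⟩ := exists_prod N.zf pw pw
  obtain ⟨F, -, hF⟩ := exists_rel N.zf (pairCode (fun x y => fSecM10 codeStr 1 x y) 20)
    (asn g [g]) (P := fun c y => ∃ d, Rel N.E g c d ∧ N.E y d) (fun z => Iff.rfl) N.Bs pr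
  refine ⟨F, fun c hc => ?_⟩
  obtain ⟨d, hd, hd'⟩ := hg1.2 c hc
  refine ⟨d, hg2 c d hd, fun A B => ?_⟩
  constructor
  · rintro ⟨a, b, z, ha, hb, hz, hFz⟩
    obtain ⟨-, -, d', hd1, hd2⟩ := (hF c z).1 hFz
    rw [hd' d' hd1] at hd2
    exact ⟨a, b, ha, hb, z, hz, hd2⟩
  · rintro ⟨a, b, ha, hb, z, hz, hzd⟩
    refine ⟨a, b, z, ha, hb, hz, (hF c z).2 ⟨hc, ?_, d, hd, hzd⟩⟩
    rw [hpr]
    exact hpp d (IsFun.mem N.zf hg1 hd).2 z hzd

end

end Pool.Agent.H83.R
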