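import Pool.Agent.H83.R.M1

/-!
# Boolean operations and compactness in a model
-/

set_option autoImplicit false
set_option linter.unusedSectionVars false
set_option linter.unusedVariables false

open Pool.Agent.H83.F Pool.Agent.H86

namespace Pool.Agent.H83.R

section

variable {M : Type} {E : M → M → Prop} (hE : IsZFModel E)

include hE

theorem exists_inter (a b : M) : ∃ c, ∀ z, E z c ↔ (E z a ∧ E z b) :=
  sep_of hE (.mem 0 1) (asn b [b]) (P := fun z => E z b) (fun z => Iff.rfl) a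

theorem exists_union (a b : M) : ∃ c, ∀ z, E z c ↔ (E z a ∨ E z b) := by
  obtain ⟨s, hs⟩ := hE.pair a b
  obtain ⟨U, hU⟩ := hE.union s
  refine ⟨U, fun z => ?_⟩
  rw [hU]
  constructor
  · rintro ⟨y, hy, hz⟩
    rcases (hs y).1 hy with rfl | rfl
    · exact Or.inl hz
    · exact Or.inr hz
  · rintro (h | h)
    · exact ⟨a, (hs a).2 (Or.inl rfl), h⟩
    · exact ⟨b, (hs b).2 (Or.inr rfl), h⟩

theorem exists_diff (a b : M) : ∃ c, ∀ z, E z c ↔ (E z a ∧ ¬ E z b) :=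
  sep_of hE (.imp (.mem 0 1) .bot) (asn b [b]) (P := fun z => ¬ E z b) (fun z => Iff.rfl) a

theorem IsTop.inter {X τ U V W : M} (h : IsTop E X τ) (hU : E U τ) (hV : E V τ)
    (hW : ∀ z, E z W ↔ (E z U ∧ E z V)) : E W τ := h.2.2.1 U V W hU hV hW

theorem IsTop.union {X τ U V W : M} (h : IsTop E X τ) (hU : E U τ) (hV : E V τ)
    (hW : ∀ z, E z W ↔ (E z U ∨ E z V)) : E W τ := by
  obtain ⟨s, hs⟩ := hE.pair U V
  refine h.2.2.2 s W ?_ ?_
  · intro x hx
    rcases (hs x).1 hx with rfl | rfl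
    · exact hU
    · exact hV
  · intro z
    rw [hW]
    constructor
    · rintro (h | h)
      · exact ⟨U, (hs U).2 (Or.inl rfl), h⟩
      · exact ⟨V, (hs V).2 (Or.inr rfl), h⟩
    · rintro ⟨y, hy, hz⟩
      rcases (hs y).1 hy with rfl | rfl
      · exact Or.inl hz
      · exact Or.inr hz

theorem IsTop.empty {X τ W : M} (h : IsTop E X τ) (hW : ∀ z, ¬ E z W) : E W τ := by
  refine h.2.2.2 W W (fun x hx => absurd hx (hW x)) fun z => ?_
  constructor
  · exact fun hz => absurd hz (hW z)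
  · rintro ⟨U, hU, -⟩
    exact absurd hU (hW U)

/-- Unions of families of open sets given by a code. -/
theorem IsTop.of_code {X τ W : M} (h : IsTop E X τ) (φ : Fml) (f : ℕ → M) {P : M → Prop}
    (hP : ∀ x, P x ↔ φ.eval (propStr E) (upd f 0 x))
    (hW : ∀ z, E z W ↔ ∃ U, E U τ ∧ P U ∧ E z U) : E W τ := by
  obtain ⟨𝒰, h𝒰⟩ := sep_of hE φ f hP τ
  refine h.2.2.2 𝒰 W (fun x hx => ((h𝒰 x).1 hx).1) fun z => ?_
  rw [hW]
  constructor
  · rintro ⟨U, h1, h2, h3⟩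
    exact ⟨U, (h𝒰 U).2 ⟨h1, h2⟩, h3⟩
  · rintro ⟨U, h1, h3⟩
    exact ⟨U, ((h𝒰 U).1 h1).1, ((h𝒰 U).1 h1).2, h3⟩

variable {om : M} {nat : ℕ → M} (hom : StdOm E om nat)

include hom

/-- Compactness for directed families of open sets given by a code: if the open set `O` together
with the members of the directed family `P` cover `K`, then `O` together with one member of the
family covers `K`.

Proof. By separation (`sep_of hE φ f hP σ`) the set `𝒰₀ = {U ∈ σ | P U}` exists; let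
`𝒰 = 𝒰₀ ∪ {O}` (`exists_union`, `hE.pair`). By `hc` there is a finite `𝒱 ⊆ 𝒰` that covers `K`:
`𝒱` is the range of a function `g` on some `n ∈ om`, `n = nat k`. By induction on `m ≤ k` there is
`U ∈ 𝒰₀` such that for all `j < m` and all `V` with `Rel E g (nat j) V`: every element of `V` is in
`O` or in `U` (`hdir` at the step, if `V ∈ 𝒰₀`; nothing to do if `V = O`; start with `hne`). For
`m = k` this `U` is as required. -/
theorem cpt_dir {K σ : M} (hK : IsTop E K σ) (hc : IsCpt E om K σ) (φ : Fml) (f : ℕ → M)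
    {P : M → Prop} (hP : ∀ x, P x ↔ φ.eval (propStr E) (upd f 0 x)) (hne : ∃ U, E U σ ∧ P U)
    (hdir : ∀ U V, E U σ → P U → E V σ → P V → ∃ W, E W σ ∧ P W ∧ Sub E U W ∧ Sub E V W)
    {O : M} (hO : E O σ) (hcov : ∀ k, E k K → (E k O ∨ ∃ U, E U σ ∧ P U ∧ E k U)) :
    ∃ U, E U σ ∧ P U ∧ ∀ k, E k K → (E k O ∨ E k U) := by
  obtain ⟨U0, hU0⟩ := sep_of hE φ f hP σ
  obtain ⟨s, hs⟩ := hE.pair O O
  obtain ⟨𝒰, h𝒰⟩ := exists_union hE U0 s
  have hsub : Sub E 𝒰 σ := by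
    intro x hx
    rcases (h𝒰 x).1 hx with h | h
    · exact ((hU0 x).1 h).1
    · rcases (hs x).1 h with rfl | rfl <;> exact hO
  obtain ⟨𝒱, h1, ⟨n, g, hn, hg, hsurj⟩, hcovV⟩ := hc 𝒰 hsub (by
    intro x hx
    rcases hcov x hx with h | ⟨U, h2, h3, h4⟩
    · exact ⟨O, (h𝒰 O).2 (Or.inr ((hs O).2 (Or.inl rfl))), h⟩
    · exact ⟨U, (h𝒰 U).2 (Or.inl ((hU0 U).2 ⟨h2, h3⟩)), h4⟩)
  obtain ⟨k, rfl⟩ := (hom.E_om n).1 hn
  have key : ∀ m, m ≤ k → ∃ U, (E U σ ∧ P U) ∧ ∀ j, j < m → ∀ V, Rel E g (nat j) V →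
      ∀ y, E y V → (E y O ∨ E y U) := by
    intro m
    induction m with
    | zero =>
      intro _
      obtain ⟨U, h2⟩ := hne
      exact ⟨U, h2, fun j hj => absurd hj (Nat.not_lt_zero j)⟩
    | succ m ih =>
      intro hm
      obtain ⟨U, ⟨hU1, hU2⟩, hU3⟩ := ih (by omega)
      have hmk : E (nat m) (nat k) := (hom.E_nat _ _).2 ⟨m, by omega, rfl⟩
      obtain ⟨V, hV, -⟩ := hg.2 _ hmk
      have hV𝒱 : E V 𝒱 := (IsFun.mem hE hg hV).2
      rcases (h𝒰 V).1 (h1 V hV𝒱) with h2 | h2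
      · obtain ⟨hV1, hV2⟩ := (hU0 V).1 h2
        obtain ⟨W, hW1, hW2, hUW, hVW⟩ := hdir U V hU1 hU2 hV1 hV2
        refine ⟨W, ⟨hW1, hW2⟩, fun j hj V' hV' y hy => ?_⟩
        rcases Nat.lt_succ_iff_lt_or_eq.1 hj with h3 | rfl
        · rcases hU3 j h3 V' hV' y hy with h4 | h4
          · exact Or.inl h4
          · exact Or.inr (hUW y h4)
        · rw [IsFun.uniq hE hg hV' hV] at hy
          exact Or.inr (hVW y hy)
      · have hVO : V = O := by
          rcases (hs V).1 h2 with h | h <;> exact h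
        refine ⟨U, ⟨hU1, hU2⟩, fun j hj V' hV' y hy => ?_⟩
        rcases Nat.lt_succ_iff_lt_or_eq.1 hj with h3 | rfl
        · exact hU3 j h3 V' hV' y hy
        · rw [IsFun.uniq hE hg hV' hV, hVO] at hy
          exact Or.inl hy
  obtain ⟨U, ⟨hU1, hU2⟩, hU3⟩ := key k le_rfl
  refine ⟨U, hU1, hU2, fun y hy => ?_⟩
  obtain ⟨V, hV, hyV⟩ := hcovV y hy
  obtain ⟨x, hx⟩ := hsurj V hV
  obtain ⟨j, hj, rfl⟩ := (hom.E_nat _ _).1 (IsFun.mem hE hg hx).1
  exact hU3 j hj V hx y hyV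

end

end Pool.Agent.H83.R
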