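import Pool.Agent.H83.R.M2

/-!
# The two-point space
-/

set_option autoImplicit false
set_option linter.unusedSectionVars false
set_option linter.unusedVariables false

open Pool.Agent.H83.F Pool.Agent.H86

namespace Pool.Agent.H83.R

/-- The discrete space with two points `nat 0`, `nat 1`.

Proof. `ρ` is the power set of `nat 2` (`hE.power`). Topology: clear. Hausdorff: the singletons
(`hE.pair x x`). Compact: let `𝒰` cover `nat 2`, `0 ∈ U₀ ∈ 𝒰`, `1 ∈ U₁ ∈ 𝒰`, `𝒱 = {U₀, U₁}`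
(`hE.pair`); it is finite: `n = nat 2` and the function `{(0, U₀), (1, U₁)}` (`exists_rel` with the
formula `(x = nat 0 ∧ y = U₀) ∨ (x = nat 1 ∧ y = U₁)`). -/
theorem exists_two {M : Type} {E : M → M → Prop} (hE : IsZFModel E) {om : M} {nat : ℕ → M}
    (hom : StdOm E om nat) :
    ∃ ρ, IsTop E (nat 2) ρ ∧ IsCpt E om (nat 2) ρ ∧ IsHaus E (nat 2) ρ ∧
      ∀ U, E U ρ ↔ Sub E U (nat 2) := by
  obtain ⟨ρ, hρ⟩ := hE.power (nat 2)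
  have hρ' : ∀ U, E U ρ ↔ Sub E U (nat 2) := hρ
  have hm2 : ∀ x, E x (nat 2) ↔ (x = nat 0 ∨ x = nat 1) := by
    intro x
    rw [hom.E_nat]
    constructor
    · rintro ⟨m, hm, rfl⟩
      interval_cases m
      · exact Or.inl rfl
      · exact Or.inr rfl
    · rintro (rfl | rfl)
      · exact ⟨0, by omega, rfl⟩
      · exact ⟨1, by omega, rfl⟩
  have hne : nat 0 ≠ nat 1 := fun h => by
    have := StdOm.nat_inj hE hom h
    omega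
  refine ⟨ρ, ⟨fun U hU => (hρ' U).1 hU, (hρ' _).2 fun z hz => hz, ?_, ?_⟩, ?_, ?_, hρ'⟩
  · intro U V W hU _ hW
    rw [hρ']
    exact fun z hz => (hρ' U).1 hU z ((hW z).1 hz).1
  · intro 𝒰 W h𝒰 hW
    rw [hρ']
    intro z hz
    obtain ⟨U, hU, hzU⟩ := (hW z).1 hz
    exact (hρ' U).1 (h𝒰 U hU) z hzU
  · intro 𝒰 h𝒰 hcov
    obtain ⟨U₀, hU₀, h0⟩ := hcov (nat 0) ((hm2 _).2 (Or.inl rfl))
    obtain ⟨U₁, hU₁, h1⟩ := hcov (nat 1) ((hm2 _).2 (Or.inr rfl))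
    obtain ⟨𝒱, h𝒱⟩ := hE.pair U₀ U₁
    obtain ⟨g, hg1, hg2⟩ := exists_rel hE (pairCode (fun x y => codeStr.or
      (codeStr.and (codeStr.eq x 1) (codeStr.eq y 2))
      (codeStr.and (codeStr.eq x 3) (codeStr.eq y 4))) 10)
      (asn U₀ [nat 0, U₀, nat 1, U₁])
      (P := fun x y => (x = nat 0 ∧ y = U₀) ∨ (x = nat 1 ∧ y = U₁)) (fun z => Iff.rfl) (nat 2) 𝒱
    refine ⟨𝒱, ?_, ⟨nat 2, g, (hom.E_om _).2 ⟨2, rfl⟩, ?_, ?_⟩, ?_⟩
    · intro V hV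
      rcases (h𝒱 V).1 hV with rfl | rfl
      · exact hU₀
      · exact hU₁
    · refine isFun_of hE (fun z hz => ?_) (fun x hx => ?_) (fun x y y' h2 h3 => ?_)
      · obtain ⟨x, y, h2, h3, h4, -⟩ := hg1 z hz
        exact ⟨x, y, h2, h3, h4⟩
      · rcases (hm2 x).1 hx with rfl | rfl
        · exact ⟨U₀, (hg2 _ _).2 ⟨hx, (h𝒱 _).2 (Or.inl rfl), Or.inl ⟨rfl, rfl⟩⟩⟩
        · exact ⟨U₁, (hg2 _ _).2 ⟨hx, (h𝒱 _).2 (Or.inr rfl), Or.inr ⟨rfl, rfl⟩⟩⟩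
      · rcases ((hg2 _ _).1 h2).2.2 with ⟨ha, hb⟩ | ⟨ha, hb⟩ <;>
          rcases ((hg2 _ _).1 h3).2.2 with ⟨hc, hd⟩ | ⟨hc, hd⟩
        · rw [hb, hd]
        · exact absurd (ha.symm.trans hc) hne
        · exact absurd (hc.symm.trans ha) hne
        · rw [hb, hd]
    · intro V hV
      rcases (h𝒱 V).1 hV with rfl | rfl
      · exact ⟨nat 0, (hg2 _ _).2 ⟨(hm2 _).2 (Or.inl rfl), hV, Or.inl ⟨rfl, rfl⟩⟩⟩
      · exact ⟨nat 1, (hg2 _ _).2 ⟨(hm2 _).2 (Or.inr rfl), hV, Or.inr ⟨rfl, rfl⟩⟩⟩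
    · intro x hx
      rcases (hm2 x).1 hx with rfl | rfl
      · exact ⟨U₀, (h𝒱 _).2 (Or.inl rfl), h0⟩
      · exact ⟨U₁, (h𝒱 _).2 (Or.inr rfl), h1⟩
  · intro x y hx hy hxy
    obtain ⟨U, hU⟩ := hE.pair x x
    obtain ⟨V, hV⟩ := hE.pair y y
    have hU' : ∀ z, E z U ↔ z = x := fun z => by rw [hU, or_self]
    have hV' : ∀ z, E z V ↔ z = y := fun z => by rw [hV, or_self]
    refine ⟨U, V, (hρ' _).2 fun z hz => ?_, (hρ' _).2 fun z hz => ?_, (hU' _).2 rfl,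
      (hV' _).2 rfl, ?_⟩
    · rw [(hU' z).1 hz]; exact hx
    · rw [(hV' z).1 hz]; exact hy
    · rintro z ⟨h1, h2⟩
      exact hxy (((hU' z).1 h1).symm.trans ((hV' z).1 h2))

end Pool.Agent.H83.R
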