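import Pool.Agent.H83.R.M2

/-!
# Points of `ω* ∖ {z}`
-/

set_option autoImplicit false
set_option linter.unusedSectionVars false
set_option linter.unusedVariables false

open Pool.Agent.H83.F Pool.Agent.H86

namespace Pool.Agent.H83.R

namespace Nc

variable (N : Nc)

/-- Ultrafilters avoiding an ideal given by a code.

Proof. Separation: the set `j = {b | b ⊆ om, P b}` exists (power set of `om` and `sep_of`); apply
`N.ult` to it. -/
theorem ult_code (φ : Fml) (f : ℕ → N.M) {P : N.M → Prop}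
    (hP : ∀ x, P x ↔ φ.eval (propStr N.E) (upd f 0 x)) {a : N.M} (ha : Sub N.E a N.om)
    (hPa : ¬ P a)
    (hU : ∀ b c d, Sub N.E b N.om → Sub N.E c N.om → P b → P c → Sub N.E d N.om →
      (∀ n, N.E n d → (N.E n b ∨ N.E n c)) → P d)
    (hfin : ∀ b B, N.rl b B → B.Finite → P b) :
    ∃ u, IsUF N.E N.om u ∧ N.E a u ∧ ∀ b, N.E b u → ¬ P b := by
  obtain ⟨pw, hpw⟩ := N.zf.power N.om
  obtain ⟨j, hj⟩ := sep_of N.zf φ f hP pw
  have hj' : ∀ b, N.E b j ↔ (Sub N.E b N.om ∧ P b) := by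
    intro b
    rw [hj, hpw]
    exact Iff.rfl
  obtain ⟨u, hu, hau, hju⟩ := N.ult j a ha (fun h => hPa ((hj' a).1 h).2)
    (fun b c d hb hc hd hbcd => (hj' d).2 ⟨hd, hU b c d ((hj' b).1 hb).1 ((hj' c).1 hc).1
      ((hj' b).1 hb).2 ((hj' c).1 hc).2 hd hbcd⟩)
    (fun b B hb hB => (hj' b).2 ⟨hb.1, hfin b B hb hB⟩)
  exact ⟨u, hu, hau, fun b hb hPb => hju b hb ((hj' b).2 ⟨hu.1 b hb, hPb⟩)⟩

/-- Infinite sets belong to non-principal ultrafilters.

Proof. `N.ult` (or `ult_code`) with the ideal of the finite sets: bounded by an element of `om`,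
formula `∃ n ∈ om, ∀ k ∈ b, k ∈ n`. -/
theorem exists_uf {A : Set ℕ} (hA : N.pm A) (h : A.Infinite) :
    ∃ u, IsUF N.E N.om u ∧ N.mu u A := by
  obtain ⟨a, ha⟩ := hA
  obtain ⟨u, hu, hau, -⟩ := N.ult_code ((codeStr.ex fun n => codeStr.and (codeStr.mem n 1)
      (codeStr.all fun k => codeStr.imp (codeStr.mem k 0) (codeStr.mem k n))) 10)
    (asn N.om [N.om]) (P := fun b => ∃ n, N.E n N.om ∧ ∀ k, N.E k b → N.E k n)
    (fun x => Iff.rfl) (a := a) ha.1 (by
      rintro ⟨n, hn, hk⟩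
      obtain ⟨m, rfl⟩ := (N.E_om n).1 hn
      apply h
      refine (Set.finite_lt_nat m).subset ?_
      intro k hkA
      have h1 : N.E (N.nat k) a := (Rl.mem N.zf N.std ha).2 hkA
      obtain ⟨i, hi, hik⟩ := (N.E_nat _ _).1 (hk _ h1)
      rw [N.std.nat_inj N.zf hik]
      exact hi) (by
      rintro b c d hb hc ⟨n, hn, hk⟩ ⟨n', hn', hk'⟩ hd hbc
      obtain ⟨m, rfl⟩ := (N.E_om n).1 hn
      obtain ⟨m', rfl⟩ := (N.E_om n').1 hn'
      refine ⟨N.nat (max m m'), N.std.nat_om N.zf _, ?_⟩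
      intro k hkd
      rcases hbc k hkd with h1 | h1
      · obtain ⟨i, hi, hik⟩ := (N.E_nat _ _).1 (hk _ h1)
        exact (N.E_nat _ _).2 ⟨i, lt_of_lt_of_le hi (le_max_left _ _), hik⟩
      · obtain ⟨i, hi, hik⟩ := (N.E_nat _ _).1 (hk' _ h1)
        exact (N.E_nat _ _).2 ⟨i, lt_of_lt_of_le hi (le_max_right _ _), hik⟩) (by
      intro b B hb hB
      obtain ⟨m, hm⟩ := hB.bddAbove
      refine ⟨N.nat (m + 1), N.std.nat_om N.zf _, ?_⟩
      intro k hk
      obtain ⟨i, rfl⟩ := (N.E_om k).1 (hb.1 k hk)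
      have := hm ((Rl.mem N.zf N.std hb).1 hk)
      exact (N.E_nat _ _).2 ⟨i, by omega, rfl⟩)
  exact ⟨u, hu, a, ha, hau⟩

end Nc

namespace SC

variable {N : Nc} (S : SC N)

/-- The basic open sets `{u ∈ X | a ∈ u}` are open.

Proof. `sep_of`, `S.hX.2`. -/
theorem exists_bas {a : N.M} (ha : Sub N.E a N.om) :
    ∃ b, N.E b S.τ ∧ ∀ u, N.E u b ↔ (N.E u S.X ∧ N.E a u) := by
  obtain ⟨b, hb⟩ := sep_of N.zf (.mem 1 0) (asn a [a]) (P := fun u => N.E a u)
    (fun x => Iff.rfl) S.X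
  refine ⟨b, ?_, hb⟩
  rw [S.hX.2]
  refine ⟨fun u hu => ((hb u).1 hu).1, fun u hu => ⟨a, ((hb u).1 hu).2, ?_⟩⟩
  exact fun v hv hav => (hb v).2 ⟨hv, hav⟩

/-- Points of `X` contain sets of the ideal of `z`.

Proof. `Mu.ext`. -/
theorem exists_im {u : N.M} (hu : N.E u S.X) : ∃ A, N.im S.z A ∧ N.mu u A := by
  obtain ⟨hu1, hu2⟩ := (S.hX.1 u).1 hu
  by_contra hcon
  apply hu2
  apply Mu.ext N.zf N.std hu1 S.uf
  intro A hA
  by_contra hz
  exact hcon ⟨A, (IM.iff N.zf N.std S.uf).2 ⟨Mu.pm N.zf N.std hA, hz⟩, hA⟩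

/-- A non-principal ultrafilter that contains a set of the ideal is a point of `X`. -/
theorem mem_X {u : N.M} (hu : IsUF N.E N.om u) {A : Set ℕ} (hA : N.im S.z A) (h : N.mu u A) :
    N.E u S.X := by
  refine (S.hX.1 u).2 ⟨hu, ?_⟩
  rintro rfl
  exact ((IM.iff N.zf N.std hu).1 hA).2 h

/-- `A* ⊆ B*` if and only if `A ∖ B` is finite, for `A ∉ z`.

Proof. From right to left `Mu.almost`. From left to right: if `A ∖ B` is infinite then by
`exists_uf` there is `u` with `A ∖ B ∈ u`; `A ∈ u` so `u ≠ z` and `u ∈ X`, but `B ∉ u`. -/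
theorem bas_sub {A B : Set ℕ} (hA : N.im S.z A) (hB : N.pm B) :
    (∀ u, N.E u S.X → N.mu u A → N.mu u B) ↔ (A \ B).Finite := by
  have hA' := (IM.iff N.zf N.std S.uf).1 hA
  constructor
  · intro h
    by_contra hinf
    obtain ⟨u, hu, hmu⟩ := N.exists_uf (PM.diff N.zf N.std hA'.1 hB) hinf
    have huA : N.mu u A := Mu.mono N.zf N.std hu hmu Set.sdiff_subset hA'.1
    have huB := h u (S.mem_X hu hA huA) huA
    have h1 := Mu.inter N.zf N.std hu hmu huB
    have h2 := Mu.infinite N.zf N.std hu h1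
    apply h2
    have : A \ B ∩ B = ∅ := by
      ext x
      simp
    rw [this]
    exact Set.finite_empty
  · intro h u hu huA
    exact Mu.almost N.zf N.std ((S.hX.1 u).1 hu).1 huA h hB

end SC

end Pool.Agent.H83.R
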