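import Pool.Agent.H83.R.M4

/-!
# The image of a basic open set is clopen in the Stone-Čech compactification
-/

set_option autoImplicit false
set_option linter.unusedSectionVars false
set_option linter.unusedVariables false

open Pool.Agent.H83.F Pool.Agent.H86

namespace Pool.Agent.H83.R

namespace SC

variable {N : Nc} (S : SC N)

/-- If `a ∉ z` then `e[a*]` is clopen in `K`.

Proof. First, `K ∖ e[a*]` is open: the set `V'` (by `sep_of`) of the `k ∈ K` that are not of the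
form `e(u)` with `a ∈ u` is the union of all open sets `W` that contain no `e(u)` with `a ∈ u`
(`IsTop.of_code`). For this let `k ∈ V'`; we need an open `W ∋ k` without points `e(u)`, `a ∈ u`.
Consider the formula `P b`: there is an open `W ∋ k` that contains no `e(u)` with `u ∈ X`, `a ∈ u`,
`b ∈ u`. It defines an ideal: for `d ⊆ b ∪ c` take the intersection of the two open sets
(`u ∋ d` implies `u ∋ b` or `u ∋ c`), for finite `b` take `W = K` (no `u` contains `b`). If `P a`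
we are done. Otherwise by `N.ult_code` there is a non-principal ultrafilter `u` with `a ∈ u` and
`¬ P b` for all `b ∈ u`. `u ∈ X` (`mem_X`), so `e(u) ≠ k` and there are disjoint open `U ∋ e(u)`,
`W ∋ k`. The preimage of `U` under `e` is open in `X`, so by `S.hX` there is `b ∈ u` such that
`e(v) ∈ U` for all `v ∈ X` with `b ∈ v`. Then `P b` (with `W`), a contradiction.
Second, `e[a*]` is open: by `exists_bas` and the embedding clause of `S.hS` there is `O ∈ σ` with
`a ∈ u ↔ e(u) ∈ O` for `u ∈ X`. The open set `O ∩ V'` contains no point of `e[X]`, so it is empty by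
the density clause. Hence `O` is contained in `e[a*]` (and conversely), so `V = O`. -/
theorem img_clopen {a : N.M} (ha : Sub N.E a N.om) (haz : ¬ N.E a S.z) :
    ∃ V V', Clop N.E S.K S.σ V V' ∧ ∀ k, N.E k V ↔ ∃ u, Rel N.E S.e u k ∧ N.E a u := by
  have hE := N.zf
  have hom := N.std
  obtain ⟨hTop, hCpt, hHaus, hcont, hinj, hemb, hdense, -⟩ := S.hS
  have hfun := hcont.1
  have hXuf : ∀ u, N.E u S.X → IsUF N.E N.om u := fun u hu => ((S.hX.1 u).1 hu).1
  -- the complement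
  obtain ⟨V', hV'⟩ := sep_of hE
    ((codeStr.imp (codeStr.ex fun u => codeStr.and (fRel codeStr 1 u 0) (codeStr.mem 2 u))
      codeStr.bot) 10) (asn S.e [S.e, a])
    (P := fun k => ¬ ∃ u, Rel N.E S.e u k ∧ N.E a u) (fun x => Iff.rfl) S.K
  -- points of the complement have a neighbourhood
  have key : ∀ k, N.E k S.K → (¬ ∃ u, Rel N.E S.e u k ∧ N.E a u) →
      ∃ W, N.E W S.σ ∧ N.E k W ∧ ∀ u y, Rel N.E S.e u y → N.E a u → ¬ N.E y W := by
    intro k hk hbad
    let P : N.M → Prop := fun b => ∃ W, N.E W S.σ ∧ (N.E k W ∧ ∀ u y, Rel N.E S.e u y → N.E a u →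
      N.E b u → N.E y W → False)
    have hP : ∀ x, P x ↔ Fml.eval (propStr N.E) ((codeStr.ex fun W => codeStr.and (codeStr.mem W 3)
        (codeStr.and (codeStr.mem 4 W) (codeStr.all fun u => codeStr.all fun y =>
        codeStr.imp (fRel codeStr 1 u y) (codeStr.imp (codeStr.mem 2 u) (codeStr.imp
        (codeStr.mem 0 u) (codeStr.imp (codeStr.mem y W) codeStr.bot)))))) 10)
        (upd (asn S.e [S.e, a, S.σ, k]) 0 x) := fun x => Iff.rfl
    have hPa : P a := by
      by_contra hPa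
      obtain ⟨u, hu, hau, hub⟩ := N.ult_code _ _ hP ha hPa (by
        rintro b c d hb hc ⟨W1, hW1, hk1, h1⟩ ⟨W2, hW2, hk2, h2⟩ hd hdbc
        obtain ⟨W, hW⟩ := exists_inter hE W1 W2
        refine ⟨W, hTop.inter hE hW1 hW2 hW, (hW k).2 ⟨hk1, hk2⟩, fun u y huy hau hdu hyW => ?_⟩
        have huu : IsUF N.E N.om u := hXuf u (IsFun.mem hE hfun huy).1
        have rb := Rl.of_sub hE hom (nat := N.nat) hb
        have rc := Rl.of_sub hE hom (nat := N.nat) hc
        have rd := Rl.of_sub hE hom (nat := N.nat) hd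
        have h3 : Mu N.E N.om N.nat u ({n | N.E (N.nat n) b} ∪ {n | N.E (N.nat n) c}) := by
          refine Mu.mono hE hom huu ((Mu.iff hE hom rd).2 hdu) (fun n hn => ?_)
            (PM.union hE hom ⟨b, rb⟩ ⟨c, rc⟩)
          exact hdbc _ hn
        rcases (Mu.union hE hom huu ⟨b, rb⟩ ⟨c, rc⟩).1 h3 with h4 | h4
        · exact h1 u y huy hau ((Mu.iff hE hom rb).1 h4) ((hW y).1 hyW).1
        · exact h2 u y huy hau ((Mu.iff hE hom rc).1 h4) ((hW y).1 hyW).2) (by
        intro b B hbB hB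
        refine ⟨S.K, hTop.2.1, hk, fun u y huy hau hbu hyW => ?_⟩
        have huu : IsUF N.E N.om u := hXuf u (IsFun.mem hE hfun huy).1
        exact Mu.infinite hE hom huu ((Mu.iff hE hom hbB).2 hbu) hB)
      have hux : N.E u S.X := (S.hX.1 u).2 ⟨hu, fun h => haz (h ▸ hau)⟩
      obtain ⟨y, huy, -⟩ := hfun.2 u hux
      have hyk : y ≠ k := fun h => hbad ⟨u, h ▸ huy, hau⟩
      obtain ⟨U, W, hU, hW, hyU, hkW, hUW⟩ := hHaus y k (IsFun.mem hE hfun huy).2 hk hyk
      obtain ⟨U', hU'⟩ := sep_of hE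
        ((codeStr.ex fun y => codeStr.and (fRel codeStr 1 0 y) (codeStr.mem y 2)) 10)
        (asn S.e [S.e, U]) (P := fun x => ∃ y, Rel N.E S.e x y ∧ N.E y U) (fun x => Iff.rfl) S.X
      have hU'τ : N.E U' S.τ := hcont.2 U hU U' hU'
      obtain ⟨b, hbu, hb⟩ := ((S.hX.2 U').1 hU'τ).2 u ((hU' u).2 ⟨hux, y, huy, hyU⟩)
      refine hub b hbu ⟨W, hW, hkW, fun v y' hvy hav hbv hyW => ?_⟩
      obtain ⟨-, y2, h2, h3⟩ := (hU' v).1 (hb v (IsFun.mem hE hfun hvy).1 hbv)
      rw [IsFun.uniq hE hfun h2 hvy] at h3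
      exact hUW y' ⟨h3, hyW⟩
    obtain ⟨W, hW, hkW, h1⟩ := hPa
    exact ⟨W, hW, hkW, fun u y huy hau hy => h1 u y huy hau hau hy⟩
  have hV'σ : N.E V' S.σ := by
    refine hTop.of_code hE ((codeStr.all fun u => codeStr.all fun y =>
      codeStr.imp (fRel codeStr 1 u y) (codeStr.imp (codeStr.mem 2 u)
      (codeStr.imp (codeStr.mem y 0) codeStr.bot))) 10) (asn S.e [S.e, a])
      (P := fun W => ∀ u y, Rel N.E S.e u y → N.E a u → ¬ N.E y W) (fun x => Iff.rfl) fun k => ?_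
    rw [hV']
    constructor
    · rintro ⟨hk, hbad⟩
      obtain ⟨W, hW, hkW, h1⟩ := key k hk hbad
      exact ⟨W, hW, h1, hkW⟩
    · rintro ⟨W, hW, h1, hkW⟩
      refine ⟨hTop.1 W hW k hkW, ?_⟩
      rintro ⟨u, huk, hau⟩
      exact h1 u k huk hau hkW
  -- the image
  obtain ⟨b, hbτ, hb⟩ := S.exists_bas ha
  obtain ⟨O, hO, hOe⟩ := hemb b hbτ
  have hOK : ∀ k, N.E k O ↔ ∃ u, Rel N.E S.e u k ∧ N.E a u := by
    intro k
    constructor
    · intro hk
      by_contra hbad
      have hkV' : N.E k V' := (hV' k).2 ⟨hTop.1 O hO k hk, hbad⟩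
      obtain ⟨W, hW⟩ := exists_inter hE O V'
      obtain ⟨x, y, hxy, hy⟩ := hdense W (hTop.inter hE hO hV'σ hW) ⟨k, (hW k).2 ⟨hk, hkV'⟩⟩
      obtain ⟨h1, h2⟩ := (hW y).1 hy
      have h3 := (hb x).1 ((hOe x y hxy).2 h1)
      exact ((hV' y).1 h2).2 ⟨x, hxy, h3.2⟩
    · rintro ⟨u, huk, hau⟩
      exact (hOe u k huk).1 ((hb u).2 ⟨(IsFun.mem hE hfun huk).1, hau⟩)
  refine ⟨O, V', ⟨hO, hV'σ, fun k => ?_⟩, hOK⟩
  rw [hV', hOK]

end SC

end Pool.Agent.H83.R
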