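import Pool.Agent.H83.R.M5

/-!
# Comparing traces of clopen sets on the remainder
-/

set_option autoImplicit false
set_option linter.unusedSectionVars false
set_option linter.unusedVariables false

open Pool.Agent.H83.F Pool.Agent.H86

namespace Pool.Agent.H83.R

namespace SC

variable {N : Nc} (S : SC N)

/-- Every point of `e[X]` is in some `e[a*]`. -/
theorem exists_img {u k : N.M} (huk : Rel N.E S.e u k) :
    ∃ a, Sub N.E a N.om ∧ ¬ N.E a S.z ∧ N.E a u := by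
  have huX := (IsFun.mem N.zf S.hS.2.2.2.1.1 huk).1
  obtain ⟨A, hA, a, ha, hau⟩ := S.exists_im huX
  refine ⟨a, ha.1, ?_, hau⟩
  have := ((IM.iff N.zf N.std S.uf).1 hA).2
  rwa [Mu.iff N.zf N.std ha] at this

/-- `e[X]` is open: the set `K ∖ R` belongs to `σ`.

Proof. `exists_diff`, and `IsTop.of_code`: `K ∖ R` is the union of the open sets `U` with
`U ∩ R = ∅`: if `k = e(u)`, `u ∈ X`, then by `exists_im` there is `a ∈ u`, `a ∉ z`, and `k` belongs to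
the open set `e[a*]` (`img_clopen`), which is disjoint from `R`. -/
theorem exists_eX : ∃ O, N.E O S.σ ∧ ∀ k, N.E k O ↔ (N.E k S.K ∧ ¬ N.E k S.R) := by
  obtain ⟨O, hO⟩ := exists_diff N.zf S.K S.R
  refine ⟨O, ?_, hO⟩
  refine IsTop.of_code N.zf S.hS.1 ((codeStr.all fun k => codeStr.imp (codeStr.mem k 0)
    (codeStr.imp (codeStr.mem k 1) codeStr.bot)) 10) (asn S.R [S.R])
    (P := fun U => ∀ k, N.E k U → ¬ N.E k S.R) (fun x => Iff.rfl) ?_
  intro k
  rw [hO]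
  constructor
  · rintro ⟨hk, hkR⟩
    have : ∃ x, Rel N.E S.e x k := by
      by_contra hcon
      exact hkR ((S.hR k).2 ⟨hk, hcon⟩)
    obtain ⟨u, hu⟩ := this
    obtain ⟨a, ha, haz, hau⟩ := S.exists_img hu
    obtain ⟨V, V', hV, hVa⟩ := S.img_clopen ha haz
    refine ⟨V, hV.1, ?_, (hVa k).2 ⟨u, hu, hau⟩⟩
    intro l hl hlR
    obtain ⟨v, hv, -⟩ := (hVa l).1 hl
    exact ((S.hR l).1 hlR).2 ⟨v, hv⟩
  · rintro ⟨U, hU, hUR, hkU⟩
    exact ⟨S.hS.1.1 U hU k hkU, hUR k hkU⟩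

/-- `V₁ ∩ R ⊆ V₂` if and only if `V₁ ∖ V₂` is covered by a set `e[a*]` with `a ∉ z`.

Proof. From right to left: let `k ∈ R ∩ V₁`, `k ∉ V₂`. Let `W'` be the complement of `e[a*]`
(`img_clopen`). The open set `V₁ ∩ V₂' ∩ W'` contains `k`, so by density it contains some `e(u)`;
then `e(u) ∈ V₂` or `a ∈ u` (so `e(u) ∈ e[a*]`), a contradiction. From left to right: use `cpt_dir`
with `O = V₁' ∪ V₂` (the complement of the closed set `V₁ ∖ V₂`) and the directed family of the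
open sets `U` such that there is `a ⊆ om`, `a ∉ z` with `∀ k, k ∈ U ↔ ∃ u, e(u) = k ∧ a ∈ u`
(directed: `a ∪ b ∉ z`; nonempty: `a = ∅`). They cover: if `k ∈ V₁ ∖ V₂` then `k ∉ R` by the
hypothesis, so `k = e(u)`, and `exists_im`, `img_clopen`. -/
theorem sub_iff {V₁ V₁' V₂ V₂' : N.M} (h₁ : Clop N.E S.K S.σ V₁ V₁')
    (h₂ : Clop N.E S.K S.σ V₂ V₂') :
    (∀ k, N.E k S.R → N.E k V₁ → N.E k V₂) ↔
      ∃ A, N.im S.z A ∧ ∀ u k, Rel N.E S.e u k → N.E k V₁ → (N.E k V₂ ∨ N.mu u A) := by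
  have hinj := S.hS.2.2.2.2.1
  have hdens := S.hS.2.2.2.2.2.2.1
  have hT := S.hS.1
  constructor
  · intro h
    obtain ⟨O, hO⟩ := exists_union N.zf V₁' V₂
    have hOσ : N.E O S.σ := IsTop.union N.zf hT h₁.2.1 h₂.1 hO
    obtain ⟨U, hUσ, ⟨a, ha, haz, hU⟩, hcov⟩ := cpt_dir N.zf N.std hT S.hS.2.1
      ((codeStr.ex fun a => codeStr.and
        (codeStr.all fun t => codeStr.imp (codeStr.mem t a) (codeStr.mem t 1))
        (codeStr.and (codeStr.imp (codeStr.mem a 2) codeStr.bot)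
          (codeStr.all fun k => codeStr.iff (codeStr.mem k 0)
            (codeStr.ex fun u => codeStr.and (fRel codeStr 3 u k) (codeStr.mem a u))))) 10)
      (asn N.om [N.om, S.z, S.e])
      (P := fun U => ∃ a, Sub N.E a N.om ∧ ¬ N.E a S.z ∧
        ∀ k, N.E k U ↔ ∃ u, Rel N.E S.e u k ∧ N.E a u) (fun x => Iff.rfl) (by
      obtain ⟨a, ha⟩ := PM.finite N.zf N.std (A := ∅) Set.finite_empty
      have haz : ¬ N.E a S.z := by
        intro hc
        exact Mu.infinite N.zf N.std S.uf ⟨a, ha, hc⟩ Set.finite_empty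
      obtain ⟨V, V', hV, hVa⟩ := S.img_clopen ha.1 haz
      exact ⟨V, hV.1, a, ha.1, haz, hVa⟩) (by
      rintro U V hU ⟨a, ha, haz, hUa⟩ hV ⟨b, hb, hbz, hVb⟩
      obtain ⟨c, hc⟩ := exists_union N.zf a b
      have hcom : Sub N.E c N.om := by
        intro t ht
        rcases (hc t).1 ht with h | h
        · exact ha t h
        · exact hb t h
      have hA := Rl.of_sub N.zf N.std ha
      have hB := Rl.of_sub N.zf N.std hb
      have hC : Rl N.E N.om N.nat c ({n | N.E (N.nat n) a} ∪ {n | N.E (N.nat n) b}) := by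
        refine ⟨hcom, ?_⟩
        ext n
        exact hc _
      have hcz : ¬ N.E c S.z := by
        rw [← Mu.iff N.zf N.std hC, Mu.union N.zf N.std S.uf ⟨a, hA⟩ ⟨b, hB⟩,
          Mu.iff N.zf N.std hA, Mu.iff N.zf N.std hB]
        rintro (h | h)
        · exact haz h
        · exact hbz h
      obtain ⟨W, W', hW, hWc⟩ := S.img_clopen hcom hcz
      refine ⟨W, hW.1, ⟨c, hcom, hcz, hWc⟩, ?_, ?_⟩
      · intro k hk
        obtain ⟨u, hu, hau⟩ := (hUa k).1 hk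
        have huu := ((S.hX.1 u).1 (IsFun.mem N.zf S.hS.2.2.2.1.1 hu).1).1
        exact (hWc k).2 ⟨u, hu, huu.2.2.1 a c hau (fun t ht => (hc t).2 (Or.inl ht)) hcom⟩
      · intro k hk
        obtain ⟨u, hu, hau⟩ := (hVb k).1 hk
        have huu := ((S.hX.1 u).1 (IsFun.mem N.zf S.hS.2.2.2.1.1 hu).1).1
        exact (hWc k).2 ⟨u, hu, huu.2.2.1 b c hau (fun t ht => (hc t).2 (Or.inr ht)) hcom⟩)
      hOσ (by
      intro k hk
      by_cases hk1 : N.E k V₁
      · by_cases hk2 : N.E k V₂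
        · exact Or.inl ((hO k).2 (Or.inr hk2))
        · right
          have hkR : ¬ N.E k S.R := fun hkR => hk2 (h k hkR hk1)
          have : ∃ x, Rel N.E S.e x k := by
            by_contra hcon
            exact hkR ((S.hR k).2 ⟨hk, hcon⟩)
          obtain ⟨u, hu⟩ := this
          obtain ⟨a, ha, haz, hau⟩ := S.exists_img hu
          obtain ⟨V, V', hV, hVa⟩ := S.img_clopen ha haz
          exact ⟨V, hV.1, ⟨a, ha, haz, hVa⟩, (hVa k).2 ⟨u, hu, hau⟩⟩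
      · exact Or.inl ((hO k).2 (Or.inl ((h₁.2.2 k).2 ⟨hk, hk1⟩))))
    refine ⟨{n | N.E (N.nat n) a}, ⟨a, Rl.of_sub N.zf N.std ha, haz⟩, ?_⟩
    intro u k huk hk1
    have hkK := (IsFun.mem N.zf S.hS.2.2.2.1.1 huk).2
    rcases hcov k hkK with hk | hk
    · rcases (hO k).1 hk with hk | hk
      · exact absurd hk1 ((h₁.2.2 k).1 hk).2
      · exact Or.inl hk
    · obtain ⟨u', hu', hau'⟩ := (hU k).1 hk
      rw [hinj u' u k hu' huk] at hau'
      exact Or.inr ⟨a, Rl.of_sub N.zf N.std ha, hau'⟩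
  · rintro ⟨A, ⟨a, haA, haz⟩, hA⟩ k hkR hk1
    by_contra hk2
    obtain ⟨W, W', hW, hWa⟩ := S.img_clopen haA.1 haz
    have hkK := ((S.hR k).1 hkR).1
    have hkW' : N.E k W' := by
      refine (hW.2.2 k).2 ⟨hkK, ?_⟩
      intro hkW
      obtain ⟨u, hu, -⟩ := (hWa k).1 hkW
      exact ((S.hR k).1 hkR).2 ⟨u, hu⟩
    obtain ⟨T1, hT1⟩ := exists_inter N.zf V₁ V₂'
    obtain ⟨T2, hT2⟩ := exists_inter N.zf T1 W'
    have h1 := IsTop.inter N.zf hT h₁.1 h₂.2.1 hT1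
    have h2 := IsTop.inter N.zf hT h1 hW.2.1 hT2
    obtain ⟨x, y, hxy, hy⟩ := hdens T2 h2 ⟨k, (hT2 k).2 ⟨(hT1 k).2
      ⟨hk1, (h₂.2.2 k).2 ⟨hkK, hk2⟩⟩, hkW'⟩⟩
    obtain ⟨hy1, hyW'⟩ := (hT2 y).1 hy
    obtain ⟨hyV1, hyV2⟩ := (hT1 y).1 hy1
    rcases hA x y hxy hyV1 with h | h
    · exact ((h₂.2.2 y).1 hyV2).2 h
    · have h' := (Mu.iff N.zf N.std haA).1 h
      exact ((hW.2.2 y).1 hyW').2 ((hWa y).2 ⟨x, hxy, h'⟩)

end SC

end Pool.Agent.H83.R
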