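import Pool.Agent.H83.R.M6

/-!
# Clopen subsets of the remainder are traces of clopen sets
-/

set_option autoImplicit false
set_option linter.unusedSectionVars false
set_option linter.unusedVariables false

open Pool.Agent.H83.F Pool.Agent.H86

namespace Pool.Agent.H83.R

/-- formula: there is an open set that contains `k` and is disjoint from `W` -/
def fNA {N : Type*} {Ω : Type*} (L : LogicStr N Ω) (σ k W : N) : Ω :=
  L.ex fun U => L.and (L.mem U σ) (L.and (L.mem k U) (L.all fun z =>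
    L.imp (L.and (L.mem z U) (L.mem z W)) L.bot))

/-- formula: there is an open set that is disjoint from `U` and covers the complement of `O` -/
def fNB {N : Type*} {Ω : Type*} (L : LogicStr N Ω) (σ K O U : N) : Ω :=
  L.ex fun W => L.and (L.mem W σ) (L.and (L.all fun z => L.imp (L.and (L.mem z U) (L.mem z W)) L.bot)
    (L.all fun k => L.imp (L.mem k K) (L.or (L.mem k O) (L.mem k W))))

/-- Disjoint closed subsets of a compact Hausdorff space have disjoint open neighbourhoods. The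
closed sets are the complements of `O₁`, `O₂`.

Proof. Step 1: for every `k ∈ O₂` (so `k` is not in the closed set `K ∖ O₂`) there are disjoint open
`U ∋ k` and `W` with `W ∪ O₂ = K`: `cpt_dir` with `O = O₂` and the directed family of the open `W`
such that there is an open `U ∋ k` disjoint from `W` (directed: unions of the `W`, intersections
of the `U`; nonempty: `W = ∅`, `U = K`; cover: Hausdorff). Step 2: `cpt_dir` with `O = O₁` and the
directed family of the open `U` such that there is an open `W` disjoint from `U` with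
`W ∪ O₂ = K` (cover by step 1: every `k ∈ K ∖ O₁` is in `O₂`). -/
theorem exists_normal {M : Type} {E : M → M → Prop} (hE : IsZFModel E) {om : M} {nat : ℕ → M}
    (hom : StdOm E om nat) {K σ : M} (hK : IsTop E K σ) (hc : IsCpt E om K σ)
    (hH : IsHaus E K σ) {O₁ O₂ : M} (h₁ : E O₁ σ) (h₂ : E O₂ σ)
    (h : ∀ k, E k K → (E k O₁ ∨ E k O₂)) :
    ∃ U₁ U₂, E U₁ σ ∧ E U₂ σ ∧ (∀ k, ¬ (E k U₁ ∧ E k U₂)) ∧
      (∀ k, E k K → (E k O₁ ∨ E k U₁)) ∧ ∀ k, E k K → (E k O₂ ∨ E k U₂) := by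
  have hKσ : E K σ := hK.2.1
  obtain ⟨em, hem⟩ : ∃ em, ∀ z, ¬ E z em := by
    obtain ⟨c, hc⟩ := exists_diff hE K K
    exact ⟨c, fun z hz => ((hc z).1 hz).2 ((hc z).1 hz).1⟩
  have hemσ : E em σ := IsTop.empty hE hK hem
  -- step 1
  have step1 : ∀ k, E k O₂ → E k K → ∃ W, E W σ ∧ (∃ U, E U σ ∧ E k U ∧ ∀ z, ¬ (E z U ∧ E z W)) ∧
      ∀ k', E k' K → (E k' O₂ ∨ E k' W) := by
    intro k hk hkK
    refine cpt_dir hE hom hK hc (fNA codeStr 1 2 0 10) (asn σ [σ, k])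
      (P := fun W => ∃ U, E U σ ∧ E k U ∧ ∀ z, ¬ (E z U ∧ E z W)) (fun x => Iff.rfl) ?_ ?_ h₂ ?_
    · exact ⟨em, hemσ, K, hKσ, hkK, fun z hz => hem z hz.2⟩
    · rintro W W' hW ⟨U, hU, hkU, hUW⟩ hW' ⟨U', hU', hkU', hUW'⟩
      obtain ⟨V, hV⟩ := exists_union hE W W'
      obtain ⟨T, hT⟩ := exists_inter hE U U'
      refine ⟨V, IsTop.union hE hK hW hW' hV, ⟨T, IsTop.inter hE hK hU hU' hT, (hT k).2 ⟨hkU, hkU'⟩, ?_⟩,
        fun z hz => (hV z).2 (Or.inl hz), fun z hz => (hV z).2 (Or.inr hz)⟩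
      rintro z ⟨hz1, hz2⟩
      rw [hT] at hz1
      rw [hV] at hz2
      rcases hz2 with hz2 | hz2
      · exact hUW z ⟨hz1.1, hz2⟩
      · exact hUW' z ⟨hz1.2, hz2⟩
    · intro k' hk'
      by_cases hk2 : E k' O₂
      · exact Or.inl hk2
      · right
        have hne : k ≠ k' := by
          rintro rfl
          exact hk2 hk
        obtain ⟨U, V, hU, hV, hkU, hkV, hUV⟩ := hH k k' hkK hk' hne
        exact ⟨V, hV, ⟨U, hU, hkU, hUV⟩, hkV⟩
  -- step 2
  obtain ⟨U, hU, ⟨W, hW, hUW, hWc⟩, hUc⟩ := cpt_dir hE hom hK hc (fNB codeStr 1 2 3 0 10) (asn σ [σ, K, O₂])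
      (P := fun U => ∃ W, E W σ ∧ (∀ z, ¬ (E z U ∧ E z W)) ∧ ∀ k, E k K → (E k O₂ ∨ E k W)) (fun x => Iff.rfl)
      ⟨em, hemσ, K, hKσ, fun z hz => hem z hz.1, fun k hk => Or.inr hk⟩ (by
      rintro U U' hU ⟨W, hW, hUW, hWc⟩ hU' ⟨W', hW', hUW', hWc'⟩
      obtain ⟨V, hV⟩ := exists_union hE U U'
      obtain ⟨T, hT⟩ := exists_inter hE W W'
      refine ⟨V, IsTop.union hE hK hU hU' hV, ⟨T, IsTop.inter hE hK hW hW' hT, ?_, ?_⟩,
        fun z hz => (hV z).2 (Or.inl hz), fun z hz => (hV z).2 (Or.inr hz)⟩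
      · rintro z ⟨hz1, hz2⟩
        rw [hV] at hz1
        rw [hT] at hz2
        rcases hz1 with hz1 | hz1
        · exact hUW z ⟨hz1, hz2.1⟩
        · exact hUW' z ⟨hz1, hz2.2⟩
      · intro k hk
        rcases hWc k hk with h3 | h3
        · exact Or.inl h3
        · rcases hWc' k hk with h4 | h4
          · exact Or.inl h4
          · exact Or.inr ((hT k).2 ⟨h3, h4⟩)) h₁ (by
      intro k hk
      rcases h k hk with h3 | h3
      · exact Or.inl h3
      · right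
        obtain ⟨W, hW, ⟨U, hU, hkU, hUW⟩, hWc⟩ := step1 k h3 hk
        exact ⟨U, hU, ⟨W, hW, hUW, hWc⟩, hkU⟩)
  exact ⟨U, W, hU, hW, hUW, hUc, hWc⟩

/-- formula: `U = e[a*]` for some `a ⊆ om`, `a ∉ z` -/
def fNC {N : Type*} {Ω : Type*} (L : LogicStr N Ω) (om z e U : N) : Ω :=
  L.ex fun a => L.and (L.all fun t => L.imp (L.mem t a) (L.mem t om)) (L.and (L.imp (L.mem a z) L.bot)
    (L.all fun k => L.iff (L.mem k U) (L.ex fun u => L.and (L.ex fun p => L.and (fPr L p u k) (L.mem p e))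
      (L.mem a u))))

namespace SC

variable {N : Nc} (S : SC N)

/-- If the open sets `U₁`, `U₂` of `K` cut `R` into two disjoint parts, then `U₁ ∩ R` is the trace
on `R` of a clopen subset of `K`.

Proof. The closed sets `R ∖ U₂` and `R ∖ U₁` are disjoint, they are the complements of the open
sets `(K ∖ R) ∪ U₂` and `(K ∖ R) ∪ U₁` (`exists_eX`). By `exists_normal` there are disjoint open
`W₁ ⊇ R ∖ U₂ = R ∩ U₁` and `W₂ ⊇ R ∖ U₁ = R ∩ U₂`. `W₁ ∪ W₂ ⊇ R`. As in `sub_iff` (use `cpt_dir` with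
`O = W₁ ∪ W₂` and the family of the sets `e[a*]`, `a ∉ z`) there is `a ∉ z` with
`W₁ ∪ W₂ ∪ e[a*] = K`. Let `V = W₁ ∩ (K ∖ e[a*])`, `V' = W₂ ∪ e[a*]` (`img_clopen`): both are open
and they are complementary, and on `R` `V` agrees with `W₁`, hence with `U₁`. -/
theorem exists_clopen {U₁ U₂ : N.M} (h₁ : N.E U₁ S.σ) (h₂ : N.E U₂ S.σ)
    (h : ∀ k, N.E k S.R → (N.E k U₂ ↔ ¬ N.E k U₁)) :
    ∃ V V', Clop N.E S.K S.σ V V' ∧ ∀ k, N.E k S.R → (N.E k V ↔ N.E k U₁) := by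
  have hE := N.zf
  have hK := S.hS.1
  have hc := S.hS.2.1
  have hH := S.hS.2.2.1
  have hfun := S.hS.2.2.2.1.1
  obtain ⟨O, hO, hOiff⟩ := S.exists_eX
  obtain ⟨Oa, hOa⟩ := exists_union hE O U₂
  obtain ⟨Ob, hOb⟩ := exists_union hE O U₁
  have hOaσ := IsTop.union hE hK hO h₂ hOa
  have hObσ := IsTop.union hE hK hO h₁ hOb
  obtain ⟨W₁, W₂, hW₁, hW₂, hdis, hc1, hc2⟩ := exists_normal hE N.std hK hc hH hOaσ hObσ (by
    intro k hk
    rw [hOa, hOb, hOiff]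
    by_cases hkR : N.E k S.R
    · by_cases hk1 : N.E k U₁
      · exact Or.inr (Or.inr hk1)
      · exact Or.inl (Or.inr ((h k hkR).2 hk1))
    · exact Or.inl (Or.inl ⟨hk, hkR⟩))
  have hR1 : ∀ k, N.E k S.R → N.E k U₁ → N.E k W₁ := by
    intro k hkR hk1
    have hkK := ((S.hR k).1 hkR).1
    rcases hc1 k hkK with h3 | h3
    · rw [hOa, hOiff] at h3
      rcases h3 with h3 | h3
      · exact absurd hkR h3.2
      · exact absurd hk1 ((h k hkR).1 h3)
    · exact h3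
  have hR2 : ∀ k, N.E k S.R → ¬ N.E k U₁ → N.E k W₂ := by
    intro k hkR hk1
    have hkK := ((S.hR k).1 hkR).1
    rcases hc2 k hkK with h3 | h3
    · rw [hOb, hOiff] at h3
      rcases h3 with h3 | h3
      · exact absurd hkR h3.2
      · exact absurd h3 hk1
    · exact h3
  obtain ⟨Q, hQ⟩ := exists_union hE W₁ W₂
  have hQσ := IsTop.union hE hK hW₁ hW₂ hQ
  have hzuf := S.uf
  have hUF : ∀ u k, Rel N.E S.e u k → IsUF N.E N.om u := by
    intro u k huk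
    exact ((S.hX.1 u).1 (IsFun.mem hE hfun huk).1).1
  obtain ⟨V₀, hV₀, ⟨a, haom, haz, hV₀a⟩, hV₀c⟩ := cpt_dir hE N.std hK hc (fNC codeStr 1 2 3 0 10)
    (asn N.om [N.om, S.z, S.e])
    (P := fun U => ∃ a, (∀ t, N.E t a → N.E t N.om) ∧ ¬ N.E a S.z ∧ ∀ k, N.E k U ↔
      ∃ u, Rel N.E S.e u k ∧ N.E a u) (fun x => Iff.rfl) (by
    obtain ⟨em, hem⟩ : ∃ em, ∀ z, ¬ N.E z em := by
      obtain ⟨c, hc⟩ := exists_diff hE S.K S.K
      exact ⟨c, fun z hz => ((hc z).1 hz).2 ((hc z).1 hz).1⟩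
    have h1 : Sub N.E em N.om := fun t ht => absurd ht (hem t)
    have h2 : ¬ N.E em S.z := by
      intro h3
      have h4 := (hzuf.2.2.2.2.1 em N.om h1 (fun n => ⟨fun hn => ⟨hn, hem n⟩, fun hn => hn.1⟩)).1 h3
      exact h4 hzuf.2.1
    obtain ⟨V, V', hV, hVa⟩ := S.img_clopen h1 h2
    exact ⟨V, hV.1, em, h1, h2, hVa⟩) (by
    rintro U U' hU ⟨a, ha, haz, hUa⟩ hU' ⟨b, hb, hbz, hUb⟩
    obtain ⟨c, hc⟩ := exists_union hE a b
    have h1 : Sub N.E c N.om := by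
      intro t ht
      rcases (hc t).1 ht with h3 | h3
      · exact ha t h3
      · exact hb t h3
    have h2 : ¬ N.E c S.z := by
      intro h3
      have ra := Rl.of_sub hE N.std (a := a) ha
      have rb := Rl.of_sub hE N.std (a := b) hb
      have rc : Rl N.E N.om N.nat c ({n | N.E (N.nat n) a} ∪ {n | N.E (N.nat n) b}) := by
        refine ⟨h1, ?_⟩
        ext n
        exact hc (N.nat n)
      have h4 := (Mu.iff hE N.std (u := S.z) rc).2 h3
      rcases (Mu.union hE N.std hzuf ⟨a, ra⟩ ⟨b, rb⟩).1 h4 with h5 | h5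
      · exact haz ((Mu.iff hE N.std ra).1 h5)
      · exact hbz ((Mu.iff hE N.std rb).1 h5)
    obtain ⟨V, V', hV, hVc⟩ := S.img_clopen h1 h2
    refine ⟨V, hV.1, ⟨c, h1, h2, hVc⟩, ?_, ?_⟩
    · intro k hk
      obtain ⟨u, hu, hau⟩ := (hUa k).1 hk
      exact (hVc k).2 ⟨u, hu, (hUF u k hu).2.2.1 a c hau (fun t ht => (hc t).2 (Or.inl ht)) h1⟩
    · intro k hk
      obtain ⟨u, hu, hbu⟩ := (hUb k).1 hk
      exact (hVc k).2 ⟨u, hu, (hUF u k hu).2.2.1 b c hbu (fun t ht => (hc t).2 (Or.inr ht)) h1⟩) hQσ (by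
    intro k hk
    by_cases hkR : N.E k S.R
    · left
      rw [hQ]
      by_cases hk1 : N.E k U₁
      · exact Or.inl (hR1 k hkR hk1)
      · exact Or.inr (hR2 k hkR hk1)
    · right
      have h3 : ∃ u, Rel N.E S.e u k := by
        by_contra hcon
        exact hkR ((S.hR k).2 ⟨hk, hcon⟩)
      obtain ⟨u, hu⟩ := h3
      obtain ⟨A, ⟨a, hra, haz⟩, hmu⟩ := S.exists_im (IsFun.mem hE hfun hu).1
      have hau : N.E a u := (Mu.iff hE N.std hra).1 hmu
      obtain ⟨V, V', hV, hVa⟩ := S.img_clopen hra.1 haz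
      exact ⟨V, hV.1, ⟨a, hra.1, haz, hVa⟩, (hVa k).2 ⟨u, hu, hau⟩⟩)
  -- the clopen set
  obtain ⟨Va, Va', hVa, hVaiff⟩ := S.img_clopen haom haz
  have hVV : ∀ k, N.E k V₀ ↔ N.E k Va := fun k => (hV₀a k).trans (hVaiff k).symm
  obtain ⟨V, hV⟩ := exists_inter hE W₁ Va'
  obtain ⟨V', hV'⟩ := exists_union hE W₂ Va
  refine ⟨V, V', ⟨IsTop.inter hE hK hW₁ hVa.2.1 hV, IsTop.union hE hK hW₂ hVa.1 hV', ?_⟩, ?_⟩
  · intro k
    rw [hV', hV]
    constructor
    · rintro (h3 | h3)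
      · exact ⟨hK.1 W₂ hW₂ k h3, fun h4 => hdis k ⟨h4.1, h3⟩⟩
      · exact ⟨hK.1 Va hVa.1 k h3, fun h4 => ((hVa.2.2 k).1 h4.2).2 h3⟩
    · rintro ⟨hkK, h3⟩
      by_cases h4 : N.E k Va
      · exact Or.inr h4
      · left
        have h5 : N.E k Va' := (hVa.2.2 k).2 ⟨hkK, h4⟩
        rcases hV₀c k hkK with h6 | h6
        · rcases (hQ k).1 h6 with h7 | h7
          · exact absurd ⟨h7, h5⟩ h3
          · exact h7
        · exact absurd ((hVV k).1 h6) h4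
  · intro k hkR
    rw [hV]
    constructor
    · rintro ⟨h3, _⟩
      by_contra h4
      exact hdis k ⟨h3, hR2 k hkR h4⟩
    · intro h3
      refine ⟨hR1 k hkR h3, (hVa.2.2 k).2 ⟨((S.hR k).1 hkR).1, fun h4 => ?_⟩⟩
      obtain ⟨u, hu, _⟩ := (hVaiff k).1 h4
      exact ((S.hR k).1 hkR).2 ⟨u, hu⟩

end SC

end Pool.Agent.H83.R
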