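import Pool.Agent.H83.R.M4

/-!
# Codes of clopen sets
-/

set_option autoImplicit false
set_option linter.unusedSectionVars false
set_option linter.unusedVariables false

open Pool.Agent.H83.F Pool.Agent.H86

namespace Pool.Agent.H83.R

/-- `c` is the code of the subset `C` of `X = ω* ∖ {z}`: the set of all pairs `(a, b)` with
`a ∉ z`, `b ⊆ a ⊆ ω` and `a* ∩ C = b*`. -/
def IsCodeOf {M : Type} (E : M → M → Prop) (om z X C c : M) : Prop :=
  (∀ y, E y c → ∃ a b, IsPair E y a b) ∧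
  ∀ a b, Rel E c a b ↔ (Sub E a om ∧ ¬ E a z ∧ Sub E b a ∧
    ∀ u, E u X → E a u → (E u C ↔ E b u))

section

variable {M : Type} {E : M → M → Prop} {om : M}

theorem m8_empty {u b : M} (hu : IsUF E om u) (hb : ∀ z, ¬ E z b) : ¬ E b u := by
  intro h
  have h1 := hu.2.2.2.2.1 b om (fun z hz => absurd hz (hb z)) (fun n => ⟨fun hn => ⟨hn, hb n⟩,
    fun hn => hn.1⟩)
  exact h1.1 h hu.2.1

theorem m8_cover (hE : IsZFModel E) {u d d₁ d₂ : M} (hu : IsUF E om u) (hd : E d u)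
    (h1 : Sub E d₁ om) (h2 : Sub E d₂ om) (hcov : ∀ n, E n d → (E n d₁ ∨ E n d₂)) :
    E d₁ u ∨ E d₂ u := by
  by_contra hcon
  push Not at hcon
  obtain ⟨B₁, hB₁⟩ := exists_diff hE om d₁
  obtain ⟨B₂, hB₂⟩ := exists_diff hE om d₂
  have e1 : E B₁ u := by
    by_contra h
    exact hcon.1 ((hu.2.2.2.2.1 d₁ B₁ h1 hB₁).2 h)
  have e2 : E B₂ u := by
    by_contra h
    exact hcon.2 ((hu.2.2.2.2.1 d₂ B₂ h2 hB₂).2 h)
  obtain ⟨C, hC⟩ := exists_inter hE B₁ B₂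
  obtain ⟨D, hD⟩ := exists_inter hE C d
  have e3 : E C u := hu.2.2.2.1 B₁ B₂ C e1 e2 hC
  have e4 : E D u := hu.2.2.2.1 C d D e3 hd hD
  refine m8_empty hu ?_ e4
  intro z hz
  obtain ⟨h3, h4⟩ := (hD z).1 hz
  obtain ⟨h5, h6⟩ := (hC z).1 h3
  rcases hcov z h4 with h7 | h7
  · exact ((hB₁ z).1 h5).2 h7
  · exact ((hB₂ z).1 h6).2 h7

end

section Fml

universe v w

variable {N : Type v} {Ω : Type w} (L : LogicStr N Ω)

/-- `a* ∩ d* ∩ C` is of the form `b*` on `a* ∩ d*` -/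
def m8F (om X a C d : N) : Ω := L.ex fun b =>
  L.and (L.all fun x => L.imp (L.mem x b) (L.mem x om))
    (L.all fun u => L.imp (L.mem u X) (L.imp (L.mem a u) (L.imp (L.mem d u)
      (L.iff (L.mem u C) (L.mem b u)))))

end Fml

namespace SC

variable {N : Nc} (S : SC N)

/-- A clopen set meets `a*`, `a ∉ z`, in a set `b*`.

Proof. Let `P d` say: there is `b ⊆ om` such that for all `u ∈ X` with `a ∈ u` and `d ∈ u`:
`u ∈ C ↔ b ∈ u`. This is an ideal: if `b₁`, `b₂` are as required for `d₁`, `d₂` and `d ⊆ d₁ ∪ d₂`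
then `b = (d₁ ∩ b₁) ∪ (d₂ ∩ b₂)` is as required for `d` (let `u ∋ d`, say `d₁ ∈ u`. If `u ∈ C` then
`b₁ ∈ u`, so `b ∈ u`. If `u ∉ C` then `b₁ ∉ u`, and if `d₂ ∩ b₂ ∈ u` then `d₂, b₂ ∈ u`, so `u ∈ C`, a
contradiction; so `b ∉ u`). For finite `d` there is nothing to show. If `P a` holds with `b`, then
`b ∩ a` is as required. Otherwise by `N.ult_code` there is `u ∋ a` with `¬ P d` for all `d ∈ u`;
`u ∈ X` (`mem_X`). If `u ∈ C` then, `C` being open, there is `d ∈ u` with `v ∈ C` for all `v ∋ d`, and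
`P d` with `b = om`. If `u ∉ C` then `u ∈ C'` and similarly `P d` with `b = ∅`. -/
theorem exists_sect {C C' : N.M} (h : Clop N.E S.X S.τ C C') {a : N.M} (ha : Sub N.E a N.om)
    (haz : ¬ N.E a S.z) :
    ∃ b, Sub N.E b a ∧ ∀ u, N.E u S.X → N.E a u → (N.E u C ↔ N.E b u) := by
  have hE := N.zf
  by_cases hPa : m8F (propStr N.E) N.om S.X a C a
  · obtain ⟨b, hb, hbu⟩ := hPa
    obtain ⟨b', hb'⟩ := exists_inter hE b a
    refine ⟨b', fun z hz => ((hb' z).1 hz).2, fun u hu hau => ?_⟩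
    have huf := ((S.hX.1 u).1 hu).1
    have h1 : N.E u C ↔ N.E b u := hbu u hu hau hau
    rw [h1]
    constructor
    · intro h2
      exact huf.2.2.2.1 b a b' h2 hau hb'
    · intro h2
      exact huf.2.2.1 b' b h2 (fun z hz => ((hb' z).1 hz).1) hb
  exfalso
  obtain ⟨u, hu, hau, hub⟩ := N.ult_code (m8F codeStr 1 2 3 4 0 10) (asn a [N.om, S.X, a, C])
    (P := fun d => m8F (propStr N.E) N.om S.X a C d) (fun x => Iff.rfl) ha hPa (by
      rintro d₁ d₂ d hd₁ hd₂ ⟨b₁, hb₁, hbu₁⟩ ⟨b₂, hb₂, hbu₂⟩ hd hcov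
      obtain ⟨c₁, hc₁⟩ := exists_inter hE d₁ b₁
      obtain ⟨c₂, hc₂⟩ := exists_inter hE d₂ b₂
      obtain ⟨b, hb⟩ := exists_union hE c₁ c₂
      have hs₁ : Sub N.E c₁ N.om := fun z hz => hd₁ z ((hc₁ z).1 hz).1
      have hs₂ : Sub N.E c₂ N.om := fun z hz => hd₂ z ((hc₂ z).1 hz).1
      have hbo : Sub N.E b N.om := fun z hz => ((hb z).1 hz).elim (hs₁ z) (hs₂ z)
      refine ⟨b, hbo, fun u hu hau hdu => ?_⟩
      have huf := ((S.hX.1 u).1 hu).1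
      have e₁ : N.E d₁ u → (N.E u C ↔ N.E b₁ u) := fun h => hbu₁ u hu hau h
      have e₂ : N.E d₂ u → (N.E u C ↔ N.E b₂ u) := fun h => hbu₂ u hu hau h
      constructor
      · intro huC
        rcases m8_cover hE huf hdu hd₁ hd₂ hcov with h1 | h1
        · have h2 := huf.2.2.2.1 d₁ b₁ c₁ h1 ((e₁ h1).1 huC) hc₁
          exact huf.2.2.1 c₁ b h2 (fun z hz => (hb z).2 (Or.inl hz)) hbo
        · have h2 := huf.2.2.2.1 d₂ b₂ c₂ h1 ((e₂ h1).1 huC) hc₂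
          exact huf.2.2.1 c₂ b h2 (fun z hz => (hb z).2 (Or.inr hz)) hbo
      · intro hbu
        rcases m8_cover hE huf hbu hs₁ hs₂ (fun n hn => (hb n).1 hn) with h1 | h1
        · exact (e₁ (huf.2.2.1 c₁ d₁ h1 (fun z hz => ((hc₁ z).1 hz).1) hd₁)).2
            (huf.2.2.1 c₁ b₁ h1 (fun z hz => ((hc₁ z).1 hz).2) hb₁)
        · exact (e₂ (huf.2.2.1 c₂ d₂ h1 (fun z hz => ((hc₂ z).1 hz).1) hd₂)).2
            (huf.2.2.1 c₂ b₂ h1 (fun z hz => ((hc₂ z).1 hz).2) hb₂)) (by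
      intro b B hb hB
      refine ⟨N.om, fun z hz => hz, fun u hu hau hbu => ?_⟩
      exact (Mu.infinite hE N.std ((S.hX.1 u).1 hu).1 ⟨b, hb, hbu⟩ hB).elim)
  have hrl : N.rl a {n | N.E (N.nat n) a} := Rl.of_sub hE N.std ha
  have huX : N.E u S.X := S.mem_X hu ⟨a, hrl, haz⟩ ⟨a, hrl, hau⟩
  by_cases huC : N.E u C
  · obtain ⟨d, hdu, hd⟩ := ((S.hX.2 C).1 h.1).2 u huC
    refine hub d hdu ⟨N.om, fun z hz => hz, fun v hv hav hdv => ?_⟩
    have h1 : N.E v C := hd v hv hdv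
    have h2 : N.E N.om v := ((S.hX.1 v).1 hv).1.2.1
    exact ⟨fun _ => h2, fun _ => h1⟩
  · have huC' : N.E u C' := (h.2.2 u).2 ⟨huX, huC⟩
    obtain ⟨d, hdu, hd⟩ := ((S.hX.2 C').1 h.2.1).2 u huC'
    obtain ⟨b, hb⟩ := exists_diff hE N.om N.om
    have hbe : ∀ z, ¬ N.E z b := fun z hz => ((hb z).1 hz).2 ((hb z).1 hz).1
    refine hub d hdu ⟨b, fun z hz => absurd hz (hbe z), fun v hv hav hdv => ?_⟩
    have h1 : ¬ N.E v C := ((h.2.2 v).1 (hd v hv hdv)).2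
    have h2 : ¬ N.E b v := m8_empty ((S.hX.1 v).1 hv).1 hbe
    exact ⟨fun h => absurd h h1, fun h => absurd h h2⟩

end SC

end Pool.Agent.H83.R
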