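import Pool.Agent.H83.R.M8

/-!
# Codes of clopen sets
-/

set_option autoImplicit false
set_option linter.unusedSectionVars false
set_option linter.unusedVariables false

open Pool.Agent.H83.F Pool.Agent.H86

namespace Pool.Agent.H83.R

section Fml

universe v w

variable {N : Type v} {Ω : Type w} (L : LogicStr N Ω)

/-- `(a, b)` is in the code of `C` -/
def m8bF (om z X C a b : N) : Ω :=
  L.and (L.all fun t => L.imp (L.mem t a) (L.mem t om))
    (L.and (L.imp (L.mem a z) L.bot)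
      (L.and (L.all fun t => L.imp (L.mem t b) (L.mem t a))
        (L.all fun u => L.imp (L.mem u X) (L.imp (L.mem a u)
          (L.iff (L.mem u C) (L.mem b u))))))

end Fml

namespace SC

variable {N : Nc} (S : SC N)

/-- Every set has a code.

Proof. `exists_rel` with the power set of `om`. -/
theorem exists_code (C : N.M) : ∃ c, IsCodeOf N.E N.om S.z S.X C c := by
  obtain ⟨Pw, hPw⟩ := N.zf.power N.om
  obtain ⟨r, hr1, hr2⟩ := exists_rel N.zf (pairCode (fun x y => m8bF codeStr 1 2 3 4 x y) 10)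
    (asn N.om [N.om, S.z, S.X, C])
    (P := fun a b => m8bF (propStr N.E) N.om S.z S.X C a b) (fun z => Iff.rfl) Pw Pw
  refine ⟨r, fun y hy => ?_, fun a b => ?_⟩
  · obtain ⟨x, y', h, _⟩ := hr1 y hy
    exact ⟨x, y', h⟩
  · rw [hr2]
    constructor
    · rintro ⟨-, -, h1, h2, h3, h4⟩
      exact ⟨h1, h2, h3, h4⟩
    · rintro ⟨h1, h2, h3, h4⟩
      exact ⟨(hPw a).2 h1, (hPw b).2 (fun t ht => h1 t (h3 t ht)), h1, h2, h3, h4⟩

/-- The meaning of the code.

Proof. Definitions, `Rl.sub`, `Mu.iff`, `IM.iff`. -/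
theorem cr_of_code {C c : N.M} (hc : IsCodeOf N.E N.om S.z S.X C c) {A B : Set ℕ} :
    N.cr c A B ↔ (N.im S.z A ∧ N.pm B ∧ B ⊆ A ∧
      ∀ u, N.E u S.X → N.mu u A → (N.E u C ↔ N.mu u B)) := by
  constructor
  · rintro ⟨a, b, ha, hb, hab⟩
    obtain ⟨h1, h2, h3, h4⟩ := (hc.2 a b).1 hab
    refine ⟨⟨a, ha, h2⟩, ⟨b, hb⟩, (Rl.sub N.zf N.std hb ha).1 h3, fun u hu hA => ?_⟩
    have e := Mu.iff (u := u) N.zf N.std hb
    exact (h4 u hu ((Mu.iff N.zf N.std ha).1 hA)).trans e.symm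
  · rintro ⟨⟨a, ha, h2⟩, ⟨b, hb⟩, h3, h4⟩
    refine ⟨a, b, ha, hb, (hc.2 a b).2 ⟨ha.1, h2, (Rl.sub N.zf N.std hb ha).2 h3, fun u hu hau => ?_⟩⟩
    have e := Mu.iff (u := u) N.zf N.std hb
    exact (h4 u hu ((Mu.iff N.zf N.std ha).2 hau)).trans e

theorem m8b_coh {C c : N.M} (hc : IsCodeOf N.E N.om S.z S.X C c) {A B A' B' : Set ℕ}
    (h : N.cr c A B) (h' : N.cr c A' B') : ((B ∩ A') \ B').Finite := by
  obtain ⟨h1, h2, h3, h4⟩ := (S.cr_of_code hc).1 h
  obtain ⟨h1', h2', h3', h4'⟩ := (S.cr_of_code hc).1 h'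
  have hA := (IM.iff N.zf N.std S.uf).1 h1
  have hA' := (IM.iff N.zf N.std S.uf).1 h1'
  have hp : N.pm (B ∩ A') := PM.inter N.zf N.std h2 hA'.1
  have hi : N.im S.z (B ∩ A') := (IM.iff N.zf N.std S.uf).2
    ⟨hp, fun hm => hA'.2 (Mu.mono N.zf N.std S.uf hm Set.inter_subset_right hA'.1)⟩
  refine (S.bas_sub hi h2').1 fun u hu hm => ?_
  have huf := ((S.hX.1 u).1 hu).1
  have mB : N.mu u B := Mu.mono N.zf N.std huf hm Set.inter_subset_left h2
  have mA : N.mu u A := Mu.mono N.zf N.std huf mB h3 hA.1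
  have mA' : N.mu u A' := Mu.mono N.zf N.std huf hm Set.inter_subset_right hA'.1
  exact (h4' u hu mA').1 ((h4 u hu mA).2 mB)

/-- The code of a clopen set is a code.

Proof. `dom`: definition. `tot`: `exists_sect`. `coh`: let `(A, B)`, `(A', B')` be in the relation.
By `bas_sub` (for `B ∩ A' ⊆ A`, which is in the ideal, `IM.iff`) it suffices: if `u ∈ X` contains
`B ∩ A'` then it contains `B'`. It contains `A`, `B`, so `u ∈ C`, and it contains `A'`, so `B' ∈ u`. -/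
theorem code_of_clopen {C C' c : N.M} (h : Clop N.E S.X S.τ C C')
    (hc : IsCodeOf N.E N.om S.z S.X C c) : Code N.pm (N.im S.z) (N.cr c) := by
  refine ⟨fun A B hR => ?_, fun A B A' B' hR hR' => ?_, fun A hA hI => ?_⟩
  · obtain ⟨h1, h2, h3, h4⟩ := (S.cr_of_code hc).1 hR
    exact ⟨h1, h3⟩
  · exact ⟨S.m8b_coh hc hR hR', S.m8b_coh hc hR' hR⟩
  · obtain ⟨a, ha, haz⟩ := hI
    obtain ⟨b, hb, hbu⟩ := S.exists_sect h ha.1 haz
    have hrl : N.rl b {n | N.E (N.nat n) b} :=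
      Rl.of_sub N.zf N.std (fun t ht => ha.1 t (hb t ht))
    refine ⟨{n | N.E (N.nat n) b}, a, b, ha, hrl, (hc.2 a b).2 ⟨ha.1, haz, hb, hbu⟩⟩

end SC

end Pool.Agent.H83.R
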