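import Pool.Agent.H83.R.G2
import Pool.Agent.H83.R.G3
import Pool.Agent.H83.R.G4
import Pool.Agent.H83.R.G5
import Pool.Agent.H83.R.G5b
import Pool.Agent.H83.R.G6
import Pool.Agent.H83.R.M10

/-!
# Consistency of ZFC + CH + two remainders that are not homeomorphic
-/

set_option autoImplicit false

namespace Pool.Agent.H83.R

open Pool.Agent.H83.F

theorem exists_Nc : Nonempty Nc := by
  obtain ⟨B⟩ := exists_GB
  exact ⟨{
    M := B.G.M, E := B.G.E, zfc := B.zfc, om := B.om, nat := B.nat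
    E_om := B.std.E_om, E_nat := B.std.E_nat
    p := B.p, x := B.x, Bs := B.Bs, fs := B.fs, fs_rel := B.fs_rel
    ch := B.ch, p_pp := B.p_pp, x_uf := B.x_uf, x_npp := B.x_npp, x_fc := B.x_fc
    x_col := B.x_col, ult := B.ult, b_code := B.b_code, b_cof := B.b_cof, split := B.split }⟩

/-- There is a model of ZFC + CH with a P-point `p` and a non-P-point `x` such that the
Stone-Čech remainders of `ω* ∖ {p}` and `ω* ∖ {x}` are not homeomorphic. -/
theorem main : ∃ (M : Type) (E : M → M → Prop), IsZFCModel E ∧ ∃ w p x : M, IsOmega E w ∧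
    IsCH E w ∧ IsPPoint E w p ∧ IsUF E w x ∧ ¬ IsPPoint E w x ∧ RemDiff E w p x := by
  obtain ⟨N⟩ := exists_Nc
  refine ⟨N.M, N.E, N.zfc, N.om, N.p, N.x, ?_, N.ch, N.p_pp, N.x_uf, N.x_npp, N.remDiff⟩
  refine ⟨⟨N.nat 0, (N.E_om _).2 ⟨0, rfl⟩, fun z hz => ?_⟩, fun y hy => ?_, fun y hy => ?_⟩
  · obtain ⟨m, hm, _⟩ := (N.E_nat z 0).1 hz
    exact absurd hm (Nat.not_lt_zero m)
  · obtain ⟨n, rfl⟩ := (N.E_om y).1 hy
    refine ⟨N.nat (n + 1), (N.E_om _).2 ⟨n + 1, rfl⟩, fun z => ?_⟩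
    rw [N.E_nat, N.E_nat]
    constructor
    · rintro ⟨m, hm, rfl⟩
      rcases Nat.lt_succ_iff_lt_or_eq.1 hm with h | rfl
      · exact Or.inl ⟨m, h, rfl⟩
      · exact Or.inr rfl
    · rintro (⟨m, hm, rfl⟩ | rfl)
      · exact ⟨m, hm.trans (Nat.lt_succ_self n), rfl⟩
      · exact ⟨n, Nat.lt_succ_self n, rfl⟩
  · obtain ⟨n, rfl⟩ := (N.E_om y).1 hy
    rcases n with _ | n
    · left
      intro z hz
      obtain ⟨m, hm, _⟩ := (N.E_nat z 0).1 hz
      exact absurd hm (Nat.not_lt_zero m)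
    · refine Or.inr ⟨N.nat n, (N.E_om _).2 ⟨n, rfl⟩, fun z => ?_⟩
      rw [N.E_nat, N.E_nat]
      constructor
      · rintro ⟨m, hm, rfl⟩
        rcases Nat.lt_succ_iff_lt_or_eq.1 hm with h | rfl
        · exact Or.inl ⟨m, h, rfl⟩
        · exact Or.inr rfl
      · rintro (⟨m, hm, rfl⟩ | rfl)
        · exact ⟨m, hm.trans (Nat.lt_succ_self n), rfl⟩
        · exact ⟨n, Nat.lt_succ_self n, rfl⟩

end Pool.Agent.H83.R
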