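import Pool.Agent.H83.R.ActB
import Pool.Agent.H83.R.DensA

/-!
# The generic clopen sets split
-/

set_option autoImplicit false

open Cardinal

namespace Pool.Agent.H83.R

namespace Cd

/-- Let `R A B r` say that the condition `r` forces that a clopen set `C` meets `A*` in `B*`.
If `R` is invariant under the automorphisms at coordinate `i` and `C` is not compact, then no
condition `q` forces that `C ∖ Ds*` is contained in the `i`-th generic clopen set `H i`, or that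
it is disjoint from `H i` (the alternative `w`).

Proof. Let `s = {A | ∃ B, (i, A, B) ∈ q.H}`, `D = (q.a)ᶜ` and `π = act i s D`; `A \ D` is finite for
`A ∈ s` (`Hdom`), so `π` preserves conditions (`V_act`). `π q` has the same stems as `q` (`act_a`,
`act_T`, and `fl i s D` fixes all elements of `q.H`, so `(π q).H = q.H`), hence by `exists_union`
there is a condition `r₀ ≤ q, π q`. The set `D' = D ∪ Ds` satisfies `(D' ∩ r₀.a).Finite`. By `hnc`
there are `r₁ ≤ r₀` and `A, B` with `R A B r₁`, `(A ∩ r₁.a).Finite`, `B ⊆ A`, `(B \ D').Infinite`.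
By `exists_H` there are `r₂ ≤ r₁` and `B'` with `(i, A, B') ∈ r₂.H`. Now `R A B r₂`, and
`R A B (π r₂)` by `hinv`, and `π r₂ ≤ q` (`act_le`, `act_act`: `r₂ ≤ π q`). `A ∉ s` since `A \ D` is
infinite. So `(i, A, symmDiff B' (A \ D)) ∈ (π r₂).H` (`act_H`). Apply `hfor` to `r₂` and `π r₂`:
for `w = false` the sets `(B ∩ B') \ Ds` and `(B ∩ symmDiff B' (A \ D)) \ Ds` are finite; but they
cover `B \ D'` (outside of `D`, the sets `B'` and `symmDiff B' (A \ D)` are complementary in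
`A`). Contradiction. The same for `w = true`. -/
theorem split_key (i : J) (R : Set ℕ → Set ℕ → Cd → Prop)
    (hmono : ∀ A B r r', R A B r → V r → V r' → r' ≤ r → R A B r')
    (hinv : ∀ (s : Set (Set ℕ)) (D : Set ℕ), (∀ A ∈ s, (A \ D).Finite) →
      ∀ A B r, V r → R A B r → R A B (act i s D r))
    {q : Cd} (hq : V q) {Ds : Set ℕ} (hDs : (Ds ∩ q.a).Finite)
    (hnc : ∀ r, V r → r ≤ q → ∀ D, (D ∩ r.a).Finite →
      ∃ r', V r' ∧ r' ≤ r ∧ ∃ A B, R A B r' ∧ (A ∩ r'.a).Finite ∧ B ⊆ A ∧ (B \ D).Infinite)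
    (w : Bool)
    (hfor : ∀ r, V r → r ≤ q → ∀ A B B', R A B r → (i, A, B') ∈ r.H →
      (if w then ((B \ B') \ Ds).Finite else ((B ∩ B') \ Ds).Finite)) : False := by
  classical
  set D : Set ℕ := (q.a)ᶜ with hDdef
  set s : Set (Set ℕ) := {A | ∃ B, (i, A, B) ∈ q.H} with hsdef
  have hfin : ∀ A ∈ s, (A \ D).Finite := by
    rintro A ⟨B, hAB⟩
    refine (hq.1.Hdom i A B hAB).1.subset ?_
    rintro x ⟨hx1, hx2⟩
    refine ⟨hx1, ?_⟩
    by_contra hx3
    exact hx2 hx3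
  have hfix : ∀ x ∈ q.H, fl i s D x = x := by
    rintro ⟨i', A, B⟩ hx
    unfold fl
    rw [if_neg]
    rintro ⟨h1, h2⟩
    simp only at h1 h2
    subst h1
    exact h2 ⟨B, hx⟩
  have hHq : (act i s D q).H = q.H := by
    rw [act_H]
    ext x
    constructor
    · rintro ⟨y, hy, rfl⟩
      rw [hfix y hy]
      exact hy
    · intro hx
      exact ⟨x, hx, hfix x hx⟩
  have hVq : V (act i s D q) := V_act i s D hfin hq
  obtain ⟨r₀, hr₀, hr₀q, hr₀p⟩ := exists_union hq hVq (act_a i s D q).symm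
    (by intro j _ _ A B; rw [hHq]) (by intro β _ _ A B; rw [act_T])
  have hD' : ((D ∪ Ds) ∩ r₀.a).Finite := by
    refine (hr₀q.1.union hDs).subset ?_
    rintro x ⟨hx1 | hx1, hx2⟩
    · exact Or.inl ⟨hx2, hx1⟩
    · by_cases hx3 : x ∈ q.a
      · exact Or.inr ⟨hx1, hx3⟩
      · exact Or.inl ⟨hx2, hx3⟩
  obtain ⟨r₁, hr₁, hr₁r, A, B, hR, hA, hBA, hinf⟩ := hnc r₀ hr₀ hr₀q (D ∪ Ds) hD'
  obtain ⟨r₂, hr₂, hr₂r, B', hB'⟩ := exists_H hr₁ i hA
  have hR2 : R A B r₂ := hmono A B r₁ r₂ hR hr₁ hr₂ hr₂r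
  have hR3 : R A B (act i s D r₂) := hinv s D hfin A B r₂ hr₂ hR2
  have hV3 : V (act i s D r₂) := V_act i s D hfin hr₂
  have hle2 : r₂ ≤ q := (hr₂r.trans hr₁r).trans hr₀q
  have hle3 : act i s D r₂ ≤ q := by
    have h1 : r₂ ≤ act i s D q := (hr₂r.trans hr₁r).trans hr₀p
    have h2 := (act_le i s D r₂ (act i s D q)).2 h1
    rwa [act_act] at h2
  have hAs : A ∉ s := by
    intro hAs
    apply hinf
    refine (hfin A hAs).subset ?_
    rintro x ⟨hx1, hx2⟩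
    exact ⟨hBA hx1, fun hx3 => hx2 (Or.inl hx3)⟩
  have hmem : (i, A, symmDiff B' (A \ D)) ∈ (act i s D r₂).H := by
    rw [act_H]
    refine ⟨(i, A, B'), hB', ?_⟩
    unfold fl
    rw [if_pos ⟨rfl, hAs⟩]
  have h1 := hfor r₂ hr₂ hle2 A B B' hR2 hB'
  have h2 := hfor (act i s D r₂) hV3 hle3 A B _ hR3 hmem
  apply hinf
  cases w with
  | false =>
    simp only [Bool.false_eq_true, if_false] at h1 h2
    refine (h1.union h2).subset ?_
    rintro x ⟨hx1, hx2⟩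
    have hx3 : x ∉ D := fun h => hx2 (Or.inl h)
    have hx4 : x ∉ Ds := fun h => hx2 (Or.inr h)
    by_cases hx5 : x ∈ B'
    · exact Or.inl ⟨⟨hx1, hx5⟩, hx4⟩
    · exact Or.inr ⟨⟨hx1, Or.inr ⟨⟨hBA hx1, hx3⟩, hx5⟩⟩, hx4⟩
  | true =>
    simp only [if_true] at h1 h2
    refine (h1.union h2).subset ?_
    rintro x ⟨hx1, hx2⟩
    have hx3 : x ∉ D := fun h => hx2 (Or.inl h)
    have hx4 : x ∉ Ds := fun h => hx2 (Or.inr h)
    by_cases hx5 : x ∈ B'
    · refine Or.inr ⟨⟨hx1, ?_⟩, hx4⟩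
      rintro (⟨_, h3⟩ | ⟨_, h3⟩)
      · exact h3 ⟨hBA hx1, hx3⟩
      · exact h3 hx5
    · exact Or.inl ⟨⟨hx1, hx5⟩, hx4⟩

end Cd

end Pool.Agent.H83.R
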