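import Pool.Agent.H83.R.Q
import Pool.Agent.H83.R.Spl

/-!
# Splitting
-/

set_option autoImplicit false

open Cardinal

namespace Pool.Agent.H83.R

open Pool.Agent.H86

/-- **Splitting.** If `q` forces that `R β` is a noncompact clopen set for every `β`, then some
generic clopen set splits all of them.

Proof. By `exists_inv` for `Z = Lam × Set ℕ × Set ℕ` (`#Z ≤ #Lam` as `continuum ≤ #Lam`) and
`s₀ = ∅` get `i`. Fix `β`, `r ≤ q`, `D`. If one of the two statements fails, apply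
`Cd.split_key` to `r.1`, `Ds = D`, `R' A B t = ∃ ht : t.V, (R β A B).holds ⟨t, ht⟩`, `w = false` for the
first and `w = true` for the second statement. -/
theorem split (q : Q) (R : Lam → Set ℕ → Set ℕ → Om Q)
    (hnc : ∀ β, ∀ r ≤ q, ∀ D, (D ∩ r.1.a).Finite →
      ∃ r' ≤ r, ∃ A B, (R β A B).holds r' ∧ (A ∩ r'.1.a).Finite ∧ B ⊆ A ∧ (B \ D).Infinite) :
    ∃ i : J, ∀ β, ∀ r ≤ q, ∀ D, (D ∩ r.1.a).Finite →
      (∃ r' ≤ r, ∃ A B B', (R β A B).holds r' ∧ (i, A, B') ∈ r'.1.H ∧ ((B ∩ B') \ D).Infinite) ∧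
      (∃ r' ≤ r, ∃ A B B', (R β A B).holds r' ∧ (i, A, B') ∈ r'.1.H ∧
        ((B \ B') \ D).Infinite) := by
  have hcL : Cardinal.continuum ≤ #Lam := by rw [mk_Lam]; exact Order.le_succ _
  have hL0 : Cardinal.aleph0 ≤ #Lam := Cardinal.aleph0_le_continuum.trans hcL
  have hZ : #(Lam × Set ℕ × Set ℕ) ≤ #Lam := by
    rw [Cardinal.mk_prod, Cardinal.lift_id, Cardinal.lift_id, Cardinal.mk_prod, Cardinal.lift_id,
      Cardinal.mk_set, Cardinal.mk_nat, Cardinal.two_power_aleph0,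
      Cardinal.continuum_mul_self]
    refine (mul_le_mul' le_rfl hcL).trans ?_
    rw [Cardinal.mul_eq_self hL0]
  obtain ⟨i, _, hi⟩ := exists_inv hZ (fun z => R z.1 z.2.1 z.2.2) (∅ : Set J) (by simp)
  refine ⟨i, fun β r hr D hD => ?_⟩
  have key : ∀ w : Bool, ∃ r' ≤ r, ∃ A B B', (R β A B).holds r' ∧ (i, A, B') ∈ r'.1.H ∧
      (if w then ((B \ B') \ D).Infinite else ((B ∩ B') \ D).Infinite) := by
    intro w
    by_contra hc
    refine Cd.split_key i (fun A B t => ∃ ht : t.V, (R β A B).holds ⟨t, ht⟩) ?_ ?_ r.2 hD ?_ w ?_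
    · intro A B t t' ht0 _ ht' hle
      obtain ⟨ht, h⟩ := ht0
      exact ⟨ht', (R β A B).mono (p := ⟨t, ht⟩) (q := ⟨t', ht'⟩) hle h⟩
    · intro s D' hs A B t ht h0
      obtain ⟨_, h⟩ := h0
      exact ⟨Cd.V_act i s D' hs ht, hi s D' hs (β, A, B) ⟨t, ht⟩ ⟨_, Cd.V_act i s D' hs ht⟩ rfl h⟩
    · intro t ht hle D' hD'
      obtain ⟨r', hr', A, B, h1, h2, h3, h4⟩ := hnc β ⟨t, ht⟩ (le_trans hle hr) D' hD'
      exact ⟨r'.1, r'.2, hr', A, B, ⟨r'.2, h1⟩, h2, h3, h4⟩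
    · intro t ht hle A B B' h0 hH
      obtain ⟨_, h⟩ := h0
      have h1 : ¬ (if w then ((B \ B') \ D).Infinite else ((B ∩ B') \ D).Infinite) :=
        fun h2 => hc ⟨⟨t, ht⟩, hle, A, B, B', h, hH, h2⟩
      cases w
      · simpa [Set.not_infinite] using h1
      · simpa [Set.not_infinite] using h1
  constructor
  · obtain ⟨r', h1, A, B, B', h2, h3, h4⟩ := key false
    exact ⟨r', h1, A, B, B', h2, h3, by simpa using h4⟩
  · obtain ⟨r', h1, A, B, B', h2, h3, h4⟩ := key true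
    exact ⟨r', h1, A, B, B', h2, h3, by simpa using h4⟩

end Pool.Agent.H83.R
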