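import Pool.Agent.H83.R.QB
import Pool.Agent.H83.R.QC
import Pool.Agent.H83.F.Frc2

/-!
# Names: sets of natural numbers, families, relations on sets of natural numbers

The tools are in `Pool/Agent/H83/F/Frc.lean` (`setN`, `fmem_setN`, `fmem_setN_o`, `holds_fPr`,
`holds_fRel`, `ball_o`, `bex_o`, ...), `Pool/Agent/H86/Names.lean` and `Pool/Agent/H86/Rel.lean`
(`feq_opair_iff`, `fmem_upair`, ...). Forcing is read as: `fmem X Y p`: `p` forces `X ∈ Y`;
`feq X Y p`: `p` forces `X = Y`.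
-/

set_option autoImplicit false
set_option linter.unusedSectionVars false
set_option linter.unusedVariables false

namespace Pool.Agent.H83.R

open Pool.Agent.H86 Pool.Agent.H86.Name Pool.Agent.H83.F

/-- canonical name of a set of natural numbers -/
noncomputable def rN (A : Set ℕ) : Name Q :=
  setN A (fun n => ((n : ℕ) : Ordinal.{0})) (fun _ => ⊤)

/-- canonical name of the set of the members of a family of names -/
def famN {ι : Type} (x : ι → Name Q) : Name Q := Name.mk ι x (fun _ => ⊤)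

theorem fmem_rN {A : Set ℕ} {X : Name Q} {p : Q} :
    fmem X (rN A) p ↔ ∀ q ≤ p, ∃ r ≤ q, ∃ n ∈ A, feq X (oName Q ((n : ℕ) : Ordinal.{0})) r := by
  unfold rN
  rw [fmem_setN]
  refine forall_congr' fun q => forall_congr' fun _ => exists_congr fun r =>
    and_congr_right fun _ => ?_
  constructor
  · rintro ⟨i, -, h⟩
    exact ⟨i.1, i.2, h⟩
  · rintro ⟨n, hn, h⟩
    exact ⟨⟨n, hn⟩, le_top, h⟩

theorem fmem_o_rN {A : Set ℕ} {n : ℕ} {p : Q} :
    fmem (oName Q (n : Ordinal.{0})) (rN A) p ↔ n ∈ A := by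
  rw [fmem_rN]
  constructor
  · intro h
    obtain ⟨r, hr, m, hm, h1⟩ := h p le_rfl
    rw [feq_oName_iff] at h1
    have h2 : n = m := by exact_mod_cast h1
    rwa [h2]
  · intro h q hq
    exact ⟨q, le_rfl, n, h, feq_refl _ _⟩

theorem feq_rN {A B : Set ℕ} {p : Q} : feq (rN A) (rN B) p ↔ A = B := by
  constructor
  · intro h
    ext n
    rw [← fmem_o_rN (A := A) (p := p), ← fmem_o_rN (A := B) (p := p)]
    exact ⟨fmem_congr_right h, fmem_congr_right (feq_symm h)⟩
  · rintro rfl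
    exact feq_refl _ _

theorem fmem_famN {ι : Type} {x : ι → Name Q} {X : Name Q} {p : Q} :
    fmem X (famN x) p ↔ ∀ q ≤ p, ∃ r ≤ q, ∃ i, feq X (x i) r := by
  constructor
  · intro h q hq
    obtain ⟨r, hr, i, -, h1⟩ := h q hq
    exact ⟨r, hr, i, h1⟩
  · intro h q hq
    obtain ⟨r, hr, i, h1⟩ := h q hq
    exact ⟨r, hr, i, le_top, h1⟩

theorem fmem_famN_self {ι : Type} (x : ι → Name Q) (i : ι) (p : Q) : fmem (x i) (famN x) p := by
  rw [fmem_famN]
  exact fun q hq => ⟨q, le_rfl, i, feq_refl _ _⟩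

/-- No new sets of natural numbers.

Proof. Use `Q_seq` with `P n x r`, `x : Bool`: `x = true` and `fmem (oName Q n) X r`, or `x = false`
and no `r' ≤ r` satisfies `fmem (oName Q n) X r'`. The resulting condition `r ≤ q` decides
`oName Q n ∈ X` for every `n`; take `A = {n | fmem (oName Q n) X r}`. For `feq X (rN A) r` use
`feq_of_forall'`: if `s ≤ r` and `fmem T X s` then by `h` densely below `s` `T` is forced to be
some `oName Q n` (`fmem_oName`, `Ordinal.lt_omega0`), so `n ∈ A`. -/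
theorem real_dec {X : Name Q} {q : Q}
    (h : ∀ Z : Name Q, ∀ r ≤ q, fmem Z X r → fmem Z (oName Q Ordinal.omega0) r) :
    ∃ r ≤ q, ∃ A, feq X (rN A) r := by
  obtain ⟨r, hr, hdec⟩ := Q_seq (X := fun _ => Bool)
    (fun n x r => (x = true → fmem (oName Q ((n : ℕ) : Ordinal.{0})) X r) ∧
      (x = false → ∀ r' ≤ r, ¬ fmem (oName Q ((n : ℕ) : Ordinal.{0})) X r'))
    (fun n x p q hqp hP => ⟨fun hx => fmem_mono hqp (hP.1 hx),
      fun hx r' hr' => hP.2 hx r' (hr'.trans hqp)⟩) q (by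
      intro n p _
      by_cases hex : ∃ r ≤ p, fmem (oName Q ((n : ℕ) : Ordinal.{0})) X r
      · obtain ⟨r, hr, h1⟩ := hex
        exact ⟨r, hr, true, fun _ => h1, fun h0 => Bool.noConfusion h0⟩
      · push Not at hex
        exact ⟨p, le_rfl, false, fun h0 => Bool.noConfusion h0, fun _ r' hr' => hex r' hr'⟩)
  refine ⟨r, hr, {n : ℕ | fmem (oName Q ((n : ℕ) : Ordinal.{0})) X r}, ?_⟩
  refine feq_of_forall' _ _ _ fun T s hs => ?_
  constructor
  · intro hT
    rw [fmem_rN]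
    intro q' hq'
    obtain ⟨r', hr', β, hβ, h1⟩ := fmem_oName.1 (h T s (hs.trans hr) hT) q' hq'
    obtain ⟨n, rfl⟩ := Ordinal.lt_omega0.1 hβ
    refine ⟨r', hr', n, ?_, h1⟩
    have h2 : fmem (oName Q ((n : ℕ) : Ordinal.{0})) X r' :=
      fmem_congr_left h1 (fmem_mono (hr'.trans hq') hT)
    obtain ⟨x, hx1, hx2⟩ := hdec n
    cases x with
    | true => exact hx1 rfl
    | false => exact absurd h2 (hx2 rfl r' (hr'.trans (hq'.trans hs)))
  · intro hT
    apply fmem_reg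
    intro q' hq'
    obtain ⟨r', hr', n, hn, h1⟩ := fmem_rN.1 hT q' hq'
    exact ⟨r', hr', fmem_congr_left (feq_symm h1) (fmem_mono (hr'.trans (hq'.trans hs)) hn)⟩

/-- name of the power set of `ω` -/
noncomputable def RN : Name Q := famN rN

/-- name of a set of sets of natural numbers -/
noncomputable def k1 (S : Set ℕ → Prop) : Name Q :=
  famN (fun t : {A : Set ℕ // S A} => rN t.1)

/-- name of a binary relation between sets of natural numbers -/
noncomputable def k2 (S : Set ℕ → Set ℕ → Prop) : Name Q :=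
  famN (fun t : {t : Set ℕ × Set ℕ // S t.1 t.2} => opair (rN t.1.1) (rN t.1.2))

/-- name of a ternary relation between sets of natural numbers -/
noncomputable def k3 (S : Set ℕ → Set ℕ → Set ℕ → Prop) : Name Q :=
  famN (fun t : {t : Set ℕ × Set ℕ × Set ℕ // S t.1 t.2.1 t.2.2} =>
    opair (rN t.1.1) (opair (rN t.1.2.1) (rN t.1.2.2)))

/-- name of a quaternary relation between sets of natural numbers -/
noncomputable def k4 (S : Set ℕ → Set ℕ → Set ℕ → Set ℕ → Prop) : Name Q :=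
  famN (fun t : {t : Set ℕ × Set ℕ × Set ℕ × Set ℕ // S t.1 t.2.1 t.2.2.1 t.2.2.2} =>
    opair (rN t.1.1) (opair (rN t.1.2.1) (opair (rN t.1.2.2.1) (rN t.1.2.2.2))))

section Fml

universe v w

variable {N : Type v} {Ω : Type w} (L : LogicStr N Ω)

/-- `(x, (y, z)) ∈ c` -/
def fRel3 (c x y z : N) : Ω := L.ex fun u => L.and (fPr L u y z) (fRel L c x u)

/-- `(x, (y, (z, t))) ∈ c` -/
def fRel4 (c x y z t : N) : Ω := L.ex fun u => L.and (fPr L u z t) (fRel3 L c x y u)

end Fml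

theorem holds_fRel3 {C X Y Z : Name Q} {p : Q} :
    (fRel3 (FS Q) C X Y Z).holds p ↔ fmem (opair X (opair Y Z)) C p := by
  constructor
  · intro h
    apply fmem_reg
    intro q hq
    obtain ⟨r, hr, U, h1, h2⟩ := h q hq
    exact ⟨r, hr, RR_congr (feq_refl _ _) (feq_refl _ _) (holds_fPr.1 h1) (holds_fRel.1 h2)⟩
  · intro h q hq
    exact ⟨q, le_rfl, opair Y Z, holds_fPr.2 (feq_refl _ _), holds_fRel.2 (fmem_mono hq h)⟩

theorem holds_fRel4 {C X Y Z T : Name Q} {p : Q} :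
    (fRel4 (FS Q) C X Y Z T).holds p ↔ fmem (opair X (opair Y (opair Z T))) C p := by
  constructor
  · intro h
    apply fmem_reg
    intro q hq
    obtain ⟨r, hr, U, h1, h2⟩ := h q hq
    exact ⟨r, hr, fmem_congr_left (opair_congr (feq_refl _ _)
      (opair_congr (feq_refl _ _) (holds_fPr.1 h1))) (holds_fRel3.1 h2)⟩
  · intro h q hq
    exact ⟨q, le_rfl, opair Z T, holds_fPr.2 (feq_refl _ _), holds_fRel3.2 (fmem_mono hq h)⟩

theorem fmem_k1 {S : Set ℕ → Prop} {A : Set ℕ} {p : Q} : fmem (rN A) (k1 S) p ↔ S A := by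
  unfold k1
  constructor
  · intro h
    obtain ⟨r, hr, ⟨B, hB⟩, h1⟩ := fmem_famN.1 h p le_rfl
    rw [feq_rN] at h1
    rwa [h1]
  · intro h
    exact fmem_famN_self (fun t : {A : Set ℕ // S A} => rN t.1) ⟨A, h⟩ p

theorem fmem_k2 {S : Set ℕ → Set ℕ → Prop} {A B : Set ℕ} {p : Q} :
    fmem (opair (rN A) (rN B)) (k2 S) p ↔ S A B := by
  unfold k2
  constructor
  · intro h
    obtain ⟨r, hr, ⟨⟨A', B'⟩, hB⟩, h1⟩ := fmem_famN.1 h p le_rfl
    rw [feq_opair_iff, feq_rN, feq_rN] at h1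
    rwa [h1.1, h1.2]
  · intro h
    exact fmem_famN_self (fun t : {t : Set ℕ × Set ℕ // S t.1 t.2} => opair (rN t.1.1) (rN t.1.2))
      ⟨(A, B), h⟩ p

theorem fmem_k3 {S : Set ℕ → Set ℕ → Set ℕ → Prop} {A B C : Set ℕ} {p : Q} :
    fmem (opair (rN A) (opair (rN B) (rN C))) (k3 S) p ↔ S A B C := by
  unfold k3
  constructor
  · intro h
    obtain ⟨r, hr, ⟨⟨A', B', C'⟩, hB⟩, h1⟩ := fmem_famN.1 h p le_rfl
    rw [feq_opair_iff, feq_opair_iff, feq_rN, feq_rN, feq_rN] at h1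
    rwa [h1.1, h1.2.1, h1.2.2]
  · intro h
    exact fmem_famN_self (fun t : {t : Set ℕ × Set ℕ × Set ℕ // S t.1 t.2.1 t.2.2} =>
      opair (rN t.1.1) (opair (rN t.1.2.1) (rN t.1.2.2))) ⟨(A, B, C), h⟩ p

theorem fmem_k4 {S : Set ℕ → Set ℕ → Set ℕ → Set ℕ → Prop} {A B C D : Set ℕ} {p : Q} :
    fmem (opair (rN A) (opair (rN B) (opair (rN C) (rN D)))) (k4 S) p ↔ S A B C D := by
  unfold k4
  constructor
  · intro h
    obtain ⟨r, hr, ⟨⟨A', B', C', D'⟩, hB⟩, h1⟩ := fmem_famN.1 h p le_rfl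
    rw [feq_opair_iff, feq_opair_iff, feq_opair_iff, feq_rN, feq_rN, feq_rN, feq_rN] at h1
    rwa [h1.1, h1.2.1, h1.2.2.1, h1.2.2.2]
  · intro h
    exact fmem_famN_self
      (fun t : {t : Set ℕ × Set ℕ × Set ℕ × Set ℕ // S t.1 t.2.1 t.2.2.1 t.2.2.2} =>
        opair (rN t.1.1) (opair (rN t.1.2.1) (opair (rN t.1.2.2.1) (rN t.1.2.2.2))))
      ⟨(A, B, C, D), h⟩ p

/-- Evaluations of formulas are compatible with forced equality. Use: to prove
`Cg fun x => myF (FS Q) x a b` write `cg_code (myF codeStr 0 1 2 10) (fun i => [a, b].getD (i - 1) a)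
(fun x => rfl)` (the last argument of `codeStr` formulas is the first fresh variable).

Proof. `eval_eq_iff`. -/
theorem cg_code (φ : Fml) (f : ℕ → Name Q) {A : Name Q → Om Q}
    (h : ∀ x, A x = φ.eval (FS Q) (upd f 0 x)) : Cg A := by
  intro x y p hxy hx
  rw [h x] at hx
  rw [h y]
  refine (eval_eq_iff φ _ _ p fun i _ => ?_).1 hx
  by_cases h0 : i = 0
  · subst h0
    rw [upd_same, upd_same]
    exact hxy
  · rw [upd_ne _ _ h0, upd_ne _ _ h0]
    exact feq_refl _ _

/-- Bounded quantifiers over families (as `ball_o`, `bex_o`). -/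
theorem ball_fam {ι : Type} {x : ι → Name Q} {A : Name Q → Om Q} (hA : Cg A) {p : Q} :
    (ball (FS Q) (famN x) A).holds p ↔ ∀ i, (A (x i)).holds p := by
  constructor
  · intro h i
    exact h (x i) p le_rfl (fmem_famN_self x i p)
  · intro h X q hq hX
    apply (A X).reg
    intro r hr
    obtain ⟨s, hs, i, h1⟩ := fmem_famN.1 hX r hr
    exact ⟨s, hs, hA _ _ _ (feq_symm h1) ((A _).mono (hs.trans (hr.trans hq)) (h i))⟩

/-- Bounded quantifiers over families. -/
theorem bex_fam {ι : Type} {x : ι → Name Q} {A : Name Q → Om Q} (hA : Cg A) {p : Q} :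
    (bex (FS Q) (famN x) A).holds p ↔ ∀ q ≤ p, ∃ r ≤ q, ∃ i, (A (x i)).holds r := by
  constructor
  · intro h q hq
    obtain ⟨r, hr, X, h1, h2⟩ := h q hq
    obtain ⟨s, hs, i, h3⟩ := fmem_famN.1 h1 r le_rfl
    exact ⟨s, hs.trans hr, i, hA _ _ _ h3 ((A X).mono hs h2)⟩
  · intro h q hq
    obtain ⟨r, hr, i, h1⟩ := h q hq
    exact ⟨r, hr, _, fmem_famN_self x i r, h1⟩

end Pool.Agent.H83.R
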