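import Pool.Agent.H83.R.Nam

/-!
# Names of the generic objects
-/

set_option autoImplicit false
set_option linter.unusedSectionVars false
set_option linter.unusedVariables false

namespace Pool.Agent.H83.R

open Pool.Agent.H86 Pool.Agent.H86.Name Pool.Agent.H83.F

/-- name of the generic P-point -/
noncomputable def pN : Name Q :=
  Name.mk {t : Set ℕ × Q // (t.2.1.a \ t.1).Finite} (fun t => rN t.1.1) (fun t => t.1.2)

/-- Proof. If `fmem (rN A) pN p` then densely below `p` there is `r` with `(r.a \ A).Finite`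
(`feq_rN`). If `p.1.a \ A` were infinite, take `q ≤ p` with `q.a = p.a \ A` (`Cd.exists_a`) and
`r ≤ q` with `(r.a \ A).Finite`: then `r.a` is finite, a contradiction. -/
theorem fmem_pN {A : Set ℕ} {p : Q} : fmem (rN A) pN p ↔ (p.1.a \ A).Finite := by
  constructor
  · intro h
    by_contra hinf
    obtain ⟨q, hq, hqp, hqa, -, -, -⟩ := Cd.exists_a p.2 (b := p.1.a \ A) hinf
      (Set.Finite.subset Set.finite_empty fun x hx => hx.2 hx.1.1)
    obtain ⟨r, hr, ⟨⟨A', t⟩, ht⟩, hrt, hA⟩ := h ⟨q, hq⟩ hqp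
    have hA' : A = A' := feq_rN.1 hA
    subst hA'
    have h1 : (r.1.a \ q.a).Finite := hr.1
    have h2 : (r.1.a \ t.1.a).Finite := hrt.1
    have h3 : (t.1.a \ A).Finite := ht
    refine r.2.1.inf (((h1.union h2).union h3).subset ?_)
    intro x hx
    by_cases hx1 : x ∈ q.a
    · rw [hqa] at hx1
      by_cases hx2 : x ∈ t.1.a
      · exact Or.inr ⟨hx2, hx1.2⟩
      · exact Or.inl (Or.inr ⟨hx, hx2⟩)
    · exact Or.inl (Or.inl ⟨hx, hx1⟩)
  · intro h q hq
    refine ⟨q, le_rfl, ⟨(A, q), ?_⟩, le_rfl, feq_refl _ _⟩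
    refine ((hq.1 : (q.1.a \ p.1.a).Finite).union h).subset ?_
    rintro x ⟨hx1, hx2⟩
    by_cases hx : x ∈ p.1.a
    · exact Or.inr ⟨hx, hx2⟩
    · exact Or.inl ⟨hx1, hx⟩

theorem fmem_pN_real {X : Name Q} {p : Q} (h : fmem X pN p) : fmem X RN p := by
  intro q hq
  obtain ⟨r, hr, t, hrt, hX⟩ := h q hq
  exact ⟨r, hr, t.1.1, le_top, hX⟩

/-- name of the non-P-point -/
noncomputable def xN : Name Q := k1 (fun A => A ∈ xU)

/-- name of the `i`-th generic clopen set -/
noncomputable def HN (i : J) : Name Q :=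
  relN {t : (Set ℕ × Set ℕ) × Q // (i, t.1.1, t.1.2) ∈ t.2.1.H} (fun t => rN t.1.1.1)
    (fun t => rN t.1.1.2) (fun t => t.1.2)

/-- Proof. `fmem_relN`, `feq_rN`. -/
theorem RR_HN {i : J} {A B : Set ℕ} {p : Q} :
    RR (HN i) (rN A) (rN B) p ↔ ∀ q ≤ p, ∃ r ≤ q, (i, A, B) ∈ r.1.H := by
  unfold RR HN
  rw [fmem_relN]
  refine forall_congr' fun q => forall_congr' fun _ => exists_congr fun r =>
    and_congr_right fun _ => ?_
  constructor
  · rintro ⟨⟨⟨⟨A', B'⟩, t⟩, ht⟩, hrt, hA, hB⟩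
    have hA' : A = A' := feq_rN.1 hA
    have hB' : B = B' := feq_rN.1 hB
    subst hA' hB'
    exact hrt.2.1 ht
  · intro h
    exact ⟨⟨((A, B), r), h⟩, le_rfl, feq_refl _ _, feq_refl _ _⟩

/-- name of the `β`-th dominating clopen set -/
noncomputable def bN (β : Lam) : Name Q :=
  relN {t : (Set ℕ × Set ℕ) × Q // (β, t.1.1, t.1.2) ∈ t.2.1.T} (fun t => rN t.1.1.1)
    (fun t => rN t.1.1.2) (fun t => t.1.2)

theorem RR_bN {β : Lam} {A B : Set ℕ} {p : Q} :
    RR (bN β) (rN A) (rN B) p ↔ ∀ q ≤ p, ∃ r ≤ q, (β, A, B) ∈ r.1.T := by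
  unfold RR bN
  rw [fmem_relN]
  refine forall_congr' fun q => forall_congr' fun _ => exists_congr fun r =>
    and_congr_right fun _ => ?_
  constructor
  · rintro ⟨⟨⟨⟨A', B'⟩, t⟩, ht⟩, hrt, hA, hB⟩
    have hA' : A = A' := feq_rN.1 hA
    have hB' : B = B' := feq_rN.1 hB
    subst hA' hB'
    exact hrt.2.2.1 ht
  · intro h
    exact ⟨⟨((A, B), r), h⟩, le_rfl, feq_refl _ _, feq_refl _ _⟩

/-- name of the dominating family -/
noncomputable def BsN : Name Q := famN bN

/-- name of the function `m ↦ (unpair m).1` -/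
noncomputable def fsN : Name Q :=
  relO ℕ (fun m => ((m : ℕ) : Ordinal.{0})) (fun m => (((Nat.unpair m).1 : ℕ) : Ordinal.{0}))
    (fun _ => ⊤)

/-- an enumeration of the sets of natural numbers (`#(Set ℕ) = continuum`) -/
theorem exists_eR : Nonempty ((Cardinal.continuum.{0}).ord.ToType ≃ Set ℕ) := by
  apply Cardinal.eq.1
  rw [Cardinal.mk_ord_toType, Cardinal.mk_set, Cardinal.mk_nat, Cardinal.two_power_aleph0]

/-- an enumeration of the sets of natural numbers -/
noncomputable def eR : (Cardinal.continuum.{0}).ord.ToType ≃ Set ℕ := exists_eR.some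

/-- the ordinal of an index -/
noncomputable def oc (i : (Cardinal.continuum.{0}).ord.ToType) : Ordinal.{0} :=
  (Ordinal.ToType.toOrd i).1

theorem oc_lt (i : (Cardinal.continuum.{0}).ord.ToType) : oc i < Cardinal.continuum.ord :=
  (Ordinal.ToType.toOrd i).2

theorem oc_surj {α : Ordinal.{0}} (h : α < Cardinal.continuum.ord) : ∃ i, oc i = α :=
  ⟨Ordinal.ToType.mk ⟨α, h⟩, by simp [oc, Ordinal.ToType.toOrd]⟩

theorem oc_inj {i j : (Cardinal.continuum.{0}).ord.ToType} (h : oc i = oc j) : i = j :=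
  (OrderIso.injective _) (Subtype.ext h)

/-- name of the enumeration of the sets of natural numbers -/
noncomputable def eN : Name Q :=
  relN (Cardinal.continuum.{0}).ord.ToType (fun i => oName Q (oc i)) (fun i => rN (eR i))
    (fun _ => ⊤)

theorem RR_eN {i : (Cardinal.continuum.{0}).ord.ToType} {X : Name Q} {p : Q} :
    RR eN (oName Q (oc i)) X p ↔ feq X (rN (eR i)) p := by
  unfold RR eN
  rw [fmem_relN]
  constructor
  · intro h
    refine feq_reg fun q hq => ?_
    obtain ⟨r, hr, j, -, h1, h2⟩ := h q hq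
    have h3 : i = j := oc_inj (feq_oName_iff.1 h1)
    subst h3
    exact ⟨r, hr, h2⟩
  · intro h q hq
    exact ⟨q, le_rfl, i, le_top, feq_refl _ _, feq_mono hq h⟩

/-- name of the function coding the sets of natural numbers: `A` is coded at `δ < ω₁` -/
noncomputable def gN : Name Q :=
  relN {t : (W1 × Set ℕ) × Q // ∀ n, ∃ B, (cJ (t.1.1, n), {0}, B) ∈ t.2.1.H ∧
      (0 ∈ B ↔ n ∈ t.1.2)}
    (fun t => oName Q (o1 t.1.1.1)) (fun t => rN t.1.1.2) (fun t => t.1.2)

end Pool.Agent.H83.R
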