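import Pool.Agent.H83.R.ActB
import Pool.Agent.H83.R.CC
import Pool.Agent.H83.F.Base

/-!
# The forcing notion as a type, and its main combinatorial properties
-/

set_option autoImplicit false

open Cardinal

namespace Pool.Agent.H83.R

open Pool.Agent.H86

/-- The forcing notion. -/
abbrev Q : Type := {q : Cd // q.V}

instance : OrderTop Q where
  top := ⟨Cd.nil, Cd.V_nil⟩
  le_top q := Cd.le_nil q.1

/-- Decreasing sequences have lower bounds. -/
theorem Q_inf (f : ℕ → Q) (hf : ∀ n, f (n + 1) ≤ f n) : ∃ p : Q, ∀ n, p ≤ f n := by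
  obtain ⟨p, hp, h1, -⟩ := Cd.exists_inf (fun n => (f n).1) (fun n => (f n).2) hf
  exact ⟨⟨p, hp⟩, h1⟩

/-- Successive decisions: if at every step `n` a condition can be extended to satisfy `P n`, then
there is a condition satisfying all `P n`.

Proof. Build a decreasing sequence `r n` (in `{p // p ≤ q}`) by recursion such that `r (n + 1)`
satisfies `P n` for some `x`, and take a lower bound (`Q_inf`). -/
theorem Q_seq {X : ℕ → Type} (P : (n : ℕ) → X n → Q → Prop)
    (hmono : ∀ n x (p q : Q), q ≤ p → P n x p → P n x q) (q : Q)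
    (h : ∀ n (p : Q), p ≤ q → ∃ r ≤ p, ∃ x, P n x r) :
    ∃ r ≤ q, ∀ n, ∃ x, P n x r := by
  classical
  have h' : ∀ n (p : Q), ∃ r : Q, p ≤ q → (r ≤ p ∧ ∃ x, P n x r) := by
    intro n p
    by_cases hp : p ≤ q
    · obtain ⟨r, hr, hx⟩ := h n p hp
      exact ⟨r, fun _ => ⟨hr, hx⟩⟩
    · exact ⟨p, fun hpq => absurd hpq hp⟩
  choose g hg using h'
  let f : ℕ → Q := fun n => Nat.rec q (fun n p => g n p) n
  have hf0 : f 0 = q := rfl
  have hfs : ∀ n, f (n + 1) = g n (f n) := fun n => rfl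
  have hfq : ∀ n, f n ≤ q := by
    intro n
    induction n with
    | zero => rw [hf0]
    | succ n ih => rw [hfs]; exact (hg n (f n) ih).1.trans ih
  obtain ⟨p, hp⟩ := Q_inf f (fun n => by rw [hfs]; exact (hg n (f n) (hfq n)).1)
  refine ⟨p, hp 0, fun n => ?_⟩
  obtain ⟨x, hx⟩ := (hg n (f n) (hfq n)).2
  refine ⟨x, hmono n x _ _ ?_ hx⟩
  rw [← hfs]
  exact hp (n + 1)

/-- Maximal antichains.

Proof. By Zorn's lemma (`zorn_subset`) take `A ⊆ D` maximal with the property that any two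
different elements are incompatible (no common lower bound in `Q`). `#A ≤ continuum` by `cc`
applied to the image of `A` in `Cd`. If `r ∈ D` were incompatible with all elements of `A` then
`insert r A` would contradict maximality (if `r ∈ A` then it is compatible with itself). -/
theorem exists_ac (D : Set Q) : ∃ A ⊆ D, #A ≤ Cardinal.continuum ∧
    ∀ r ∈ D, ∃ e ∈ A, ∃ t : Q, t ≤ r ∧ t ≤ e := by
  obtain ⟨A, hA⟩ := zorn_subset {A : Set Q | A ⊆ D ∧ ∀ x ∈ A, ∀ y ∈ A, x ≠ y →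
      ¬ ∃ t : Q, t ≤ x ∧ t ≤ y} (by
    intro c hc hch
    refine ⟨⋃₀ c, ⟨Set.sUnion_subset fun B hB => (hc hB).1, ?_⟩,
      fun B hB => Set.subset_sUnion_of_mem hB⟩
    rintro x ⟨B, hB, hxB⟩ y ⟨B', hB', hyB'⟩ hxy
    rcases hch.total hB hB' with h | h
    · exact (hc hB').2 x (h hxB) y hyB' hxy
    · exact (hc hB).2 x hxB y (h hyB') hxy)
  refine ⟨A, hA.1.1, ?_, ?_⟩
  · have h1 : #((Subtype.val : Q → Cd) '' A) ≤ Cardinal.continuum := by
      apply cc
      · rintro _ ⟨x, -, rfl⟩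
        exact x.2
      · rintro _ ⟨x, hx, rfl⟩ _ ⟨y, hy, rfl⟩ hxy ⟨r, hr, h1, h2⟩
        exact hA.1.2 x hx y hy (fun h => hxy (congrArg _ h)) ⟨⟨r, hr⟩, h1, h2⟩
    rwa [Cardinal.mk_image_eq Subtype.val_injective] at h1
  · intro r hr
    by_contra hcon
    push Not at hcon
    have hrA : r ∉ A := fun h => hcon r h r le_rfl le_rfl
    have h2 : insert r A ∈ {A : Set Q | A ⊆ D ∧ ∀ x ∈ A, ∀ y ∈ A, x ≠ y →
        ¬ ∃ t : Q, t ≤ x ∧ t ≤ y} := by
      refine ⟨Set.insert_subset hr hA.1.1, ?_⟩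
      rintro x hx y hy hxy ⟨t, htx, hty⟩
      rcases Set.mem_insert_iff.1 hx with rfl | hx'
      · rcases Set.mem_insert_iff.1 hy with rfl | hy'
        · exact hxy rfl
        · exact hcon y hy' t htx hty
      · rcases Set.mem_insert_iff.1 hy with rfl | hy'
        · exact hcon x hx' t hty htx
        · exact hA.1.2 x hx' y hy' hxy ⟨t, htx, hty⟩
    exact hrA (hA.2 h2 (Set.subset_insert r A) (Set.mem_insert r A))

/-- Invariance of few truth values under the automorphisms at some coordinate.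

Proof. For `z : Z` let `D z = {r | (R z).holds r ∨ ∀ r' ≤ r, ¬ (R z).holds r'}` (every condition
has an extension in `D z`), and `A z ⊆ D z` given by `exists_ac`. The set
`s₀ ∪ ⋃ z, ⋃ e ∈ A z, e.1.hs` has size `≤ #Lam` (`Cd.mk_hs_le`, `#Z ≤ #Lam`, `mk_Lam`), so by
`exists_J` there is `i` outside of it. Let `r' = act r` and `(R z).holds r`. To show
`(R z).holds r'` use `(R z).reg`: given `t ≤ r'`, extend it to an element of `D z`, and then to
`t' ≤ e`, `e ∈ A z`. We have `act e = e` (`Cd.act_eq`). If `(R z).holds e` we are done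
(`(R z).mono`). Otherwise no extension of `e` satisfies `R z`; but `act t'` (a condition by
`Cd.V_act`) is `≤ act r' = r` and `≤ act e = e` (`Cd.act_le`, `Cd.act_act`), so it satisfies `R z`
by `(R z).mono`, a contradiction. -/
theorem exists_inv {Z : Type} (hZ : #Z ≤ #Lam) (R : Z → Om Q) (s₀ : Set J) (hs₀ : #s₀ ≤ #Lam) :
    ∃ i, i ∉ s₀ ∧ ∀ (s : Set (Set ℕ)) (D : Set ℕ), (∀ A ∈ s, (A \ D).Finite) →
      ∀ z (r r' : Q), r'.1 = Cd.act i s D r.1 → (R z).holds r → (R z).holds r' := by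
  classical
  let Dz : Z → Set Q := fun z => {r | (R z).holds r ∨ ∀ r' ≤ r, ¬ (R z).holds r'}
  have hDz : ∀ z (t : Q), ∃ t' ≤ t, t' ∈ Dz z := by
    intro z t
    by_cases h : ∃ r' ≤ t, (R z).holds r'
    · obtain ⟨r', hr', h1⟩ := h
      exact ⟨r', hr', Or.inl h1⟩
    · push Not at h
      exact ⟨t, le_rfl, Or.inr h⟩
  choose A hAD hAc hA using fun z => exists_ac (Dz z)
  have hcL : Cardinal.continuum ≤ #Lam := by
    rw [mk_Lam]
    exact Order.le_succ _
  have hinf : ℵ₀ ≤ #Lam := Cardinal.aleph0_le_continuum.trans hcL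
  have hs : #(s₀ ∪ ⋃ z, ⋃ e : A z, e.1.1.hs : Set J) ≤ #Lam := by
    refine (Cardinal.mk_union_le _ _).trans ?_
    refine (add_le_add hs₀ ?_).trans (Cardinal.add_eq_self hinf).le
    refine (Cardinal.mk_iUnion_le_sum_mk).trans ?_
    refine (Cardinal.sum_le_sum _ (fun _ => #Lam) ?_).trans ?_
    · intro z
      refine (Cardinal.mk_iUnion_le_sum_mk).trans ?_
      refine (Cardinal.sum_le_sum _ (fun _ => #Lam) ?_).trans ?_
      · intro e
        exact (Cd.mk_hs_le _).trans hcL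
      · rw [Cardinal.sum_const']
        exact (mul_le_mul' ((hAc z).trans hcL) le_rfl).trans (Cardinal.mul_eq_self hinf).le
    · rw [Cardinal.sum_const']
      exact (mul_le_mul' hZ le_rfl).trans (Cardinal.mul_eq_self hinf).le
  obtain ⟨i, hi⟩ := exists_J hs
  rw [Set.mem_union, not_or] at hi
  refine ⟨i, hi.1, fun s D hD z r r' hr' hr => ?_⟩
  have hie : ∀ z, ∀ e ∈ A z, i ∉ e.1.hs := by
    intro z e he h
    exact hi.2 (Set.mem_iUnion.2 ⟨z, Set.mem_iUnion.2 ⟨⟨e, he⟩, h⟩⟩)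
  refine (R z).reg fun t ht => ?_
  obtain ⟨t₁, ht₁, ht₁D⟩ := hDz z t
  obtain ⟨e, heA, t', ht'1, ht'e⟩ := hA z t₁ ht₁D
  refine ⟨t', ht'1.trans ht₁, ?_⟩
  rcases hAD z heA with he | he
  · exact (R z).mono ht'e he
  · exfalso
    have hact : Cd.act i s D e.1 = e.1 := Cd.act_eq i s D (hie z e heA)
    let t'' : Q := ⟨Cd.act i s D t'.1, Cd.V_act i s D hD t'.2⟩
    have h1 : t'' ≤ e := by
      have h2 : Cd.act i s D t'.1 ≤ Cd.act i s D e.1 := (Cd.act_le i s D _ _).2 ht'e
      rw [hact] at h2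
      exact h2
    have h3 : t'' ≤ r := by
      have h2 : Cd.act i s D t'.1 ≤ Cd.act i s D r'.1 :=
        (Cd.act_le i s D _ _).2 (ht'1.trans (ht₁.trans ht))
      rw [hr', Cd.act_act] at h2
      exact h2
    exact he t'' h1 ((R z).mono h3 hr)

end Pool.Agent.H83.R
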