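import Pool.Agent.H83.R.Q
import Pool.Agent.H83.R.DensA
import Pool.Agent.H83.R.DensB

/-!
# Domination
-/

set_option autoImplicit false

open Cardinal

namespace Pool.Agent.H83.R

open Pool.Agent.H86

/-- Every nonempty set of size at most continuum is the range of a function on `Set ℕ`. -/
theorem exists_range {X : Type} (s : Set X) (hne : s.Nonempty) (h : #s ≤ Cardinal.continuum) :
    ∃ f : Set ℕ → X, Set.range f = s := by
  have h1 : #s ≤ #(Set ℕ) := by rw [Cardinal.mk_set_nat]; exact h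
  obtain ⟨g⟩ := h1
  obtain ⟨x0, hx0⟩ := hne
  obtain ⟨f, hf⟩ : ∃ f : Set ℕ → s, Function.Surjective f := by
    haveI : Nonempty s := ⟨⟨x0, hx0⟩⟩
    exact ⟨Function.invFun g, Function.invFun_surjective g.injective⟩
  refine ⟨fun k => (f k).1, ?_⟩
  ext x
  constructor
  · rintro ⟨k, rfl⟩; exact (f k).2
  · intro hx
    obtain ⟨k, hk⟩ := hf ⟨x, hx⟩
    exact ⟨k, by show (f k).1 = x; rw [hk]⟩

/-- **Domination.** If `q` forces that `R` is a clopen set with finite columns, then some stronger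
condition forces that it is contained in the `β`-th dominating clopen set, for some `β`.

Proof. For `A` with `Ix A` let `D A = {r | r ≤ q ∧ ∃ B, (R A B).holds r}` and `E A ⊆ D A` given by
`exists_ac`; for `e ∈ E A` choose `B` with `(R A B).holds e`. Let
`𝒯 : Set (Set ℕ × Set ℕ × Cd)` be the set of all the triples `(A, B, e.1)`; it has size
`≤ continuum` and is not empty (`Ix ∅`: `Ix_FC`), so it is the range of some `S : Nm`
(`#(Set ℕ) = continuum`; every nonempty set of size `≤ continuum` is the range of a function on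
`Set ℕ`). Choose `β` such that `q` and all conditions in `𝒯` are below `β` (`Cd.exists_Below`,
`Lam_bdd`, `Cd.Below.mono`). Then `Good (fun r => V r ∧ Below β r) S (q.1.res β)`:
* `total`: given `Ix A` and `r` (a condition below `β`) `≤ q.res β ≤ q` (`Cd.Below.le_res`), by `htot`
  there is `r₁ ≤ r` in `D A`, which is compatible with some `e ∈ E A`: `t ≤ r₁, e`; take
  `r' = t.res β` (`Cd.V_res`, `Cd.Below_res`): `r' ≤ r` and `r' ≤ e` by `Cd.Below.le_res`;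
* `coh`: if `r ≤ (S k).2.2, (S k').2.2` then `r ≤ q` and `R` holds at `r` for both pairs; `hcoh`.
By `exists_N` (`q.1` has no entry at `β`) get `p ≤ q` with `(β, S) ∈ p.N`. Let `r ≤ p`,
`(β, A, B') ∈ r.T`, `(R A B).holds r`. By `St_iff` for `r` at `β` there is `k` with `(S k).1 = A`,
`r.res β ≤ (S k).2.2 = e` and `(S k).2.1 \ B'` finite. As `r ≤ e`, `(R A (S k).2.1).holds r`, so by
`hcoh` (`A = A'`) `B ⊆ A` and `(B ∩ A) \ (S k).2.1` is finite. Hence `B \ B'` is finite. -/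
theorem dominate (q : Q) (R : Set ℕ → Set ℕ → Om Q)
    (htot : ∀ A, Ix A → ∀ r ≤ q, ∃ r' ≤ r, ∃ B, (R A B).holds r')
    (hcoh : ∀ A B A' B', ∀ r ≤ q, (R A B).holds r → (R A' B').holds r →
      B ⊆ A ∧ FC B ∧ coh A B A' B') :
    ∃ p ≤ q, ∃ β, ∀ r ≤ p, ∀ A B B', (β, A, B') ∈ r.1.T → (R A B).holds r →
      (B \ B').Finite := by
  classical
  -- antichains
  have hac : ∀ A : Set ℕ, ∃ E : Set Q, E ⊆ {r | r ≤ q ∧ ∃ B, (R A B).holds r} ∧
      #E ≤ Cardinal.continuum ∧ ∀ r ∈ {r | r ≤ q ∧ ∃ B, (R A B).holds r}, ∃ e ∈ E, ∃ t : Q,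
        t ≤ r ∧ t ≤ e := fun A => exists_ac _
  choose E hE1 hE2 hE3 using hac
  have hval : ∀ A (e : E A), ∃ B, (R A B).holds e.1 := fun A e => (hE1 A e.2).2
  choose val hval using hval
  -- the set of triples
  let 𝒯 : Set (Set ℕ × Set ℕ × Cd) := {t | Ix t.1 ∧ ∃ e : E t.1, t.2.1 = val t.1 e ∧ t.2.2 = e.1.1}
  have h𝒯c : #𝒯 ≤ Cardinal.continuum := by
    have h1 : #𝒯 ≤ #(Σ A : Set ℕ, E A) := by
      refine Cardinal.mk_le_of_surjective (α := {t : Σ A : Set ℕ, E A // Ix t.1})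
        (f := fun t => (⟨(t.1.1, val t.1.1 t.1.2, t.1.2.1.1), t.2, t.1.2, rfl, rfl⟩ : 𝒯)) ?_ |>.trans
        (Cardinal.mk_subtype_le _)
      rintro ⟨t, h1, e, h2, h3⟩
      exact ⟨⟨⟨t.1, e⟩, h1⟩, Subtype.ext (Prod.ext rfl (Prod.ext h2.symm h3.symm))⟩
    refine h1.trans ?_
    rw [Cardinal.mk_sigma]
    refine (Cardinal.sum_le_sum _ (fun _ => Cardinal.continuum) hE2).trans ?_
    rw [Cardinal.sum_const', Cardinal.mk_set_nat]
    exact (Cardinal.continuum_mul_self).le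
  have h𝒯ne : 𝒯.Nonempty := by
    have hA : Ix ∅ := Ix_FC fun n => by simp
    obtain ⟨r', hr', B, hB⟩ := htot ∅ hA q le_rfl
    obtain ⟨e, he, -⟩ := hE3 ∅ r' ⟨hr', B, hB⟩
    exact ⟨(∅, val ∅ ⟨e, he⟩, e.1), hA, ⟨e, he⟩, rfl, rfl⟩
  obtain ⟨S, hS⟩ : ∃ S : Nm, Set.range S = 𝒯 := exists_range 𝒯 h𝒯ne h𝒯c
  have hSm : ∀ k, S k ∈ 𝒯 := fun k => hS ▸ Set.mem_range_self k
  -- the stage
  obtain ⟨β, hβq, hβS⟩ : ∃ β, Cd.Below β q.1 ∧ ∀ k, Cd.Below β (S k).2.2 := by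
    choose g hg using fun k => Cd.exists_Below (S k).2.2
    obtain ⟨γ, hγ⟩ := Cd.exists_Below q.1
    obtain ⟨β, hβ⟩ := Lam_bdd (ι := Option (Set ℕ)) (by
      rw [Cardinal.mk_option, Cardinal.mk_set_nat]
      exact (Cardinal.add_le_of_le Cardinal.aleph0_le_continuum le_rfl
        (Cardinal.one_lt_aleph0.le.trans Cardinal.aleph0_le_continuum)))
      (fun o => match o with | none => γ | some k => g k)
    exact ⟨β, hγ.mono (hβ none).le, fun k => (hg k).mono (hβ (some k)).le⟩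
  have hlq : ∀ k, ∃ e : Q, e ≤ q ∧ (S k).2.2 = e.1 ∧ (R (S k).1 (S k).2.1).holds e := by
    intro k
    obtain ⟨h1, e, h2, h3⟩ := hSm k
    refine ⟨e.1, (hE1 _ e.2).1, h3, ?_⟩
    rw [h2]
    exact hval _ e
  have hgood : Cd.Good (fun r => Cd.V r ∧ Cd.Below β r) S (q.1.res β) := by
    refine ⟨fun k => ?_, fun A hA r hr hrq => ?_, fun k k' r hr hrq h1 h2 => ?_⟩
    · obtain ⟨e, -, he, -⟩ := hlq k
      exact ⟨he ▸ e.2, hβS k⟩
    · have hrq' : (⟨r, hr.1⟩ : Q) ≤ q := hrq.trans (hβq.le_res le_rfl)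
      obtain ⟨r', hr', B, hB⟩ := htot A hA ⟨r, hr.1⟩ hrq'
      obtain ⟨e, he, t, ht1, ht2⟩ := hE3 A r' ⟨hr'.trans hrq', B, hB⟩
      have hmem : (A, val A ⟨e, he⟩, e.1) ∈ 𝒯 := ⟨hA, ⟨e, he⟩, rfl, rfl⟩
      obtain ⟨k, hk⟩ := hS.symm ▸ hmem
      refine ⟨t.1.res β, ⟨Cd.V_res t.2 β, Cd.Below_res β t.1⟩, ?_, k, ?_, ?_⟩
      · exact hr.2.le_res (ht1.trans hr')
      · rw [hk]
      · have h3 := hβS k
        rw [hk] at h3 ⊢
        exact h3.le_res ht2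
    · obtain ⟨e, he1, he2, he3⟩ := hlq k
      obtain ⟨e', he1', he2', he3'⟩ := hlq k'
      have h3 : (⟨r, hr.1⟩ : Q) ≤ e := by show r ≤ e.1; rw [← he2]; exact h1
      have h4 : (⟨r, hr.1⟩ : Q) ≤ e' := by show r ≤ e'.1; rw [← he2']; exact h2
      exact hcoh _ _ _ _ ⟨r, hr.1⟩ (h3.trans he1) ((R _ _).mono h3 he3) ((R _ _).mono h4 he3')
  obtain ⟨p, hp, hpq, hpN⟩ := Cd.exists_N q.2 β (fun A B h => lt_irrefl _ (hβq.1 _ h)) hgood
  refine ⟨⟨p, hp⟩, hpq, β, fun r hr A B B' hAB hR => ?_⟩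
  have hrN : (β, S) ∈ r.1.N := hr.2.2.2 hpN
  obtain ⟨k, hk1, hk2, hk3⟩ := ((Cd.St_iff β r.1).1 (r.2.2 β) S hrN).2 A B' hAB
  obtain ⟨e, he1, he2, he3⟩ := hlq k
  have hre : r ≤ e := by
    show r.1 ≤ e.1
    rw [← he2]
    exact (Cd.le_res β r.1).trans hk2
  have h5 := (R _ _).mono hre he3
  rw [hk1] at h5
  obtain ⟨h6, h7, h8⟩ := hcoh A B A _ r (hr.trans hpq) hR h5
  refine ((h8.1).union hk3).subset ?_
  intro x hx
  by_cases hx' : x ∈ (S k).2.1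
  · exact Or.inr ⟨hx', hx.2⟩
  · exact Or.inl ⟨⟨hx.1, h6 hx.1⟩, hx'⟩

end Pool.Agent.H83.R
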